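import Pool.Agent.RTS.C5_0
import Pool.Agent.RTS.C5_1
import Pool.Agent.RTS.C5_2
import Pool.Agent.RTS.C5_3
import Pool.Agent.RTS.C5_4
import Pool.Agent.RTS.C5_5
import Pool.Agent.RTS.C5_6
import Pool.Agent.RTS.C5_7
import Pool.Agent.RTS.C5_8
import Pool.Agent.RTS.C5_9
import Pool.Agent.RTS.C5_10
import Pool.Agent.RTS.C5_11

/-!
# RTS: the certified list of the 15 vertices
-/

set_option autoImplicit false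
set_option maxRecDepth 100000

namespace Pool.Agent.RTX

theorem cf5_0 : CfdT par5A par5B S5_0 := CfdT.nil

theorem gd5_0 : Good par5A S5_0 (rows0 par5A.d [2, 0, 4, 1, 3]) (gT5 [2, 0, 4, 1, 3]) [] :=
  (good_N (good_N (good_N (good_N (g5c sc5_0 x5_0_0) (good_N (g5c sc5_0 x5_0_1) (good_N (good_N (good_N (g5c sc5_0 x5_0_2) (g5c sc5_0 x5_0_3)) (good_N (g5c sc5_0 x5_0_4) (good_N (good_N (good_N (g5c sc5_0 x5_0_5) (g5c sc5_0 x5_0_6)) (g5c sc5_0 x5_0_7)) (g5c sc5_0 x5_0_8)))) (good_N (g5c sc5_0 x5_0_9) (good_N (g5c sc5_0 x5_0_10) (good_N (good_N (g5c sc5_0 x5_0_11) (g5c sc5_0 x5_0_12)) (g5c sc5_0 x5_0_13))))))) (good_N (good_N (g5c sc5_0 x5_0_14) (good_N (good_N (g5c sc5_0 x5_0_15) (good_N (good_N (good_N (g5c sc5_0 x5_0_16) (g5c sc5_0 x5_0_17)) (g5c sc5_0 x5_0_18)) (g5c sc5_0 x5_0_19))) (good_N (good_N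 (good_N (g5c sc5_0 x5_0_20) (g5c sc5_0 x5_0_21)) (good_N (g5c sc5_0 x5_0_22) (good_N (good_N (good_N (g5c sc5_0 x5_0_23) (good_N (g5c sc5_0 x5_0_24) (g5c sc5_0 x5_0_25))) (g5c sc5_0 x5_0_26)) (g5c sc5_0 x5_0_27)))) (good_N (g5c sc5_0 x5_0_28) (good_N (g5c sc5_0 x5_0_29) (good_N (good_N (g5c sc5_0 x5_0_30) (g5c sc5_0 x5_0_31)) (g5c sc5_0 x5_0_32))))))) (g5c sc5_0 x5_0_33))) (good_N (good_N (g5c sc5_0 x5_0_34) (good_N (good_N (good_N (g5c sc5_0 x5_0_35) (good_N (good_N (g5c sc5_0 x5_0_36) (g5c sc5_0 x5_0_37)) (g5c sc5_0 x5_0_38))) (g5c sc5_0 x5_0_39)) (g5c sc5_0 x5_0_40))) (good_N (good_N (good_N (g5c sc5_0 x5_0_41) (good_N (good_N (g5c sc5_0 x5_0_42) (good_N (g5c sc5_0 x5_0_43) (good_N (g5c sc5_0 x5_0_44) (good_N (good_N (g5c sc5_0 x5_0_45) (good_N (g5c sc5_0 x5_0_46) (g5c sc5_0 x5_0_47))) (g5c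 sc5_0 x5_0_48))))) (g5c sc5_0 x5_0_49))) (good_N (g5c sc5_0 x5_0_50) (good_N (good_N (good_N (g5c sc5_0 x5_0_51) (good_N (g5c sc5_0 x5_0_52) (g5c sc5_0 x5_0_53))) (g5c sc5_0 x5_0_54)) (g5c sc5_0 x5_0_55)))) (good_N (g5c sc5_0 x5_0_56) (good_N (good_N (g5c sc5_0 x5_0_57) (good_N (g5c sc5_0 x5_0_58) (g5c sc5_0 x5_0_59))) (good_N (good_N (good_N (g5c sc5_0 x5_0_60) (good_N (good_N (g5c sc5_0 x5_0_61) (good_N (g5c sc5_0 x5_0_62) (good_N (g5c sc5_0 x5_0_63) (g5c sc5_0 x5_0_64)))) (g5c sc5_0 x5_0_65))) (g5c sc5_0 x5_0_66)) (g5c sc5_0 x5_0_67))))))) (good_N (good_N (good_N (good_N (g5c sc5_0 x5_0_68) (good_N (g5c sc5_0 x5_0_69) (good_N (good_N (good_N (g5c sc5_0 x5_0_70) (g5c sc5_0 x5_0_71)) (good_N (g5c sc5_0 x5_0_72) (good_N (good_N (good_N (g5c sc5_0 x5_0_73) (g5c sc5_0 x5_0_74)) (g5c sc5_0 x5_0_75))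 (g5c sc5_0 x5_0_76)))) (good_N (g5c sc5_0 x5_0_77) (good_N (g5c sc5_0 x5_0_78) (good_N (good_N (g5c sc5_0 x5_0_79) (g5c sc5_0 x5_0_80)) (g5c sc5_0 x5_0_81))))))) (g5c sc5_0 x5_0_82)) (good_N (good_N (g5c sc5_0 x5_0_83) (good_N (good_N (good_N (g5c sc5_0 x5_0_84) (g5c sc5_0 x5_0_85)) (g5c sc5_0 x5_0_86)) (g5c sc5_0 x5_0_87))) (good_N (good_N (good_N (g5c sc5_0 x5_0_88) (good_N (good_N (g5c sc5_0 x5_0_89) (good_N (g5c sc5_0 x5_0_90) (good_N (g5c sc5_0 x5_0_91) (g5c sc5_0 x5_0_92)))) (g5c sc5_0 x5_0_93))) (good_N (g5c sc5_0 x5_0_94) (good_N (good_N (good_N (g5c sc5_0 x5_0_95) (good_N (g5c sc5_0 x5_0_96) (g5c sc5_0 x5_0_97))) (g5c sc5_0 x5_0_98)) (g5c sc5_0 x5_0_99)))) (good_N (g5c sc5_0 x5_0_100) (good_N (g5c sc5_0 x5_0_101) (good_N (good_N (good_N (g5c sc5_0 x5_0_102) (good_N (good_N (g5c sc5_0 x5_0_103)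 (good_N (g5c sc5_0 x5_0_104) (good_N (g5c sc5_0 x5_0_105) (g5c sc5_0 x5_0_106)))) (g5c sc5_0 x5_0_107))) (g5c sc5_0 x5_0_108)) (g5c sc5_0 x5_0_109))))))) (g5c sc5_0 x5_0_110)))

theorem cf5_1 : CfdT par5A par5B S5_1 := CfdT.cons _ _ cf5_0 gd5_0

theorem gd5_1 : Good par5A S5_1 (rows0 par5A.d [1, 3, 0, 4, 2]) (gT5 [1, 3, 0, 4, 2]) [] :=
  (good_N (good_N (g5c sc5_1 x5_1_0) (good_N (good_N (good_N (good_N (good_N (good_N (g5c sc5_1 x5_1_1) (good_N (g5c sc5_1 x5_1_2) (good_N (g5c sc5_1 x5_1_3) (g5c sc5_1 x5_1_4)))) (g5c sc5_1 x5_1_5)) (g5c sc5_1 x5_1_6)) (good_N (g5c sc5_1 x5_1_7) (good_N (good_N (g5c sc5_1 x5_1_8) (good_N (g5c sc5_1 x5_1_9) (g5c sc5_1 x5_1_10))) (g5c sc5_1 x5_1_11)))) (good_N (good_N (g5c sc5_1 x5_1_12) (good_N (g5c sc5_1 x5_1_13) (g5c sc5_1 x5_1_14))) (g5c sc5_1 x5_1_15))) (good_N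 (g5c sc5_1 x5_1_16) (good_N (good_N (good_N (good_N (g5c sc5_1 x5_1_17) (g5c sc5_1 x5_1_18)) (good_N (g5c sc5_1 x5_1_19) (g5c sc5_1 x5_1_20))) (g5c sc5_1 x5_1_21)) (g5c sc5_1 x5_1_22))))) (good_N (good_N (good_N (good_N (good_N (good_N (g5c sc5_1 x5_1_23) (good_N (g5c sc5_1 x5_1_24) (good_N (good_N (g5c sc5_1 x5_1_25) (good_N (g5c sc5_1 x5_1_26) (g5c sc5_1 x5_1_27))) (g5c sc5_1 x5_1_28)))) (good_N (good_N (g5c sc5_1 x5_1_29) (g5c sc5_1 x5_1_30)) (g5c sc5_1 x5_1_31))) (g5c sc5_1 x5_1_32)) (good_N (g5c sc5_1 x5_1_33) (good_N (good_N (g5c sc5_1 x5_1_34) (good_N (good_N (good_N (g5c sc5_1 x5_1_35) (g5c sc5_1 x5_1_36)) (g5c sc5_1 x5_1_37)) (g5c sc5_1 x5_1_38))) (g5c sc5_1 x5_1_39)))) (good_N (good_N (g5c sc5_1 x5_1_40) (good_N (g5c sc5_1 x5_1_41) (good_N (g5c sc5_1 x5_1_42) (g5c sc5_1 x5_1_43)))) (g5c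 sc5_1 x5_1_44))) (good_N (good_N (g5c sc5_1 x5_1_45) (good_N (good_N (good_N (good_N (good_N (good_N (g5c sc5_1 x5_1_46) (good_N (g5c sc5_1 x5_1_47) (g5c sc5_1 x5_1_48))) (g5c sc5_1 x5_1_49)) (g5c sc5_1 x5_1_50)) (good_N (g5c sc5_1 x5_1_51) (g5c sc5_1 x5_1_52))) (good_N (good_N (g5c sc5_1 x5_1_53) (good_N (g5c sc5_1 x5_1_54) (g5c sc5_1 x5_1_55))) (g5c sc5_1 x5_1_56))) (g5c sc5_1 x5_1_57))) (good_N (good_N (good_N (good_N (good_N (good_N (g5c sc5_1 x5_1_58) (good_N (g5c sc5_1 x5_1_59) (g5c sc5_1 x5_1_60))) (g5c sc5_1 x5_1_61)) (g5c sc5_1 x5_1_62)) (good_N (g5c sc5_1 x5_1_63) (g5c sc5_1 x5_1_64))) (g5c sc5_1 x5_1_65)) (g5c sc5_1 x5_1_66)))))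

theorem cf5_2 : CfdT par5A par5B S5_2 := CfdT.cons _ _ cf5_1 gd5_1

theorem gd5_2 : Good par5A S5_2 (rows0 par5A.d [2, 0, 4, 3, 1]) (gT5 [2, 0, 4, 3, 1]) [] :=
  (good_N (g5c sc5_2 x5_2_0) (good_N (good_N (g5c sc5_2 x5_2_1) (good_N (good_N (good_N (good_N (good_N (g5c sc5_2 x5_2_2) (g5c sc5_2 x5_2_3)) (g5c sc5_2 x5_2_4)) (g5c sc5_2 x5_2_5)) (good_N (g5c sc5_2 x5_2_6) (g5c sc5_2 x5_2_7))) (g5c sc5_2 x5_2_8))) (good_N (good_N (good_N (good_N (good_N (good_N (good_N (good_N (g5c sc5_2 x5_2_9) (good_N (g5c sc5_2 x5_2_10) (good_N (g5c sc5_2 x5_2_11) (good_N (good_N (g5c sc5_2 x5_2_12) (g5c sc5_2 x5_2_13)) (g5c sc5_2 x5_2_14))))) (g5c sc5_2 x5_2_15)) (g5c sc5_2 x5_2_16)) (good_N (g5c sc5_2 x5_2_17) (good_N (g5c sc5_2 x5_2_18) (good_N (good_N (g5c sc5_2 x5_2_19) (g5c sc5_2 x5_2_20)) (g5c sc5_2 x5_2_21)))))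 (good_N (g5c sc5_2 x5_2_22) (good_N (g5c sc5_2 x5_2_23) (g5c sc5_2 x5_2_24)))) (good_N (good_N (g5c sc5_2 x5_2_25) (g5c sc5_2 x5_2_26)) (g5c sc5_2 x5_2_27))) (good_N (good_N (g5c sc5_2 x5_2_28) (good_N (g5c sc5_2 x5_2_29) (g5c sc5_2 x5_2_30))) (g5c sc5_2 x5_2_31))) (good_N (g5c sc5_2 x5_2_32) (good_N (good_N (g5c sc5_2 x5_2_33) (good_N (good_N (good_N (good_N (good_N (g5c sc5_2 x5_2_34) (g5c sc5_2 x5_2_35)) (g5c sc5_2 x5_2_36)) (g5c sc5_2 x5_2_37)) (g5c sc5_2 x5_2_38)) (g5c sc5_2 x5_2_39))) (good_N (good_N (good_N (good_N (good_N (good_N (good_N (g5c sc5_2 x5_2_40) (g5c sc5_2 x5_2_41)) (g5c sc5_2 x5_2_42)) (g5c sc5_2 x5_2_43)) (g5c sc5_2 x5_2_44)) (good_N (good_N (g5c sc5_2 x5_2_45) (g5c sc5_2 x5_2_46)) (g5c sc5_2 x5_2_47))) (good_N (g5c sc5_2 x5_2_48) (g5c sc5_2 x5_2_49))) (g5c sc5_2 x5_2_50)))))))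

theorem cf5_3 : CfdT par5A par5B S5_3 := CfdT.cons _ _ cf5_2 gd5_2

theorem gd5_3 : Good par5A S5_3 (rows0 par5A.d [3, 0, 2, 4, 1]) (gT5 [3, 0, 2, 4, 1]) [] :=
  (good_N (good_N (g5c sc5_3 x5_3_0) (good_N (good_N (good_N (good_N (g5c sc5_3 x5_3_1) (g5c sc5_3 x5_3_2)) (good_N (good_N (g5c sc5_3 x5_3_3) (g5c sc5_3 x5_3_4)) (g5c sc5_3 x5_3_5))) (g5c sc5_3 x5_3_6)) (g5c sc5_3 x5_3_7))) (good_N (good_N (good_N (good_N (good_N (good_N (good_N (g5c sc5_3 x5_3_8) (g5c sc5_3 x5_3_9)) (g5c sc5_3 x5_3_10)) (g5c sc5_3 x5_3_11)) (good_N (g5c sc5_3 x5_3_12) (good_N (g5c sc5_3 x5_3_13) (g5c sc5_3 x5_3_14)))) (good_N (good_N (g5c sc5_3 x5_3_15) (g5c sc5_3 x5_3_16)) (g5c sc5_3 x5_3_17))) (good_N (g5c sc5_3 x5_3_18) (g5c sc5_3 x5_3_19))) (g5c sc5_3 x5_3_20)))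

theorem cf5_4 : CfdT par5A par5B S5_4 := CfdT.cons _ _ cf5_3 gd5_3

theorem gd5_4 : Good par5A S5_4 (rows0 par5A.d [1, 4, 0, 3, 2]) (gT5 [1, 4, 0, 3, 2]) [] :=
  (good_N (good_N (good_N (good_N (good_N (good_N (g5c sc5_4 x5_4_0) (good_N (good_N (g5c sc5_4 x5_4_1) (g5c sc5_4 x5_4_2)) (good_N (g5c sc5_4 x5_4_3) (good_N (g5c sc5_4 x5_4_4) (good_N (g5c sc5_4 x5_4_5) (good_N (g5c sc5_4 x5_4_6) (g5c sc5_4 x5_4_7))))))) (good_N (good_N (g5c sc5_4 x5_4_8) (good_N (g5c sc5_4 x5_4_9) (good_N (g5c sc5_4 x5_4_10) (g5c sc5_4 x5_4_11)))) (g5c sc5_4 x5_4_12))) (g5c sc5_4 x5_4_13)) (good_N (good_N (g5c sc5_4 x5_4_14) (g5c sc5_4 x5_4_15)) (good_N (g5c sc5_4 x5_4_16) (good_N (g5c sc5_4 x5_4_17) (good_N (good_N (good_N (g5c sc5_4 x5_4_18) (g5c sc5_4 x5_4_19)) (g5c sc5_4 x5_4_20)) (good_N (g5c sc5_4 x5_4_21) (good_N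 (g5c sc5_4 x5_4_22) (g5c sc5_4 x5_4_23)))))))) (good_N (good_N (g5c sc5_4 x5_4_24) (good_N (g5c sc5_4 x5_4_25) (good_N (g5c sc5_4 x5_4_26) (good_N (g5c sc5_4 x5_4_27) (g5c sc5_4 x5_4_28))))) (g5c sc5_4 x5_4_29))) (g5c sc5_4 x5_4_30))

theorem cf5_5 : CfdT par5A par5B S5_5 := CfdT.cons _ _ cf5_4 gd5_4

theorem gd5_5 : Good par5A S5_5 (rows0 par5A.d [1, 4, 2, 0, 3]) (gT5 [1, 4, 2, 0, 3]) [] :=
  (good_N (good_N (g5c sc5_5 x5_5_0) (good_N (g5c sc5_5 x5_5_1) (good_N (g5c sc5_5 x5_5_2) (good_N (g5c sc5_5 x5_5_3) (g5c sc5_5 x5_5_4))))) (good_N (good_N (g5c sc5_5 x5_5_5) (good_N (g5c sc5_5 x5_5_6) (good_N (g5c sc5_5 x5_5_7) (g5c sc5_5 x5_5_8)))) (g5c sc5_5 x5_5_9)))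

theorem cf5_6 : CfdT par5A par5B S5_6 := CfdT.cons _ _ cf5_5 gd5_5

theorem gd5_6 : Good par5A S5_6 (rows0 par5A.d [2, 1, 4, 0, 3]) (gT5 [2, 1, 4, 0, 3]) [] :=
  (good_N (good_N (good_N (g5c sc5_6 x5_6_0) (good_N (good_N (g5c sc5_6 x5_6_1) (g5c sc5_6 x5_6_2)) (g5c sc5_6 x5_6_3))) (good_N (g5c sc5_6 x5_6_4) (good_N (good_N (good_N (g5c sc5_6 x5_6_5) (g5c sc5_6 x5_6_6)) (g5c sc5_6 x5_6_7)) (good_N (g5c sc5_6 x5_6_8) (good_N (g5c sc5_6 x5_6_9) (g5c sc5_6 x5_6_10)))))) (good_N (good_N (g5c sc5_6 x5_6_11) (good_N (g5c sc5_6 x5_6_12) (good_N (good_N (good_N (g5c sc5_6 x5_6_13) (g5c sc5_6 x5_6_14)) (g5c sc5_6 x5_6_15)) (good_N (g5c sc5_6 x5_6_16) (good_N (g5c sc5_6 x5_6_17) (g5c sc5_6 x5_6_18)))))) (g5c sc5_6 x5_6_19)))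

theorem cf5_7 : CfdT par5A par5B S5_7 := CfdT.cons _ _ cf5_6 gd5_6

theorem gd5_7 : Good par5A S5_7 (rows0 par5A.d [3, 1, 0, 4, 2]) (gT5 [3, 1, 0, 4, 2]) [] :=
  (good_N (g5c sc5_7 x5_7_0) (g5c sc5_7 x5_7_1))

theorem cf5_8 : CfdT par5A par5B S5_8 := CfdT.cons _ _ cf5_7 gd5_7

theorem gd5_8 : Good par5A S5_8 (rows0 par5A.d [4, 3, 2, 1, 0]) (gT5 [4, 3, 2, 1, 0]) [] :=
  (g5c sc5_8 x5_8_0)

theorem cf5_9 : CfdT par5A par5B S5_9 := CfdT.cons _ _ cf5_8 gd5_8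

theorem gd5_9 : Good par5A S5_9 (rows0 par5A.d [4, 0, 3, 2, 1]) (gT5 [4, 0, 3, 2, 1]) [] :=
  (g5c sc5_9 x5_9_0)

theorem cf5_10 : CfdT par5A par5B S5_10 := CfdT.cons _ _ cf5_9 gd5_9

theorem gd5_10 : Good par5A S5_10 (rows0 par5A.d [1, 4, 3, 2, 0]) (gT5 [1, 4, 3, 2, 0]) [] :=
  (g5c sc5_10 x5_10_0)

theorem cf5_11 : CfdT par5A par5B S5_11 := CfdT.cons _ _ cf5_10 gd5_10

theorem gd5_11 : Good par5A S5_11 (rows0 par5A.d [4, 1, 0, 3, 2]) (gT5 [4, 1, 0, 3, 2]) [] :=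
  (g5c sc5_11 x5_11_0)

theorem cf5_12 : CfdT par5A par5B S5_12 := CfdT.cons _ _ cf5_11 gd5_11

theorem gd5_12 : Good par5A S5_12 (rows0 par5A.d [2, 1, 4, 3, 0]) (gT5 [2, 1, 4, 3, 0]) [] :=
  (g5c sc5_12 x5_12_0)

theorem cf5_13 : CfdT par5A par5B S5_13 := CfdT.cons _ _ cf5_12 gd5_12

theorem gd5_13 : Good par5A S5_13 (rows0 par5A.d [4, 2, 1, 0, 3]) (gT5 [4, 2, 1, 0, 3]) [] :=
  (g5c sc5_13 x5_13_0)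

theorem cf5_14 : CfdT par5A par5B S5_14 := CfdT.cons _ _ cf5_13 gd5_13

theorem gd5_14 : Good par5A S5_14 (rows0 par5A.d [3, 2, 1, 4, 0]) (gT5 [3, 2, 1, 4, 0]) [] :=
  (g5c sc5_14 x5_14_0)

theorem cf5_15 : CfdT par5A par5B S5_15 := CfdT.cons _ _ cf5_14 gd5_14

end Pool.Agent.RTX
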