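import Pool.Agent.RTS.Exact

/-!
# RTS: windows of the initial state, part 1
-/

set_option autoImplicit false
set_option maxRecDepth 100000

namespace Pool.Agent.RTX

theorem e5_22 : treeE 5 208 145 (rows0 5 [4, 3, 2, 1, 0])
    (.F ⟨⟨22,5,0,0,0,1,2⟩,[]⟩)
    [true, true, false, false, false, true, true, false, false, true, false, false, true, false, true, false, true, false, false, true, false, true, false, false] = true := by decide +kernel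

theorem e5_23 : treeE 5 208 145 (rows0 5 [4, 3, 2, 1, 0])
    (.N (.F ⟨⟨21,5,0,0,1,1,1⟩,[]⟩) (.F ⟨⟨12,3,3,0,4,2,2⟩,[]⟩))
    [true, false, false, true, true, false, false, true, false, false, true, false, true, false, true, false, false, true, false, true, false, false] = true := by decide +kernel

theorem e5_24 : treeE 5 208 145 (rows0 5 [4, 3, 2, 1, 0])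
    (.N (.N (.F ⟨⟨16,5,0,0,3,1,1⟩,[]⟩) (.F ⟨⟨12,1,3,0,6,2,2⟩,[]⟩)) (.F ⟨⟨12,3,3,0,6,2,2⟩,[]⟩))
    [true, false, true, true, false, false, true, false, false, true, false, true, false, true, false, false, true, false, true, false, false] = true := by decide +kernel

theorem e5_25 : treeE 5 208 145 (rows0 5 [4, 3, 2, 1, 0])
    (.F ⟨⟨3,5,8,1,11,10,15⟩,[]⟩)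
    [true, true, true, false, false, true, false, false, true, false, true, false, true, false, false, true, false, true, false, false] = true := by decide +kernel

theorem e5_26 : treeE 5 208 145 (rows0 5 [4, 3, 2, 1, 0])
    (.F ⟨⟨15,5,0,0,0,1,1⟩,[]⟩)
    [true, false, true, false, false, true, false, true, false, true, false, false, true, false, true, false, false] = true := by decide +kernel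

theorem e5_27 : treeE 5 208 145 (rows0 5 [4, 3, 2, 1, 0])
    (.N (.F ⟨⟨15,5,0,0,1,1,1⟩,[]⟩) (.N (.N (.N (.N (.F ⟨⟨8,5,0,1,3,1,1⟩,[]⟩) (.N (.F ⟨⟨8,0,2,2,0,3,4⟩,[]⟩) (.F ⟨⟨20,5,0,0,0,1,2⟩,[]⟩))) (.N (.F ⟨⟨19,5,0,0,1,1,1⟩,[]⟩) (.N (.F ⟨⟨12,5,1,0,2,2,2⟩,[]⟩) (.F ⟨⟨18,5,0,0,0,1,1⟩,[]⟩)))) (.N (.N (.F ⟨⟨14,5,1,0,2,2,3⟩,[]⟩) (.F ⟨⟨19,5,0,0,0,1,1⟩,[]⟩)) (.N (.F ⟨⟨19,5,0,0,1,1,1⟩,[]⟩) (.N (.N (.F ⟨⟨9,5,1,0,3,3,4⟩,[]⟩) (.N (.F ⟨⟨16,5,1,0,3,3,4⟩,[]⟩) (.F ⟨⟨18,5,0,0,0,2,3⟩,[]⟩))) (.F ⟨⟨9,5,1,0,0,5,7⟩,[]⟩))))) (.N (.N (.N (.F ⟨⟨14,5,1,0,1,2,3⟩,[]⟩) (.F ⟨⟨19,5,0,0,0,1,1⟩,[]⟩)) (.N (.F ⟨⟨19,5,0,0,1,1,1⟩,[]⟩) (.F ⟨⟨9,5,1,0,0,5,7⟩,[]⟩))) (.N (.N (.F ⟨⟨11,5,1,0,1,4,5⟩,[]⟩) (.F ⟨⟨19,5,0,0,0,1,1⟩,[]⟩))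 (.N (.F ⟨⟨15,5,1,0,1,2,3⟩,[]⟩) (.F ⟨⟨6,5,3,1,0,3,5⟩,[]⟩))))))
    [true, true, false, false, true, false, true, false, true, false, false, true, false, true, false, false] = true := by decide +kernel

theorem e5_28 : treeE 5 208 145 (rows0 5 [4, 3, 2, 1, 0])
    (.F ⟨⟨4,5,0,1,0,5,8⟩,[]⟩)
    [true, false, true, false, true, false, true, false, false, true, false, true, false, false] = true := by decide +kernel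

theorem e5_29 : treeE 5 208 145 (rows0 5 [4, 3, 2, 1, 0])
    (.N (.F ⟨⟨12,5,0,0,1,1,1⟩,[]⟩) (.F ⟨⟨9,5,0,0,0,2,3⟩,[]⟩))
    [true, true, false, true, false, true, false, false, true, false, true, false, false] = true := by decide +kernel

theorem e5_30 : treeE 5 208 145 (rows0 5 [4, 3, 2, 1, 0])
    (.F ⟨⟨1,5,0,1,0,2,3⟩,[]⟩)
    [true, true, false, true, false, false, true, false, true, false, false] = true := by decide +kernel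

theorem e5_31 : treeE 5 208 145 (rows0 5 [4, 3, 2, 1, 0])
    (.N (.N (.N (.N (.F ⟨⟨9,5,0,0,1,1,2⟩,[]⟩) (.N (.N (.F ⟨⟨8,5,0,0,1,3,4⟩,[]⟩) (.F ⟨⟨12,5,0,0,1,1,1⟩,[]⟩)) (.F ⟨⟨12,5,0,0,0,1,2⟩,[]⟩))) (.N (.F ⟨⟨11,5,0,0,1,1,1⟩,[]⟩) (.N (.N (.N (.N (.F ⟨⟨7,4,1,2,0,2,3⟩,[]⟩) (.F ⟨⟨6,5,1,1,0,3,5⟩,[]⟩)) (.N (.F ⟨⟨7,5,1,0,3,2,3⟩,[]⟩) (.F ⟨⟨2,5,5,2,0,9,13⟩,[]⟩))) (.N (.N (.F ⟨⟨7,5,1,0,4,2,3⟩,[]⟩) (.F ⟨⟨4,5,3,1,0,5,8⟩,[]⟩)) (.N (.F ⟨⟨15,5,0,0,1,1,1⟩,[]⟩) (.N (.N (.N (.F ⟨⟨0,0,6,9,0,10,15⟩,[]⟩) (.F ⟨⟨18,5,0,0,0,1,1⟩,[]⟩)) (.N (.F ⟨⟨12,5,1,0,3,3,4⟩,[]⟩) (.F ⟨⟨14,5,0,0,0,2,3⟩,[]⟩))) (.F ⟨⟨4,5,3,1,0,6,9⟩,[]⟩))))) (.N (.N (.N (.F ⟨⟨7,5,1,0,2,2,3⟩,[]⟩) (.F ⟨⟨4,5,3,1,0,5,8⟩,[]⟩)) (.N (.F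 ⟨⟨15,5,0,0,1,1,1⟩,[]⟩) (.F ⟨⟨4,5,3,1,0,6,9⟩,[]⟩))) (.N (.N (.F ⟨⟨11,5,1,0,1,2,3⟩,[]⟩) (.F ⟨⟨15,5,0,0,0,1,1⟩,[]⟩)) (.N (.F ⟨⟨12,5,1,0,1,2,3⟩,[]⟩) (.F ⟨⟨5,5,3,1,0,3,5⟩,[]⟩))))))) (.F ⟨⟨1,5,0,1,0,2,3⟩,[]⟩)) (.N (.F ⟨⟨9,5,0,0,1,1,1⟩,[]⟩) (.F ⟨⟨0,0,2,1,0,2,3⟩,[]⟩)))
    [true, true, false, false, true, false, true, false, false] = true := by decide +kernel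

theorem e5_32 : treeE 5 208 145 (rows0 5 [4, 3, 2, 1, 0])
    (.N (.N (.N (.N (.F ⟨⟨5,5,0,2,3,2,3⟩,[]⟩) (.N (.N (.F ⟨⟨6,3,0,4,0,2,3⟩,[]⟩) (.F ⟨⟨10,5,0,1,0,2,3⟩,[]⟩)) (.N (.F ⟨⟨14,5,0,0,1,1,1⟩,[]⟩) (.F ⟨⟨9,5,0,1,0,2,3⟩,[]⟩)))) (.N (.N (.N (.F ⟨⟨6,3,0,4,0,2,3⟩,[]⟩) (.F ⟨⟨10,5,0,1,0,2,3⟩,[]⟩)) (.N (.F ⟨⟨14,5,0,0,1,1,1⟩,[]⟩) (.F ⟨⟨9,5,0,1,0,2,3⟩,[]⟩))) (.N (.N (.F ⟨⟨8,5,0,1,2,2,3⟩,[]⟩) (.F ⟨⟨9,5,0,1,0,2,3⟩,[]⟩)) (.N (.F ⟨⟨14,5,0,0,1,1,1⟩,[]⟩) (.F ⟨⟨8,0,2,1,0,2,3⟩,[]⟩))))) (.F ⟨⟨10,5,0,0,0,1,1⟩,[]⟩)) (.N (.N (.F ⟨⟨11,5,0,0,1,1,2⟩,[]⟩) (.N (.F ⟨⟨9,5,0,0,1,1,1⟩,[]⟩) (.F ⟨⟨7,5,0,1,0,3,4⟩,[]⟩))) (.F ⟨⟨6,5,0,0,0,1,1⟩,[]⟩)))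
    [false, false, false, true, false, true, false, true, false, false] = true := by decide +kernel

theorem e5_33 : treeE 5 208 145 (rows0 5 [4, 3, 2, 1, 0])
    (.N (.N (.N (.N (.F ⟨⟨10,5,0,0,1,1,2⟩,[]⟩) (.F ⟨⟨7,5,0,1,0,3,4⟩,[]⟩)) (.N (.F ⟨⟨12,5,0,0,1,1,1⟩,[]⟩) (.N (.N (.N (.N (.F ⟨⟨7,5,0,2,4,2,3⟩,[]⟩) (.N (.F ⟨⟨5,1,0,5,0,3,4⟩,[]⟩) (.N (.F ⟨⟨5,1,0,5,0,3,4⟩,[]⟩) (.N (.F ⟨⟨5,1,0,5,0,3,4⟩,[]⟩) (.F ⟨⟨8,0,2,1,0,2,3⟩,[]⟩))))) (.F ⟨⟨6,5,0,2,0,7,11⟩,[]⟩)) (.N (.F ⟨⟨15,5,0,0,1,1,1⟩,[]⟩) (.F ⟨⟨6,5,0,2,0,8,12⟩,[]⟩))) (.F ⟨⟨7,5,0,1,0,3,4⟩,[]⟩)))) (.F ⟨⟨10,5,0,0,0,1,1⟩,[]⟩)) (.N (.N (.F ⟨⟨11,5,0,0,1,1,2⟩,[]⟩) (.N (.N (.N (.N (.N (.N (.F ⟨⟨7,5,0,2,4,2,3⟩,[]⟩) (.N (.F ⟨⟨18,5,0,0,1,1,1⟩,[]⟩)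 (.F ⟨⟨9,5,0,2,0,5,8⟩,[]⟩))) (.N (.N (.F ⟨⟨11,5,0,1,3,2,3⟩,[]⟩) (.F ⟨⟨13,5,0,1,0,2,3⟩,[]⟩)) (.N (.F ⟨⟨18,5,0,0,1,1,1⟩,[]⟩) (.F ⟨⟨13,5,0,1,0,2,3⟩,[]⟩)))) (.N (.N (.N (.F ⟨⟨5,3,0,5,0,3,4⟩,[]⟩) (.F ⟨⟨13,5,0,1,0,2,3⟩,[]⟩)) (.N (.F ⟨⟨18,5,0,0,1,1,1⟩,[]⟩) (.F ⟨⟨13,5,0,1,0,2,3⟩,[]⟩))) (.N (.N (.N (.F ⟨⟨17,5,0,0,1,1,1⟩,[]⟩) (.N (.F ⟨⟨20,5,0,0,1,1,1⟩,[]⟩) (.F ⟨⟨3,4,8,7,0,10,15⟩,[]⟩))) (.F ⟨⟨18,5,0,0,0,1,1⟩,[]⟩)) (.N (.F ⟨⟨18,5,0,0,1,1,1⟩,[]⟩) (.F ⟨⟨8,0,2,1,0,2,3⟩,[]⟩))))) (.F ⟨⟨14,5,0,0,0,1,1⟩,[]⟩)) (.N (.N (.F ⟨⟨15,5,0,0,1,1,2⟩,[]⟩) (.N (.F ⟨⟨13,5,0,0,1,1,1⟩,[]⟩) (.F ⟨⟨7,5,0,1,0,6,8⟩,[]⟩))) (.F ⟨⟨4,5,0,1,0,5,8⟩,[]⟩))) (.N (.N (.N (.N (.F ⟨⟨14,5,0,0,1,1,2⟩,[]⟩) (.F ⟨⟨7,5,0,1,0,6,8⟩,[]⟩))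 (.N (.F ⟨⟨16,5,0,0,1,1,1⟩,[]⟩) (.N (.N (.F ⟨⟨9,5,0,0,2,2,3⟩,[]⟩) (.N (.F ⟨⟨19,5,0,0,1,1,1⟩,[]⟩) (.F ⟨⟨6,5,0,2,0,13,19⟩,[]⟩))) (.F ⟨⟨7,5,0,1,0,5,7⟩,[]⟩)))) (.F ⟨⟨4,5,0,1,0,5,8⟩,[]⟩)) (.F ⟨⟨3,5,0,2,0,4,6⟩,[]⟩)))) (.F ⟨⟨1,5,0,1,0,2,3⟩,[]⟩)))
    [true, false, false, true, false, true, false, true, false, false] = true := by decide +kernel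

theorem e5_34 : treeE 5 208 145 (rows0 5 [4, 3, 2, 1, 0])
    (.N (.N (.N (.N (.N (.N (.F ⟨⟨9,5,0,0,1,1,2⟩,[]⟩) (.F ⟨⟨7,5,0,1,0,3,4⟩,[]⟩)) (.N (.F ⟨⟨13,5,0,0,1,1,1⟩,[]⟩) (.F ⟨⟨7,5,0,1,0,3,4⟩,[]⟩))) (.N (.N (.F ⟨⟨9,5,0,0,1,2,3⟩,[]⟩) (.F ⟨⟨7,5,0,1,0,3,4⟩,[]⟩)) (.N (.F ⟨⟨13,5,0,0,1,1,1⟩,[]⟩) (.F ⟨⟨2,4,5,5,0,6,10⟩,[]⟩)))) (.F ⟨⟨10,5,0,0,0,1,1⟩,[]⟩)) (.N (.N (.F ⟨⟨11,5,0,0,1,1,2⟩,[]⟩) (.N (.N (.N (.N (.N (.F ⟨⟨12,5,0,0,1,1,1⟩,[]⟩) (.F ⟨⟨7,5,0,1,0,6,8⟩,[]⟩)) (.N (.F ⟨⟨16,5,0,0,1,1,1⟩,[]⟩) (.F ⟨⟨7,5,0,1,0,5,7⟩,[]⟩))) (.N (.N (.F ⟨⟨12,5,0,0,1,3,3⟩,[]⟩) (.F ⟨⟨7,5,0,1,0,5,8⟩,[]⟩)) (.N (.F ⟨⟨16,5,0,0,1,1,1⟩,[]⟩) (.F ⟨⟨2,4,5,5,0,6,10⟩,[]⟩)))) (.F ⟨⟨4,5,0,1,0,5,8⟩,[]⟩)) (.F ⟨⟨3,5,0,2,0,4,6⟩,[]⟩)))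 (.F ⟨⟨1,5,0,1,0,2,3⟩,[]⟩))) (.N (.N (.N (.N (.F ⟨⟨10,5,0,0,1,1,2⟩,[]⟩) (.F ⟨⟨3,5,0,2,0,4,6⟩,[]⟩)) (.N (.F ⟨⟨12,5,0,0,1,1,1⟩,[]⟩) (.N (.N (.N (.N (.F ⟨⟨5,5,1,3,5,3,5⟩,[]⟩) (.F ⟨⟨16,5,0,0,0,1,1⟩,[]⟩)) (.N (.F ⟨⟨8,5,1,0,3,2,3⟩,[]⟩) (.F ⟨⟨4,5,3,1,0,5,8⟩,[]⟩))) (.N (.N (.F ⟨⟨8,5,1,0,4,2,3⟩,[]⟩) (.F ⟨⟨4,5,3,1,0,5,8⟩,[]⟩)) (.N (.F ⟨⟨16,5,0,0,1,1,1⟩,[]⟩) (.F ⟨⟨4,5,3,1,0,6,9⟩,[]⟩)))) (.N (.N (.N (.F ⟨⟨8,5,1,0,2,2,3⟩,[]⟩) (.F ⟨⟨4,5,3,1,0,5,8⟩,[]⟩)) (.N (.F ⟨⟨16,5,0,0,1,1,1⟩,[]⟩) (.F ⟨⟨4,5,3,1,0,6,9⟩,[]⟩))) (.F ⟨⟨3,0,4,2,0,4,6⟩,[]⟩))))) (.F ⟨⟨1,5,0,1,0,2,3⟩,[]⟩)) (.N (.F ⟨⟨10,5,0,0,1,1,1⟩,[]⟩) (.F ⟨⟨0,0,2,1,0,2,3⟩,[]⟩))))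
    [true, false, true, false, true, false, true, false, false] = true := by decide +kernel

theorem e5_35 : treeE 5 208 145 (rows0 5 [4, 3, 2, 1, 0])
    (.F ⟨⟨6,5,0,0,0,1,2⟩,[]⟩)
    [true, true, false, true, false, true, false, false] = true := by decide +kernel

theorem e5_36 : treeE 5 208 145 (rows0 5 [4, 3, 2, 1, 0])
    (.N (.N (.F ⟨⟨6,5,0,0,1,1,2⟩,[]⟩) (.N (.F ⟨⟨6,5,0,0,1,1,1⟩,[]⟩) (.F ⟨⟨3,5,0,0,4,2,3⟩,[]⟩))) (.F ⟨⟨2,5,0,0,0,2,3⟩,[]⟩))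
    [true, true, false, true, false, false] = true := by decide +kernel

theorem e5_37 : treeE 5 208 145 (rows0 5 [4, 3, 2, 1, 0])
    (.N (.N (.F ⟨⟨0,5,0,2,3,2,3⟩,[]⟩) (.F ⟨⟨5,5,0,1,0,2,3⟩,[]⟩)) (.N (.F ⟨⟨8,5,0,0,1,1,1⟩,[]⟩) (.F ⟨⟨4,5,0,1,0,2,3⟩,[]⟩)))
    [false, false, false, false, true, true, false, false] = true := by decide +kernel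

theorem e5_38 : treeE 5 208 145 (rows0 5 [4, 3, 2, 1, 0])
    (.F ⟨⟨7,5,0,0,1,1,1⟩,[]⟩)
    [false, false, false, true, false, false, false, true, true, false, false] = true := by decide +kernel

theorem e5_39 : treeE 5 208 145 (rows0 5 [4, 3, 2, 1, 0])
    (.F ⟨⟨10,5,0,0,1,1,1⟩,[]⟩)
    [false, true, false, false, true, false, false, false, true, true, false, false] = true := by decide +kernel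

theorem e5_40 : treeE 5 208 145 (rows0 5 [4, 3, 2, 1, 0])
    (.N (.N (.F ⟨⟨5,5,0,2,4,2,3⟩,[]⟩) (.N (.N (.N (.N (.F ⟨⟨8,5,0,1,2,4,6⟩,[]⟩) (.N (.N (.F ⟨⟨16,5,0,0,1,2,3⟩,[]⟩) (.N (.N (.N (.F ⟨⟨20,5,0,0,1,2,3⟩,[]⟩) (.F ⟨⟨19,5,0,0,3,1,1⟩,[]⟩)) (.F ⟨⟨21,5,0,0,1,1,1⟩,[]⟩)) (.F ⟨⟨21,5,0,0,0,1,2⟩,[]⟩))) (.F ⟨⟨3,5,0,3,9,6,9⟩,[]⟩))) (.F ⟨⟨12,5,0,1,0,2,3⟩,[]⟩)) (.N (.F ⟨⟨17,5,0,0,1,1,1⟩,[]⟩) (.F ⟨⟨10,5,0,1,0,2,4⟩,[]⟩))) (.N (.N (.N (.F ⟨⟨16,5,0,0,1,1,1⟩,[]⟩) (.F ⟨⟨10,5,0,1,4,2,2⟩,[]⟩)) (.F ⟨⟨17,5,0,0,0,1,1⟩,[]⟩)) (.N (.N (.F ⟨⟨18,5,0,0,1,1,2⟩,[]⟩) (.F ⟨⟨7,5,2,2,5,3,4⟩,[]⟩)) (.F ⟨⟨6,0,2,1,0,2,3⟩,[]⟩))))) (.F ⟨⟨4,5,0,1,0,5,7⟩,[]⟩))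
    [false, false, true, true, false, false, true, false, false, false, true, true, false, false] = true := by decide +kernel

theorem e5_41 : treeE 5 208 145 (rows0 5 [4, 3, 2, 1, 0])
    (.F ⟨⟨13,5,0,0,1,1,1⟩,[]⟩)
    [false, true, false, true, true, false, false, true, false, false, false, true, true, false, false] = true := by decide +kernel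

theorem e5_42 : treeE 5 208 145 (rows0 5 [4, 3, 2, 1, 0])
    (.F ⟨⟨1,5,0,9,0,10,15⟩,[]⟩)
    [false, false, false, true, true, false, true, true, false, false, true, false, false, false, true, true, false, false] = true := by decide +kernel

theorem e5_43 : treeE 5 208 145 (rows0 5 [4, 3, 2, 1, 0])
    (.N (.F ⟨⟨10,1,0,3,2,2,2⟩,[]⟩) (.N (.F ⟨⟨10,1,0,3,2,2,2⟩,[]⟩) (.F ⟨⟨14,5,0,0,0,1,1⟩,[]⟩)))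
    [false, true, false, false, true, true, false, true, true, false, false, true, false, false, false, true, true, false, false] = true := by decide +kernel

theorem e5_44 : treeE 5 208 145 (rows0 5 [4, 3, 2, 1, 0])
    (.N (.F ⟨⟨10,1,0,3,2,2,2⟩,[]⟩) (.F ⟨⟨19,5,0,0,0,1,1⟩,[]⟩))
    [false, true, true, false, false, true, true, false, true, true, false, false, true, false, false, false, true, true, false, false] = true := by decide +kernel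

theorem e5_45 : treeE 5 208 145 (rows0 5 [4, 3, 2, 1, 0])
    (.F ⟨⟨20,5,0,0,1,1,2⟩,[]⟩)
    [false, false, true, true, true, false, false, true, true, false, true, true, false, false, true, false, false, false, true, true, false, false] = true := by decide +kernel

theorem e5_46 : treeE 5 208 145 (rows0 5 [4, 3, 2, 1, 0])
    (.N (.N (.N (.F ⟨⟨14,5,1,2,4,2,3⟩,[]⟩) (.F ⟨⟨24,5,0,0,0,1,1⟩,[]⟩)) (.N (.F ⟨⟨24,5,0,0,1,1,1⟩,[]⟩) (.F ⟨⟨15,5,1,1,0,3,5⟩,[]⟩))) (.N (.N (.N (.F ⟨⟨23,5,0,0,1,1,1⟩,[]⟩) (.N (.F ⟨⟨26,5,0,0,1,1,1⟩,[]⟩) (.N (.N (.N (.N (.F ⟨⟨21,5,1,3,6,3,4⟩,[]⟩) (.N (.N (.N (.N (.F ⟨⟨24,5,0,1,2,4,6⟩,[]⟩) (.N (.N (.F ⟨⟨32,5,0,0,1,2,3⟩,[]⟩) (.F ⟨⟨30,5,0,1,0,3,4⟩,[]⟩))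 (.N (.F ⟨⟨36,5,0,0,1,1,1⟩,[]⟩) (.F ⟨⟨23,5,2,2,6,3,4⟩,[]⟩)))) (.F ⟨⟨33,5,0,0,0,1,1⟩,[]⟩)) (.N (.F ⟨⟨33,5,0,0,1,1,1⟩,[]⟩) (.F ⟨⟨26,5,0,1,0,2,4⟩,[]⟩))) (.N (.N (.N (.F ⟨⟨32,5,0,0,1,1,1⟩,[]⟩) (.F ⟨⟨26,5,0,1,4,2,2⟩,[]⟩)) (.F ⟨⟨33,5,0,0,0,1,1⟩,[]⟩)) (.N (.N (.F ⟨⟨34,5,0,0,1,1,2⟩,[]⟩) (.F ⟨⟨23,5,2,2,5,3,4⟩,[]⟩)) (.F ⟨⟨22,0,2,1,0,2,3⟩,[]⟩))))) (.F ⟨⟨15,5,2,1,0,9,14⟩,[]⟩)) (.N (.F ⟨⟨29,5,0,0,1,1,1⟩,[]⟩) (.N (.N (.N (.F ⟨⟨24,5,0,2,0,3,4⟩,[]⟩) (.N (.F ⟨⟨24,5,0,2,0,3,4⟩,[]⟩) (.N (.F ⟨⟨24,5,0,2,0,3,4⟩,[]⟩) (.N (.N (.F ⟨⟨36,5,0,0,1,1,2⟩,[]⟩) (.N (.N (.N (.N (.F ⟨⟨30,5,1,2,4,2,3⟩,[]⟩) (.F ⟨⟨40,5,0,0,0,1,1⟩,[]⟩)) (.N (.F ⟨⟨40,5,0,0,1,1,1⟩,[]⟩) (.F ⟨⟨31,5,1,1,0,3,5⟩,[]⟩))) (.N (.N (.N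 (.F ⟨⟨39,5,0,0,1,1,1⟩,[]⟩) (.N (.F ⟨⟨42,5,0,0,1,1,1⟩,[]⟩) (.F ⟨⟨30,3,2,1,4,4,5⟩,[]⟩))) (.F ⟨⟨40,5,0,0,0,1,1⟩,[]⟩)) (.N (.F ⟨⟨26,5,2,3,7,6,9⟩,[]⟩) (.F ⟨⟨27,5,3,1,0,5,8⟩,[]⟩)))) (.N (.N (.N (.N (.N (.F ⟨⟨38,5,0,0,1,1,1⟩,[]⟩) (.N (.F ⟨⟨43,5,0,0,1,1,1⟩,[]⟩) (.F ⟨⟨30,0,2,1,3,4,5⟩,[]⟩))) (.N (.N (.F ⟨⟨39,5,0,0,1,2,3⟩,[]⟩) (.F ⟨⟨30,3,2,1,3,4,5⟩,[]⟩)) (.F ⟨⟨30,3,2,1,3,4,5⟩,[]⟩))) (.F ⟨⟨40,5,0,0,0,1,1⟩,[]⟩)) (.N (.F ⟨⟨26,5,2,3,7,6,9⟩,[]⟩) (.F ⟨⟨27,5,3,1,0,5,8⟩,[]⟩))) (.N (.N (.F ⟨⟨26,5,2,3,5,6,9⟩,[]⟩) (.F ⟨⟨27,5,3,1,0,5,8⟩,[]⟩)) (.F ⟨⟨24,0,4,2,0,4,6⟩,[]⟩))))) (.F ⟨⟨22,0,2,1,0,2,3⟩,[]⟩))))) (.F ⟨⟨31,5,0,0,0,1,1⟩,[]⟩)) (.F ⟨⟨28,5,0,0,0,1,1⟩,[]⟩)))) (.N (.N (.F ⟨⟨21,5,1,0,2,4,6⟩,[]⟩)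 (.F ⟨⟨29,5,0,0,0,1,1⟩,[]⟩)) (.N (.F ⟨⟨21,5,1,0,2,5,7⟩,[]⟩) (.F ⟨⟨25,5,0,0,0,1,1⟩,[]⟩)))))) (.F ⟨⟨24,5,0,0,0,1,1⟩,[]⟩)) (.N (.F ⟨⟨10,5,2,3,7,6,9⟩,[]⟩) (.F ⟨⟨11,5,3,1,0,5,8⟩,[]⟩))))
    [false, true, false, true, true, true, false, false, true, true, false, true, true, false, false, true, false, false, false, true, true, false, false] = true := by decide +kernel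

theorem e5_47 : treeE 5 208 145 (rows0 5 [4, 3, 2, 1, 0])
    (.N (.N (.N (.N (.N (.F ⟨⟨22,5,0,0,1,1,1⟩,[]⟩) (.N (.F ⟨⟨27,5,0,0,1,1,1⟩,[]⟩) (.N (.N (.N (.F ⟨⟨21,5,1,0,2,4,6⟩,[]⟩) (.N (.N (.F ⟨⟨19,5,2,0,1,12,17⟩,[]⟩) (.F ⟨⟨24,5,0,0,4,2,3⟩,[]⟩)) (.F ⟨⟨24,5,0,0,1,2,3⟩,[]⟩))) (.F ⟨⟨29,5,0,0,0,1,1⟩,[]⟩)) (.N (.F ⟨⟨21,5,1,0,2,5,7⟩,[]⟩) (.F ⟨⟨27,5,0,0,0,1,2⟩,[]⟩))))) (.N (.N (.F ⟨⟨23,5,0,0,1,2,3⟩,[]⟩) (.N (.N (.F ⟨⟨21,5,1,0,2,5,7⟩,[]⟩) (.F ⟨⟨28,5,0,0,1,1,1⟩,[]⟩)) (.F ⟨⟨28,5,0,0,0,1,2⟩,[]⟩))) (.N (.F ⟨⟨27,5,0,0,1,1,1⟩,[]⟩) (.N (.N (.N (.N (.F ⟨⟨23,5,0,1,3,1,1⟩,[]⟩) (.F ⟨⟨21,0,2,0,2,2,1⟩,[]⟩)) (.F ⟨⟨21,0,2,0,2,2,1⟩,[]⟩)) (.F ⟨⟨21,0,2,0,2,2,1⟩,[]⟩)) (.F ⟨⟨21,4,2,0,2,2,1⟩,[]⟩)))))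 (.F ⟨⟨24,5,0,0,0,1,1⟩,[]⟩)) (.N (.F ⟨⟨10,5,2,3,7,6,9⟩,[]⟩) (.F ⟨⟨11,5,3,1,0,5,8⟩,[]⟩))) (.N (.N (.F ⟨⟨10,5,2,3,5,6,9⟩,[]⟩) (.F ⟨⟨11,5,3,1,0,5,8⟩,[]⟩)) (.F ⟨⟨8,0,4,2,0,4,6⟩,[]⟩)))
    [true, true, false, true, true, true, false, false, true, true, false, true, true, false, false, true, false, false, false, true, true, false, false] = true := by decide +kernel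

theorem e5_48 : treeE 5 208 145 (rows0 5 [4, 3, 2, 1, 0])
    (.F ⟨⟨6,0,2,1,0,2,3⟩,[]⟩)
    [true, true, true, true, false, false, true, true, false, true, true, false, false, true, false, false, false, true, true, false, false] = true := by decide +kernel

theorem e5_49 : treeE 5 208 145 (rows0 5 [4, 3, 2, 1, 0])
    (.F ⟨⟨15,5,0,0,0,1,1⟩,[]⟩)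
    [true, false, true, true, false, true, true, false, false, true, false, false, false, true, true, false, false] = true := by decide +kernel

theorem e5_50 : treeE 5 208 145 (rows0 5 [4, 3, 2, 1, 0])
    (.F ⟨⟨12,5,0,0,0,1,1⟩,[]⟩)
    [true, true, true, false, true, true, false, false, true, false, false, false, true, true, false, false] = true := by decide +kernel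

theorem e5_51 : treeE 5 208 145 (rows0 5 [4, 3, 2, 1, 0])
    (.N (.N (.F ⟨⟨3,5,0,1,2,7,10⟩,[]⟩) (.F ⟨⟨13,5,0,0,0,1,1⟩,[]⟩)) (.N (.N (.F ⟨⟨14,5,0,0,1,1,2⟩,[]⟩) (.N (.F ⟨⟨14,5,0,0,1,1,1⟩,[]⟩) (.F ⟨⟨10,5,0,0,3,1,1⟩,[]⟩))) (.F ⟨⟨9,5,0,0,0,1,1⟩,[]⟩)))
    [true, true, true, false, false, true, false, false, false, true, true, false, false] = true := by decide +kernel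

theorem e5_52 : treeE 5 208 145 (rows0 5 [4, 3, 2, 1, 0])
    (.F ⟨⟨4,5,0,1,0,2,3⟩,[]⟩)
    [true, false, true, false, false, false, true, true, false, false] = true := by decide +kernel

theorem e5_53 : treeE 5 208 145 (rows0 5 [4, 3, 2, 1, 0])
    (.N (.N (.F ⟨⟨9,5,0,0,1,1,2⟩,[]⟩) (.N (.N (.N (.N (.F ⟨⟨4,5,0,2,4,2,3⟩,[]⟩) (.N (.N (.N (.N (.F ⟨⟨9,5,0,1,3,2,3⟩,[]⟩) (.N (.N (.F ⟨⟨15,5,0,0,1,2,3⟩,[]⟩) (.F ⟨⟨13,5,0,1,0,3,4⟩,[]⟩)) (.N (.F ⟨⟨19,5,0,0,1,1,1⟩,[]⟩) (.F ⟨⟨7,5,2,2,5,3,4⟩,[]⟩)))) (.F ⟨⟨11,5,0,1,0,2,3⟩,[]⟩)) (.N (.F ⟨⟨16,5,0,0,1,1,1⟩,[]⟩) (.F ⟨⟨11,5,0,1,0,2,3⟩,[]⟩))) (.N (.N (.N (.F ⟨⟨15,5,0,0,1,1,1⟩,[]⟩) (.F ⟨⟨8,5,0,1,4,3,4⟩,[]⟩)) (.F ⟨⟨16,5,0,0,0,1,1⟩,[]⟩)) (.N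 (.N (.F ⟨⟨17,5,0,0,1,1,2⟩,[]⟩) (.F ⟨⟨4,4,3,3,0,4,6⟩,[]⟩)) (.F ⟨⟨6,0,2,1,0,2,3⟩,[]⟩))))) (.F ⟨⟨12,5,0,0,0,1,1⟩,[]⟩)) (.N (.N (.F ⟨⟨13,5,0,0,1,1,2⟩,[]⟩) (.N (.F ⟨⟨13,5,0,0,1,1,1⟩,[]⟩) (.N (.F ⟨⟨11,5,0,0,3,1,1⟩,[]⟩) (.F ⟨⟨12,5,0,0,0,2,3⟩,[]⟩)))) (.F ⟨⟨4,5,0,1,0,5,7⟩,[]⟩))) (.N (.N (.N (.N (.F ⟨⟨12,5,0,0,1,1,2⟩,[]⟩) (.N (.F ⟨⟨12,5,0,0,1,1,1⟩,[]⟩) (.F ⟨⟨15,5,0,0,0,1,2⟩,[]⟩))) (.N (.F ⟨⟨14,5,0,0,1,1,1⟩,[]⟩) (.N (.N (.F ⟨⟨8,5,0,0,2,2,3⟩,[]⟩) (.N (.F ⟨⟨17,5,0,0,1,1,1⟩,[]⟩) (.N (.F ⟨⟨8,5,0,0,11,2,3⟩,[]⟩) (.F ⟨⟨16,5,0,0,0,1,1⟩,[]⟩)))) (.F ⟨⟨5,5,0,1,0,5,7⟩,[]⟩)))) (.F ⟨⟨4,5,0,1,0,5,7⟩,[]⟩)) (.N (.F ⟨⟨12,5,0,0,1,1,1⟩,[]⟩) (.F ⟨⟨4,5,0,1,0,3,5⟩,[]⟩))))) (.F ⟨⟨1,5,0,1,0,2,3⟩,[]⟩))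
    [true, true, false, false, false, true, true, false, false] = true := by decide +kernel

theorem e5_54 : treeE 5 208 145 (rows0 5 [4, 3, 2, 1, 0])
    (.N (.N (.N (.F ⟨⟨6,5,0,0,1,1,1⟩,[]⟩) (.N (.F ⟨⟨11,5,0,0,1,1,1⟩,[]⟩) (.N (.N (.N (.F ⟨⟨3,5,0,1,2,7,10⟩,[]⟩) (.N (.N (.N (.F ⟨⟨15,5,0,0,1,1,1⟩,[]⟩) (.F ⟨⟨8,5,0,0,8,2,3⟩,[]⟩)) (.F ⟨⟨8,5,0,0,4,2,3⟩,[]⟩)) (.F ⟨⟨8,5,0,0,1,2,3⟩,[]⟩))) (.F ⟨⟨13,5,0,0,0,1,1⟩,[]⟩)) (.N (.N (.F ⟨⟨14,5,0,0,1,1,2⟩,[]⟩) (.F ⟨⟨11,5,0,0,3,1,1⟩,[]⟩)) (.F ⟨⟨11,5,0,0,0,1,2⟩,[]⟩))))) (.N (.N (.F ⟨⟨7,5,0,0,1,2,3⟩,[]⟩) (.N (.N (.N (.F ⟨⟨11,5,0,0,1,2,3⟩,[]⟩) (.F ⟨⟨10,5,0,0,3,1,1⟩,[]⟩)) (.F ⟨⟨12,5,0,0,1,1,1⟩,[]⟩)) (.F ⟨⟨12,5,0,0,0,1,2⟩,[]⟩))) (.N (.F ⟨⟨11,5,0,0,1,1,1⟩,[]⟩)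 (.N (.N (.N (.N (.F ⟨⟨7,5,0,1,3,1,1⟩,[]⟩) (.F ⟨⟨4,5,3,1,0,5,7⟩,[]⟩)) (.N (.F ⟨⟨15,5,0,0,1,1,1⟩,[]⟩) (.N (.N (.F ⟨⟨0,0,6,9,0,10,15⟩,[]⟩) (.F ⟨⟨17,5,0,0,0,1,1⟩,[]⟩)) (.F ⟨⟨14,5,0,0,0,1,1⟩,[]⟩)))) (.N (.N (.F ⟨⟨10,5,1,0,2,2,3⟩,[]⟩) (.F ⟨⟨15,5,0,0,0,1,1⟩,[]⟩)) (.N (.F ⟨⟨11,5,1,0,2,2,3⟩,[]⟩) (.N (.N (.N (.F ⟨⟨0,0,6,9,0,10,15⟩,[]⟩) (.F ⟨⟨18,5,0,0,0,1,1⟩,[]⟩)) (.N (.F ⟨⟨12,5,1,0,3,3,4⟩,[]⟩) (.F ⟨⟨14,5,0,0,0,2,3⟩,[]⟩))) (.F ⟨⟨10,5,1,0,0,2,3⟩,[]⟩))))) (.N (.N (.N (.F ⟨⟨10,5,1,0,1,2,3⟩,[]⟩) (.F ⟨⟨15,5,0,0,0,1,1⟩,[]⟩)) (.N (.F ⟨⟨11,5,1,0,2,2,3⟩,[]⟩) (.F ⟨⟨10,5,1,0,0,2,3⟩,[]⟩))) (.N (.N (.F ⟨⟨11,5,1,0,1,2,3⟩,[]⟩) (.F ⟨⟨15,5,0,0,0,1,1⟩,[]⟩)) (.N (.F ⟨⟨12,5,1,0,1,2,3⟩,[]⟩) (.F ⟨⟨9,5,1,0,0,1,1⟩,[]⟩))))))))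 (.F ⟨⟨4,5,0,1,0,2,3⟩,[]⟩))
    [false, false, true, false, false, true, true, false, false] = true := by decide +kernel

theorem e5_55 : treeE 5 208 145 (rows0 5 [4, 3, 2, 1, 0])
    (.F ⟨⟨9,5,0,0,1,1,2⟩,[]⟩)
    [false, false, true, false, true, false, false, true, true, false, false] = true := by decide +kernel

theorem e5_56 : treeE 5 208 145 (rows0 5 [4, 3, 2, 1, 0])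
    (.N (.N (.F ⟨⟨10,5,0,0,1,1,1⟩,[]⟩) (.N (.N (.F ⟨⟨11,5,0,0,1,1,1⟩,[]⟩) (.F ⟨⟨15,5,0,0,1,1,1⟩,[]⟩)) (.F ⟨⟨15,5,0,0,0,1,2⟩,[]⟩))) (.N (.F ⟨⟨14,5,0,0,1,1,1⟩,[]⟩) (.F ⟨⟨5,5,0,1,0,5,7⟩,[]⟩)))
    [false, false, false, true, false, true, false, true, false, false, true, true, false, false] = true := by decide +kernel

theorem e5_57 : treeE 5 208 145 (rows0 5 [4, 3, 2, 1, 0])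
    (.F ⟨⟨13,5,0,0,1,1,1⟩,[]⟩)
    [false, false, false, true, false, false, true, false, true, false, true, false, false, true, true, false, false] = true := by decide +kernel

theorem e5_58 : treeE 5 208 145 (rows0 5 [4, 3, 2, 1, 0])
    (.F ⟨⟨16,5,0,0,1,1,1⟩,[]⟩)
    [false, true, false, false, true, false, false, true, false, true, false, true, false, false, true, true, false, false] = true := by decide +kernel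

theorem e5_59 : treeE 5 208 145 (rows0 5 [4, 3, 2, 1, 0])
    (.F ⟨⟨12,5,0,1,4,1,1⟩,[]⟩)
    [false, false, false, false, true, true, false, false, true, false, false, true, false, true, false, true, false, false, true, true, false, false] = true := by decide +kernel

theorem e5_60 : treeE 5 208 145 (rows0 5 [4, 3, 2, 1, 0])
    (.N (.N (.F ⟨⟨13,5,1,3,5,3,4⟩,[]⟩) (.N (.F ⟨⟨12,5,1,3,7,5,8⟩,[]⟩) (.F ⟨⟨11,5,3,2,0,6,9⟩,[]⟩))) (.N (.N (.F ⟨⟨12,5,1,3,8,5,8⟩,[]⟩) (.F ⟨⟨11,5,3,2,0,6,9⟩,[]⟩)) (.N (.F ⟨⟨25,5,0,0,1,1,1⟩,[]⟩) (.N (.N (.N (.N (.F ⟨⟨22,0,0,2,1,2,1⟩,[]⟩) (.N (.F ⟨⟨22,0,0,2,1,2,1⟩,[]⟩) (.N (.F ⟨⟨22,0,0,2,1,2,1⟩,[]⟩) (.N (.F ⟨⟨22,0,0,2,1,2,1⟩,[]⟩) (.F ⟨⟨24,5,1,0,0,1,1⟩,[]⟩)))))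 (.F ⟨⟨28,5,0,0,0,1,1⟩,[]⟩)) (.N (.N (.F ⟨⟨29,5,0,0,1,1,2⟩,[]⟩) (.N (.F ⟨⟨29,5,0,0,1,1,1⟩,[]⟩) (.F ⟨⟨22,5,0,1,0,5,7⟩,[]⟩))) (.F ⟨⟨24,5,0,0,0,2,3⟩,[]⟩))) (.N (.N (.N (.N (.F ⟨⟨28,5,0,0,1,1,2⟩,[]⟩) (.F ⟨⟨22,5,0,1,0,5,7⟩,[]⟩)) (.N (.F ⟨⟨30,5,0,0,1,1,1⟩,[]⟩) (.N (.N (.F ⟨⟨25,5,0,0,1,2,3⟩,[]⟩) (.N (.F ⟨⟨33,5,0,0,1,1,1⟩,[]⟩) (.F ⟨⟨21,5,0,2,0,11,16⟩,[]⟩))) (.F ⟨⟨22,5,0,1,0,4,6⟩,[]⟩)))) (.F ⟨⟨28,5,0,0,0,1,1⟩,[]⟩)) (.F ⟨⟨23,5,0,0,0,1,1⟩,[]⟩))))))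
    [false, false, true, false, false, false, true, true, false, false, true, false, false, true, false, true, false, true, false, false, true, true, false, false] = true := by decide +kernel

end Pool.Agent.RTX
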