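import Pool.Agent.RTS.Exact

/-!
# RTS: windows of the initial state, part 10
-/

set_option autoImplicit false
set_option maxRecDepth 100000

namespace Pool.Agent.RTX

theorem e5_293 : treeE 5 208 145 (rows0 5 [4, 3, 2, 1, 0])
    (.N (.N (.F ⟨⟨6,5,0,0,2,1,1⟩,[]⟩) (.N (.N (.F ⟨⟨7,5,1,0,2,3,4⟩,[]⟩) (.F ⟨⟨9,5,0,0,2,1,1⟩,[]⟩)) (.F ⟨⟨11,5,0,0,0,1,2⟩,[]⟩))) (.N (.F ⟨⟨10,5,0,0,1,1,1⟩,[]⟩) (.N (.N (.N (.N (.F ⟨⟨8,4,1,2,0,2,3⟩,[]⟩) (.F ⟨⟨14,5,0,0,0,1,1⟩,[]⟩)) (.N (.F ⟨⟨9,5,1,0,2,2,3⟩,[]⟩) (.F ⟨⟨8,5,1,0,0,2,3⟩,[]⟩))) (.N (.N (.F ⟨⟨9,5,1,0,2,2,3⟩,[]⟩) (.F ⟨⟨14,5,0,0,0,1,1⟩,[]⟩)) (.N (.F ⟨⟨10,5,1,0,2,2,3⟩,[]⟩) (.F ⟨⟨6,1,4,0,4,2,3⟩,[]⟩)))) (.N (.N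 (.N (.F ⟨⟨9,5,1,0,1,2,3⟩,[]⟩) (.F ⟨⟨14,5,0,0,0,1,1⟩,[]⟩)) (.N (.F ⟨⟨10,5,1,0,2,2,3⟩,[]⟩) (.F ⟨⟨6,1,4,0,4,2,3⟩,[]⟩))) (.F ⟨⟨5,5,2,0,0,2,3⟩,[]⟩)))))
    [true, true, true, false, true, false, true, false, true, true] = true := by decide +kernel

theorem e5_294 : treeE 5 208 145 (rows0 5 [4, 3, 2, 1, 0])
    (.N (.N (.F ⟨⟨0,4,1,2,0,2,3⟩,[]⟩) (.F ⟨⟨9,5,0,0,0,1,1⟩,[]⟩)) (.N (.F ⟨⟨1,5,1,0,4,2,3⟩,[]⟩) (.N (.N (.N (.N (.N (.N (.F ⟨⟨5,5,1,3,4,3,5⟩,[]⟩) (.F ⟨⟨12,5,0,1,0,2,3⟩,[]⟩)) (.N (.F ⟨⟨15,5,0,0,1,1,1⟩,[]⟩) (.F ⟨⟨11,5,0,1,0,2,3⟩,[]⟩))) (.N (.N (.F ⟨⟨4,5,1,3,5,6,9⟩,[]⟩) (.F ⟨⟨15,5,0,0,0,1,1⟩,[]⟩)) (.N (.F ⟨⟨4,5,1,3,5,5,8⟩,[]⟩) (.F ⟨⟨7,5,0,1,0,2,3⟩,[]⟩))))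 (.N (.N (.N (.N (.F ⟨⟨4,5,1,3,5,6,9⟩,[]⟩) (.N (.N (.F ⟨⟨14,5,0,0,1,2,3⟩,[]⟩) (.F ⟨⟨12,5,0,1,0,3,4⟩,[]⟩)) (.N (.F ⟨⟨18,5,0,0,1,1,1⟩,[]⟩) (.F ⟨⟨0,4,9,6,0,10,15⟩,[]⟩)))) (.F ⟨⟨15,5,0,0,0,1,1⟩,[]⟩)) (.N (.F ⟨⟨4,5,1,3,5,5,8⟩,[]⟩) (.F ⟨⟨7,5,0,1,0,2,3⟩,[]⟩))) (.N (.N (.F ⟨⟨2,5,2,5,6,9,13⟩,[]⟩) (.F ⟨⟨7,5,0,1,0,2,3⟩,[]⟩)) (.N (.F ⟨⟨6,5,1,1,2,3,5⟩,[]⟩) (.F ⟨⟨7,0,2,1,0,2,3⟩,[]⟩))))) (.F ⟨⟨11,5,0,0,0,1,1⟩,[]⟩)) (.N (.N (.F ⟨⟨12,5,0,0,1,1,2⟩,[]⟩) (.N (.F ⟨⟨12,5,0,0,1,1,1⟩,[]⟩) (.F ⟨⟨8,5,0,0,0,3,4⟩,[]⟩))) (.F ⟨⟨9,5,0,0,0,1,2⟩,[]⟩)))))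
    [false, false, true, true, false, true, false, true, true] = true := by decide +kernel

theorem e5_295 : treeE 5 208 145 (rows0 5 [4, 3, 2, 1, 0])
    (.F ⟨⟨1,5,1,0,5,2,3⟩,[]⟩)
    [false, false, true, false, true, true, false, true, false, true, true] = true := by decide +kernel

theorem e5_296 : treeE 5 208 145 (rows0 5 [4, 3, 2, 1, 0])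
    (.N (.F ⟨⟨9,5,0,0,1,2,3⟩,[]⟩) (.F ⟨⟨12,5,0,0,0,1,1⟩,[]⟩))
    [false, false, true, false, true, false, true, true, false, true, false, true, true] = true := by decide +kernel

theorem e5_297 : treeE 5 208 145 (rows0 5 [4, 3, 2, 1, 0])
    (.F ⟨⟨4,5,1,0,2,5,8⟩,[]⟩)
    [false, true, false, true, false, true, false, true, true, false, true, false, true, true] = true := by decide +kernel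

theorem e5_298 : treeE 5 208 145 (rows0 5 [4, 3, 2, 1, 0])
    (.N (.N (.N (.N (.N (.F ⟨⟨6,5,1,3,4,3,5⟩,[]⟩) (.F ⟨⟨15,5,0,1,0,2,3⟩,[]⟩)) (.N (.F ⟨⟨19,5,0,0,1,1,1⟩,[]⟩) (.F ⟨⟨11,5,0,1,0,4,5⟩,[]⟩))) (.N (.N (.F ⟨⟨9,5,0,1,2,5,7⟩,[]⟩) (.F ⟨⟨19,5,0,0,0,1,1⟩,[]⟩)) (.N (.F ⟨⟨19,5,0,0,1,1,1⟩,[]⟩) (.F ⟨⟨14,5,0,1,0,2,3⟩,[]⟩)))) (.N (.N (.N (.N (.F ⟨⟨9,5,0,1,2,5,7⟩,[]⟩) (.N (.N (.F ⟨⟨18,5,0,0,1,2,3⟩,[]⟩) (.F ⟨⟨16,5,0,1,0,3,4⟩,[]⟩)) (.F ⟨⟨9,5,0,1,5,3,4⟩,[]⟩))) (.F ⟨⟨19,5,0,0,0,1,1⟩,[]⟩)) (.N (.F ⟨⟨19,5,0,0,1,1,1⟩,[]⟩) (.F ⟨⟨14,5,0,1,0,2,3⟩,[]⟩))) (.N (.N (.N (.F ⟨⟨18,5,0,0,1,1,1⟩,[]⟩) (.F ⟨⟨12,5,0,1,4,2,2⟩,[]⟩)) (.F ⟨⟨19,5,0,0,0,1,1⟩,[]⟩)) (.N (.N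 (.F ⟨⟨20,5,0,0,1,1,2⟩,[]⟩) (.F ⟨⟨8,4,2,2,0,3,4⟩,[]⟩)) (.F ⟨⟨8,5,1,0,0,1,1⟩,[]⟩))))) (.F ⟨⟨15,5,0,0,0,1,1⟩,[]⟩))
    [false, false, true, true, false, true, false, true, false, true, true, false, true, false, true, true] = true := by decide +kernel

theorem e5_299 : treeE 5 208 145 (rows0 5 [4, 3, 2, 1, 0])
    (.F ⟨⟨15,5,0,0,1,1,1⟩,[]⟩)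
    [false, true, false, true, true, false, true, false, true, false, true, true, false, true, false, true, true] = true := by decide +kernel

theorem e5_300 : treeE 5 208 145 (rows0 5 [4, 3, 2, 1, 0])
    (.F ⟨⟨3,5,1,8,0,10,15⟩,[]⟩)
    [false, false, false, true, true, false, true, true, false, true, false, true, false, true, true, false, true, false, true, true] = true := by decide +kernel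

theorem e5_301 : treeE 5 208 145 (rows0 5 [4, 3, 2, 1, 0])
    (.N (.F ⟨⟨12,1,0,3,2,2,2⟩,[]⟩) (.N (.F ⟨⟨12,1,0,3,2,2,2⟩,[]⟩) (.F ⟨⟨16,5,0,0,0,1,1⟩,[]⟩)))
    [false, true, false, false, true, true, false, true, true, false, true, false, true, false, true, true, false, true, false, true, true] = true := by decide +kernel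

theorem e5_302 : treeE 5 208 145 (rows0 5 [4, 3, 2, 1, 0])
    (.N (.F ⟨⟨12,1,0,3,2,2,2⟩,[]⟩) (.F ⟨⟨21,5,0,0,0,1,1⟩,[]⟩))
    [false, true, true, false, false, true, true, false, true, true, false, true, false, true, false, true, true, false, true, false, true, true] = true := by decide +kernel

theorem e5_303 : treeE 5 208 145 (rows0 5 [4, 3, 2, 1, 0])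
    (.F ⟨⟨22,5,0,0,1,1,2⟩,[]⟩)
    [false, false, true, true, true, false, false, true, true, false, true, true, false, true, false, true, false, true, true, false, true, false, true, true] = true := by decide +kernel

theorem e5_304 : treeE 5 208 145 (rows0 5 [4, 3, 2, 1, 0])
    (.N (.N (.N (.F ⟨⟨16,5,1,2,4,2,3⟩,[]⟩) (.F ⟨⟨26,5,0,0,0,1,1⟩,[]⟩)) (.N (.F ⟨⟨26,5,0,0,1,1,1⟩,[]⟩) (.F ⟨⟨17,5,1,1,0,3,5⟩,[]⟩))) (.N (.N (.N (.F ⟨⟨25,5,0,0,1,1,1⟩,[]⟩) (.N (.F ⟨⟨28,5,0,0,1,1,1⟩,[]⟩) (.N (.N (.N (.N (.F ⟨⟨23,5,1,3,6,3,4⟩,[]⟩) (.N (.N (.N (.N (.F ⟨⟨26,5,0,1,2,4,6⟩,[]⟩) (.N (.N (.F ⟨⟨34,5,0,0,1,2,3⟩,[]⟩) (.F ⟨⟨32,5,0,1,0,3,4⟩,[]⟩)) (.N (.F ⟨⟨38,5,0,0,1,1,1⟩,[]⟩)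 (.F ⟨⟨25,5,2,2,6,3,4⟩,[]⟩)))) (.F ⟨⟨35,5,0,0,0,1,1⟩,[]⟩)) (.N (.F ⟨⟨35,5,0,0,1,1,1⟩,[]⟩) (.F ⟨⟨28,5,0,1,0,2,4⟩,[]⟩))) (.N (.N (.N (.F ⟨⟨34,5,0,0,1,1,1⟩,[]⟩) (.F ⟨⟨28,5,0,1,4,2,2⟩,[]⟩)) (.F ⟨⟨35,5,0,0,0,1,1⟩,[]⟩)) (.N (.N (.F ⟨⟨36,5,0,0,1,1,2⟩,[]⟩) (.F ⟨⟨25,5,2,2,5,3,4⟩,[]⟩)) (.F ⟨⟨25,5,1,0,0,1,1⟩,[]⟩))))) (.F ⟨⟨17,5,2,1,0,9,14⟩,[]⟩)) (.N (.F ⟨⟨31,5,0,0,1,1,1⟩,[]⟩) (.N (.N (.N (.F ⟨⟨26,5,0,2,0,3,4⟩,[]⟩) (.N (.F ⟨⟨26,5,0,2,0,3,4⟩,[]⟩) (.N (.F ⟨⟨26,5,0,2,0,3,4⟩,[]⟩) (.N (.N (.F ⟨⟨38,5,0,0,1,1,2⟩,[]⟩) (.N (.N (.N (.N (.F ⟨⟨32,5,1,2,4,2,3⟩,[]⟩) (.F ⟨⟨42,5,0,0,0,1,1⟩,[]⟩)) (.N (.F ⟨⟨42,5,0,0,1,1,1⟩,[]⟩) (.F ⟨⟨33,5,1,1,0,3,5⟩,[]⟩))) (.N (.N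 (.N (.F ⟨⟨41,5,0,0,1,1,1⟩,[]⟩) (.N (.F ⟨⟨44,5,0,0,1,1,1⟩,[]⟩) (.F ⟨⟨32,3,2,1,4,4,5⟩,[]⟩))) (.F ⟨⟨42,5,0,0,0,1,1⟩,[]⟩)) (.N (.F ⟨⟨28,5,2,3,7,6,9⟩,[]⟩) (.F ⟨⟨29,5,3,1,0,5,8⟩,[]⟩)))) (.N (.N (.N (.N (.N (.F ⟨⟨40,5,0,0,1,1,1⟩,[]⟩) (.N (.F ⟨⟨45,5,0,0,1,1,1⟩,[]⟩) (.F ⟨⟨32,0,2,1,3,4,5⟩,[]⟩))) (.N (.N (.F ⟨⟨41,5,0,0,1,2,3⟩,[]⟩) (.F ⟨⟨32,3,2,1,3,4,5⟩,[]⟩)) (.F ⟨⟨32,3,2,1,3,4,5⟩,[]⟩))) (.F ⟨⟨42,5,0,0,0,1,1⟩,[]⟩)) (.N (.F ⟨⟨28,5,2,3,7,6,9⟩,[]⟩) (.F ⟨⟨29,5,3,1,0,5,8⟩,[]⟩))) (.N (.N (.F ⟨⟨28,5,2,3,5,6,9⟩,[]⟩) (.F ⟨⟨29,5,3,1,0,5,8⟩,[]⟩)) (.F ⟨⟨26,0,4,2,0,4,6⟩,[]⟩))))) (.F ⟨⟨29,5,1,0,0,1,1⟩,[]⟩))))) (.F ⟨⟨33,5,0,0,0,1,1⟩,[]⟩)) (.F ⟨⟨30,5,0,0,0,1,1⟩,[]⟩))))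 (.N (.N (.F ⟨⟨23,5,1,0,2,4,6⟩,[]⟩) (.F ⟨⟨31,5,0,0,0,1,1⟩,[]⟩)) (.N (.F ⟨⟨23,5,1,0,2,5,7⟩,[]⟩) (.F ⟨⟨27,5,0,0,0,1,1⟩,[]⟩)))))) (.F ⟨⟨26,5,0,0,0,1,1⟩,[]⟩)) (.N (.F ⟨⟨12,5,2,3,7,6,9⟩,[]⟩) (.F ⟨⟨15,5,2,0,0,3,4⟩,[]⟩))))
    [false, true, false, true, true, true, false, false, true, true, false, true, true, false, true, false, true, false, true, true, false, true, false, true, true] = true := by decide +kernel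

theorem e5_305 : treeE 5 208 145 (rows0 5 [4, 3, 2, 1, 0])
    (.N (.N (.N (.N (.N (.F ⟨⟨24,5,0,0,1,1,1⟩,[]⟩) (.N (.F ⟨⟨29,5,0,0,1,1,1⟩,[]⟩) (.N (.N (.N (.F ⟨⟨23,5,1,0,2,4,6⟩,[]⟩) (.N (.N (.F ⟨⟨21,5,2,0,1,12,17⟩,[]⟩) (.F ⟨⟨34,5,0,0,0,1,1⟩,[]⟩)) (.F ⟨⟨26,5,0,0,1,2,3⟩,[]⟩))) (.F ⟨⟨31,5,0,0,0,1,1⟩,[]⟩)) (.N (.F ⟨⟨23,5,1,0,2,5,7⟩,[]⟩) (.F ⟨⟨29,5,0,0,0,1,2⟩,[]⟩))))) (.N (.N (.F ⟨⟨25,5,0,0,1,2,3⟩,[]⟩) (.N (.N (.F ⟨⟨23,5,1,0,2,5,7⟩,[]⟩) (.F ⟨⟨30,5,0,0,1,1,1⟩,[]⟩)) (.F ⟨⟨30,5,0,0,0,1,2⟩,[]⟩))) (.N (.F ⟨⟨29,5,0,0,1,1,1⟩,[]⟩) (.N (.N (.N (.N (.F ⟨⟨25,5,0,1,3,1,1⟩,[]⟩) (.F ⟨⟨23,0,2,0,2,2,1⟩,[]⟩)) (.F ⟨⟨23,0,2,0,2,2,1⟩,[]⟩)) (.F ⟨⟨23,0,2,0,2,2,1⟩,[]⟩))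 (.F ⟨⟨23,4,2,0,2,2,1⟩,[]⟩))))) (.F ⟨⟨26,5,0,0,0,1,1⟩,[]⟩)) (.N (.F ⟨⟨12,5,2,3,7,6,9⟩,[]⟩) (.F ⟨⟨16,5,2,0,0,3,4⟩,[]⟩))) (.N (.N (.F ⟨⟨12,5,2,3,5,6,9⟩,[]⟩) (.F ⟨⟨26,5,0,0,0,1,1⟩,[]⟩)) (.F ⟨⟨14,5,3,1,0,3,4⟩,[]⟩)))
    [true, true, false, true, true, true, false, false, true, true, false, true, true, false, true, false, true, false, true, true, false, true, false, true, true] = true := by decide +kernel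

theorem e5_306 : treeE 5 208 145 (rows0 5 [4, 3, 2, 1, 0])
    (.F ⟨⟨13,5,1,0,0,1,1⟩,[]⟩)
    [true, true, true, true, false, false, true, true, false, true, true, false, true, false, true, false, true, true, false, true, false, true, true] = true := by decide +kernel

theorem e5_307 : treeE 5 208 145 (rows0 5 [4, 3, 2, 1, 0])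
    (.F ⟨⟨17,5,0,0,0,1,1⟩,[]⟩)
    [true, false, true, true, false, true, true, false, true, false, true, false, true, true, false, true, false, true, true] = true := by decide +kernel

theorem e5_308 : treeE 5 208 145 (rows0 5 [4, 3, 2, 1, 0])
    (.F ⟨⟨14,5,0,0,0,1,1⟩,[]⟩)
    [true, true, true, false, true, true, false, true, false, true, false, true, true, false, true, false, true, true] = true := by decide +kernel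

theorem e5_309 : treeE 5 208 145 (rows0 5 [4, 3, 2, 1, 0])
    (.N (.N (.F ⟨⟨6,5,1,0,2,5,7⟩,[]⟩) (.F ⟨⟨15,5,0,0,0,1,1⟩,[]⟩)) (.N (.N (.F ⟨⟨16,5,0,0,1,1,2⟩,[]⟩) (.N (.F ⟨⟨16,5,0,0,1,1,1⟩,[]⟩) (.F ⟨⟨12,5,0,0,3,1,1⟩,[]⟩))) (.F ⟨⟨11,5,0,0,0,1,1⟩,[]⟩)))
    [true, true, true, false, true, false, true, false, true, true, false, true, false, true, true] = true := by decide +kernel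

theorem e5_310 : treeE 5 208 145 (rows0 5 [4, 3, 2, 1, 0])
    (.F ⟨⟨10,5,0,0,0,1,2⟩,[]⟩)
    [true, true, false, true, false, true, true, false, true, false, true, true] = true := by decide +kernel

theorem e5_311 : treeE 5 208 145 (rows0 5 [4, 3, 2, 1, 0])
    (.N (.F ⟨⟨9,5,0,0,1,1,1⟩,[]⟩) (.N (.N (.N (.N (.N (.N (.N (.F ⟨⟨6,5,1,3,4,3,5⟩,[]⟩) (.F ⟨⟨13,5,0,1,0,2,3⟩,[]⟩)) (.N (.F ⟨⟨16,5,0,0,1,1,1⟩,[]⟩) (.F ⟨⟨12,5,0,1,0,2,3⟩,[]⟩))) (.N (.N (.F ⟨⟨11,5,0,1,2,2,3⟩,[]⟩) (.F ⟨⟨12,5,0,1,0,2,3⟩,[]⟩)) (.N (.F ⟨⟨16,5,0,0,1,1,1⟩,[]⟩) (.F ⟨⟨11,5,0,1,0,2,3⟩,[]⟩)))) (.N (.N (.N (.N (.F ⟨⟨11,5,0,1,2,2,3⟩,[]⟩) (.N (.N (.F ⟨⟨15,5,0,0,1,2,3⟩,[]⟩) (.F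 ⟨⟨13,5,0,1,0,3,4⟩,[]⟩)) (.N (.F ⟨⟨19,5,0,0,1,1,1⟩,[]⟩) (.F ⟨⟨8,4,2,2,0,3,4⟩,[]⟩)))) (.F ⟨⟨12,5,0,1,0,2,3⟩,[]⟩)) (.N (.F ⟨⟨16,5,0,0,1,1,1⟩,[]⟩) (.F ⟨⟨11,5,0,1,0,2,3⟩,[]⟩))) (.N (.N (.N (.F ⟨⟨15,5,0,0,1,1,1⟩,[]⟩) (.N (.F ⟨⟨18,5,0,0,1,1,1⟩,[]⟩) (.F ⟨⟨8,4,2,2,0,3,4⟩,[]⟩))) (.F ⟨⟨16,5,0,0,0,1,1⟩,[]⟩)) (.N (.N (.F ⟨⟨17,5,0,0,1,1,2⟩,[]⟩) (.F ⟨⟨8,4,2,2,0,3,4⟩,[]⟩)) (.F ⟨⟨8,5,1,0,0,1,1⟩,[]⟩))))) (.F ⟨⟨12,5,0,0,0,1,1⟩,[]⟩)) (.N (.N (.F ⟨⟨13,5,0,0,1,1,2⟩,[]⟩) (.N (.F ⟨⟨13,5,0,0,1,1,1⟩,[]⟩) (.N (.F ⟨⟨11,5,0,0,3,1,1⟩,[]⟩) (.F ⟨⟨12,5,0,0,0,2,3⟩,[]⟩)))) (.F ⟨⟨8,5,0,0,0,2,3⟩,[]⟩))) (.N (.N (.N (.N (.F ⟨⟨12,5,0,0,1,1,2⟩,[]⟩) (.N (.F ⟨⟨12,5,0,0,1,1,1⟩,[]⟩)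 (.F ⟨⟨15,5,0,0,0,1,2⟩,[]⟩))) (.N (.F ⟨⟨14,5,0,0,1,1,1⟩,[]⟩) (.N (.N (.F ⟨⟨9,5,0,0,1,2,3⟩,[]⟩) (.N (.F ⟨⟨9,5,0,0,8,2,3⟩,[]⟩) (.N (.F ⟨⟨9,5,0,0,8,2,3⟩,[]⟩) (.F ⟨⟨16,5,0,0,0,1,1⟩,[]⟩)))) (.F ⟨⟨4,5,1,0,0,7,10⟩,[]⟩)))) (.F ⟨⟨12,5,0,0,0,1,1⟩,[]⟩)) (.F ⟨⟨7,5,0,0,0,1,1⟩,[]⟩))))
    [true, true, false, true, true, false, true, false, true, true] = true := by decide +kernel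

theorem e5_312 : treeE 5 208 145 (rows0 5 [4, 3, 2, 1, 0])
    (.N (.F ⟨⟨1,5,1,0,2,2,3⟩,[]⟩) (.N (.N (.N (.N (.F ⟨⟨5,5,1,0,1,3,5⟩,[]⟩) (.F ⟨⟨13,5,0,0,0,1,1⟩,[]⟩)) (.N (.F ⟨⟨4,5,1,0,2,5,8⟩,[]⟩) (.N (.N (.N (.F ⟨⟨6,5,1,0,2,5,7⟩,[]⟩) (.N (.N (.N (.F ⟨⟨17,5,0,0,1,1,1⟩,[]⟩) (.F ⟨⟨9,5,0,0,11,2,3⟩,[]⟩)) (.F ⟨⟨18,5,0,0,0,1,1⟩,[]⟩)) (.F ⟨⟨9,5,0,0,2,2,3⟩,[]⟩))) (.F ⟨⟨15,5,0,0,0,1,1⟩,[]⟩)) (.N (.N (.F ⟨⟨16,5,0,0,1,1,2⟩,[]⟩) (.F ⟨⟨13,5,0,0,3,1,1⟩,[]⟩)) (.F ⟨⟨13,5,0,0,0,1,2⟩,[]⟩))))) (.N (.N (.F ⟨⟨2,5,2,0,1,9,13⟩,[]⟩) (.N (.N (.N (.F ⟨⟨13,5,0,0,1,2,3⟩,[]⟩) (.F ⟨⟨12,5,0,0,3,1,1⟩,[]⟩)) (.F ⟨⟨14,5,0,0,1,1,1⟩,[]⟩)) (.F ⟨⟨14,5,0,0,0,1,2⟩,[]⟩))) (.N (.F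 ⟨⟨6,5,1,0,1,3,5⟩,[]⟩) (.N (.N (.N (.N (.F ⟨⟨7,4,1,2,0,2,3⟩,[]⟩) (.N (.F ⟨⟨5,0,3,3,0,4,6⟩,[]⟩) (.F ⟨⟨18,5,0,0,0,1,2⟩,[]⟩))) (.N (.F ⟨⟨17,5,0,0,1,1,1⟩,[]⟩) (.N (.F ⟨⟨9,5,1,0,2,3,4⟩,[]⟩) (.F ⟨⟨16,5,0,0,0,1,1⟩,[]⟩)))) (.N (.N (.F ⟨⟨9,5,1,0,2,3,5⟩,[]⟩) (.F ⟨⟨17,5,0,0,0,1,1⟩,[]⟩)) (.N (.F ⟨⟨12,5,1,0,2,2,3⟩,[]⟩) (.N (.N (.N (.F ⟨⟨8,5,2,2,0,3,4⟩,[]⟩) (.F ⟨⟨20,5,0,0,0,1,1⟩,[]⟩)) (.N (.F ⟨⟨14,5,1,0,3,3,4⟩,[]⟩) (.F ⟨⟨16,5,0,0,0,2,3⟩,[]⟩))) (.F ⟨⟨10,5,1,0,0,2,3⟩,[]⟩))))) (.F ⟨⟨5,5,2,0,0,2,3⟩,[]⟩))))) (.F ⟨⟨10,5,0,0,0,1,2⟩,[]⟩)))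
    [false, false, true, true, true, false, true, false, true, true] = true := by decide +kernel

theorem e5_313 : treeE 5 208 145 (rows0 5 [4, 3, 2, 1, 0])
    (.F ⟨⟨9,5,0,0,1,1,1⟩,[]⟩)
    [false, true, false, true, true, true, false, true, false, true, true] = true := by decide +kernel

theorem e5_314 : treeE 5 208 145 (rows0 5 [4, 3, 2, 1, 0])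
    (.N (.N (.F ⟨⟨6,5,1,0,1,3,5⟩,[]⟩) (.N (.N (.F ⟨⟨11,5,0,0,1,1,1⟩,[]⟩) (.F ⟨⟨15,5,0,0,1,1,1⟩,[]⟩)) (.F ⟨⟨15,5,0,0,0,1,2⟩,[]⟩))) (.N (.F ⟨⟨14,5,0,0,1,1,1⟩,[]⟩) (.F ⟨⟨4,5,1,0,0,7,10⟩,[]⟩)))
    [false, false, false, true, true, false, true, true, true, false, true, false, true, true] = true := by decide +kernel

theorem e5_315 : treeE 5 208 145 (rows0 5 [4, 3, 2, 1, 0])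
    (.N (.N (.F ⟨⟨13,5,0,0,1,1,1⟩,[]⟩) (.N (.F ⟨⟨16,5,0,0,1,1,1⟩,[]⟩) (.N (.N (.N (.N (.F ⟨⟨7,4,1,2,0,2,3⟩,[]⟩) (.N (.N (.N (.N (.F ⟨⟨9,4,2,4,0,4,6⟩,[]⟩) (.N (.F ⟨⟨12,5,1,3,7,5,8⟩,[]⟩) (.F ⟨⟨11,5,3,2,0,6,9⟩,[]⟩))) (.N (.N (.F ⟨⟨12,5,1,3,8,5,8⟩,[]⟩) (.F ⟨⟨11,5,3,2,0,6,9⟩,[]⟩)) (.N (.F ⟨⟨25,5,0,0,1,1,1⟩,[]⟩) (.N (.N (.N (.F ⟨⟨14,5,2,4,0,5,6⟩,[]⟩) (.F ⟨⟨28,5,0,0,0,1,1⟩,[]⟩)) (.N (.N (.F ⟨⟨29,5,0,0,1,1,2⟩,[]⟩) (.N (.F ⟨⟨29,5,0,0,1,1,1⟩,[]⟩) (.F ⟨⟨22,5,0,1,0,5,7⟩,[]⟩))) (.F ⟨⟨24,5,0,0,0,2,3⟩,[]⟩))) (.N (.N (.N (.N (.F ⟨⟨28,5,0,0,1,1,2⟩,[]⟩) (.F ⟨⟨22,5,0,1,0,5,7⟩,[]⟩)) (.N (.F ⟨⟨30,5,0,0,1,1,1⟩,[]⟩) (.N (.N (.F ⟨⟨25,5,0,0,1,2,3⟩,[]⟩) (.N (.F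 ⟨⟨25,5,0,0,8,2,3⟩,[]⟩) (.F ⟨⟨23,5,0,0,5,3,3⟩,[]⟩))) (.F ⟨⟨22,5,0,1,0,4,6⟩,[]⟩)))) (.F ⟨⟨28,5,0,0,0,1,1⟩,[]⟩)) (.F ⟨⟨23,5,0,0,0,1,1⟩,[]⟩)))))) (.N (.N (.N (.F ⟨⟨12,5,1,3,5,5,8⟩,[]⟩) (.F ⟨⟨11,5,3,2,0,6,9⟩,[]⟩)) (.N (.F ⟨⟨25,5,0,0,1,1,1⟩,[]⟩) (.N (.N (.N (.N (.N (.F ⟨⟨26,5,0,0,1,1,1⟩,[]⟩) (.F ⟨⟨22,5,0,1,0,5,7⟩,[]⟩)) (.N (.F ⟨⟨30,5,0,0,1,1,1⟩,[]⟩) (.F ⟨⟨22,5,0,1,0,4,6⟩,[]⟩))) (.N (.N (.N (.F ⟨⟨29,5,0,0,1,1,1⟩,[]⟩) (.F ⟨⟨24,5,0,0,4,3,3⟩,[]⟩)) (.F ⟨⟨30,5,0,0,0,1,1⟩,[]⟩)) (.N (.F ⟨⟨16,5,1,2,3,9,14⟩,[]⟩) (.N (.N (.N (.N (.F ⟨⟨23,4,1,2,0,2,3⟩,[]⟩) (.N (.F ⟨⟨24,5,2,2,0,3,4⟩,[]⟩) (.F ⟨⟨35,5,0,0,0,1,2⟩,[]⟩))) (.N (.F ⟨⟨34,5,0,0,1,1,1⟩,[]⟩) (.N (.F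 ⟨⟨27,5,1,0,2,2,2⟩,[]⟩) (.F ⟨⟨33,5,0,0,0,1,1⟩,[]⟩)))) (.N (.N (.F ⟨⟨27,5,1,0,2,2,4⟩,[]⟩) (.F ⟨⟨34,5,0,0,0,1,1⟩,[]⟩)) (.N (.F ⟨⟨34,5,0,0,1,1,1⟩,[]⟩) (.N (.N (.F ⟨⟨19,5,4,2,7,9,12⟩,[]⟩) (.N (.F ⟨⟨31,5,1,0,3,3,4⟩,[]⟩) (.F ⟨⟨33,5,0,0,0,2,3⟩,[]⟩))) (.F ⟨⟨25,5,1,0,0,4,6⟩,[]⟩))))) (.F ⟨⟨22,5,3,1,0,3,4⟩,[]⟩))))) (.F ⟨⟨27,5,0,0,0,1,1⟩,[]⟩)) (.F ⟨⟨24,5,0,0,0,1,1⟩,[]⟩)))) (.N (.N (.F ⟨⟨16,5,1,1,2,3,5⟩,[]⟩) (.F ⟨⟨25,5,0,0,0,1,1⟩,[]⟩)) (.N (.F ⟨⟨25,5,0,0,1,1,1⟩,[]⟩) (.F ⟨⟨15,5,2,1,0,2,3⟩,[]⟩))))) (.F ⟨⟨21,5,0,0,0,1,2⟩,[]⟩))) (.F ⟨⟨9,5,2,0,7,3,4⟩,[]⟩)) (.F ⟨⟨9,5,2,0,10,3,4⟩,[]⟩)) (.F ⟨⟨9,5,2,0,3,3,4⟩,[]⟩)))) (.F ⟨⟨14,5,0,0,0,1,1⟩,[]⟩))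
    [false, true, false, false, true, true, false, true, true, true, false, true, false, true, true] = true := by decide +kernel

theorem e5_316 : treeE 5 208 145 (rows0 5 [4, 3, 2, 1, 0])
    (.N (.N (.F ⟨⟨15,5,0,0,1,1,2⟩,[]⟩) (.N (.N (.N (.N (.F ⟨⟨7,4,1,2,0,2,3⟩,[]⟩) (.N (.N (.N (.N (.F ⟨⟨9,4,2,4,0,4,6⟩,[]⟩) (.N (.F ⟨⟨12,5,1,3,5,5,8⟩,[]⟩) (.F ⟨⟨18,5,0,1,0,2,3⟩,[]⟩))) (.N (.N (.F ⟨⟨11,5,1,3,7,5,8⟩,[]⟩) (.F ⟨⟨18,5,0,1,0,2,3⟩,[]⟩)) (.N (.F ⟨⟨24,5,0,0,1,1,1⟩,[]⟩) (.F ⟨⟨11,5,3,2,0,6,9⟩,[]⟩)))) (.N (.N (.N (.F ⟨⟨11,5,1,3,5,5,8⟩,[]⟩) (.F ⟨⟨18,5,0,1,0,2,3⟩,[]⟩)) (.N (.F ⟨⟨24,5,0,0,1,1,1⟩,[]⟩) (.F ⟨⟨11,5,3,2,0,6,9⟩,[]⟩))) (.N (.N (.F ⟨⟨15,5,0,1,3,2,3⟩,[]⟩)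 (.F ⟨⟨17,5,0,1,0,2,3⟩,[]⟩)) (.F ⟨⟨11,5,3,2,0,4,5⟩,[]⟩)))) (.F ⟨⟨20,5,0,0,0,1,2⟩,[]⟩))) (.F ⟨⟨9,5,2,0,3,3,4⟩,[]⟩)) (.F ⟨⟨9,5,2,0,5,3,4⟩,[]⟩)) (.F ⟨⟨9,5,2,0,2,3,4⟩,[]⟩))) (.N (.N (.N (.N (.F ⟨⟨7,4,1,2,0,2,3⟩,[]⟩) (.N (.F ⟨⟨8,5,2,2,0,3,4⟩,[]⟩) (.F ⟨⟨19,5,0,0,0,1,2⟩,[]⟩))) (.N (.F ⟨⟨18,5,0,0,1,1,1⟩,[]⟩) (.N (.F ⟨⟨11,5,1,0,2,2,2⟩,[]⟩) (.F ⟨⟨17,5,0,0,0,1,1⟩,[]⟩)))) (.N (.N (.F ⟨⟨11,5,1,0,2,2,4⟩,[]⟩) (.F ⟨⟨18,5,0,0,0,1,1⟩,[]⟩)) (.N (.F ⟨⟨18,5,0,0,1,1,1⟩,[]⟩) (.N (.N (.F ⟨⟨9,5,1,0,2,3,4⟩,[]⟩) (.N (.F ⟨⟨9,5,1,0,11,3,4⟩,[]⟩) (.F ⟨⟨17,5,0,0,0,2,3⟩,[]⟩))) (.F ⟨⟨9,5,1,0,0,4,6⟩,[]⟩))))) (.F ⟨⟨6,5,2,0,0,2,3⟩,[]⟩)))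
    [true, true, false, false, true, true, false, true, true, true, false, true, false, true, true] = true := by decide +kernel

theorem e5_317 : treeE 5 208 145 (rows0 5 [4, 3, 2, 1, 0])
    (.F ⟨⟨11,5,0,0,0,1,1⟩,[]⟩)
    [true, false, true, true, false, true, true, true, false, true, false, true, true] = true := by decide +kernel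

theorem e5_318 : treeE 5 208 145 (rows0 5 [4, 3, 2, 1, 0])
    (.F ⟨⟨8,5,0,0,0,1,1⟩,[]⟩)
    [true, true, true, false, true, true, true, false, true, false, true, true] = true := by decide +kernel

theorem e5_319 : treeE 5 208 145 (rows0 5 [4, 3, 2, 1, 0])
    (.N (.N (.F ⟨⟨5,5,1,0,1,2,3⟩,[]⟩) (.F ⟨⟨9,5,0,0,0,1,1⟩,[]⟩)) (.N (.F ⟨⟨5,5,1,0,1,2,3⟩,[]⟩) (.F ⟨⟨0,5,2,0,0,2,3⟩,[]⟩)))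
    [true, true, true, true, false, true, false, true, true] = true := by decide +kernel

theorem e5_320 : treeE 5 208 145 (rows0 5 [4, 3, 2, 1, 0])
    (.F ⟨⟨3,5,0,0,0,1,2⟩,[]⟩)
    [true, true, false, true, true] = true := by decide +kernel

theorem e5_321 : treeE 5 208 145 (rows0 5 [4, 3, 2, 1, 0])
    (.F ⟨⟨3,5,0,0,1,1,2⟩,[]⟩)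
    [false, false, true, true, true] = true := by decide +kernel

theorem e5_322 : treeE 5 208 145 (rows0 5 [4, 3, 2, 1, 0])
    (.N (.N (.N (.F ⟨⟨0,4,1,2,0,2,3⟩,[]⟩) (.F ⟨⟨7,5,0,0,0,1,1⟩,[]⟩)) (.N (.F ⟨⟨1,5,1,0,2,2,3⟩,[]⟩) (.F ⟨⟨0,5,1,0,0,2,3⟩,[]⟩))) (.N (.N (.F ⟨⟨1,5,1,0,3,2,3⟩,[]⟩) (.F ⟨⟨7,5,0,0,0,1,1⟩,[]⟩)) (.N (.F ⟨⟨2,5,1,0,3,2,3⟩,[]⟩) (.N (.N (.N (.N (.N (.N (.N (.F ⟨⟨8,5,0,1,2,1,1⟩,[]⟩) (.F ⟨⟨11,5,0,1,0,2,3⟩,[]⟩)) (.N (.F ⟨⟨14,5,0,0,1,1,1⟩,[]⟩) (.F ⟨⟨10,5,0,1,0,2,3⟩,[]⟩))) (.N (.N (.F ⟨⟨9,5,0,1,2,2,3⟩,[]⟩) (.F ⟨⟨10,5,0,1,0,2,3⟩,[]⟩)) (.N (.F ⟨⟨14,5,0,0,1,1,1⟩,[]⟩) (.F ⟨⟨9,5,0,1,0,2,3⟩,[]⟩)))) (.N (.N (.N (.F ⟨⟨3,5,2,4,5,8,12⟩,[]⟩)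 (.F ⟨⟨10,5,0,1,0,2,3⟩,[]⟩)) (.N (.F ⟨⟨14,5,0,0,1,1,1⟩,[]⟩) (.F ⟨⟨9,5,0,1,0,2,3⟩,[]⟩))) (.N (.N (.F ⟨⟨3,5,2,4,5,8,12⟩,[]⟩) (.F ⟨⟨14,5,0,0,0,1,1⟩,[]⟩)) (.N (.F ⟨⟨4,5,1,3,4,5,7⟩,[]⟩) (.F ⟨⟨6,5,1,0,0,1,1⟩,[]⟩))))) (.F ⟨⟨10,5,0,0,0,1,1⟩,[]⟩)) (.N (.N (.F ⟨⟨11,5,0,0,1,1,2⟩,[]⟩) (.N (.F ⟨⟨11,5,0,0,1,1,1⟩,[]⟩) (.N (.F ⟨⟨9,5,0,0,3,1,1⟩,[]⟩) (.F ⟨⟨10,5,0,0,0,2,3⟩,[]⟩)))) (.F ⟨⟨6,5,0,0,0,2,3⟩,[]⟩))) (.N (.N (.N (.N (.F ⟨⟨10,5,0,0,1,1,2⟩,[]⟩) (.N (.F ⟨⟨10,5,0,0,1,1,1⟩,[]⟩) (.F ⟨⟨13,5,0,0,0,1,2⟩,[]⟩))) (.N (.F ⟨⟨12,5,0,0,1,1,1⟩,[]⟩) (.N (.N (.F ⟨⟨7,5,0,0,1,2,3⟩,[]⟩) (.N (.F ⟨⟨7,5,0,0,8,2,3⟩,[]⟩) (.N (.F ⟨⟨7,5,0,0,8,2,3⟩,[]⟩) (.F ⟨⟨14,5,0,0,0,1,1⟩,[]⟩))))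 (.F ⟨⟨1,5,2,0,0,8,12⟩,[]⟩)))) (.F ⟨⟨10,5,0,0,0,1,1⟩,[]⟩)) (.N (.N (.F ⟨⟨11,5,0,0,1,1,2⟩,[]⟩) (.N (.F ⟨⟨11,5,0,0,1,1,1⟩,[]⟩) (.N (.F ⟨⟨8,5,0,0,1,2,3⟩,[]⟩) (.F ⟨⟨5,5,0,0,0,3,4⟩,[]⟩)))) (.F ⟨⟨6,5,0,0,0,1,2⟩,[]⟩)))))))
    [false, true, false, true, true, true] = true := by decide +kernel

end Pool.Agent.RTX
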