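import Pool.Agent.RTS.Exact

/-!
# RTS: windows of the initial state, part 11
-/

set_option autoImplicit false
set_option maxRecDepth 100000

namespace Pool.Agent.RTX

theorem e5_323 : treeE 5 208 145 (rows0 5 [4, 3, 2, 1, 0])
    (.N (.N (.F ⟨⟨1,5,1,0,2,2,3⟩,[]⟩) (.F ⟨⟨7,5,0,0,0,1,1⟩,[]⟩)) (.N (.F ⟨⟨2,5,1,0,3,2,3⟩,[]⟩) (.N (.N (.N (.N (.N (.F ⟨⟨8,5,0,0,1,1,1⟩,[]⟩) (.N (.N (.F ⟨⟨9,5,0,0,1,1,1⟩,[]⟩) (.F ⟨⟨13,5,0,0,1,1,1⟩,[]⟩)) (.F ⟨⟨13,5,0,0,0,1,2⟩,[]⟩))) (.N (.F ⟨⟨12,5,0,0,1,1,1⟩,[]⟩) (.F ⟨⟨1,5,2,0,0,8,12⟩,[]⟩))) (.N (.N (.F ⟨⟨3,5,2,0,1,8,12⟩,[]⟩) (.F ⟨⟨12,5,0,0,0,1,1⟩,[]⟩))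 (.N (.F ⟨⟨4,5,1,0,1,5,7⟩,[]⟩) (.N (.N (.N (.N (.F ⟨⟨5,4,1,2,0,2,3⟩,[]⟩) (.N (.F ⟨⟨6,5,2,2,0,3,4⟩,[]⟩) (.F ⟨⟨17,5,0,0,0,1,2⟩,[]⟩))) (.N (.F ⟨⟨16,5,0,0,1,1,1⟩,[]⟩) (.N (.F ⟨⟨9,5,1,0,2,2,2⟩,[]⟩) (.F ⟨⟨15,5,0,0,0,1,1⟩,[]⟩)))) (.N (.N (.F ⟨⟨11,5,1,0,2,2,3⟩,[]⟩) (.F ⟨⟨16,5,0,0,0,1,1⟩,[]⟩)) (.N (.F ⟨⟨11,5,1,0,2,2,3⟩,[]⟩) (.N (.N (.F ⟨⟨1,5,5,0,7,9,13⟩,[]⟩) (.N (.N (.F ⟨⟨20,5,0,0,1,1,2⟩,[]⟩) (.N (.F ⟨⟨20,5,0,0,1,1,1⟩,[]⟩) (.N (.F ⟨⟨18,5,0,0,3,1,1⟩,[]⟩) (.F ⟨⟨19,5,0,0,0,2,3⟩,[]⟩)))) (.F ⟨⟨15,5,0,0,0,2,3⟩,[]⟩))) (.F ⟨⟨7,5,1,0,0,4,6⟩,[]⟩))))) (.F ⟨⟨4,5,2,0,0,2,3⟩,[]⟩)))))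 (.F ⟨⟨9,5,0,0,0,1,1⟩,[]⟩)) (.N (.N (.F ⟨⟨10,5,0,0,1,1,2⟩,[]⟩) (.N (.F ⟨⟨10,5,0,0,1,1,1⟩,[]⟩) (.F ⟨⟨6,5,0,0,0,3,4⟩,[]⟩))) (.F ⟨⟨7,5,0,0,0,1,2⟩,[]⟩)))))
    [false, true, true, false, true, true, true] = true := by decide +kernel

theorem e5_324 : treeE 5 208 145 (rows0 5 [4, 3, 2, 1, 0])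
    (.N (.N (.F ⟨⟨2,5,1,0,2,2,3⟩,[]⟩) (.N (.N (.N (.F ⟨⟨7,5,0,0,1,2,3⟩,[]⟩) (.F ⟨⟨10,5,0,0,0,1,1⟩,[]⟩)) (.N (.F ⟨⟨4,5,1,0,1,5,7⟩,[]⟩) (.N (.N (.N (.N (.F ⟨⟨5,4,1,2,0,2,3⟩,[]⟩) (.F ⟨⟨14,5,0,0,0,1,1⟩,[]⟩)) (.N (.F ⟨⟨6,5,1,0,4,2,3⟩,[]⟩) (.N (.N (.F ⟨⟨7,5,2,2,0,3,4⟩,[]⟩) (.F ⟨⟨16,5,0,0,0,1,1⟩,[]⟩)) (.N (.F ⟨⟨4,5,3,0,5,7,10⟩,[]⟩) (.F ⟨⟨14,5,0,0,0,1,2⟩,[]⟩))))) (.N (.N (.F ⟨⟨6,5,1,0,5,2,3⟩,[]⟩) (.N (.N (.F ⟨⟨4,5,3,0,5,7,10⟩,[]⟩) (.N (.F ⟨⟨9,5,1,0,2,5,8⟩,[]⟩) (.N (.N (.N (.F ⟨⟨7,5,2,2,0,3,4⟩,[]⟩) (.F ⟨⟨20,5,0,0,0,1,1⟩,[]⟩)) (.N (.F ⟨⟨20,5,0,0,1,1,1⟩,[]⟩) (.N (.N (.N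 (.F ⟨⟨10,0,1,4,3,2,2⟩,[]⟩) (.N (.F ⟨⟨10,0,1,4,3,2,2⟩,[]⟩) (.N (.F ⟨⟨10,0,1,4,3,2,2⟩,[]⟩) (.N (.F ⟨⟨10,0,1,4,3,2,2⟩,[]⟩) (.F ⟨⟨18,5,1,0,0,1,1⟩,[]⟩))))) (.F ⟨⟨22,5,0,0,0,1,1⟩,[]⟩)) (.F ⟨⟨19,5,0,0,0,1,1⟩,[]⟩)))) (.F ⟨⟨12,5,0,0,0,2,2⟩,[]⟩)))) (.F ⟨⟨15,5,0,0,0,1,2⟩,[]⟩))) (.N (.F ⟨⟨14,5,0,0,1,1,1⟩,[]⟩) (.N (.F ⟨⟨7,5,2,0,3,4,5⟩,[]⟩) (.N (.F ⟨⟨7,5,2,0,3,4,5⟩,[]⟩) (.F ⟨⟨12,5,0,0,0,1,1⟩,[]⟩)))))) (.N (.N (.N (.F ⟨⟨6,5,1,0,2,2,3⟩,[]⟩) (.N (.N (.N (.F ⟨⟨4,5,3,0,5,7,10⟩,[]⟩) (.N (.F ⟨⟨9,5,1,0,2,5,8⟩,[]⟩) (.F ⟨⟨15,5,0,0,0,1,1⟩,[]⟩))) (.N (.N (.F ⟨⟨7,5,2,0,1,9,13⟩,[]⟩) (.F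 ⟨⟨18,5,0,0,0,1,1⟩,[]⟩)) (.N (.F ⟨⟨18,5,0,0,1,1,1⟩,[]⟩) (.N (.N (.N (.N (.F ⟨⟨12,4,1,2,0,2,3⟩,[]⟩) (.F ⟨⟨4,3,7,0,8,4,6⟩,[]⟩)) (.F ⟨⟨4,2,7,0,13,4,6⟩,[]⟩)) (.F ⟨⟨4,1,7,0,10,4,6⟩,[]⟩)) (.F ⟨⟨10,5,2,0,0,2,3⟩,[]⟩))))) (.F ⟨⟨15,5,0,0,0,1,2⟩,[]⟩))) (.N (.F ⟨⟨14,5,0,0,1,1,1⟩,[]⟩) (.N (.F ⟨⟨7,5,2,0,3,4,5⟩,[]⟩) (.F ⟨⟨13,5,0,0,0,1,1⟩,[]⟩)))) (.F ⟨⟨4,5,2,0,0,2,3⟩,[]⟩))))) (.F ⟨⟨8,5,0,0,0,1,2⟩,[]⟩))) (.N (.F ⟨⟨4,5,1,0,1,2,3⟩,[]⟩) (.F ⟨⟨0,5,2,0,0,2,3⟩,[]⟩)))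
    [true, true, true, false, true, true, true] = true := by decide +kernel

theorem e5_325 : treeE 5 208 145 (rows0 5 [4, 3, 2, 1, 0])
    (.N (.N (.N (.N (.F ⟨⟨0,4,1,2,0,2,3⟩,[]⟩) (.F ⟨⟨6,5,0,0,0,1,1⟩,[]⟩)) (.N (.F ⟨⟨1,5,1,0,2,2,3⟩,[]⟩) (.F ⟨⟨0,5,1,0,0,2,3⟩,[]⟩))) (.N (.N (.F ⟨⟨1,5,1,0,2,2,3⟩,[]⟩) (.F ⟨⟨6,5,0,0,0,1,1⟩,[]⟩)) (.N (.F ⟨⟨2,5,1,0,2,2,3⟩,[]⟩) (.F ⟨⟨0,5,1,0,0,2,3⟩,[]⟩)))) (.N (.N (.N (.F ⟨⟨1,5,1,0,1,2,3⟩,[]⟩) (.F ⟨⟨6,5,0,0,0,1,1⟩,[]⟩)) (.N (.F ⟨⟨2,5,1,0,2,2,3⟩,[]⟩) (.F ⟨⟨1,5,1,0,0,2,3⟩,[]⟩))) (.N (.N (.F ⟨⟨2,5,1,0,1,2,3⟩,[]⟩) (.F ⟨⟨6,5,0,0,0,1,1⟩,[]⟩))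 (.N (.F ⟨⟨3,5,1,0,1,2,3⟩,[]⟩) (.F ⟨⟨0,5,1,0,0,1,2⟩,[]⟩)))))
    [true, true, true, true] = true := by decide +kernel

end Pool.Agent.RTX
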