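import Pool.Agent.RTS.Exact

/-!
# RTS: windows of the initial state, part 2
-/

set_option autoImplicit false
set_option maxRecDepth 100000

namespace Pool.Agent.RTX

theorem e5_61 : treeE 5 208 145 (rows0 5 [4, 3, 2, 1, 0])
    (.N (.N (.N (.F ⟨⟨12,5,1,3,5,5,8⟩,[]⟩) (.F ⟨⟨11,5,3,2,0,6,9⟩,[]⟩)) (.N (.F ⟨⟨25,5,0,0,1,1,1⟩,[]⟩) (.N (.N (.N (.N (.N (.F ⟨⟨26,5,0,0,1,1,1⟩,[]⟩) (.F ⟨⟨22,5,0,1,0,5,7⟩,[]⟩)) (.N (.F ⟨⟨30,5,0,0,1,1,1⟩,[]⟩) (.F ⟨⟨22,5,0,1,0,4,6⟩,[]⟩))) (.N (.N (.N (.F ⟨⟨29,5,0,0,1,1,1⟩,[]⟩) (.N (.F ⟨⟨32,5,0,0,1,1,1⟩,[]⟩) (.N (.N (.N (.N (.F ⟨⟨28,5,0,1,4,1,1⟩,[]⟩) (.N (.F ⟨⟨33,3,0,1,1,1,1⟩,[]⟩) (.F ⟨⟨37,5,0,0,0,1,2⟩,[]⟩))) (.F ⟨⟨25,5,2,0,7,3,4⟩,[]⟩)) (.F ⟨⟨25,5,2,0,10,3,4⟩,[]⟩))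 (.F ⟨⟨25,5,2,0,3,3,4⟩,[]⟩)))) (.F ⟨⟨30,5,0,0,0,1,1⟩,[]⟩)) (.N (.F ⟨⟨16,5,1,2,3,9,14⟩,[]⟩) (.N (.N (.N (.N (.F ⟨⟨24,5,0,1,3,1,1⟩,[]⟩) (.N (.F ⟨⟨31,3,0,1,1,1,1⟩,[]⟩) (.F ⟨⟨35,5,0,0,0,1,2⟩,[]⟩))) (.N (.F ⟨⟨34,5,0,0,1,1,1⟩,[]⟩) (.N (.F ⟨⟨27,5,1,0,2,2,2⟩,[]⟩) (.F ⟨⟨33,5,0,0,0,1,1⟩,[]⟩)))) (.N (.N (.F ⟨⟨27,5,1,0,2,2,4⟩,[]⟩) (.F ⟨⟨34,5,0,0,0,1,1⟩,[]⟩)) (.N (.F ⟨⟨34,5,0,0,1,1,1⟩,[]⟩) (.N (.N (.N (.F ⟨⟨24,5,2,2,0,3,4⟩,[]⟩) (.F ⟨⟨37,5,0,0,0,1,1⟩,[]⟩)) (.N (.F ⟨⟨31,5,1,0,3,3,4⟩,[]⟩) (.F ⟨⟨33,5,0,0,0,2,3⟩,[]⟩))) (.F ⟨⟨25,5,1,0,0,4,6⟩,[]⟩))))) (.F ⟨⟨22,5,3,1,0,3,4⟩,[]⟩))))) (.F ⟨⟨27,5,0,0,0,1,1⟩,[]⟩)) (.F ⟨⟨24,5,0,0,0,1,1⟩,[]⟩)))) (.N (.N (.F ⟨⟨16,5,1,1,2,3,5⟩,[]⟩) (.F ⟨⟨25,5,0,0,0,1,1⟩,[]⟩))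 (.N (.F ⟨⟨25,5,0,0,1,1,1⟩,[]⟩) (.F ⟨⟨15,5,2,1,0,2,3⟩,[]⟩))))
    [true, false, true, false, false, false, true, true, false, false, true, false, false, true, false, true, false, true, false, false, true, true, false, false] = true := by decide +kernel

theorem e5_62 : treeE 5 208 145 (rows0 5 [4, 3, 2, 1, 0])
    (.F ⟨⟨21,5,0,0,0,1,2⟩,[]⟩)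
    [true, true, false, false, false, true, true, false, false, true, false, false, true, false, true, false, true, false, false, true, true, false, false] = true := by decide +kernel

theorem e5_63 : treeE 5 208 145 (rows0 5 [4, 3, 2, 1, 0])
    (.N (.F ⟨⟨20,5,0,0,1,1,1⟩,[]⟩) (.N (.N (.F ⟨⟨14,0,2,2,0,3,4⟩,[]⟩) (.F ⟨⟨22,5,0,0,0,1,1⟩,[]⟩)) (.N (.F ⟨⟨16,5,1,0,2,3,4⟩,[]⟩) (.F ⟨⟨20,5,0,0,0,1,2⟩,[]⟩))))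
    [true, false, false, true, true, false, false, true, false, false, true, false, true, false, true, false, false, true, true, false, false] = true := by decide +kernel

theorem e5_64 : treeE 5 208 145 (rows0 5 [4, 3, 2, 1, 0])
    (.N (.N (.F ⟨⟨15,5,0,0,3,1,1⟩,[]⟩) (.N (.N (.F ⟨⟨16,5,1,0,2,3,4⟩,[]⟩) (.F ⟨⟨19,5,0,0,2,1,1⟩,[]⟩)) (.F ⟨⟨21,5,0,0,0,1,2⟩,[]⟩))) (.N (.F ⟨⟨20,5,0,0,1,1,1⟩,[]⟩) (.N (.F ⟨⟨13,5,2,0,3,3,3⟩,[]⟩) (.N (.F ⟨⟨13,5,2,0,3,3,3⟩,[]⟩) (.F ⟨⟨18,5,0,0,0,1,1⟩,[]⟩)))))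
    [true, false, true, true, false, false, true, false, false, true, false, true, false, true, false, false, true, true, false, false] = true := by decide +kernel

theorem e5_65 : treeE 5 208 145 (rows0 5 [4, 3, 2, 1, 0])
    (.N (.N (.N (.F ⟨⟨14,5,0,0,2,1,1⟩,[]⟩) (.N (.N (.N (.F ⟨⟨16,5,1,0,2,3,4⟩,[]⟩) (.F ⟨⟨18,5,0,0,2,1,1⟩,[]⟩)) (.F ⟨⟨20,5,0,0,1,1,1⟩,[]⟩)) (.F ⟨⟨21,5,0,0,0,1,2⟩,[]⟩))) (.N (.F ⟨⟨20,5,0,0,1,1,1⟩,[]⟩) (.N (.F ⟨⟨13,5,2,0,3,3,3⟩,[]⟩) (.F ⟨⟨19,5,0,0,0,1,1⟩,[]⟩)))) (.N (.N (.F ⟨⟨16,5,1,0,1,2,3⟩,[]⟩) (.F ⟨⟨20,5,0,0,0,1,1⟩,[]⟩)) (.N (.F ⟨⟨17,5,1,0,1,2,3⟩,[]⟩) (.N (.N (.N (.N (.F ⟨⟨18,4,1,2,0,2,3⟩,[]⟩) (.F ⟨⟨24,5,0,0,0,1,1⟩,[]⟩)) (.N (.F ⟨⟨19,5,1,0,2,2,3⟩,[]⟩)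 (.F ⟨⟨14,2,4,0,4,2,3⟩,[]⟩))) (.N (.N (.F ⟨⟨19,5,1,0,2,2,3⟩,[]⟩) (.F ⟨⟨24,5,0,0,0,1,1⟩,[]⟩)) (.F ⟨⟨16,1,2,0,3,1,1⟩,[]⟩))) (.F ⟨⟨15,5,1,0,0,1,1⟩,[]⟩)))))
    [true, true, true, false, false, true, false, false, true, false, true, false, true, false, false, true, true, false, false] = true := by decide +kernel

theorem e5_66 : treeE 5 208 145 (rows0 5 [4, 3, 2, 1, 0])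
    (.F ⟨⟨14,5,0,0,0,1,1⟩,[]⟩)
    [true, false, true, false, false, true, false, true, false, true, false, false, true, true, false, false] = true := by decide +kernel

theorem e5_67 : treeE 5 208 145 (rows0 5 [4, 3, 2, 1, 0])
    (.N (.F ⟨⟨14,5,0,0,1,1,1⟩,[]⟩) (.N (.N (.N (.N (.F ⟨⟨7,5,0,1,3,1,1⟩,[]⟩) (.N (.F ⟨⟨0,0,6,9,0,10,15⟩,[]⟩) (.F ⟨⟨19,5,0,0,0,1,2⟩,[]⟩))) (.N (.F ⟨⟨18,5,0,0,1,1,1⟩,[]⟩) (.N (.N (.N (.F ⟨⟨10,0,1,2,1,2,2⟩,[]⟩) (.N (.F ⟨⟨10,0,1,2,1,2,2⟩,[]⟩) (.N (.F ⟨⟨10,0,1,2,1,2,2⟩,[]⟩) (.N (.F ⟨⟨15,5,1,1,2,3,5⟩,[]⟩) (.F ⟨⟨14,5,2,1,0,2,4⟩,[]⟩))))) (.F ⟨⟨20,5,0,0,0,1,1⟩,[]⟩)) (.F ⟨⟨17,5,0,0,0,1,1⟩,[]⟩)))) (.N (.N (.F ⟨⟨13,5,1,0,2,2,3⟩,[]⟩) (.F ⟨⟨18,5,0,0,0,1,1⟩,[]⟩))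 (.N (.F ⟨⟨18,5,0,0,1,1,1⟩,[]⟩) (.N (.N (.N (.N (.F ⟨⟨14,0,1,3,2,2,2⟩,[]⟩) (.N (.F ⟨⟨14,0,1,3,2,2,2⟩,[]⟩) (.N (.F ⟨⟨14,0,1,3,2,2,2⟩,[]⟩) (.N (.F ⟨⟨14,0,1,3,2,2,2⟩,[]⟩) (.F ⟨⟨17,5,1,0,0,1,1⟩,[]⟩))))) (.F ⟨⟨21,5,0,0,0,1,1⟩,[]⟩)) (.N (.F ⟨⟨15,5,1,0,3,3,4⟩,[]⟩) (.F ⟨⟨17,5,0,0,0,2,3⟩,[]⟩))) (.F ⟨⟨8,5,1,0,0,5,7⟩,[]⟩))))) (.N (.N (.N (.F ⟨⟨13,5,1,0,1,2,3⟩,[]⟩) (.F ⟨⟨18,5,0,0,0,1,1⟩,[]⟩)) (.N (.F ⟨⟨18,5,0,0,1,1,1⟩,[]⟩) (.F ⟨⟨8,5,1,0,0,5,7⟩,[]⟩))) (.N (.N (.F ⟨⟨10,5,1,0,1,4,5⟩,[]⟩) (.F ⟨⟨18,5,0,0,0,1,1⟩,[]⟩)) (.N (.F ⟨⟨14,5,1,0,1,2,3⟩,[]⟩) (.F ⟨⟨12,5,1,0,0,1,1⟩,[]⟩))))))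
    [true, true, false, false, true, false, true, false, true, false, false, true, true, false, false] = true := by decide +kernel

theorem e5_68 : treeE 5 208 145 (rows0 5 [4, 3, 2, 1, 0])
    (.F ⟨⟨4,5,0,1,0,5,7⟩,[]⟩)
    [true, false, true, false, true, false, true, false, false, true, true, false, false] = true := by decide +kernel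

theorem e5_69 : treeE 5 208 145 (rows0 5 [4, 3, 2, 1, 0])
    (.N (.F ⟨⟨11,5,0,0,1,1,1⟩,[]⟩) (.F ⟨⟨8,5,0,0,0,2,3⟩,[]⟩))
    [true, true, false, true, false, true, false, false, true, true, false, false] = true := by decide +kernel

theorem e5_70 : treeE 5 208 145 (rows0 5 [4, 3, 2, 1, 0])
    (.F ⟨⟨1,5,0,1,0,2,3⟩,[]⟩)
    [true, true, false, true, false, false, true, true, false, false] = true := by decide +kernel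

theorem e5_71 : treeE 5 208 145 (rows0 5 [4, 3, 2, 1, 0])
    (.N (.N (.N (.N (.F ⟨⟨8,5,0,0,1,1,2⟩,[]⟩) (.N (.N (.F ⟨⟨7,5,0,0,1,3,4⟩,[]⟩) (.F ⟨⟨11,5,0,0,1,1,1⟩,[]⟩)) (.F ⟨⟨11,5,0,0,0,1,2⟩,[]⟩))) (.N (.F ⟨⟨10,5,0,0,1,1,1⟩,[]⟩) (.N (.N (.N (.N (.F ⟨⟨6,4,1,2,0,2,3⟩,[]⟩) (.F ⟨⟨14,5,0,0,0,1,1⟩,[]⟩)) (.N (.F ⟨⟨6,5,1,0,3,2,3⟩,[]⟩) (.F ⟨⟨4,5,3,1,0,5,7⟩,[]⟩))) (.N (.N (.F ⟨⟨6,5,1,0,4,2,3⟩,[]⟩) (.F ⟨⟨4,5,3,1,0,5,7⟩,[]⟩)) (.N (.F ⟨⟨14,5,0,0,1,1,1⟩,[]⟩) (.F ⟨⟨2,5,4,2,0,8,12⟩,[]⟩)))) (.N (.N (.N (.F ⟨⟨6,5,1,0,2,2,3⟩,[]⟩) (.F ⟨⟨4,5,3,1,0,5,7⟩,[]⟩)) (.N (.F ⟨⟨14,5,0,0,1,1,1⟩,[]⟩) (.F ⟨⟨3,5,3,1,0,6,9⟩,[]⟩))) (.N (.N (.F ⟨⟨10,5,1,0,1,2,3⟩,[]⟩) (.F ⟨⟨14,5,0,0,0,1,1⟩,[]⟩)) (.N (.F ⟨⟨11,5,1,0,1,2,3⟩,[]⟩)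 (.F ⟨⟨4,5,3,1,0,3,5⟩,[]⟩))))))) (.F ⟨⟨1,5,0,1,0,2,3⟩,[]⟩)) (.N (.F ⟨⟨8,5,0,0,1,1,1⟩,[]⟩) (.F ⟨⟨0,0,2,1,0,2,3⟩,[]⟩)))
    [true, true, false, false, true, true, false, false] = true := by decide +kernel

theorem e5_72 : treeE 5 208 145 (rows0 5 [4, 3, 2, 1, 0])
    (.F ⟨⟨4,5,0,0,0,1,1⟩,[]⟩)
    [true, false, true, true, false, false] = true := by decide +kernel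

theorem e5_73 : treeE 5 208 145 (rows0 5 [4, 3, 2, 1, 0])
    (.N (.N (.F ⟨⟨5,5,0,0,1,1,2⟩,[]⟩) (.N (.F ⟨⟨5,5,0,0,1,1,1⟩,[]⟩) (.N (.F ⟨⟨3,5,0,0,4,2,3⟩,[]⟩) (.F ⟨⟨4,5,0,0,0,2,3⟩,[]⟩)))) (.F ⟨⟨2,5,0,0,0,1,2⟩,[]⟩))
    [true, true, true, false, false] = true := by decide +kernel

theorem e5_74 : treeE 5 208 145 (rows0 5 [4, 3, 2, 1, 0])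
    (.N (.F ⟨⟨2,5,0,0,1,1,2⟩,[]⟩) (.N (.N (.N (.F ⟨⟨4,5,0,0,1,2,3⟩,[]⟩) (.F ⟨⟨3,5,0,0,4,2,3⟩,[]⟩)) (.F ⟨⟨5,5,0,0,1,1,1⟩,[]⟩)) (.F ⟨⟨5,5,0,0,0,1,2⟩,[]⟩)))
    [false, false, false, true, false] = true := by decide +kernel

theorem e5_75 : treeE 5 208 145 (rows0 5 [4, 3, 2, 1, 0])
    (.F ⟨⟨4,5,0,0,1,1,1⟩,[]⟩)
    [false, true, false, false, true, false] = true := by decide +kernel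

theorem e5_76 : treeE 5 208 145 (rows0 5 [4, 3, 2, 1, 0])
    (.N (.N (.N (.F ⟨⟨5,5,0,1,2,1,1⟩,[]⟩) (.F ⟨⟨7,5,0,1,0,2,3⟩,[]⟩)) (.N (.F ⟨⟨11,5,0,0,1,1,1⟩,[]⟩) (.F ⟨⟨3,5,0,1,0,4,5⟩,[]⟩))) (.N (.N (.F ⟨⟨2,5,0,1,2,4,6⟩,[]⟩) (.F ⟨⟨6,5,0,1,0,2,3⟩,[]⟩)) (.N (.F ⟨⟨11,5,0,0,1,1,1⟩,[]⟩) (.F ⟨⟨6,5,0,1,0,2,3⟩,[]⟩))))
    [false, false, false, false, true, true, false, false, true, false] = true := by decide +kernel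

theorem e5_77 : treeE 5 208 145 (rows0 5 [4, 3, 2, 1, 0])
    (.N (.N (.N (.F ⟨⟨2,5,0,1,2,4,6⟩,[]⟩) (.N (.N (.F ⟨⟨10,5,0,0,1,2,3⟩,[]⟩) (.F ⟨⟨8,5,0,1,0,3,4⟩,[]⟩)) (.N (.F ⟨⟨14,5,0,0,1,1,1⟩,[]⟩) (.N (.N (.N (.N (.F ⟨⟨10,5,0,1,3,1,1⟩,[]⟩) (.N (.F ⟨⟨10,0,2,2,0,3,4⟩,[]⟩) (.F ⟨⟨19,5,0,0,0,1,2⟩,[]⟩))) (.N (.F ⟨⟨18,5,0,0,1,1,1⟩,[]⟩) (.N (.N (.F ⟨⟨10,0,2,2,0,3,4⟩,[]⟩) (.F ⟨⟨20,5,0,0,0,1,1⟩,[]⟩)) (.F ⟨⟨17,5,0,0,0,1,1⟩,[]⟩)))) (.N (.N (.F ⟨⟨13,5,1,0,2,2,3⟩,[]⟩) (.F ⟨⟨18,5,0,0,0,1,1⟩,[]⟩)) (.N (.F ⟨⟨18,5,0,0,1,1,1⟩,[]⟩) (.N (.N (.N (.F ⟨⟨10,0,2,2,0,3,4⟩,[]⟩) (.F ⟨⟨21,5,0,0,0,1,1⟩,[]⟩)) (.N (.F ⟨⟨15,5,1,0,3,3,4⟩,[]⟩) (.F ⟨⟨17,5,0,0,0,2,3⟩,[]⟩))) (.F ⟨⟨13,5,1,0,0,2,3⟩,[]⟩)))))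 (.N (.N (.N (.F ⟨⟨13,5,1,0,1,2,3⟩,[]⟩) (.F ⟨⟨18,5,0,0,0,1,1⟩,[]⟩)) (.N (.F ⟨⟨18,5,0,0,1,1,1⟩,[]⟩) (.F ⟨⟨13,5,1,0,0,2,3⟩,[]⟩))) (.N (.N (.F ⟨⟨10,5,2,0,1,4,7⟩,[]⟩) (.F ⟨⟨18,5,0,0,0,1,1⟩,[]⟩)) (.N (.F ⟨⟨15,5,1,0,1,2,3⟩,[]⟩) (.F ⟨⟨8,5,3,1,0,3,5⟩,[]⟩)))))))) (.F ⟨⟨6,5,0,1,0,2,3⟩,[]⟩)) (.N (.F ⟨⟨11,5,0,0,1,1,1⟩,[]⟩) (.F ⟨⟨6,5,0,1,0,2,3⟩,[]⟩)))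
    [false, true, false, false, false, true, true, false, false, true, false] = true := by decide +kernel

theorem e5_78 : treeE 5 208 145 (rows0 5 [4, 3, 2, 1, 0])
    (.N (.N (.F ⟨⟨10,5,0,0,1,1,1⟩,[]⟩) (.N (.F ⟨⟨13,5,0,0,1,1,1⟩,[]⟩) (.N (.N (.N (.N (.F ⟨⟨9,4,1,2,0,2,3⟩,[]⟩) (.F ⟨⟨8,5,1,1,0,3,5⟩,[]⟩)) (.N (.F ⟨⟨9,5,1,0,3,2,3⟩,[]⟩) (.N (.N (.F ⟨⟨11,0,2,2,0,3,4⟩,[]⟩) (.F ⟨⟨19,5,0,0,0,1,1⟩,[]⟩)) (.N (.F ⟨⟨13,5,1,0,2,3,4⟩,[]⟩) (.F ⟨⟨17,5,0,0,0,1,2⟩,[]⟩))))) (.N (.N (.F ⟨⟨9,5,1,0,4,2,3⟩,[]⟩) (.N (.N (.F ⟨⟨13,5,1,0,2,3,4⟩,[]⟩) (.F ⟨⟨16,5,0,0,2,1,1⟩,[]⟩)) (.F ⟨⟨18,5,0,0,0,1,2⟩,[]⟩))) (.N (.F ⟨⟨17,5,0,0,1,1,1⟩,[]⟩) (.N (.N (.N (.F ⟨⟨11,0,2,2,0,3,4⟩,[]⟩) (.F ⟨⟨20,5,0,0,0,1,1⟩,[]⟩))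 (.N (.F ⟨⟨14,5,1,0,3,3,4⟩,[]⟩) (.F ⟨⟨16,5,0,0,0,2,3⟩,[]⟩))) (.N (.N (.F ⟨⟨12,5,1,0,3,4,5⟩,[]⟩) (.F ⟨⟨20,5,0,0,0,1,1⟩,[]⟩)) (.F ⟨⟨15,5,0,0,0,1,1⟩,[]⟩)))))) (.N (.N (.N (.F ⟨⟨9,5,1,0,2,2,3⟩,[]⟩) (.N (.N (.N (.F ⟨⟨13,5,1,0,2,3,4⟩,[]⟩) (.F ⟨⟨15,5,0,0,2,1,1⟩,[]⟩)) (.F ⟨⟨17,5,0,0,1,1,1⟩,[]⟩)) (.F ⟨⟨18,5,0,0,0,1,2⟩,[]⟩))) (.N (.F ⟨⟨17,5,0,0,1,1,1⟩,[]⟩) (.N (.N (.N (.F ⟨⟨12,5,1,0,3,4,5⟩,[]⟩) (.N (.N (.N (.F ⟨⟨21,5,0,0,1,1,1⟩,[]⟩) (.F ⟨⟨16,5,0,0,4,3,3⟩,[]⟩)) (.F ⟨⟨22,5,0,0,0,1,1⟩,[]⟩)) (.N (.F ⟨⟨13,5,1,0,1,5,7⟩,[]⟩) (.N (.N (.N (.N (.F ⟨⟨15,4,1,2,0,2,3⟩,[]⟩) (.F ⟨⟨13,3,3,0,4,2,2⟩,[]⟩)) (.F ⟨⟨13,2,3,0,8,2,2⟩,[]⟩)) (.F ⟨⟨13,1,3,0,6,2,2⟩,[]⟩)) (.F ⟨⟨14,5,2,0,0,2,3⟩,[]⟩))))) (.F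 ⟨⟨19,5,0,0,0,1,1⟩,[]⟩)) (.F ⟨⟨16,5,0,0,0,1,1⟩,[]⟩)))) (.N (.N (.F ⟨⟨13,5,1,0,1,2,3⟩,[]⟩) (.F ⟨⟨17,5,0,0,0,1,1⟩,[]⟩)) (.N (.F ⟨⟨14,5,1,0,1,2,3⟩,[]⟩) (.F ⟨⟨7,5,3,1,0,3,5⟩,[]⟩))))))) (.F ⟨⟨11,5,0,0,0,1,1⟩,[]⟩))
    [false, true, true, false, false, false, true, true, false, false, true, false] = true := by decide +kernel

theorem e5_79 : treeE 5 208 145 (rows0 5 [4, 3, 2, 1, 0])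
    (.N (.N (.F ⟨⟨12,5,0,0,1,1,2⟩,[]⟩) (.N (.N (.N (.N (.F ⟨⟨9,4,1,2,0,2,3⟩,[]⟩) (.F ⟨⟨8,5,1,1,0,3,5⟩,[]⟩)) (.N (.F ⟨⟨9,5,1,0,2,2,3⟩,[]⟩) (.F ⟨⟨7,5,1,1,0,3,5⟩,[]⟩))) (.N (.N (.F ⟨⟨6,5,1,1,5,3,5⟩,[]⟩) (.F ⟨⟨16,5,0,0,0,1,1⟩,[]⟩)) (.N (.F ⟨⟨10,5,1,0,3,2,3⟩,[]⟩) (.F ⟨⟨3,5,3,1,0,5,7⟩,[]⟩)))) (.N (.N (.N (.F ⟨⟨6,5,1,1,3,3,5⟩,[]⟩) (.F ⟨⟨16,5,0,0,0,1,1⟩,[]⟩)) (.N (.F ⟨⟨10,5,1,0,3,2,3⟩,[]⟩) (.F ⟨⟨4,5,3,1,0,5,8⟩,[]⟩))) (.N (.N (.F ⟨⟨10,5,1,0,2,2,3⟩,[]⟩) (.F ⟨⟨5,5,3,1,0,5,8⟩,[]⟩)) (.N (.F ⟨⟨16,5,0,0,1,1,1⟩,[]⟩) (.F ⟨⟨6,5,3,1,0,3,5⟩,[]⟩)))))) (.F ⟨⟨0,0,2,1,0,2,3⟩,[]⟩))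
    [true, true, true, false, false, false, true, true, false, false, true, false] = true := by decide +kernel

theorem e5_80 : treeE 5 208 145 (rows0 5 [4, 3, 2, 1, 0])
    (.N (.N (.N (.N (.F ⟨⟨2,5,0,4,5,4,6⟩,[]⟩) (.N (.N (.N (.F ⟨⟨8,3,0,4,0,2,3⟩,[]⟩) (.F ⟨⟨12,5,0,1,0,2,3⟩,[]⟩)) (.N (.F ⟨⟨16,5,0,0,1,1,1⟩,[]⟩) (.F ⟨⟨11,5,0,1,0,2,3⟩,[]⟩))) (.N (.N (.F ⟨⟨10,5,0,1,2,2,3⟩,[]⟩) (.F ⟨⟨11,5,0,1,0,2,3⟩,[]⟩)) (.N (.F ⟨⟨16,5,0,0,1,1,1⟩,[]⟩) (.F ⟨⟨10,0,2,1,0,2,3⟩,[]⟩))))) (.F ⟨⟨12,5,0,0,0,1,1⟩,[]⟩)) (.N (.N (.F ⟨⟨13,5,0,0,1,1,2⟩,[]⟩) (.N (.F ⟨⟨11,5,0,0,1,1,1⟩,[]⟩) (.F ⟨⟨9,5,0,1,0,3,4⟩,[]⟩))) (.F ⟨⟨6,5,0,1,0,2,3⟩,[]⟩))) (.N (.N (.N (.N (.F ⟨⟨12,5,0,0,1,1,2⟩,[]⟩) (.F ⟨⟨9,5,0,1,0,3,4⟩,[]⟩))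 (.N (.F ⟨⟨14,5,0,0,1,1,1⟩,[]⟩) (.N (.N (.F ⟨⟨4,5,0,3,4,5,7⟩,[]⟩) (.N (.F ⟨⟨17,5,0,0,1,1,1⟩,[]⟩) (.F ⟨⟨8,5,0,2,0,8,12⟩,[]⟩))) (.F ⟨⟨4,5,0,3,0,7,11⟩,[]⟩)))) (.F ⟨⟨6,5,0,1,0,2,3⟩,[]⟩)) (.N (.F ⟨⟨12,5,0,0,1,1,1⟩,[]⟩) (.F ⟨⟨6,5,0,1,0,2,3⟩,[]⟩))))
    [false, false, true, false, false, true, true, false, false, true, false] = true := by decide +kernel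

theorem e5_81 : treeE 5 208 145 (rows0 5 [4, 3, 2, 1, 0])
    (.N (.N (.N (.N (.N (.F ⟨⟨11,5,0,0,1,1,2⟩,[]⟩) (.F ⟨⟨9,5,0,1,0,3,4⟩,[]⟩)) (.N (.F ⟨⟨15,5,0,0,1,1,1⟩,[]⟩) (.F ⟨⟨4,5,0,3,0,7,11⟩,[]⟩))) (.N (.N (.F ⟨⟨11,5,0,0,1,2,3⟩,[]⟩) (.F ⟨⟨9,5,0,1,0,3,4⟩,[]⟩)) (.N (.F ⟨⟨15,5,0,0,1,1,1⟩,[]⟩) (.F ⟨⟨1,4,5,5,0,6,10⟩,[]⟩)))) (.F ⟨⟨6,5,0,1,0,2,3⟩,[]⟩)) (.N (.F ⟨⟨12,5,0,0,1,1,1⟩,[]⟩) (.F ⟨⟨6,5,0,1,0,2,3⟩,[]⟩)))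
    [false, true, false, true, false, false, true, true, false, false, true, false] = true := by decide +kernel

theorem e5_82 : treeE 5 208 145 (rows0 5 [4, 3, 2, 1, 0])
    (.F ⟨⟨11,5,0,0,1,1,1⟩,[]⟩)
    [false, false, false, true, true, false, true, false, false, true, true, false, false, true, false] = true := by decide +kernel

theorem e5_83 : treeE 5 208 145 (rows0 5 [4, 3, 2, 1, 0])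
    (.F ⟨⟨14,5,0,0,1,1,1⟩,[]⟩)
    [false, true, false, false, true, true, false, true, false, false, true, true, false, false, true, false] = true := by decide +kernel

theorem e5_84 : treeE 5 208 145 (rows0 5 [4, 3, 2, 1, 0])
    (.N (.N (.N (.F ⟨⟨7,5,1,3,5,3,5⟩,[]⟩) (.F ⟨⟨18,5,0,0,0,1,1⟩,[]⟩)) (.N (.F ⟨⟨10,5,1,0,3,2,3⟩,[]⟩) (.F ⟨⟨3,5,5,2,0,9,13⟩,[]⟩))) (.N (.N (.F ⟨⟨10,5,1,0,4,2,3⟩,[]⟩) (.F ⟨⟨3,5,5,2,0,9,13⟩,[]⟩)) (.N (.F ⟨⟨18,5,0,0,1,1,1⟩,[]⟩) (.N (.N (.N (.N (.F ⟨⟨14,0,1,3,2,2,2⟩,[]⟩) (.N (.F ⟨⟨14,0,1,3,2,2,2⟩,[]⟩) (.N (.F ⟨⟨14,0,1,3,2,2,2⟩,[]⟩) (.N (.F ⟨⟨14,0,1,3,2,2,2⟩,[]⟩) (.F ⟨⟨17,5,1,0,0,1,1⟩,[]⟩))))) (.F ⟨⟨21,5,0,0,0,1,1⟩,[]⟩)) (.N (.N (.F ⟨⟨22,5,0,0,1,1,2⟩,[]⟩)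 (.N (.F ⟨⟨22,5,0,0,1,1,1⟩,[]⟩) (.F ⟨⟨9,5,2,1,0,14,20⟩,[]⟩))) (.F ⟨⟨17,5,0,0,0,2,3⟩,[]⟩))) (.N (.N (.N (.N (.F ⟨⟨21,5,0,0,1,1,2⟩,[]⟩) (.F ⟨⟨9,5,2,1,0,14,20⟩,[]⟩)) (.N (.F ⟨⟨23,5,0,0,1,1,1⟩,[]⟩) (.N (.N (.F ⟨⟨18,5,0,0,1,2,3⟩,[]⟩) (.N (.F ⟨⟨18,5,0,0,8,2,3⟩,[]⟩) (.N (.F ⟨⟨18,5,0,0,8,2,3⟩,[]⟩) (.F ⟨⟨25,5,0,0,0,1,1⟩,[]⟩)))) (.F ⟨⟨13,5,1,0,0,7,10⟩,[]⟩)))) (.F ⟨⟨21,5,0,0,0,1,1⟩,[]⟩)) (.F ⟨⟨16,5,0,0,0,1,1⟩,[]⟩))))))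
    [false, true, true, false, false, true, true, false, true, false, false, true, true, false, false, true, false] = true := by decide +kernel

theorem e5_85 : treeE 5 208 145 (rows0 5 [4, 3, 2, 1, 0])
    (.N (.F ⟨⟨10,5,1,0,2,2,3⟩,[]⟩) (.F ⟨⟨3,5,5,2,0,9,13⟩,[]⟩))
    [false, false, true, true, true, false, false, true, true, false, true, false, false, true, true, false, false, true, false] = true := by decide +kernel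

theorem e5_86 : treeE 5 208 145 (rows0 5 [4, 3, 2, 1, 0])
    (.F ⟨⟨18,5,0,0,1,1,1⟩,[]⟩)
    [false, true, false, true, true, true, false, false, true, true, false, true, false, false, true, true, false, false, true, false] = true := by decide +kernel

theorem e5_87 : treeE 5 208 145 (rows0 5 [4, 3, 2, 1, 0])
    (.N (.N (.F ⟨⟨19,5,0,0,1,1,1⟩,[]⟩) (.F ⟨⟨9,5,2,1,0,14,20⟩,[]⟩)) (.N (.F ⟨⟨23,5,0,0,1,1,1⟩,[]⟩) (.F ⟨⟨13,5,1,0,0,7,10⟩,[]⟩)))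
    [false, false, false, true, true, false, true, true, true, false, false, true, true, false, true, false, false, true, true, false, false, true, false] = true := by decide +kernel

theorem e5_88 : treeE 5 208 145 (rows0 5 [4, 3, 2, 1, 0])
    (.F ⟨⟨22,5,0,0,1,1,1⟩,[]⟩)
    [false, false, false, true, false, false, true, true, false, true, true, true, false, false, true, true, false, true, false, false, true, true, false, false, true, false] = true := by decide +kernel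

theorem e5_89 : treeE 5 208 145 (rows0 5 [4, 3, 2, 1, 0])
    (.F ⟨⟨25,5,0,0,1,1,1⟩,[]⟩)
    [false, true, false, false, true, false, false, true, true, false, true, true, true, false, false, true, true, false, true, false, false, true, true, false, false, true, false] = true := by decide +kernel

theorem e5_90 : treeE 5 208 145 (rows0 5 [4, 3, 2, 1, 0])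
    (.F ⟨⟨16,4,1,2,0,2,3⟩,[]⟩)
    [false, false, false, false, true, true, false, false, true, false, false, true, true, false, true, true, true, false, false, true, true, false, true, false, false, true, true, false, false, true, false] = true := by decide +kernel

theorem e5_91 : treeE 5 208 145 (rows0 5 [4, 3, 2, 1, 0])
    (.N (.N (.F ⟨⟨18,4,2,4,0,4,6⟩,[]⟩) (.N (.F ⟨⟨21,5,1,3,7,5,8⟩,[]⟩) (.F ⟨⟨20,5,3,2,0,6,9⟩,[]⟩))) (.N (.N (.F ⟨⟨21,5,1,3,8,5,8⟩,[]⟩) (.F ⟨⟨20,5,3,2,0,6,9⟩,[]⟩)) (.N (.F ⟨⟨34,5,0,0,1,1,1⟩,[]⟩) (.N (.N (.N (.F ⟨⟨23,5,2,4,0,5,6⟩,[]⟩) (.F ⟨⟨37,5,0,0,0,1,1⟩,[]⟩)) (.N (.N (.F ⟨⟨38,5,0,0,1,1,2⟩,[]⟩) (.N (.F ⟨⟨38,5,0,0,1,1,1⟩,[]⟩) (.F ⟨⟨31,5,0,1,0,5,7⟩,[]⟩)))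 (.F ⟨⟨33,5,0,0,0,2,3⟩,[]⟩))) (.N (.N (.N (.N (.F ⟨⟨37,5,0,0,1,1,2⟩,[]⟩) (.F ⟨⟨31,5,0,1,0,5,7⟩,[]⟩)) (.N (.F ⟨⟨39,5,0,0,1,1,1⟩,[]⟩) (.N (.N (.F ⟨⟨34,5,0,0,1,2,3⟩,[]⟩) (.N (.F ⟨⟨34,5,0,0,8,2,3⟩,[]⟩) (.F ⟨⟨29,5,0,2,0,12,17⟩,[]⟩))) (.F ⟨⟨31,5,0,1,0,4,6⟩,[]⟩)))) (.F ⟨⟨37,5,0,0,0,1,1⟩,[]⟩)) (.F ⟨⟨32,5,0,0,0,1,1⟩,[]⟩))))))
    [false, false, true, false, false, false, true, true, false, false, true, false, false, true, true, false, true, true, true, false, false, true, true, false, true, false, false, true, true, false, false, true, false] = true := by decide +kernel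

theorem e5_92 : treeE 5 208 145 (rows0 5 [4, 3, 2, 1, 0])
    (.N (.N (.N (.F ⟨⟨21,5,1,3,5,5,8⟩,[]⟩) (.F ⟨⟨20,5,3,2,0,6,9⟩,[]⟩)) (.N (.F ⟨⟨34,5,0,0,1,1,1⟩,[]⟩) (.N (.N (.N (.N (.N (.F ⟨⟨35,5,0,0,1,1,1⟩,[]⟩) (.F ⟨⟨31,5,0,1,0,5,7⟩,[]⟩)) (.N (.F ⟨⟨39,5,0,0,1,1,1⟩,[]⟩) (.F ⟨⟨31,5,0,1,0,4,6⟩,[]⟩))) (.N (.N (.N (.F ⟨⟨38,5,0,0,1,1,1⟩,[]⟩) (.N (.F ⟨⟨41,5,0,0,1,1,1⟩,[]⟩) (.N (.N (.N (.N (.F ⟨⟨32,4,1,2,0,2,3⟩,[]⟩) (.N (.N (.N (.N (.F ⟨⟨34,4,2,4,0,4,6⟩,[]⟩) (.N (.F ⟨⟨37,5,1,3,7,5,8⟩,[]⟩) (.F ⟨⟨36,5,3,2,0,6,9⟩,[]⟩))) (.N (.N (.F ⟨⟨37,5,1,3,8,5,8⟩,[]⟩) (.F ⟨⟨36,5,3,2,0,6,9⟩,[]⟩)) (.N (.F ⟨⟨50,5,0,0,1,1,1⟩,[]⟩) (.N (.N (.F ⟨⟨40,1,1,2,1,4,5⟩,[]⟩) (.N (.F ⟨⟨40,1,1,2,1,4,5⟩,[]⟩) (.F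 ⟨⟨49,5,0,0,0,2,3⟩,[]⟩))) (.N (.N (.F ⟨⟨40,1,1,2,1,4,5⟩,[]⟩) (.F ⟨⟨53,5,0,0,0,1,1⟩,[]⟩)) (.F ⟨⟨48,5,0,0,0,1,1⟩,[]⟩)))))) (.N (.N (.N (.F ⟨⟨37,5,1,3,5,5,8⟩,[]⟩) (.F ⟨⟨36,5,3,2,0,6,9⟩,[]⟩)) (.N (.F ⟨⟨50,5,0,0,1,1,1⟩,[]⟩) (.N (.N (.F ⟨⟨40,1,1,2,1,4,5⟩,[]⟩) (.F ⟨⟨52,5,0,0,0,1,1⟩,[]⟩)) (.F ⟨⟨49,5,0,0,0,1,1⟩,[]⟩)))) (.N (.N (.F ⟨⟨41,5,1,1,2,3,5⟩,[]⟩) (.F ⟨⟨50,5,0,0,0,1,1⟩,[]⟩)) (.N (.F ⟨⟨50,5,0,0,1,1,1⟩,[]⟩) (.F ⟨⟨40,5,2,1,0,2,3⟩,[]⟩))))) (.F ⟨⟨46,5,0,0,0,1,2⟩,[]⟩))) (.F ⟨⟨34,5,2,0,7,3,4⟩,[]⟩)) (.F ⟨⟨34,5,2,0,10,3,4⟩,[]⟩)) (.F ⟨⟨34,5,2,0,3,3,4⟩,[]⟩)))) (.F ⟨⟨39,5,0,0,0,1,1⟩,[]⟩)) (.N (.F ⟨⟨25,5,1,2,3,9,14⟩,[]⟩) (.N (.N (.N (.N (.F ⟨⟨32,4,1,2,0,2,3⟩,[]⟩) (.N (.F ⟨⟨33,5,2,2,0,3,4⟩,[]⟩)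 (.F ⟨⟨44,5,0,0,0,1,2⟩,[]⟩))) (.N (.F ⟨⟨43,5,0,0,1,1,1⟩,[]⟩) (.N (.F ⟨⟨36,5,1,0,2,2,2⟩,[]⟩) (.F ⟨⟨42,5,0,0,0,1,1⟩,[]⟩)))) (.N (.N (.F ⟨⟨36,5,1,0,2,2,4⟩,[]⟩) (.F ⟨⟨43,5,0,0,0,1,1⟩,[]⟩)) (.N (.F ⟨⟨43,5,0,0,1,1,1⟩,[]⟩) (.N (.N (.N (.F ⟨⟨33,5,2,2,0,3,4⟩,[]⟩) (.F ⟨⟨46,5,0,0,0,1,1⟩,[]⟩)) (.N (.F ⟨⟨40,5,1,0,3,3,4⟩,[]⟩) (.F ⟨⟨42,5,0,0,0,2,3⟩,[]⟩))) (.F ⟨⟨34,5,1,0,0,4,6⟩,[]⟩))))) (.F ⟨⟨31,5,3,1,0,3,4⟩,[]⟩))))) (.F ⟨⟨36,5,0,0,0,1,1⟩,[]⟩)) (.F ⟨⟨33,5,0,0,0,1,1⟩,[]⟩)))) (.N (.N (.F ⟨⟨25,5,1,1,2,3,5⟩,[]⟩) (.F ⟨⟨34,5,0,0,0,1,1⟩,[]⟩)) (.N (.F ⟨⟨34,5,0,0,1,1,1⟩,[]⟩) (.F ⟨⟨24,5,2,1,0,2,3⟩,[]⟩))))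
    [true, false, true, false, false, false, true, true, false, false, true, false, false, true, true, false, true, true, true, false, false, true, true, false, true, false, false, true, true, false, false, true, false] = true := by decide +kernel

theorem e5_93 : treeE 5 208 145 (rows0 5 [4, 3, 2, 1, 0])
    (.F ⟨⟨30,5,0,0,0,1,2⟩,[]⟩)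
    [true, true, false, false, false, true, true, false, false, true, false, false, true, true, false, true, true, true, false, false, true, true, false, true, false, false, true, true, false, false, true, false] = true := by decide +kernel

theorem e5_94 : treeE 5 208 145 (rows0 5 [4, 3, 2, 1, 0])
    (.F ⟨⟨18,5,2,0,7,3,4⟩,[]⟩)
    [true, false, false, true, true, false, false, true, false, false, true, true, false, true, true, true, false, false, true, true, false, true, false, false, true, true, false, false, true, false] = true := by decide +kernel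

end Pool.Agent.RTX
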