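import Pool.Agent.RTS.Exact

/-!
# RTS: windows of the initial state, part 3
-/

set_option autoImplicit false
set_option maxRecDepth 100000

namespace Pool.Agent.RTX

theorem e5_95 : treeE 5 208 145 (rows0 5 [4, 3, 2, 1, 0])
    (.F ⟨⟨18,5,2,0,10,3,4⟩,[]⟩)
    [true, false, true, true, false, false, true, false, false, true, true, false, true, true, true, false, false, true, true, false, true, false, false, true, true, false, false, true, false] = true := by decide +kernel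

theorem e5_96 : treeE 5 208 145 (rows0 5 [4, 3, 2, 1, 0])
    (.F ⟨⟨18,5,2,0,3,3,4⟩,[]⟩)
    [true, true, true, false, false, true, false, false, true, true, false, true, true, true, false, false, true, true, false, true, false, false, true, true, false, false, true, false] = true := by decide +kernel

theorem e5_97 : treeE 5 208 145 (rows0 5 [4, 3, 2, 1, 0])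
    (.F ⟨⟨23,5,0,0,0,1,1⟩,[]⟩)
    [true, false, true, false, false, true, true, false, true, true, true, false, false, true, true, false, true, false, false, true, true, false, false, true, false] = true := by decide +kernel

theorem e5_98 : treeE 5 208 145 (rows0 5 [4, 3, 2, 1, 0])
    (.N (.F ⟨⟨14,5,1,0,1,5,7⟩,[]⟩) (.N (.N (.N (.N (.F ⟨⟨16,4,1,2,0,2,3⟩,[]⟩) (.N (.F ⟨⟨17,5,2,2,0,3,4⟩,[]⟩) (.F ⟨⟨28,5,0,0,0,1,2⟩,[]⟩))) (.N (.F ⟨⟨27,5,0,0,1,1,1⟩,[]⟩) (.N (.F ⟨⟨20,5,1,0,2,2,2⟩,[]⟩) (.F ⟨⟨26,5,0,0,0,1,1⟩,[]⟩)))) (.N (.N (.F ⟨⟨20,5,1,0,2,2,4⟩,[]⟩) (.F ⟨⟨27,5,0,0,0,1,1⟩,[]⟩)) (.N (.F ⟨⟨27,5,0,0,1,1,1⟩,[]⟩) (.N (.N (.F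 ⟨⟨13,5,3,0,5,6,9⟩,[]⟩) (.N (.F ⟨⟨24,5,1,0,3,3,4⟩,[]⟩) (.F ⟨⟨26,5,0,0,0,2,3⟩,[]⟩))) (.F ⟨⟨18,5,1,0,0,4,6⟩,[]⟩))))) (.F ⟨⟨15,5,2,0,0,2,3⟩,[]⟩)))
    [true, true, false, false, true, true, false, true, true, true, false, false, true, true, false, true, false, false, true, true, false, false, true, false] = true := by decide +kernel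

theorem e5_99 : treeE 5 208 145 (rows0 5 [4, 3, 2, 1, 0])
    (.F ⟨⟨20,5,0,0,0,1,1⟩,[]⟩)
    [true, false, true, true, false, true, true, true, false, false, true, true, false, true, false, false, true, true, false, false, true, false] = true := by decide +kernel

theorem e5_100 : treeE 5 208 145 (rows0 5 [4, 3, 2, 1, 0])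
    (.F ⟨⟨17,5,0,0,0,1,1⟩,[]⟩)
    [true, true, true, false, true, true, true, false, false, true, true, false, true, false, false, true, true, false, false, true, false] = true := by decide +kernel

theorem e5_101 : treeE 5 208 145 (rows0 5 [4, 3, 2, 1, 0])
    (.N (.N (.F ⟨⟨14,5,1,0,1,2,3⟩,[]⟩) (.F ⟨⟨18,5,0,0,0,1,1⟩,[]⟩)) (.N (.F ⟨⟨15,5,1,0,1,2,3⟩,[]⟩) (.F ⟨⟨8,5,2,0,0,2,3⟩,[]⟩)))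
    [true, true, true, true, false, false, true, true, false, true, false, false, true, true, false, false, true, false] = true := by decide +kernel

theorem e5_102 : treeE 5 208 145 (rows0 5 [4, 3, 2, 1, 0])
    (.F ⟨⟨12,5,0,0,0,1,1⟩,[]⟩)
    [true, false, true, true, false, true, false, false, true, true, false, false, true, false] = true := by decide +kernel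

theorem e5_103 : treeE 5 208 145 (rows0 5 [4, 3, 2, 1, 0])
    (.N (.N (.F ⟨⟨13,5,0,0,1,1,2⟩,[]⟩) (.N (.N (.N (.N (.F ⟨⟨6,5,1,3,5,3,5⟩,[]⟩) (.F ⟨⟨17,5,0,0,0,1,1⟩,[]⟩)) (.N (.F ⟨⟨10,5,1,0,2,2,3⟩,[]⟩) (.F ⟨⟨8,5,1,0,0,2,3⟩,[]⟩))) (.N (.N (.F ⟨⟨4,5,2,3,7,6,9⟩,[]⟩) (.F ⟨⟨17,5,0,0,0,1,1⟩,[]⟩)) (.N (.F ⟨⟨11,5,1,0,3,2,3⟩,[]⟩) (.F ⟨⟨4,5,3,1,0,5,8⟩,[]⟩)))) (.N (.N (.N (.F ⟨⟨4,5,2,3,5,6,9⟩,[]⟩) (.F ⟨⟨17,5,0,0,0,1,1⟩,[]⟩)) (.N (.F ⟨⟨11,5,1,0,3,2,3⟩,[]⟩) (.F ⟨⟨4,5,3,1,0,5,8⟩,[]⟩))) (.N (.N (.F ⟨⟨11,5,1,0,2,2,3⟩,[]⟩) (.F ⟨⟨5,5,3,1,0,5,8⟩,[]⟩)) (.F ⟨⟨2,0,4,2,0,4,6⟩,[]⟩))))) (.F ⟨⟨0,0,2,1,0,2,3⟩,[]⟩))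
    [true, true, true, false, true, false, false, true, true, false, false, true, false] = true := by decide +kernel

theorem e5_104 : treeE 5 208 145 (rows0 5 [4, 3, 2, 1, 0])
    (.F ⟨⟨8,5,0,0,0,1,2⟩,[]⟩)
    [true, true, false, false, true, true, false, false, true, false] = true := by decide +kernel

theorem e5_105 : treeE 5 208 145 (rows0 5 [4, 3, 2, 1, 0])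
    (.N (.F ⟨⟨8,5,0,0,1,1,2⟩,[]⟩) (.N (.F ⟨⟨8,5,0,0,1,1,1⟩,[]⟩) (.N (.F ⟨⟨6,5,0,0,3,1,1⟩,[]⟩) (.F ⟨⟨7,5,0,0,0,2,3⟩,[]⟩))))
    [false, true, false, true, true, false, false, true, false] = true := by decide +kernel

theorem e5_106 : treeE 5 208 145 (rows0 5 [4, 3, 2, 1, 0])
    (.N (.N (.N (.N (.F ⟨⟨8,5,0,1,2,1,1⟩,[]⟩) (.N (.N (.F ⟨⟨9,3,0,2,0,1,1⟩,[]⟩) (.N (.F ⟨⟨17,5,0,0,1,1,1⟩,[]⟩) (.F ⟨⟨12,5,0,1,0,2,3⟩,[]⟩))) (.N (.N (.F ⟨⟨7,2,0,4,0,2,3⟩,[]⟩) (.F ⟨⟨12,5,0,1,0,2,3⟩,[]⟩)) (.N (.F ⟨⟨17,5,0,0,1,1,1⟩,[]⟩) (.F ⟨⟨11,0,2,1,0,2,3⟩,[]⟩))))) (.F ⟨⟨10,5,0,1,0,2,3⟩,[]⟩)) (.N (.F ⟨⟨13,5,0,0,1,1,1⟩,[]⟩) (.F ⟨⟨9,5,0,1,0,2,3⟩,[]⟩)))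 (.N (.N (.N (.F ⟨⟨12,5,0,0,1,1,1⟩,[]⟩) (.N (.F ⟨⟨15,5,0,0,1,1,1⟩,[]⟩) (.N (.N (.N (.N (.F ⟨⟨10,5,0,2,4,2,3⟩,[]⟩) (.N (.F ⟨⟨9,1,0,3,0,2,2⟩,[]⟩) (.N (.F ⟨⟨9,1,0,3,0,2,2⟩,[]⟩) (.N (.F ⟨⟨9,1,0,3,0,2,2⟩,[]⟩) (.F ⟨⟨11,0,2,1,0,2,3⟩,[]⟩))))) (.F ⟨⟨9,5,0,1,0,5,7⟩,[]⟩)) (.N (.F ⟨⟨18,5,0,0,1,1,1⟩,[]⟩) (.N (.N (.N (.F ⟨⟨13,5,0,2,0,3,4⟩,[]⟩) (.N (.F ⟨⟨13,5,0,2,0,3,4⟩,[]⟩) (.N (.F ⟨⟨13,5,0,2,0,3,4⟩,[]⟩) (.N (.F ⟨⟨9,1,0,4,1,2,2⟩,[]⟩) (.F ⟨⟨11,0,2,1,0,2,3⟩,[]⟩))))) (.F ⟨⟨20,5,0,0,0,1,1⟩,[]⟩)) (.F ⟨⟨17,5,0,0,0,1,1⟩,[]⟩)))) (.F ⟨⟨8,5,0,1,0,4,5⟩,[]⟩)))) (.F ⟨⟨13,5,0,0,0,1,1⟩,[]⟩)) (.N (.N (.F ⟨⟨14,5,0,0,1,1,2⟩,[]⟩) (.N (.F ⟨⟨13,5,0,0,1,1,1⟩,[]⟩)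 (.N (.F ⟨⟨11,5,0,0,1,1,1⟩,[]⟩) (.F ⟨⟨9,5,0,1,0,3,4⟩,[]⟩)))) (.F ⟨⟨7,5,0,0,0,1,1⟩,[]⟩))))
    [false, false, false, true, true, false, true, true, false, false, true, false] = true := by decide +kernel

theorem e5_107 : treeE 5 208 145 (rows0 5 [4, 3, 2, 1, 0])
    (.N (.N (.N (.N (.N (.F ⟨⟨11,5,0,0,1,1,1⟩,[]⟩) (.N (.F ⟨⟨16,5,0,0,1,1,1⟩,[]⟩) (.F ⟨⟨8,5,0,1,0,4,5⟩,[]⟩))) (.N (.N (.F ⟨⟨12,5,0,0,1,2,3⟩,[]⟩) (.F ⟨⟨10,5,0,1,0,3,4⟩,[]⟩)) (.N (.F ⟨⟨16,5,0,0,1,1,1⟩,[]⟩) (.F ⟨⟨7,4,2,2,0,3,4⟩,[]⟩)))) (.F ⟨⟨13,5,0,0,0,1,1⟩,[]⟩)) (.N (.N (.F ⟨⟨14,5,0,0,1,1,2⟩,[]⟩) (.N (.F ⟨⟨12,5,0,0,1,1,1⟩,[]⟩) (.F ⟨⟨9,5,0,1,0,3,4⟩,[]⟩))) (.F ⟨⟨8,5,0,0,0,1,1⟩,[]⟩)))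 (.N (.N (.N (.N (.F ⟨⟨13,5,0,0,1,1,2⟩,[]⟩) (.F ⟨⟨9,5,0,1,0,3,4⟩,[]⟩)) (.N (.F ⟨⟨15,5,0,0,1,1,1⟩,[]⟩) (.F ⟨⟨7,4,2,2,0,3,4⟩,[]⟩))) (.F ⟨⟨13,5,0,0,0,1,1⟩,[]⟩)) (.N (.N (.F ⟨⟨14,5,0,0,1,1,2⟩,[]⟩) (.N (.N (.N (.N (.F ⟨⟨8,5,1,2,4,2,3⟩,[]⟩) (.F ⟨⟨18,5,0,0,0,1,1⟩,[]⟩)) (.N (.F ⟨⟨18,5,0,0,1,1,1⟩,[]⟩) (.F ⟨⟨9,5,1,1,0,3,5⟩,[]⟩))) (.N (.N (.F ⟨⟨4,5,2,3,7,8,11⟩,[]⟩) (.F ⟨⟨18,5,0,0,0,1,1⟩,[]⟩)) (.N (.F ⟨⟨5,5,2,3,7,6,9⟩,[]⟩) (.F ⟨⟨5,5,3,1,0,5,8⟩,[]⟩)))) (.N (.N (.N (.F ⟨⟨4,5,2,3,5,8,11⟩,[]⟩) (.F ⟨⟨18,5,0,0,0,1,1⟩,[]⟩)) (.N (.F ⟨⟨5,5,2,3,7,6,9⟩,[]⟩) (.F ⟨⟨5,5,3,1,0,5,8⟩,[]⟩))) (.N (.N (.F ⟨⟨5,5,2,3,5,6,9⟩,[]⟩) (.F ⟨⟨5,5,3,1,0,5,8⟩,[]⟩))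 (.F ⟨⟨2,0,4,2,0,4,6⟩,[]⟩))))) (.F ⟨⟨0,0,2,1,0,2,3⟩,[]⟩))))
    [true, false, false, true, true, false, true, true, false, false, true, false] = true := by decide +kernel

theorem e5_108 : treeE 5 208 145 (rows0 5 [4, 3, 2, 1, 0])
    (.F ⟨⟨9,5,0,0,0,1,1⟩,[]⟩)
    [true, false, true, true, false, true, true, false, false, true, false] = true := by decide +kernel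

theorem e5_109 : treeE 5 208 145 (rows0 5 [4, 3, 2, 1, 0])
    (.F ⟨⟨6,5,0,0,0,1,1⟩,[]⟩)
    [true, true, true, false, true, true, false, false, true, false] = true := by decide +kernel

theorem e5_110 : treeE 5 208 145 (rows0 5 [4, 3, 2, 1, 0])
    (.N (.N (.N (.N (.F ⟨⟨7,5,0,0,1,1,2⟩,[]⟩) (.N (.F ⟨⟨7,5,0,0,1,1,1⟩,[]⟩) (.F ⟨⟨10,5,0,0,0,1,2⟩,[]⟩))) (.N (.F ⟨⟨9,5,0,0,1,1,1⟩,[]⟩) (.N (.N (.F ⟨⟨4,5,0,0,1,2,3⟩,[]⟩) (.F ⟨⟨2,5,0,0,11,2,3⟩,[]⟩)) (.F ⟨⟨2,5,0,0,4,2,3⟩,[]⟩)))) (.F ⟨⟨7,5,0,0,0,1,1⟩,[]⟩)) (.N (.N (.F ⟨⟨8,5,0,0,1,1,2⟩,[]⟩) (.N (.F ⟨⟨8,5,0,0,1,1,1⟩,[]⟩) (.F ⟨⟨4,5,0,0,3,1,1⟩,[]⟩))) (.F ⟨⟨3,5,0,0,0,1,1⟩,[]⟩)))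
    [true, true, true, false, false, true, false] = true := by decide +kernel

theorem e5_111 : treeE 5 208 145 (rows0 5 [4, 3, 2, 1, 0])
    (.N (.F ⟨⟨2,5,0,0,1,2,3⟩,[]⟩) (.N (.N (.F ⟨⟨3,5,0,0,4,2,3⟩,[]⟩) (.F ⟨⟨6,5,0,0,1,1,1⟩,[]⟩)) (.F ⟨⟨6,5,0,0,0,1,2⟩,[]⟩)))
    [false, false, true, false, true, false] = true := by decide +kernel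

theorem e5_112 : treeE 5 208 145 (rows0 5 [4, 3, 2, 1, 0])
    (.F ⟨⟨6,5,0,0,1,1,2⟩,[]⟩)
    [false, false, true, false, true, false, true, false] = true := by decide +kernel

theorem e5_113 : treeE 5 208 145 (rows0 5 [4, 3, 2, 1, 0])
    (.N (.N (.N (.F ⟨⟨7,5,0,1,2,1,1⟩,[]⟩) (.F ⟨⟨9,5,0,1,0,2,3⟩,[]⟩)) (.N (.F ⟨⟨13,5,0,0,1,1,1⟩,[]⟩) (.N (.N (.N (.F ⟨⟨4,1,0,4,2,1,1⟩,[]⟩) (.N (.F ⟨⟨4,1,0,4,2,1,1⟩,[]⟩) (.N (.F ⟨⟨4,1,0,4,2,1,1⟩,[]⟩) (.N (.F ⟨⟨4,1,0,4,2,1,1⟩,[]⟩) (.F ⟨⟨11,0,2,1,0,2,3⟩,[]⟩))))) (.F ⟨⟨15,5,0,0,0,1,1⟩,[]⟩)) (.F ⟨⟨8,5,0,1,0,2,3⟩,[]⟩)))) (.N (.N (.F ⟨⟨6,5,0,1,3,2,3⟩,[]⟩) (.F ⟨⟨8,5,0,1,0,2,3⟩,[]⟩)) (.N (.F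 ⟨⟨13,5,0,0,1,1,1⟩,[]⟩) (.N (.N (.N (.N (.F ⟨⟨4,1,0,5,3,1,1⟩,[]⟩) (.N (.F ⟨⟨4,1,0,6,4,1,1⟩,[]⟩) (.N (.F ⟨⟨7,5,0,4,0,5,7⟩,[]⟩) (.N (.F ⟨⟨4,1,0,6,4,1,1⟩,[]⟩) (.F ⟨⟨11,0,2,1,0,2,3⟩,[]⟩))))) (.F ⟨⟨16,5,0,0,0,1,1⟩,[]⟩)) (.N (.N (.F ⟨⟨17,5,0,0,1,1,2⟩,[]⟩) (.N (.F ⟨⟨17,5,0,0,1,1,1⟩,[]⟩) (.N (.F ⟨⟨15,5,0,0,3,1,1⟩,[]⟩) (.F ⟨⟨16,5,0,0,0,2,3⟩,[]⟩)))) (.F ⟨⟨9,5,0,1,0,3,5⟩,[]⟩))) (.F ⟨⟨5,5,0,1,0,3,5⟩,[]⟩)))))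
    [false, false, false, false, true, false, true, false, true, false, true, false] = true := by decide +kernel

theorem e5_114 : treeE 5 208 145 (rows0 5 [4, 3, 2, 1, 0])
    (.N (.N (.N (.F ⟨⟨6,5,0,1,3,2,3⟩,[]⟩) (.N (.N (.F ⟨⟨7,5,0,1,2,5,7⟩,[]⟩) (.F ⟨⟨10,5,0,1,0,3,4⟩,[]⟩)) (.N (.F ⟨⟨16,5,0,0,1,1,1⟩,[]⟩) (.N (.N (.N (.N (.F ⟨⟨12,5,0,1,3,1,1⟩,[]⟩) (.N (.F ⟨⟨12,0,2,2,0,3,4⟩,[]⟩) (.F ⟨⟨21,5,0,0,0,1,2⟩,[]⟩))) (.N (.F ⟨⟨20,5,0,0,1,1,1⟩,[]⟩) (.N (.F ⟨⟨13,5,1,0,2,2,2⟩,[]⟩) (.F ⟨⟨19,5,0,0,0,1,1⟩,[]⟩)))) (.N (.N (.F ⟨⟨15,5,1,0,2,2,3⟩,[]⟩) (.F ⟨⟨20,5,0,0,0,1,1⟩,[]⟩)) (.N (.F ⟨⟨20,5,0,0,1,1,1⟩,[]⟩) (.N (.N (.N (.F ⟨⟨12,0,2,2,0,3,4⟩,[]⟩)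 (.F ⟨⟨23,5,0,0,0,1,1⟩,[]⟩)) (.N (.F ⟨⟨17,5,1,0,3,3,4⟩,[]⟩) (.F ⟨⟨19,5,0,0,0,2,3⟩,[]⟩))) (.F ⟨⟨10,5,3,1,0,6,10⟩,[]⟩))))) (.N (.N (.N (.F ⟨⟨15,5,1,0,1,2,3⟩,[]⟩) (.F ⟨⟨20,5,0,0,0,1,1⟩,[]⟩)) (.N (.F ⟨⟨20,5,0,0,1,1,1⟩,[]⟩) (.F ⟨⟨10,5,3,1,0,6,10⟩,[]⟩))) (.N (.N (.F ⟨⟨12,5,2,0,1,4,7⟩,[]⟩) (.F ⟨⟨20,5,0,0,0,1,1⟩,[]⟩)) (.N (.F ⟨⟨16,5,1,0,1,2,3⟩,[]⟩) (.F ⟨⟨10,5,3,1,0,3,5⟩,[]⟩)))))))) (.F ⟨⟨8,5,0,1,0,2,3⟩,[]⟩)) (.N (.F ⟨⟨13,5,0,0,1,1,1⟩,[]⟩) (.F ⟨⟨5,5,0,1,0,3,5⟩,[]⟩)))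
    [false, true, false, false, false, true, false, true, false, true, false, true, false] = true := by decide +kernel

theorem e5_115 : treeE 5 208 145 (rows0 5 [4, 3, 2, 1, 0])
    (.N (.N (.N (.F ⟨⟨12,5,0,0,1,1,1⟩,[]⟩) (.F ⟨⟨5,5,0,1,4,3,4⟩,[]⟩)) (.F ⟨⟨13,5,0,0,0,1,1⟩,[]⟩)) (.N (.N (.F ⟨⟨14,5,0,0,1,1,2⟩,[]⟩) (.N (.N (.N (.N (.F ⟨⟨11,4,1,2,0,2,3⟩,[]⟩) (.F ⟨⟨10,5,1,1,0,3,5⟩,[]⟩)) (.N (.F ⟨⟨18,5,0,0,1,1,1⟩,[]⟩) (.N (.N (.N (.N (.F ⟨⟨7,4,2,6,0,6,8⟩,[]⟩) (.N (.N (.N (.F ⟨⟨23,5,0,0,1,1,1⟩,[]⟩) (.N (.F ⟨⟨26,5,0,0,1,1,1⟩,[]⟩) (.F ⟨⟨12,3,2,3,6,7,9⟩,[]⟩))) (.F ⟨⟨24,5,0,0,0,1,1⟩,[]⟩)) (.N (.F ⟨⟨7,5,2,7,11,10,15⟩,[]⟩) (.F ⟨⟨16,5,0,1,0,2,3⟩,[]⟩))))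 (.N (.N (.N (.N (.N (.F ⟨⟨22,5,0,0,1,1,1⟩,[]⟩) (.N (.F ⟨⟨27,5,0,0,1,1,1⟩,[]⟩) (.F ⟨⟨12,0,2,3,5,7,9⟩,[]⟩))) (.N (.N (.F ⟨⟨23,5,0,0,1,2,3⟩,[]⟩) (.F ⟨⟨12,3,2,3,5,7,9⟩,[]⟩)) (.F ⟨⟨12,3,2,3,5,7,9⟩,[]⟩))) (.F ⟨⟨24,5,0,0,0,1,1⟩,[]⟩)) (.N (.F ⟨⟨7,5,2,7,11,10,15⟩,[]⟩) (.F ⟨⟨16,5,0,1,0,2,3⟩,[]⟩))) (.N (.N (.F ⟨⟨7,5,2,7,9,10,15⟩,[]⟩) (.F ⟨⟨16,5,0,1,0,2,3⟩,[]⟩)) (.F ⟨⟨2,0,7,7,0,9,14⟩,[]⟩)))) (.F ⟨⟨20,5,0,0,0,1,1⟩,[]⟩)) (.F ⟨⟨8,5,1,1,0,3,5⟩,[]⟩)))) (.N (.N (.F ⟨⟨8,5,1,1,5,3,5⟩,[]⟩) (.F ⟨⟨8,5,1,1,0,3,5⟩,[]⟩)) (.N (.F ⟨⟨18,5,0,0,1,1,1⟩,[]⟩) (.N (.N (.N (.F ⟨⟨14,0,2,2,0,3,4⟩,[]⟩) (.F ⟨⟨21,5,0,0,0,1,1⟩,[]⟩)) (.N (.F ⟨⟨15,5,1,0,3,3,4⟩,[]⟩)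 (.F ⟨⟨17,5,0,0,0,2,3⟩,[]⟩))) (.F ⟨⟨5,5,4,1,0,7,10⟩,[]⟩))))) (.N (.N (.N (.F ⟨⟨8,5,1,1,3,3,5⟩,[]⟩) (.F ⟨⟨8,5,1,1,0,3,5⟩,[]⟩)) (.N (.F ⟨⟨18,5,0,0,1,1,1⟩,[]⟩) (.F ⟨⟨5,5,4,1,0,7,10⟩,[]⟩))) (.N (.N (.F ⟨⟨14,5,0,0,2,1,1⟩,[]⟩) (.F ⟨⟨18,5,0,0,0,1,1⟩,[]⟩)) (.N (.F ⟨⟨18,5,0,0,1,1,1⟩,[]⟩) (.F ⟨⟨8,5,3,1,0,3,5⟩,[]⟩)))))) (.F ⟨⟨0,0,2,1,0,2,3⟩,[]⟩)))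
    [true, true, false, false, false, true, false, true, false, true, false, true, false] = true := by decide +kernel

theorem e5_116 : treeE 5 208 145 (rows0 5 [4, 3, 2, 1, 0])
    (.N (.N (.N (.N (.N (.N (.F ⟨⟨6,5,0,2,4,2,3⟩,[]⟩) (.N (.F ⟨⟨6,5,0,3,5,2,2⟩,[]⟩) (.N (.N (.F ⟨⟨7,5,0,3,4,5,7⟩,[]⟩) (.F ⟨⟨13,5,0,1,0,2,3⟩,[]⟩)) (.N (.F ⟨⟨18,5,0,0,1,1,1⟩,[]⟩) (.F ⟨⟨12,0,2,1,0,2,3⟩,[]⟩))))) (.F ⟨⟨14,5,0,0,0,1,1⟩,[]⟩)) (.N (.N (.F ⟨⟨15,5,0,0,1,1,2⟩,[]⟩) (.N (.F ⟨⟨13,5,0,0,1,1,1⟩,[]⟩) (.F ⟨⟨11,5,0,1,0,3,4⟩,[]⟩))) (.F ⟨⟨8,5,0,1,0,2,3⟩,[]⟩))) (.N (.N (.N (.N (.F ⟨⟨14,5,0,0,1,1,2⟩,[]⟩) (.F ⟨⟨11,5,0,1,0,3,4⟩,[]⟩)) (.N (.F ⟨⟨16,5,0,0,1,1,1⟩,[]⟩)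 (.N (.N (.F ⟨⟨5,5,0,3,5,5,7⟩,[]⟩) (.N (.F ⟨⟨19,5,0,0,1,1,1⟩,[]⟩) (.F ⟨⟨10,5,0,2,0,8,12⟩,[]⟩))) (.F ⟨⟨5,5,0,3,0,8,12⟩,[]⟩)))) (.F ⟨⟨8,5,0,1,0,2,3⟩,[]⟩)) (.N (.F ⟨⟨14,5,0,0,1,1,1⟩,[]⟩) (.F ⟨⟨5,5,0,1,0,3,5⟩,[]⟩)))) (.N (.N (.N (.N (.N (.N (.F ⟨⟨13,5,0,0,1,1,2⟩,[]⟩) (.F ⟨⟨11,5,0,1,0,3,4⟩,[]⟩)) (.N (.F ⟨⟨17,5,0,0,1,1,1⟩,[]⟩) (.F ⟨⟨5,5,0,3,0,8,12⟩,[]⟩))) (.N (.N (.F ⟨⟨13,5,0,0,1,2,3⟩,[]⟩) (.F ⟨⟨11,5,0,1,0,3,4⟩,[]⟩)) (.N (.F ⟨⟨17,5,0,0,1,1,1⟩,[]⟩) (.F ⟨⟨10,4,2,2,0,3,4⟩,[]⟩)))) (.F ⟨⟨8,5,0,1,0,2,3⟩,[]⟩)) (.N (.F ⟨⟨14,5,0,0,1,1,1⟩,[]⟩) (.F ⟨⟨5,5,0,1,0,3,5⟩,[]⟩))) (.N (.N (.N (.F ⟨⟨13,5,0,0,1,1,1⟩,[]⟩) (.F ⟨⟨5,5,0,1,4,3,4⟩,[]⟩))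 (.F ⟨⟨14,5,0,0,0,1,1⟩,[]⟩)) (.N (.N (.F ⟨⟨15,5,0,0,1,1,2⟩,[]⟩) (.N (.N (.N (.N (.F ⟨⟨8,5,1,3,5,3,5⟩,[]⟩) (.F ⟨⟨19,5,0,0,0,1,1⟩,[]⟩)) (.N (.F ⟨⟨12,5,1,0,2,2,3⟩,[]⟩) (.F ⟨⟨8,5,1,1,0,3,5⟩,[]⟩))) (.N (.N (.F ⟨⟨6,5,1,2,8,4,6⟩,[]⟩) (.F ⟨⟨8,5,1,1,0,3,5⟩,[]⟩)) (.N (.F ⟨⟨19,5,0,0,1,1,1⟩,[]⟩) (.F ⟨⟨5,5,4,1,0,7,10⟩,[]⟩)))) (.N (.N (.N (.F ⟨⟨6,5,1,2,5,4,6⟩,[]⟩) (.F ⟨⟨8,5,1,1,0,3,5⟩,[]⟩)) (.N (.F ⟨⟨19,5,0,0,1,1,1⟩,[]⟩) (.F ⟨⟨5,5,4,1,0,7,10⟩,[]⟩))) (.N (.N (.F ⟨⟨15,5,0,0,2,1,1⟩,[]⟩) (.F ⟨⟨19,5,0,0,0,1,1⟩,[]⟩)) (.F ⟨⟨4,0,5,2,0,5,7⟩,[]⟩))))) (.F ⟨⟨0,0,2,1,0,2,3⟩,[]⟩))))) (.F ⟨⟨10,5,0,0,0,1,2⟩,[]⟩))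
    [true, false, false, true, false, true, false, true, false, true, false] = true := by decide +kernel

theorem e5_117 : treeE 5 208 145 (rows0 5 [4, 3, 2, 1, 0])
    (.N (.F ⟨⟨9,5,0,0,1,1,1⟩,[]⟩) (.N (.N (.N (.F ⟨⟨2,5,0,5,0,6,10⟩,[]⟩) (.N (.F ⟨⟨2,5,0,5,0,6,10⟩,[]⟩) (.N (.F ⟨⟨2,5,0,5,0,6,10⟩,[]⟩) (.N (.N (.F ⟨⟨16,5,0,0,1,1,2⟩,[]⟩) (.F ⟨⟨2,0,6,5,0,7,11⟩,[]⟩)) (.F ⟨⟨0,0,2,1,0,2,3⟩,[]⟩))))) (.F ⟨⟨11,5,0,0,0,1,1⟩,[]⟩)) (.N (.N (.F ⟨⟨12,5,0,0,1,1,2⟩,[]⟩) (.N (.F ⟨⟨12,5,0,0,1,1,1⟩,[]⟩) (.F ⟨⟨8,5,0,0,3,1,1⟩,[]⟩))) (.F ⟨⟨9,5,0,0,0,1,2⟩,[]⟩))))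
    [true, false, true, false, true, false, true, false, true, false] = true := by decide +kernel

theorem e5_118 : treeE 5 208 145 (rows0 5 [4, 3, 2, 1, 0])
    (.N (.N (.F ⟨⟨6,5,0,0,2,1,1⟩,[]⟩) (.N (.N (.N (.F ⟨⟨9,5,0,0,1,2,3⟩,[]⟩) (.F ⟨⟨12,5,0,0,0,1,1⟩,[]⟩)) (.F ⟨⟨8,5,0,0,2,1,1⟩,[]⟩)) (.F ⟨⟨10,5,0,0,0,1,2⟩,[]⟩))) (.N (.F ⟨⟨9,5,0,0,1,1,1⟩,[]⟩) (.N (.N (.N (.N (.N (.N (.N (.N (.F ⟨⟨11,5,0,1,2,1,2⟩,[]⟩) (.N (.F ⟨⟨11,3,0,2,0,1,1⟩,[]⟩) (.N (.F ⟨⟨8,1,0,4,0,2,3⟩,[]⟩) (.N (.F ⟨⟨8,1,0,4,0,2,3⟩,[]⟩) (.F ⟨⟨14,0,2,1,0,2,3⟩,[]⟩))))) (.F ⟨⟨13,5,0,1,0,2,3⟩,[]⟩)) (.N (.F ⟨⟨16,5,0,0,1,1,1⟩,[]⟩) (.F ⟨⟨8,5,0,2,0,4,7⟩,[]⟩))) (.N (.N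 (.F ⟨⟨11,5,0,1,2,2,3⟩,[]⟩) (.F ⟨⟨11,5,0,1,0,2,3⟩,[]⟩)) (.N (.F ⟨⟨16,5,0,0,1,1,1⟩,[]⟩) (.F ⟨⟨11,5,0,1,0,2,3⟩,[]⟩)))) (.N (.N (.N (.N (.F ⟨⟨11,5,0,1,2,2,3⟩,[]⟩) (.N (.N (.F ⟨⟨15,5,0,0,1,2,3⟩,[]⟩) (.F ⟨⟨13,5,0,1,0,3,4⟩,[]⟩)) (.N (.F ⟨⟨19,5,0,0,1,1,1⟩,[]⟩) (.F ⟨⟨8,4,2,2,0,3,4⟩,[]⟩)))) (.F ⟨⟨11,5,0,1,0,2,3⟩,[]⟩)) (.N (.F ⟨⟨16,5,0,0,1,1,1⟩,[]⟩) (.F ⟨⟨11,5,0,1,0,2,3⟩,[]⟩))) (.N (.N (.N (.F ⟨⟨15,5,0,0,1,1,1⟩,[]⟩) (.F ⟨⟨9,5,0,1,4,2,2⟩,[]⟩)) (.F ⟨⟨16,5,0,0,0,1,1⟩,[]⟩)) (.N (.N (.F ⟨⟨17,5,0,0,1,1,2⟩,[]⟩) (.F ⟨⟨8,4,2,2,0,3,4⟩,[]⟩)) (.F ⟨⟨0,0,2,1,0,2,3⟩,[]⟩))))) (.F ⟨⟨12,5,0,0,0,1,1⟩,[]⟩)) (.N (.N (.F ⟨⟨13,5,0,0,1,1,2⟩,[]⟩) (.N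 (.F ⟨⟨13,5,0,0,1,1,1⟩,[]⟩) (.N (.F ⟨⟨11,5,0,0,3,1,1⟩,[]⟩) (.F ⟨⟨12,5,0,0,0,2,3⟩,[]⟩)))) (.F ⟨⟨6,5,0,0,4,2,3⟩,[]⟩))) (.F ⟨⟨5,5,0,0,0,2,3⟩,[]⟩))))
    [true, true, false, true, false, true, false, true, false] = true := by decide +kernel

theorem e5_119 : treeE 5 208 145 (rows0 5 [4, 3, 2, 1, 0])
    (.N (.N (.N (.F ⟨⟨6,5,0,1,2,1,1⟩,[]⟩) (.F ⟨⟨8,5,0,1,0,2,3⟩,[]⟩)) (.N (.F ⟨⟨12,5,0,0,1,1,1⟩,[]⟩) (.N (.N (.N (.F ⟨⟨4,1,0,2,0,1,1⟩,[]⟩) (.N (.F ⟨⟨4,1,0,2,0,1,1⟩,[]⟩) (.N (.F ⟨⟨4,1,0,2,0,1,1⟩,[]⟩) (.N (.F ⟨⟨18,5,0,0,1,1,1⟩,[]⟩) (.F ⟨⟨10,0,2,1,0,2,3⟩,[]⟩))))) (.F ⟨⟨14,5,0,0,0,1,1⟩,[]⟩)) (.F ⟨⟨7,5,0,1,0,2,3⟩,[]⟩)))) (.N (.N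 (.F ⟨⟨2,5,0,1,2,5,7⟩,[]⟩) (.F ⟨⟨7,5,0,1,0,2,3⟩,[]⟩)) (.N (.N (.F ⟨⟨13,5,0,0,1,1,2⟩,[]⟩) (.N (.F ⟨⟨12,5,0,0,1,1,1⟩,[]⟩) (.N (.F ⟨⟨10,5,0,0,1,1,1⟩,[]⟩) (.N (.F ⟨⟨16,5,0,0,1,1,1⟩,[]⟩) (.F ⟨⟨8,5,0,1,0,3,5⟩,[]⟩))))) (.F ⟨⟨7,5,0,1,0,2,3⟩,[]⟩))))
    [false, false, false, false, true, true, false, true, false, true, false] = true := by decide +kernel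

theorem e5_120 : treeE 5 208 145 (rows0 5 [4, 3, 2, 1, 0])
    (.N (.N (.N (.F ⟨⟨2,5,0,1,2,5,7⟩,[]⟩) (.N (.N (.F ⟨⟨11,5,0,0,1,2,3⟩,[]⟩) (.N (.N (.N (.F ⟨⟨15,5,0,0,1,2,3⟩,[]⟩) (.F ⟨⟨14,5,0,0,3,1,1⟩,[]⟩)) (.F ⟨⟨16,5,0,0,1,1,1⟩,[]⟩)) (.F ⟨⟨16,5,0,0,0,1,2⟩,[]⟩))) (.N (.F ⟨⟨15,5,0,0,1,1,1⟩,[]⟩) (.N (.N (.N (.N (.F ⟨⟨11,5,0,1,3,1,1⟩,[]⟩) (.N (.F ⟨⟨11,0,2,2,0,3,4⟩,[]⟩) (.F ⟨⟨20,5,0,0,0,1,2⟩,[]⟩))) (.N (.F ⟨⟨19,5,0,0,1,1,1⟩,[]⟩) (.N (.F ⟨⟨12,5,1,0,2,2,2⟩,[]⟩) (.F ⟨⟨18,5,0,0,0,1,1⟩,[]⟩)))) (.N (.N (.F ⟨⟨14,5,1,0,2,2,3⟩,[]⟩) (.F ⟨⟨19,5,0,0,0,1,1⟩,[]⟩)) (.N (.F ⟨⟨14,5,1,0,2,2,3⟩,[]⟩) (.N (.N (.N (.F ⟨⟨11,0,2,2,0,3,4⟩,[]⟩) (.F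 ⟨⟨22,5,0,0,0,1,1⟩,[]⟩)) (.N (.F ⟨⟨16,5,1,0,3,3,4⟩,[]⟩) (.F ⟨⟨18,5,0,0,0,2,3⟩,[]⟩))) (.F ⟨⟨14,5,1,0,0,2,3⟩,[]⟩))))) (.N (.N (.N (.F ⟨⟨14,5,1,0,1,2,3⟩,[]⟩) (.F ⟨⟨19,5,0,0,0,1,1⟩,[]⟩)) (.N (.F ⟨⟨14,5,1,0,2,2,3⟩,[]⟩) (.F ⟨⟨14,5,1,0,0,2,3⟩,[]⟩))) (.N (.N (.F ⟨⟨11,5,2,0,1,4,7⟩,[]⟩) (.F ⟨⟨19,5,0,0,0,1,1⟩,[]⟩)) (.N (.F ⟨⟨16,5,1,0,1,2,3⟩,[]⟩) (.F ⟨⟨9,5,3,1,0,3,5⟩,[]⟩)))))))) (.F ⟨⟨7,5,0,1,0,2,3⟩,[]⟩)) (.N (.N (.F ⟨⟨13,5,0,0,1,1,2⟩,[]⟩) (.N (.F ⟨⟨11,5,0,0,1,1,1⟩,[]⟩) (.N (.F ⟨⟨15,5,0,0,1,1,1⟩,[]⟩) (.F ⟨⟨12,5,0,0,0,2,3⟩,[]⟩)))) (.F ⟨⟨7,5,0,1,0,2,3⟩,[]⟩)))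
    [false, true, false, false, false, true, true, false, true, false, true, false] = true := by decide +kernel

theorem e5_121 : treeE 5 208 145 (rows0 5 [4, 3, 2, 1, 0])
    (.N (.N (.N (.N (.F ⟨⟨12,5,0,0,1,1,2⟩,[]⟩) (.N (.N (.F ⟨⟨11,5,0,0,3,1,1⟩,[]⟩) (.F ⟨⟨15,5,0,0,1,1,1⟩,[]⟩)) (.F ⟨⟨15,5,0,0,0,1,2⟩,[]⟩))) (.N (.F ⟨⟨14,5,0,0,1,1,1⟩,[]⟩) (.N (.N (.N (.N (.F ⟨⟨10,4,1,2,0,2,3⟩,[]⟩) (.F ⟨⟨9,5,1,1,0,3,5⟩,[]⟩)) (.N (.F ⟨⟨18,5,0,0,1,1,1⟩,[]⟩) (.N (.N (.F ⟨⟨12,0,2,2,0,3,4⟩,[]⟩) (.F ⟨⟨20,5,0,0,0,1,1⟩,[]⟩)) (.F ⟨⟨7,5,3,1,0,5,7⟩,[]⟩)))) (.N (.N (.F ⟨⟨13,5,0,0,3,1,1⟩,[]⟩) (.F ⟨⟨7,5,3,1,0,5,7⟩,[]⟩)) (.N (.F ⟨⟨18,5,0,0,1,1,1⟩,[]⟩)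 (.N (.N (.N (.F ⟨⟨12,0,2,2,0,3,4⟩,[]⟩) (.F ⟨⟨21,5,0,0,0,1,1⟩,[]⟩)) (.N (.F ⟨⟨15,5,1,0,3,3,4⟩,[]⟩) (.F ⟨⟨17,5,0,0,0,2,3⟩,[]⟩))) (.N (.N (.F ⟨⟨13,5,1,0,3,4,5⟩,[]⟩) (.F ⟨⟨21,5,0,0,0,1,1⟩,[]⟩)) (.F ⟨⟨16,5,0,0,0,1,1⟩,[]⟩)))))) (.N (.N (.N (.F ⟨⟨12,5,0,0,2,1,1⟩,[]⟩) (.F ⟨⟨7,5,3,1,0,5,7⟩,[]⟩)) (.N (.F ⟨⟨18,5,0,0,1,1,1⟩,[]⟩) (.N (.N (.N (.F ⟨⟨13,5,1,0,3,4,5⟩,[]⟩) (.N (.N (.N (.F ⟨⟨22,5,0,0,1,1,1⟩,[]⟩) (.F ⟨⟨17,5,0,0,4,3,3⟩,[]⟩)) (.F ⟨⟨23,5,0,0,0,1,1⟩,[]⟩)) (.F ⟨⟨13,5,1,0,2,3,3⟩,[]⟩))) (.F ⟨⟨20,5,0,0,0,1,1⟩,[]⟩)) (.F ⟨⟨17,5,0,0,0,1,1⟩,[]⟩)))) (.N (.N (.F ⟨⟨14,5,1,0,1,2,3⟩,[]⟩) (.F ⟨⟨18,5,0,0,0,1,1⟩,[]⟩)) (.N (.F ⟨⟨15,5,1,0,1,2,3⟩,[]⟩)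 (.F ⟨⟨8,5,3,1,0,3,5⟩,[]⟩))))))) (.F ⟨⟨12,5,0,0,0,1,1⟩,[]⟩)) (.N (.N (.F ⟨⟨13,5,0,0,1,1,2⟩,[]⟩) (.N (.N (.N (.N (.F ⟨⟨10,4,1,2,0,2,3⟩,[]⟩) (.F ⟨⟨9,5,1,1,0,3,5⟩,[]⟩)) (.N (.F ⟨⟨17,5,0,0,1,1,1⟩,[]⟩) (.F ⟨⟨8,5,1,1,0,3,5⟩,[]⟩))) (.N (.N (.F ⟨⟨7,5,1,1,5,3,5⟩,[]⟩) (.F ⟨⟨17,5,0,0,0,1,1⟩,[]⟩)) (.N (.F ⟨⟨11,5,1,0,3,2,3⟩,[]⟩) (.F ⟨⟨4,5,3,1,0,5,7⟩,[]⟩)))) (.N (.N (.N (.F ⟨⟨7,5,1,1,3,3,5⟩,[]⟩) (.F ⟨⟨17,5,0,0,0,1,1⟩,[]⟩)) (.N (.F ⟨⟨11,5,1,0,3,2,3⟩,[]⟩) (.F ⟨⟨5,5,3,1,0,5,8⟩,[]⟩))) (.N (.N (.F ⟨⟨11,5,1,0,2,2,3⟩,[]⟩) (.F ⟨⟨6,5,3,1,0,5,8⟩,[]⟩)) (.N (.F ⟨⟨17,5,0,0,1,1,1⟩,[]⟩) (.F ⟨⟨7,5,3,1,0,3,5⟩,[]⟩)))))) (.F ⟨⟨0,0,2,1,0,2,3⟩,[]⟩)))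
    [true, true, false, false, false, true, true, false, true, false, true, false] = true := by decide +kernel

end Pool.Agent.RTX
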