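import Pool.Agent.RTS.Exact

/-!
# RTS: windows of the initial state, part 4
-/

set_option autoImplicit false
set_option maxRecDepth 100000

namespace Pool.Agent.RTX

theorem e5_122 : treeE 5 208 145 (rows0 5 [4, 3, 2, 1, 0])
    (.N (.N (.N (.N (.F ⟨⟨2,5,0,5,6,5,7⟩,[]⟩) (.N (.N (.F ⟨⟨8,5,0,3,4,2,2⟩,[]⟩) (.N (.F ⟨⟨17,5,0,0,1,1,1⟩,[]⟩) (.F ⟨⟨12,5,0,1,0,2,3⟩,[]⟩))) (.N (.N (.F ⟨⟨11,5,0,1,2,2,3⟩,[]⟩) (.F ⟨⟨12,5,0,1,0,2,3⟩,[]⟩)) (.N (.F ⟨⟨17,5,0,0,1,1,1⟩,[]⟩) (.F ⟨⟨11,0,2,1,0,2,3⟩,[]⟩))))) (.F ⟨⟨13,5,0,0,0,1,1⟩,[]⟩)) (.N (.N (.F ⟨⟨14,5,0,0,1,1,2⟩,[]⟩) (.N (.F ⟨⟨12,5,0,0,1,1,1⟩,[]⟩) (.F ⟨⟨10,5,0,1,0,3,4⟩,[]⟩)))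 (.F ⟨⟨7,5,0,1,0,2,3⟩,[]⟩))) (.N (.N (.N (.N (.F ⟨⟨13,5,0,0,1,1,2⟩,[]⟩) (.F ⟨⟨10,5,0,1,0,3,4⟩,[]⟩)) (.N (.F ⟨⟨15,5,0,0,1,1,1⟩,[]⟩) (.N (.N (.F ⟨⟨2,5,0,5,6,9,13⟩,[]⟩) (.N (.F ⟨⟨18,5,0,0,1,1,1⟩,[]⟩) (.F ⟨⟨9,5,0,2,0,8,12⟩,[]⟩))) (.F ⟨⟨5,5,0,3,0,7,11⟩,[]⟩)))) (.F ⟨⟨7,5,0,1,0,2,3⟩,[]⟩)) (.N (.N (.F ⟨⟨14,5,0,0,1,1,2⟩,[]⟩) (.N (.F ⟨⟨13,5,0,0,1,1,1⟩,[]⟩) (.N (.F ⟨⟨11,5,0,0,1,1,1⟩,[]⟩) (.F ⟨⟨4,5,0,2,0,6,9⟩,[]⟩)))) (.F ⟨⟨7,5,0,1,0,2,3⟩,[]⟩))))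
    [false, false, true, false, false, true, true, false, true, false, true, false] = true := by decide +kernel

theorem e5_123 : treeE 5 208 145 (rows0 5 [4, 3, 2, 1, 0])
    (.N (.N (.N (.N (.N (.N (.F ⟨⟨12,5,0,0,1,1,2⟩,[]⟩) (.F ⟨⟨10,5,0,1,0,3,4⟩,[]⟩)) (.N (.F ⟨⟨16,5,0,0,1,1,1⟩,[]⟩) (.F ⟨⟨5,5,0,3,0,7,11⟩,[]⟩))) (.N (.N (.F ⟨⟨12,5,0,0,1,2,3⟩,[]⟩) (.F ⟨⟨10,5,0,1,0,3,4⟩,[]⟩)) (.N (.F ⟨⟨16,5,0,0,1,1,1⟩,[]⟩) (.F ⟨⟨9,4,2,2,0,3,4⟩,[]⟩)))) (.F ⟨⟨7,5,0,1,0,2,3⟩,[]⟩)) (.N (.N (.F ⟨⟨14,5,0,0,1,1,2⟩,[]⟩) (.N (.F ⟨⟨12,5,0,0,1,1,1⟩,[]⟩) (.F ⟨⟨4,5,0,2,0,6,9⟩,[]⟩))) (.F ⟨⟨7,5,0,1,0,2,3⟩,[]⟩))) (.N (.N (.N (.N (.F ⟨⟨13,5,0,0,1,1,2⟩,[]⟩)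 (.F ⟨⟨4,5,0,2,0,6,9⟩,[]⟩)) (.N (.F ⟨⟨15,5,0,0,1,1,1⟩,[]⟩) (.N (.N (.N (.N (.F ⟨⟨8,5,1,3,5,3,5⟩,[]⟩) (.F ⟨⟨19,5,0,0,0,1,1⟩,[]⟩)) (.N (.F ⟨⟨11,5,1,0,3,2,3⟩,[]⟩) (.F ⟨⟨7,5,3,1,0,5,7⟩,[]⟩))) (.N (.N (.F ⟨⟨11,5,1,0,4,2,3⟩,[]⟩) (.F ⟨⟨7,5,3,1,0,5,7⟩,[]⟩)) (.N (.F ⟨⟨19,5,0,0,1,1,1⟩,[]⟩) (.F ⟨⟨3,5,6,3,0,13,19⟩,[]⟩)))) (.N (.N (.N (.F ⟨⟨11,5,1,0,2,2,3⟩,[]⟩) (.F ⟨⟨7,5,3,1,0,5,7⟩,[]⟩)) (.N (.F ⟨⟨19,5,0,0,1,1,1⟩,[]⟩) (.F ⟨⟨3,5,4,3,0,13,19⟩,[]⟩))) (.F ⟨⟨4,0,5,2,0,5,7⟩,[]⟩))))) (.F ⟨⟨13,5,0,0,0,1,1⟩,[]⟩)) (.N (.N (.F ⟨⟨14,5,0,0,1,1,2⟩,[]⟩) (.N (.N (.N (.N (.F ⟨⟨7,5,1,3,5,3,5⟩,[]⟩) (.F ⟨⟨18,5,0,0,0,1,1⟩,[]⟩)) (.N (.F ⟨⟨11,5,1,0,2,2,3⟩,[]⟩)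 (.F ⟨⟨9,5,1,0,0,2,3⟩,[]⟩))) (.N (.N (.F ⟨⟨5,5,2,3,7,6,9⟩,[]⟩) (.F ⟨⟨18,5,0,0,0,1,1⟩,[]⟩)) (.N (.F ⟨⟨12,5,1,0,3,2,3⟩,[]⟩) (.F ⟨⟨5,5,3,1,0,5,8⟩,[]⟩)))) (.N (.N (.N (.F ⟨⟨5,5,2,3,5,6,9⟩,[]⟩) (.F ⟨⟨18,5,0,0,0,1,1⟩,[]⟩)) (.N (.F ⟨⟨12,5,1,0,3,2,3⟩,[]⟩) (.F ⟨⟨5,5,3,1,0,5,8⟩,[]⟩))) (.N (.N (.F ⟨⟨12,5,1,0,2,2,3⟩,[]⟩) (.F ⟨⟨6,5,3,1,0,5,8⟩,[]⟩)) (.F ⟨⟨2,0,4,2,0,4,6⟩,[]⟩))))) (.F ⟨⟨0,0,2,1,0,2,3⟩,[]⟩))))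
    [true, false, true, false, false, true, true, false, true, false, true, false] = true := by decide +kernel

theorem e5_124 : treeE 5 208 145 (rows0 5 [4, 3, 2, 1, 0])
    (.F ⟨⟨9,5,0,0,0,1,2⟩,[]⟩)
    [true, true, false, false, true, true, false, true, false, true, false] = true := by decide +kernel

theorem e5_125 : treeE 5 208 145 (rows0 5 [4, 3, 2, 1, 0])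
    (.F ⟨⟨8,5,0,0,1,1,1⟩,[]⟩)
    [false, true, false, true, true, false, true, false, true, false] = true := by decide +kernel

theorem e5_126 : treeE 5 208 145 (rows0 5 [4, 3, 2, 1, 0])
    (.N (.N (.N (.N (.N (.F ⟨⟨10,5,0,1,2,1,2⟩,[]⟩) (.N (.F ⟨⟨10,3,0,2,0,1,1⟩,[]⟩) (.N (.F ⟨⟨18,5,0,0,1,1,1⟩,[]⟩) (.F ⟨⟨13,5,0,1,0,2,3⟩,[]⟩)))) (.N (.N (.F ⟨⟨10,3,0,2,0,1,1⟩,[]⟩) (.N (.F ⟨⟨18,5,0,0,1,1,1⟩,[]⟩) (.F ⟨⟨13,5,0,1,0,2,3⟩,[]⟩))) (.N (.N (.F ⟨⟨8,2,0,4,0,2,3⟩,[]⟩) (.F ⟨⟨13,5,0,1,0,2,3⟩,[]⟩)) (.N (.F ⟨⟨18,5,0,0,1,1,1⟩,[]⟩) (.F ⟨⟨12,0,2,1,0,2,3⟩,[]⟩))))) (.F ⟨⟨11,5,0,1,0,2,3⟩,[]⟩)) (.N (.F ⟨⟨14,5,0,0,1,1,1⟩,[]⟩) (.F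 ⟨⟨10,5,0,1,0,2,3⟩,[]⟩))) (.N (.N (.N (.F ⟨⟨13,5,0,0,1,1,1⟩,[]⟩) (.N (.F ⟨⟨16,5,0,0,1,1,1⟩,[]⟩) (.N (.N (.N (.N (.F ⟨⟨11,5,0,2,4,2,3⟩,[]⟩) (.N (.F ⟨⟨10,1,0,3,0,2,2⟩,[]⟩) (.N (.F ⟨⟨10,1,0,3,0,2,2⟩,[]⟩) (.N (.F ⟨⟨10,1,0,3,0,2,2⟩,[]⟩) (.F ⟨⟨12,0,2,1,0,2,3⟩,[]⟩))))) (.F ⟨⟨10,5,0,1,0,5,7⟩,[]⟩)) (.N (.F ⟨⟨19,5,0,0,1,1,1⟩,[]⟩) (.N (.F ⟨⟨13,5,0,0,3,3,3⟩,[]⟩) (.F ⟨⟨18,5,0,0,0,1,1⟩,[]⟩)))) (.F ⟨⟨9,5,0,1,0,4,5⟩,[]⟩)))) (.F ⟨⟨14,5,0,0,0,1,1⟩,[]⟩)) (.N (.N (.F ⟨⟨15,5,0,0,1,1,2⟩,[]⟩) (.N (.N (.N (.N (.F ⟨⟨10,5,0,2,4,2,3⟩,[]⟩) (.N (.F ⟨⟨10,3,0,3,0,2,2⟩,[]⟩) (.N (.F ⟨⟨8,1,0,5,0,3,4⟩,[]⟩) (.N (.F ⟨⟨8,1,0,5,0,3,4⟩,[]⟩) (.F ⟨⟨12,0,2,1,0,2,3⟩,[]⟩)))))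 (.F ⟨⟨18,5,0,0,0,1,1⟩,[]⟩)) (.N (.F ⟨⟨18,5,0,0,1,1,1⟩,[]⟩) (.F ⟨⟨8,5,0,2,0,7,11⟩,[]⟩))) (.N (.N (.F ⟨⟨15,5,0,0,2,1,1⟩,[]⟩) (.F ⟨⟨9,5,0,1,0,5,8⟩,[]⟩)) (.F ⟨⟨10,5,0,1,0,3,4⟩,[]⟩)))) (.F ⟨⟨8,5,0,0,0,1,1⟩,[]⟩))))
    [false, false, false, true, true, false, true, true, false, true, false, true, false] = true := by decide +kernel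

theorem e5_127 : treeE 5 208 145 (rows0 5 [4, 3, 2, 1, 0])
    (.N (.N (.N (.N (.F ⟨⟨12,5,0,0,1,1,1⟩,[]⟩) (.N (.F ⟨⟨17,5,0,0,1,1,1⟩,[]⟩) (.F ⟨⟨9,5,0,1,0,4,5⟩,[]⟩))) (.N (.N (.F ⟨⟨13,5,0,0,1,2,3⟩,[]⟩) (.F ⟨⟨11,5,0,1,0,3,4⟩,[]⟩)) (.N (.F ⟨⟨17,5,0,0,1,1,1⟩,[]⟩) (.F ⟨⟨8,4,2,2,0,3,4⟩,[]⟩)))) (.F ⟨⟨14,5,0,0,0,1,1⟩,[]⟩)) (.N (.N (.F ⟨⟨15,5,0,0,1,1,2⟩,[]⟩) (.N (.N (.N (.F ⟨⟨12,5,0,0,2,2,2⟩,[]⟩) (.N (.N (.N (.F ⟨⟨19,5,0,0,1,1,1⟩,[]⟩) (.F ⟨⟨13,5,0,0,4,4,5⟩,[]⟩)) (.F ⟨⟨20,5,0,0,0,1,1⟩,[]⟩)) (.N (.F ⟨⟨20,5,0,0,1,1,1⟩,[]⟩) (.F ⟨⟨8,4,2,2,0,3,4⟩,[]⟩)))) (.F ⟨⟨9,5,0,1,0,5,8⟩,[]⟩)) (.F ⟨⟨10,5,0,1,0,3,4⟩,[]⟩))) (.F ⟨⟨9,5,0,0,0,1,1⟩,[]⟩)))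
    [false, true, false, false, true, true, false, true, true, false, true, false, true, false] = true := by decide +kernel

theorem e5_128 : treeE 5 208 145 (rows0 5 [4, 3, 2, 1, 0])
    (.N (.N (.N (.F ⟨⟨14,5,0,0,1,1,2⟩,[]⟩) (.F ⟨⟨10,5,0,1,0,3,4⟩,[]⟩)) (.N (.F ⟨⟨16,5,0,0,1,1,1⟩,[]⟩) (.F ⟨⟨8,4,2,2,0,3,4⟩,[]⟩))) (.F ⟨⟨14,5,0,0,0,1,1⟩,[]⟩))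
    [false, true, true, false, false, true, true, false, true, true, false, true, false, true, false] = true := by decide +kernel

theorem e5_129 : treeE 5 208 145 (rows0 5 [4, 3, 2, 1, 0])
    (.F ⟨⟨15,5,0,0,1,1,2⟩,[]⟩)
    [false, false, true, true, true, false, false, true, true, false, true, true, false, true, false, true, false] = true := by decide +kernel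

theorem e5_130 : treeE 5 208 145 (rows0 5 [4, 3, 2, 1, 0])
    (.N (.N (.N (.F ⟨⟨9,5,1,2,4,2,3⟩,[]⟩) (.F ⟨⟨19,5,0,0,0,1,1⟩,[]⟩)) (.N (.F ⟨⟨19,5,0,0,1,1,1⟩,[]⟩) (.F ⟨⟨10,5,1,1,0,3,5⟩,[]⟩))) (.N (.N (.N (.F ⟨⟨18,5,0,0,1,1,1⟩,[]⟩) (.N (.F ⟨⟨21,5,0,0,1,1,1⟩,[]⟩) (.N (.N (.N (.N (.F ⟨⟨16,5,1,3,6,3,4⟩,[]⟩) (.N (.N (.N (.N (.F ⟨⟨19,5,0,1,2,4,6⟩,[]⟩) (.N (.N (.F ⟨⟨27,5,0,0,1,2,3⟩,[]⟩) (.F ⟨⟨25,5,0,1,0,3,4⟩,[]⟩)) (.N (.F ⟨⟨31,5,0,0,1,1,1⟩,[]⟩) (.F ⟨⟨18,5,2,2,6,3,4⟩,[]⟩)))) (.F ⟨⟨28,5,0,0,0,1,1⟩,[]⟩)) (.N (.F ⟨⟨28,5,0,0,1,1,1⟩,[]⟩) (.F ⟨⟨21,5,0,1,0,2,4⟩,[]⟩))) (.N (.N (.N (.F ⟨⟨27,5,0,0,1,1,1⟩,[]⟩) (.F ⟨⟨21,5,0,1,4,2,2⟩,[]⟩))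 (.F ⟨⟨28,5,0,0,0,1,1⟩,[]⟩)) (.N (.N (.F ⟨⟨29,5,0,0,1,1,2⟩,[]⟩) (.F ⟨⟨18,5,2,2,5,3,4⟩,[]⟩)) (.F ⟨⟨17,0,2,1,0,2,3⟩,[]⟩))))) (.F ⟨⟨10,5,2,1,0,9,14⟩,[]⟩)) (.N (.F ⟨⟨24,5,0,0,1,1,1⟩,[]⟩) (.N (.N (.N (.F ⟨⟨19,5,0,2,0,3,4⟩,[]⟩) (.N (.F ⟨⟨19,5,0,2,0,3,4⟩,[]⟩) (.N (.F ⟨⟨19,5,0,2,0,3,4⟩,[]⟩) (.N (.N (.F ⟨⟨31,5,0,0,1,1,2⟩,[]⟩) (.N (.N (.N (.N (.F ⟨⟨25,5,1,2,4,2,3⟩,[]⟩) (.F ⟨⟨35,5,0,0,0,1,1⟩,[]⟩)) (.N (.F ⟨⟨35,5,0,0,1,1,1⟩,[]⟩) (.F ⟨⟨26,5,1,1,0,3,5⟩,[]⟩))) (.N (.N (.N (.F ⟨⟨34,5,0,0,1,1,1⟩,[]⟩) (.N (.F ⟨⟨37,5,0,0,1,1,1⟩,[]⟩) (.F ⟨⟨25,3,2,1,4,4,5⟩,[]⟩))) (.F ⟨⟨35,5,0,0,0,1,1⟩,[]⟩)) (.N (.F ⟨⟨21,5,2,3,7,6,9⟩,[]⟩) (.F ⟨⟨22,5,3,1,0,5,8⟩,[]⟩))))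 (.N (.N (.N (.N (.N (.F ⟨⟨33,5,0,0,1,1,1⟩,[]⟩) (.N (.F ⟨⟨38,5,0,0,1,1,1⟩,[]⟩) (.F ⟨⟨25,0,2,1,3,4,5⟩,[]⟩))) (.N (.N (.F ⟨⟨34,5,0,0,1,2,3⟩,[]⟩) (.F ⟨⟨25,3,2,1,3,4,5⟩,[]⟩)) (.F ⟨⟨25,3,2,1,3,4,5⟩,[]⟩))) (.F ⟨⟨35,5,0,0,0,1,1⟩,[]⟩)) (.N (.F ⟨⟨21,5,2,3,7,6,9⟩,[]⟩) (.F ⟨⟨22,5,3,1,0,5,8⟩,[]⟩))) (.N (.N (.F ⟨⟨21,5,2,3,5,6,9⟩,[]⟩) (.F ⟨⟨22,5,3,1,0,5,8⟩,[]⟩)) (.F ⟨⟨19,0,4,2,0,4,6⟩,[]⟩))))) (.F ⟨⟨17,0,2,1,0,2,3⟩,[]⟩))))) (.F ⟨⟨26,5,0,0,0,1,1⟩,[]⟩)) (.F ⟨⟨23,5,0,0,0,1,1⟩,[]⟩)))) (.N (.N (.F ⟨⟨16,5,1,0,2,4,6⟩,[]⟩) (.F ⟨⟨24,5,0,0,0,1,1⟩,[]⟩)) (.N (.F ⟨⟨16,5,1,0,2,5,7⟩,[]⟩) (.F ⟨⟨20,5,0,0,0,1,1⟩,[]⟩)))))) (.F ⟨⟨19,5,0,0,0,1,1⟩,[]⟩))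 (.N (.F ⟨⟨5,5,2,3,7,6,9⟩,[]⟩) (.F ⟨⟨6,5,3,1,0,5,8⟩,[]⟩))))
    [false, true, false, true, true, true, false, false, true, true, false, true, true, false, true, false, true, false] = true := by decide +kernel

theorem e5_131 : treeE 5 208 145 (rows0 5 [4, 3, 2, 1, 0])
    (.N (.N (.N (.N (.N (.F ⟨⟨17,5,0,0,1,1,1⟩,[]⟩) (.N (.F ⟨⟨22,5,0,0,1,1,1⟩,[]⟩) (.N (.N (.N (.F ⟨⟨16,5,1,0,2,4,6⟩,[]⟩) (.N (.N (.F ⟨⟨14,5,2,0,1,12,17⟩,[]⟩) (.F ⟨⟨19,5,0,0,4,2,3⟩,[]⟩)) (.F ⟨⟨19,5,0,0,1,2,3⟩,[]⟩))) (.F ⟨⟨24,5,0,0,0,1,1⟩,[]⟩)) (.N (.F ⟨⟨16,5,1,0,2,5,7⟩,[]⟩) (.F ⟨⟨22,5,0,0,0,1,2⟩,[]⟩))))) (.N (.N (.F ⟨⟨18,5,0,0,1,2,3⟩,[]⟩) (.N (.N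 (.F ⟨⟨16,5,1,0,2,5,7⟩,[]⟩) (.F ⟨⟨23,5,0,0,1,1,1⟩,[]⟩)) (.F ⟨⟨23,5,0,0,0,1,2⟩,[]⟩))) (.N (.F ⟨⟨22,5,0,0,1,1,1⟩,[]⟩) (.N (.N (.N (.N (.F ⟨⟨18,5,0,1,3,1,1⟩,[]⟩) (.F ⟨⟨10,5,6,1,0,8,12⟩,[]⟩)) (.N (.F ⟨⟨26,5,0,0,1,1,1⟩,[]⟩) (.N (.F ⟨⟨19,5,1,0,2,2,2⟩,[]⟩) (.F ⟨⟨25,5,0,0,0,1,1⟩,[]⟩)))) (.N (.N (.F ⟨⟨21,5,1,0,2,2,3⟩,[]⟩) (.F ⟨⟨26,5,0,0,0,1,1⟩,[]⟩)) (.N (.F ⟨⟨21,5,1,0,2,2,3⟩,[]⟩) (.N (.N (.N (.F ⟨⟨18,0,2,2,0,3,4⟩,[]⟩) (.F ⟨⟨29,5,0,0,0,1,1⟩,[]⟩)) (.N (.F ⟨⟨23,5,1,0,3,3,4⟩,[]⟩) (.F ⟨⟨25,5,0,0,0,2,3⟩,[]⟩))) (.F ⟨⟨21,5,1,0,0,2,3⟩,[]⟩))))) (.F ⟨⟨9,5,6,1,0,6,8⟩,[]⟩))))) (.F ⟨⟨19,5,0,0,0,1,1⟩,[]⟩)) (.N (.F ⟨⟨5,5,2,3,7,6,9⟩,[]⟩)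 (.F ⟨⟨6,5,3,1,0,5,8⟩,[]⟩))) (.N (.N (.F ⟨⟨5,5,2,3,5,6,9⟩,[]⟩) (.F ⟨⟨6,5,3,1,0,5,8⟩,[]⟩)) (.F ⟨⟨2,0,4,2,0,4,6⟩,[]⟩)))
    [true, true, false, true, true, true, false, false, true, true, false, true, true, false, true, false, true, false] = true := by decide +kernel

theorem e5_132 : treeE 5 208 145 (rows0 5 [4, 3, 2, 1, 0])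
    (.F ⟨⟨0,0,2,1,0,2,3⟩,[]⟩)
    [true, true, true, true, false, false, true, true, false, true, true, false, true, false, true, false] = true := by decide +kernel

theorem e5_133 : treeE 5 208 145 (rows0 5 [4, 3, 2, 1, 0])
    (.F ⟨⟨10,5,0,0,0,1,1⟩,[]⟩)
    [true, false, true, true, false, true, true, false, true, false, true, false] = true := by decide +kernel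

theorem e5_134 : treeE 5 208 145 (rows0 5 [4, 3, 2, 1, 0])
    (.F ⟨⟨7,5,0,0,0,1,1⟩,[]⟩)
    [true, true, true, false, true, true, false, true, false, true, false] = true := by decide +kernel

theorem e5_135 : treeE 5 208 145 (rows0 5 [4, 3, 2, 1, 0])
    (.N (.N (.N (.F ⟨⟨7,5,0,0,1,1,1⟩,[]⟩) (.N (.F ⟨⟨10,5,0,0,1,1,1⟩,[]⟩) (.N (.N (.F ⟨⟨5,5,0,0,1,2,3⟩,[]⟩) (.F ⟨⟨2,5,0,0,14,2,3⟩,[]⟩)) (.F ⟨⟨2,5,0,0,5,2,3⟩,[]⟩)))) (.F ⟨⟨8,5,0,0,0,1,1⟩,[]⟩)) (.N (.N (.F ⟨⟨9,5,0,0,1,1,2⟩,[]⟩) (.N (.F ⟨⟨8,5,0,0,1,1,1⟩,[]⟩) (.F ⟨⟨5,5,0,0,3,1,1⟩,[]⟩))) (.F ⟨⟨4,5,0,0,0,1,1⟩,[]⟩)))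
    [true, true, true, false, true, false, true, false] = true := by decide +kernel

theorem e5_136 : treeE 5 208 145 (rows0 5 [4, 3, 2, 1, 0])
    (.F ⟨⟨3,5,0,0,0,1,2⟩,[]⟩)
    [true, true, false, true, false] = true := by decide +kernel

theorem e5_137 : treeE 5 208 145 (rows0 5 [4, 3, 2, 1, 0])
    (.F ⟨⟨3,5,0,0,1,1,2⟩,[]⟩)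
    [false, false, true, true, false] = true := by decide +kernel

theorem e5_138 : treeE 5 208 145 (rows0 5 [4, 3, 2, 1, 0])
    (.N (.N (.N (.F ⟨⟨4,5,0,1,2,1,1⟩,[]⟩) (.F ⟨⟨7,5,0,1,0,2,3⟩,[]⟩)) (.N (.F ⟨⟨10,5,0,0,1,1,1⟩,[]⟩) (.F ⟨⟨1,5,0,2,0,5,8⟩,[]⟩))) (.N (.N (.F ⟨⟨5,5,0,1,2,2,3⟩,[]⟩) (.F ⟨⟨5,5,0,1,0,2,3⟩,[]⟩)) (.N (.F ⟨⟨10,5,0,0,1,1,1⟩,[]⟩) (.F ⟨⟨5,5,0,1,0,2,3⟩,[]⟩))))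
    [false, false, false, false, true, false, true, true, false] = true := by decide +kernel

theorem e5_139 : treeE 5 208 145 (rows0 5 [4, 3, 2, 1, 0])
    (.N (.N (.N (.F ⟨⟨5,5,0,1,2,2,3⟩,[]⟩) (.N (.N (.F ⟨⟨9,5,0,0,1,2,3⟩,[]⟩) (.F ⟨⟨7,5,0,1,0,3,4⟩,[]⟩)) (.N (.F ⟨⟨13,5,0,0,1,1,1⟩,[]⟩) (.N (.N (.N (.N (.F ⟨⟨9,5,0,1,3,1,1⟩,[]⟩) (.F ⟨⟨6,5,3,1,0,5,7⟩,[]⟩)) (.N (.F ⟨⟨17,5,0,0,1,1,1⟩,[]⟩) (.N (.N (.N (.F ⟨⟨4,0,3,5,1,5,7⟩,[]⟩) (.N (.F ⟨⟨4,0,3,5,1,5,7⟩,[]⟩) (.N (.F ⟨⟨4,0,3,5,1,5,7⟩,[]⟩) (.N (.F ⟨⟨23,5,0,0,1,1,1⟩,[]⟩) (.F ⟨⟨13,5,2,1,0,2,4⟩,[]⟩))))) (.F ⟨⟨19,5,0,0,0,1,1⟩,[]⟩)) (.F ⟨⟨16,5,0,0,0,1,1⟩,[]⟩)))) (.N (.N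 (.F ⟨⟨12,5,1,0,2,2,3⟩,[]⟩) (.F ⟨⟨17,5,0,0,0,1,1⟩,[]⟩)) (.N (.F ⟨⟨17,5,0,0,1,1,1⟩,[]⟩) (.N (.N (.N (.N (.F ⟨⟨13,0,1,3,2,2,2⟩,[]⟩) (.N (.F ⟨⟨13,0,1,3,2,2,2⟩,[]⟩) (.N (.F ⟨⟨13,0,1,3,2,2,2⟩,[]⟩) (.N (.F ⟨⟨13,0,1,3,2,2,2⟩,[]⟩) (.F ⟨⟨16,5,1,0,0,1,1⟩,[]⟩))))) (.F ⟨⟨20,5,0,0,0,1,1⟩,[]⟩)) (.N (.F ⟨⟨14,5,1,0,3,3,4⟩,[]⟩) (.F ⟨⟨16,5,0,0,0,2,3⟩,[]⟩))) (.F ⟨⟨7,5,3,1,0,6,10⟩,[]⟩))))) (.N (.N (.N (.F ⟨⟨12,5,1,0,1,2,3⟩,[]⟩) (.F ⟨⟨17,5,0,0,0,1,1⟩,[]⟩)) (.N (.F ⟨⟨17,5,0,0,1,1,1⟩,[]⟩) (.F ⟨⟨7,5,3,1,0,6,10⟩,[]⟩))) (.N (.N (.F ⟨⟨9,5,2,0,1,4,7⟩,[]⟩) (.F ⟨⟨17,5,0,0,0,1,1⟩,[]⟩)) (.N (.F ⟨⟨13,5,1,0,1,2,3⟩,[]⟩) (.F ⟨⟨11,5,1,0,0,1,1⟩,[]⟩))))))))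 (.F ⟨⟨5,5,0,1,0,2,3⟩,[]⟩)) (.N (.F ⟨⟨10,5,0,0,1,1,1⟩,[]⟩) (.F ⟨⟨5,5,0,1,0,2,3⟩,[]⟩)))
    [false, true, false, false, false, true, false, true, true, false] = true := by decide +kernel

theorem e5_140 : treeE 5 208 145 (rows0 5 [4, 3, 2, 1, 0])
    (.F ⟨⟨9,5,0,0,1,1,1⟩,[]⟩)
    [false, false, false, true, true, false, false, false, true, false, true, true, false] = true := by decide +kernel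

theorem e5_141 : treeE 5 208 145 (rows0 5 [4, 3, 2, 1, 0])
    (.F ⟨⟨12,5,0,0,1,1,1⟩,[]⟩)
    [false, true, false, false, true, true, false, false, false, true, false, true, true, false] = true := by decide +kernel

theorem e5_142 : treeE 5 208 145 (rows0 5 [4, 3, 2, 1, 0])
    (.N (.N (.N (.F ⟨⟨8,4,1,2,0,2,3⟩,[]⟩) (.F ⟨⟨16,5,0,0,0,1,1⟩,[]⟩)) (.N (.F ⟨⟨8,5,1,0,3,2,3⟩,[]⟩) (.N (.N (.F ⟨⟨10,0,2,2,0,3,4⟩,[]⟩) (.F ⟨⟨18,5,0,0,0,1,1⟩,[]⟩)) (.N (.F ⟨⟨12,5,1,0,2,3,4⟩,[]⟩) (.F ⟨⟨16,5,0,0,0,1,2⟩,[]⟩))))) (.N (.N (.F ⟨⟨8,5,1,0,4,2,3⟩,[]⟩) (.N (.N (.F ⟨⟨12,5,1,0,2,3,4⟩,[]⟩) (.N (.F ⟨⟨19,5,0,0,1,1,1⟩,[]⟩) (.N (.N (.N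 (.F ⟨⟨10,0,2,2,0,3,4⟩,[]⟩) (.F ⟨⟨22,5,0,0,0,1,1⟩,[]⟩)) (.N (.F ⟨⟨22,5,0,0,1,1,1⟩,[]⟩) (.N (.N (.F ⟨⟨10,0,2,2,0,3,4⟩,[]⟩) (.F ⟨⟨24,5,0,0,0,1,1⟩,[]⟩)) (.F ⟨⟨21,5,0,0,0,1,1⟩,[]⟩)))) (.F ⟨⟨7,5,2,1,0,7,10⟩,[]⟩)))) (.F ⟨⟨17,5,0,0,0,1,2⟩,[]⟩))) (.N (.F ⟨⟨16,5,0,0,1,1,1⟩,[]⟩) (.N (.N (.N (.F ⟨⟨10,0,2,2,0,3,4⟩,[]⟩) (.F ⟨⟨19,5,0,0,0,1,1⟩,[]⟩)) (.N (.N (.F ⟨⟨20,5,0,0,1,1,2⟩,[]⟩) (.N (.F ⟨⟨20,5,0,0,1,1,1⟩,[]⟩) (.N (.F ⟨⟨18,5,0,0,3,1,1⟩,[]⟩) (.F ⟨⟨19,5,0,0,0,2,3⟩,[]⟩)))) (.F ⟨⟨15,5,0,0,0,2,3⟩,[]⟩))) (.N (.N (.N (.N (.F ⟨⟨19,5,0,0,1,1,2⟩,[]⟩) (.N (.F ⟨⟨19,5,0,0,1,1,1⟩,[]⟩) (.F ⟨⟨22,5,0,0,0,1,2⟩,[]⟩))) (.N (.F ⟨⟨21,5,0,0,1,1,1⟩,[]⟩)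 (.N (.N (.F ⟨⟨16,5,0,0,1,2,3⟩,[]⟩) (.N (.F ⟨⟨16,5,0,0,8,2,3⟩,[]⟩) (.F ⟨⟨14,5,0,0,5,3,3⟩,[]⟩))) (.F ⟨⟨11,5,1,0,0,7,10⟩,[]⟩)))) (.F ⟨⟨19,5,0,0,0,1,1⟩,[]⟩)) (.F ⟨⟨14,5,0,0,0,1,1⟩,[]⟩))))))
    [false, true, true, false, false, true, true, false, false, false, true, false, true, true, false] = true := by decide +kernel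

theorem e5_143 : treeE 5 208 145 (rows0 5 [4, 3, 2, 1, 0])
    (.N (.N (.N (.F ⟨⟨8,5,1,0,2,2,3⟩,[]⟩) (.N (.N (.N (.F ⟨⟨12,5,1,0,2,3,4⟩,[]⟩) (.N (.F ⟨⟨20,5,0,0,1,1,1⟩,[]⟩) (.F ⟨⟨7,5,2,1,0,7,10⟩,[]⟩))) (.N (.N (.F ⟨⟨10,5,2,0,1,7,11⟩,[]⟩) (.F ⟨⟨7,5,2,1,0,7,10⟩,[]⟩)) (.N (.F ⟨⟨20,5,0,0,1,1,1⟩,[]⟩) (.N (.N (.N (.N (.F ⟨⟨14,4,1,2,0,2,3⟩,[]⟩) (.F ⟨⟨4,3,11,1,12,7,10⟩,[]⟩)) (.F ⟨⟨4,2,11,1,19,7,10⟩,[]⟩)) (.F ⟨⟨12,1,3,0,4,2,2⟩,[]⟩)) (.F ⟨⟨12,5,2,0,0,2,3⟩,[]⟩))))) (.F ⟨⟨17,5,0,0,0,1,2⟩,[]⟩))) (.N (.F ⟨⟨16,5,0,0,1,1,1⟩,[]⟩) (.N (.N (.N (.N (.N (.F ⟨⟨17,5,0,0,1,1,1⟩,[]⟩) (.N (.N (.F ⟨⟨18,5,0,0,1,1,1⟩,[]⟩) (.F ⟨⟨22,5,0,0,1,1,1⟩,[]⟩))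 (.F ⟨⟨22,5,0,0,0,1,2⟩,[]⟩))) (.N (.F ⟨⟨21,5,0,0,1,1,1⟩,[]⟩) (.F ⟨⟨11,5,1,0,0,7,10⟩,[]⟩))) (.N (.N (.N (.F ⟨⟨20,5,0,0,1,1,1⟩,[]⟩) (.F ⟨⟨15,5,0,0,4,3,3⟩,[]⟩)) (.F ⟨⟨21,5,0,0,0,1,1⟩,[]⟩)) (.N (.F ⟨⟨12,5,1,0,1,5,7⟩,[]⟩) (.N (.N (.N (.N (.F ⟨⟨14,4,1,2,0,2,3⟩,[]⟩) (.F ⟨⟨12,3,3,0,4,2,2⟩,[]⟩)) (.F ⟨⟨12,2,3,0,8,2,2⟩,[]⟩)) (.F ⟨⟨12,1,3,0,6,2,2⟩,[]⟩)) (.F ⟨⟨13,5,2,0,0,2,3⟩,[]⟩))))) (.F ⟨⟨18,5,0,0,0,1,1⟩,[]⟩)) (.F ⟨⟨15,5,0,0,0,1,1⟩,[]⟩)))) (.N (.N (.F ⟨⟨12,5,1,0,1,2,3⟩,[]⟩) (.F ⟨⟨16,5,0,0,0,1,1⟩,[]⟩)) (.N (.F ⟨⟨13,5,1,0,1,2,3⟩,[]⟩) (.F ⟨⟨6,5,3,1,0,3,5⟩,[]⟩))))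
    [true, true, true, false, false, true, true, false, false, false, true, false, true, true, false] = true := by decide +kernel

theorem e5_144 : treeE 5 208 145 (rows0 5 [4, 3, 2, 1, 0])
    (.F ⟨⟨10,5,0,0,0,1,1⟩,[]⟩)
    [true, false, true, true, false, false, false, true, false, true, true, false] = true := by decide +kernel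

theorem e5_145 : treeE 5 208 145 (rows0 5 [4, 3, 2, 1, 0])
    (.N (.N (.F ⟨⟨11,5,0,0,1,1,2⟩,[]⟩) (.N (.N (.N (.N (.F ⟨⟨8,4,1,2,0,2,3⟩,[]⟩) (.F ⟨⟨15,5,0,0,0,1,1⟩,[]⟩)) (.N (.F ⟨⟨8,5,1,0,2,2,3⟩,[]⟩) (.F ⟨⟨6,5,1,1,0,3,5⟩,[]⟩))) (.N (.N (.F ⟨⟨5,5,1,1,5,3,5⟩,[]⟩) (.F ⟨⟨6,5,1,1,0,3,5⟩,[]⟩)) (.N (.F ⟨⟨9,5,1,0,3,2,3⟩,[]⟩) (.F ⟨⟨1,5,5,2,0,9,13⟩,[]⟩)))) (.N (.N (.N (.F ⟨⟨5,5,1,1,3,3,5⟩,[]⟩) (.F ⟨⟨6,5,1,1,0,3,5⟩,[]⟩)) (.N (.F ⟨⟨9,5,1,0,3,2,3⟩,[]⟩) (.F ⟨⟨2,5,4,1,0,7,10⟩,[]⟩))) (.N (.N (.F ⟨⟨9,5,1,0,2,2,3⟩,[]⟩) (.F ⟨⟨4,5,3,1,0,5,8⟩,[]⟩)) (.N (.F ⟨⟨15,5,0,0,1,1,1⟩,[]⟩) (.F ⟨⟨5,5,3,1,0,3,5⟩,[]⟩)))))) (.F ⟨⟨0,0,2,1,0,2,3⟩,[]⟩))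
    [true, true, true, false, false, false, true, false, true, true, false] = true := by decide +kernel

theorem e5_146 : treeE 5 208 145 (rows0 5 [4, 3, 2, 1, 0])
    (.F ⟨⟨6,5,0,0,0,1,1⟩,[]⟩)
    [true, false, false, true, false, true, true, false] = true := by decide +kernel

theorem e5_147 : treeE 5 208 145 (rows0 5 [4, 3, 2, 1, 0])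
    (.N (.F ⟨⟨7,5,0,0,1,1,2⟩,[]⟩) (.N (.F ⟨⟨7,5,0,0,1,1,1⟩,[]⟩) (.N (.F ⟨⟨5,5,0,0,3,1,1⟩,[]⟩) (.F ⟨⟨6,5,0,0,0,2,3⟩,[]⟩))))
    [false, true, false, true, false, true, true, false] = true := by decide +kernel

theorem e5_148 : treeE 5 208 145 (rows0 5 [4, 3, 2, 1, 0])
    (.N (.N (.N (.N (.N (.N (.F ⟨⟨7,5,0,1,2,1,1⟩,[]⟩) (.N (.N (.F ⟨⟨8,3,0,2,0,1,1⟩,[]⟩) (.N (.F ⟨⟨16,5,0,0,1,1,1⟩,[]⟩) (.F ⟨⟨11,5,0,1,0,2,3⟩,[]⟩))) (.N (.N (.F ⟨⟨6,2,0,4,0,2,3⟩,[]⟩) (.F ⟨⟨11,5,0,1,0,2,3⟩,[]⟩)) (.N (.F ⟨⟨16,5,0,0,1,1,1⟩,[]⟩) (.F ⟨⟨10,0,2,1,0,2,3⟩,[]⟩))))) (.F ⟨⟨9,5,0,1,0,2,3⟩,[]⟩)) (.N (.F ⟨⟨12,5,0,0,1,1,1⟩,[]⟩) (.F ⟨⟨8,5,0,1,0,2,3⟩,[]⟩)))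 (.N (.N (.N (.F ⟨⟨11,5,0,0,1,1,1⟩,[]⟩) (.N (.F ⟨⟨14,5,0,0,1,1,1⟩,[]⟩) (.N (.N (.F ⟨⟨7,5,0,1,2,3,3⟩,[]⟩) (.N (.F ⟨⟨17,5,0,0,1,1,1⟩,[]⟩) (.N (.F ⟨⟨7,5,0,1,11,3,3⟩,[]⟩) (.F ⟨⟨16,5,0,0,0,1,1⟩,[]⟩)))) (.F ⟨⟨7,5,0,1,0,4,5⟩,[]⟩)))) (.F ⟨⟨12,5,0,0,0,1,1⟩,[]⟩)) (.N (.N (.F ⟨⟨13,5,0,0,1,1,2⟩,[]⟩) (.N (.F ⟨⟨12,5,0,0,1,1,1⟩,[]⟩) (.N (.F ⟨⟨10,5,0,0,1,1,1⟩,[]⟩) (.F ⟨⟨8,5,0,1,0,3,4⟩,[]⟩)))) (.F ⟨⟨6,5,0,0,0,1,1⟩,[]⟩)))) (.N (.N (.N (.N (.N (.F ⟨⟨10,5,0,0,1,1,1⟩,[]⟩) (.N (.F ⟨⟨15,5,0,0,1,1,1⟩,[]⟩) (.F ⟨⟨7,5,0,1,0,4,5⟩,[]⟩))) (.N (.N (.F ⟨⟨11,5,0,0,1,2,3⟩,[]⟩) (.F ⟨⟨9,5,0,1,0,3,4⟩,[]⟩)) (.N (.F ⟨⟨15,5,0,0,1,1,1⟩,[]⟩) (.F ⟨⟨1,4,5,5,0,6,10⟩,[]⟩))))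 (.F ⟨⟨12,5,0,0,0,1,1⟩,[]⟩)) (.N (.N (.F ⟨⟨13,5,0,0,1,1,2⟩,[]⟩) (.N (.F ⟨⟨11,5,0,0,1,1,1⟩,[]⟩) (.F ⟨⟨8,5,0,1,0,3,4⟩,[]⟩))) (.F ⟨⟨7,5,0,0,0,1,1⟩,[]⟩))) (.N (.N (.N (.N (.F ⟨⟨12,5,0,0,1,1,2⟩,[]⟩) (.F ⟨⟨8,5,0,1,0,3,4⟩,[]⟩)) (.N (.F ⟨⟨14,5,0,0,1,1,1⟩,[]⟩) (.F ⟨⟨1,4,5,5,0,6,10⟩,[]⟩))) (.F ⟨⟨12,5,0,0,0,1,1⟩,[]⟩)) (.N (.N (.F ⟨⟨13,5,0,0,1,1,2⟩,[]⟩) (.N (.N (.N (.N (.F ⟨⟨7,5,1,2,4,2,3⟩,[]⟩) (.F ⟨⟨17,5,0,0,0,1,1⟩,[]⟩)) (.N (.F ⟨⟨10,5,1,0,2,2,3⟩,[]⟩) (.F ⟨⟨8,5,1,1,0,3,5⟩,[]⟩))) (.N (.N (.F ⟨⟨4,5,2,3,7,7,10⟩,[]⟩) (.F ⟨⟨17,5,0,0,0,1,1⟩,[]⟩)) (.N (.F ⟨⟨11,5,1,0,3,2,3⟩,[]⟩) (.F ⟨⟨4,5,3,1,0,5,8⟩,[]⟩)))) (.N (.N (.N (.F ⟨⟨4,5,2,3,5,7,10⟩,[]⟩)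 (.F ⟨⟨17,5,0,0,0,1,1⟩,[]⟩)) (.N (.F ⟨⟨11,5,1,0,3,2,3⟩,[]⟩) (.F ⟨⟨4,5,3,1,0,5,8⟩,[]⟩))) (.N (.N (.F ⟨⟨11,5,1,0,2,2,3⟩,[]⟩) (.F ⟨⟨4,5,3,1,0,5,8⟩,[]⟩)) (.F ⟨⟨3,0,4,2,0,4,6⟩,[]⟩))))) (.F ⟨⟨0,0,2,1,0,2,3⟩,[]⟩))))) (.F ⟨⟨8,5,0,0,0,1,1⟩,[]⟩))
    [false, true, true, false, true, false, true, true, false] = true := by decide +kernel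

end Pool.Agent.RTX
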