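import Pool.Agent.RTS.Exact

/-!
# RTS: windows of the initial state, part 5
-/

set_option autoImplicit false
set_option maxRecDepth 100000

namespace Pool.Agent.RTX

theorem e5_149 : treeE 5 208 145 (rows0 5 [4, 3, 2, 1, 0])
    (.N (.N (.F ⟨⟨9,5,0,0,1,1,2⟩,[]⟩) (.N (.F ⟨⟨9,5,0,0,1,1,1⟩,[]⟩) (.F ⟨⟨5,5,0,0,0,3,4⟩,[]⟩))) (.F ⟨⟨6,5,0,0,0,1,2⟩,[]⟩))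
    [true, true, true, false, true, false, true, true, false] = true := by decide +kernel

theorem e5_150 : treeE 5 208 145 (rows0 5 [4, 3, 2, 1, 0])
    (.N (.N (.N (.F ⟨⟨6,5,0,0,1,1,2⟩,[]⟩) (.N (.F ⟨⟨6,5,0,0,1,1,1⟩,[]⟩) (.F ⟨⟨9,5,0,0,0,1,2⟩,[]⟩))) (.N (.F ⟨⟨8,5,0,0,1,1,1⟩,[]⟩) (.N (.N (.F ⟨⟨2,5,0,0,2,2,3⟩,[]⟩) (.N (.F ⟨⟨2,5,0,0,11,2,3⟩,[]⟩) (.N (.F ⟨⟨2,5,0,0,11,2,3⟩,[]⟩) (.F ⟨⟨10,5,0,0,0,1,1⟩,[]⟩)))) (.N (.N (.F ⟨⟨2,5,0,0,6,2,3⟩,[]⟩) (.F ⟨⟨11,5,0,0,0,1,1⟩,[]⟩)) (.F ⟨⟨4,5,0,0,0,2,3⟩,[]⟩))))) (.N (.N (.N (.F ⟨⟨6,5,0,0,1,2,3⟩,[]⟩) (.F ⟨⟨9,5,0,0,0,1,1⟩,[]⟩)) (.N (.N (.F ⟨⟨10,5,0,0,1,1,2⟩,[]⟩) (.N (.F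 ⟨⟨9,5,0,0,1,1,1⟩,[]⟩) (.N (.F ⟨⟨4,5,0,0,1,5,7⟩,[]⟩) (.N (.F ⟨⟨13,5,0,0,1,1,1⟩,[]⟩) (.N (.F ⟨⟨4,5,0,0,8,5,7⟩,[]⟩) (.F ⟨⟨9,5,0,0,0,2,3⟩,[]⟩)))))) (.N (.N (.N (.N (.N (.N (.N (.N (.F ⟨⟨11,5,0,1,2,1,2⟩,[]⟩) (.N (.F ⟨⟨11,3,0,2,0,1,1⟩,[]⟩) (.N (.F ⟨⟨8,1,0,2,0,1,1⟩,[]⟩) (.N (.F ⟨⟨8,1,0,2,0,1,1⟩,[]⟩) (.F ⟨⟨14,0,2,1,0,2,3⟩,[]⟩))))) (.F ⟨⟨12,5,0,1,0,2,3⟩,[]⟩)) (.N (.F ⟨⟨16,5,0,0,1,1,1⟩,[]⟩) (.F ⟨⟨8,5,0,1,0,4,5⟩,[]⟩))) (.N (.N (.F ⟨⟨6,5,0,1,2,5,7⟩,[]⟩) (.F ⟨⟨16,5,0,0,0,1,1⟩,[]⟩)) (.N (.F ⟨⟨16,5,0,0,1,1,1⟩,[]⟩) (.F ⟨⟨11,5,0,1,0,2,3⟩,[]⟩)))) (.N (.N (.N (.N (.F ⟨⟨6,5,0,1,2,5,7⟩,[]⟩) (.N (.N (.F ⟨⟨15,5,0,0,1,2,3⟩,[]⟩)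 (.F ⟨⟨13,5,0,1,0,3,4⟩,[]⟩)) (.F ⟨⟨6,5,0,1,5,3,4⟩,[]⟩))) (.F ⟨⟨16,5,0,0,0,1,1⟩,[]⟩)) (.N (.F ⟨⟨16,5,0,0,1,1,1⟩,[]⟩) (.F ⟨⟨11,5,0,1,0,2,3⟩,[]⟩))) (.N (.N (.N (.F ⟨⟨15,5,0,0,1,1,1⟩,[]⟩) (.F ⟨⟨9,5,0,1,4,2,2⟩,[]⟩)) (.F ⟨⟨16,5,0,0,0,1,1⟩,[]⟩)) (.N (.N (.F ⟨⟨17,5,0,0,1,1,2⟩,[]⟩) (.F ⟨⟨1,4,4,4,0,5,8⟩,[]⟩)) (.F ⟨⟨0,0,2,1,0,2,3⟩,[]⟩))))) (.N (.N (.F ⟨⟨6,5,0,2,0,3,4⟩,[]⟩) (.N (.F ⟨⟨6,5,0,2,0,3,4⟩,[]⟩) (.N (.F ⟨⟨6,5,0,2,0,3,4⟩,[]⟩) (.N (.N (.F ⟨⟨18,5,0,0,1,1,2⟩,[]⟩) (.F ⟨⟨3,0,6,5,0,7,11⟩,[]⟩)) (.F ⟨⟨0,0,2,1,0,2,3⟩,[]⟩))))) (.F ⟨⟨13,5,0,0,0,1,2⟩,[]⟩))) (.N (.F ⟨⟨12,5,0,0,1,1,1⟩,[]⟩) (.N (.F ⟨⟨6,5,0,0,3,4,5⟩,[]⟩)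 (.F ⟨⟨11,5,0,0,0,1,1⟩,[]⟩)))) (.F ⟨⟨4,5,0,0,0,2,3⟩,[]⟩)))) (.F ⟨⟨7,5,0,0,0,1,2⟩,[]⟩)))
    [false, true, true, false, true, true, false] = true := by decide +kernel

theorem e5_151 : treeE 5 208 145 (rows0 5 [4, 3, 2, 1, 0])
    (.N (.N (.F ⟨⟨7,5,0,0,1,1,2⟩,[]⟩) (.N (.F ⟨⟨7,5,0,0,1,1,1⟩,[]⟩) (.N (.F ⟨⟨4,5,0,0,1,2,3⟩,[]⟩) (.F ⟨⟨3,5,0,0,4,2,3⟩,[]⟩)))) (.F ⟨⟨1,5,0,0,0,2,3⟩,[]⟩))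
    [true, true, true, false, true, true, false] = true := by decide +kernel

theorem e5_152 : treeE 5 208 145 (rows0 5 [4, 3, 2, 1, 0])
    (.N (.N (.N (.F ⟨⟨3,5,0,1,2,1,1⟩,[]⟩) (.F ⟨⟨6,5,0,1,0,2,3⟩,[]⟩)) (.N (.F ⟨⟨9,5,0,0,1,1,1⟩,[]⟩) (.F ⟨⟨5,5,0,1,0,2,3⟩,[]⟩))) (.N (.N (.F ⟨⟨4,5,0,1,2,2,3⟩,[]⟩) (.F ⟨⟨5,5,0,1,0,2,3⟩,[]⟩)) (.N (.F ⟨⟨9,5,0,0,1,1,1⟩,[]⟩) (.F ⟨⟨4,5,0,1,0,2,3⟩,[]⟩))))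
    [false, false, false, false, true, true, true, false] = true := by decide +kernel

theorem e5_153 : treeE 5 208 145 (rows0 5 [4, 3, 2, 1, 0])
    (.N (.N (.N (.F ⟨⟨4,5,0,1,2,2,3⟩,[]⟩) (.N (.N (.F ⟨⟨8,5,0,0,1,2,3⟩,[]⟩) (.N (.N (.N (.F ⟨⟨12,5,0,0,1,2,3⟩,[]⟩) (.F ⟨⟨11,5,0,0,3,1,1⟩,[]⟩)) (.F ⟨⟨13,5,0,0,1,1,1⟩,[]⟩)) (.F ⟨⟨13,5,0,0,0,1,2⟩,[]⟩))) (.N (.F ⟨⟨12,5,0,0,1,1,1⟩,[]⟩) (.N (.N (.N (.N (.F ⟨⟨8,5,0,1,3,1,1⟩,[]⟩) (.F ⟨⟨5,5,3,1,0,5,7⟩,[]⟩)) (.N (.F ⟨⟨16,5,0,0,1,1,1⟩,[]⟩) (.N (.N (.N (.F ⟨⟨3,0,3,5,1,5,7⟩,[]⟩) (.N (.F ⟨⟨3,0,3,5,1,5,7⟩,[]⟩) (.N (.F ⟨⟨3,0,3,5,1,5,7⟩,[]⟩) (.N (.F ⟨⟨22,5,0,0,1,1,1⟩,[]⟩)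 (.F ⟨⟨12,5,2,1,0,2,4⟩,[]⟩))))) (.F ⟨⟨18,5,0,0,0,1,1⟩,[]⟩)) (.F ⟨⟨15,5,0,0,0,1,1⟩,[]⟩)))) (.N (.N (.F ⟨⟨11,5,1,0,2,2,3⟩,[]⟩) (.F ⟨⟨16,5,0,0,0,1,1⟩,[]⟩)) (.N (.F ⟨⟨11,5,1,0,2,2,3⟩,[]⟩) (.N (.N (.N (.N (.F ⟨⟨12,0,1,3,2,2,2⟩,[]⟩) (.N (.F ⟨⟨12,0,1,3,2,2,2⟩,[]⟩) (.N (.F ⟨⟨12,0,1,3,2,2,2⟩,[]⟩) (.N (.F ⟨⟨12,0,1,3,2,2,2⟩,[]⟩) (.F ⟨⟨15,5,1,0,0,1,1⟩,[]⟩))))) (.F ⟨⟨19,5,0,0,0,1,1⟩,[]⟩)) (.N (.F ⟨⟨13,5,1,0,3,3,4⟩,[]⟩) (.F ⟨⟨15,5,0,0,0,2,3⟩,[]⟩))) (.F ⟨⟨11,5,1,0,0,2,3⟩,[]⟩))))) (.N (.N (.N (.F ⟨⟨11,5,1,0,1,2,3⟩,[]⟩) (.F ⟨⟨16,5,0,0,0,1,1⟩,[]⟩)) (.N (.F ⟨⟨11,5,1,0,2,2,3⟩,[]⟩) (.F ⟨⟨11,5,1,0,0,2,3⟩,[]⟩))) (.N (.N (.F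 ⟨⟨8,5,2,0,1,4,7⟩,[]⟩) (.F ⟨⟨16,5,0,0,0,1,1⟩,[]⟩)) (.N (.F ⟨⟨13,5,1,0,1,2,3⟩,[]⟩) (.F ⟨⟨10,5,1,0,0,1,1⟩,[]⟩)))))))) (.F ⟨⟨5,5,0,1,0,2,3⟩,[]⟩)) (.N (.F ⟨⟨9,5,0,0,1,1,1⟩,[]⟩) (.F ⟨⟨4,5,0,1,0,2,3⟩,[]⟩)))
    [false, true, false, false, false, true, true, true, false] = true := by decide +kernel

theorem e5_154 : treeE 5 208 145 (rows0 5 [4, 3, 2, 1, 0])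
    (.F ⟨⟨8,5,0,0,1,1,1⟩,[]⟩)
    [false, false, false, true, true, false, false, false, true, true, true, false] = true := by decide +kernel

theorem e5_155 : treeE 5 208 145 (rows0 5 [4, 3, 2, 1, 0])
    (.F ⟨⟨11,5,0,0,1,1,1⟩,[]⟩)
    [false, true, false, false, true, true, false, false, false, true, true, true, false] = true := by decide +kernel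

theorem e5_156 : treeE 5 208 145 (rows0 5 [4, 3, 2, 1, 0])
    (.N (.N (.N (.F ⟨⟨7,4,1,2,0,2,3⟩,[]⟩) (.F ⟨⟨15,5,0,0,0,1,1⟩,[]⟩)) (.N (.F ⟨⟨7,5,1,0,3,2,3⟩,[]⟩) (.F ⟨⟨1,5,5,2,0,9,13⟩,[]⟩))) (.N (.N (.F ⟨⟨7,5,1,0,4,2,3⟩,[]⟩) (.F ⟨⟨4,5,3,1,0,5,7⟩,[]⟩)) (.N (.F ⟨⟨15,5,0,0,1,1,1⟩,[]⟩) (.N (.N (.N (.F ⟨⟨0,0,6,9,0,10,15⟩,[]⟩) (.F ⟨⟨18,5,0,0,0,1,1⟩,[]⟩)) (.N (.N (.F ⟨⟨19,5,0,0,1,1,2⟩,[]⟩) (.N (.F ⟨⟨19,5,0,0,1,1,1⟩,[]⟩) (.N (.F ⟨⟨17,5,0,0,3,1,1⟩,[]⟩) (.F ⟨⟨18,5,0,0,0,2,3⟩,[]⟩)))) (.F ⟨⟨14,5,0,0,0,2,3⟩,[]⟩))) (.N (.N (.N (.N (.F ⟨⟨18,5,0,0,1,1,2⟩,[]⟩) (.N (.F ⟨⟨18,5,0,0,1,1,1⟩,[]⟩) (.F ⟨⟨21,5,0,0,0,1,2⟩,[]⟩)))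 (.N (.F ⟨⟨20,5,0,0,1,1,1⟩,[]⟩) (.N (.N (.F ⟨⟨15,5,0,0,1,2,3⟩,[]⟩) (.N (.F ⟨⟨15,5,0,0,8,2,3⟩,[]⟩) (.N (.F ⟨⟨15,5,0,0,8,2,3⟩,[]⟩) (.F ⟨⟨22,5,0,0,0,1,1⟩,[]⟩)))) (.F ⟨⟨10,5,1,0,0,7,10⟩,[]⟩)))) (.F ⟨⟨18,5,0,0,0,1,1⟩,[]⟩)) (.F ⟨⟨13,5,0,0,0,1,1⟩,[]⟩))))))
    [false, true, true, false, false, true, true, false, false, false, true, true, true, false] = true := by decide +kernel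

theorem e5_157 : treeE 5 208 145 (rows0 5 [4, 3, 2, 1, 0])
    (.N (.N (.N (.F ⟨⟨7,5,1,0,2,2,3⟩,[]⟩) (.F ⟨⟨4,5,3,1,0,5,7⟩,[]⟩)) (.N (.F ⟨⟨15,5,0,0,1,1,1⟩,[]⟩) (.N (.N (.N (.N (.N (.F ⟨⟨16,5,0,0,1,1,1⟩,[]⟩) (.N (.N (.F ⟨⟨17,5,0,0,1,1,1⟩,[]⟩) (.F ⟨⟨21,5,0,0,1,1,1⟩,[]⟩)) (.F ⟨⟨21,5,0,0,0,1,2⟩,[]⟩))) (.N (.F ⟨⟨20,5,0,0,1,1,1⟩,[]⟩) (.F ⟨⟨10,5,1,0,0,7,10⟩,[]⟩))) (.N (.N (.N (.F ⟨⟨19,5,0,0,1,1,1⟩,[]⟩) (.N (.F ⟨⟨22,5,0,0,1,1,1⟩,[]⟩) (.N (.N (.N (.N (.F ⟨⟨13,4,1,2,0,2,3⟩,[]⟩) (.N (.N (.N (.N (.F ⟨⟨15,4,2,4,0,4,6⟩,[]⟩) (.N (.F ⟨⟨18,5,1,3,7,5,8⟩,[]⟩) (.F ⟨⟨21,1,1,1,4,2,1⟩,[]⟩))) (.N (.N (.F ⟨⟨18,5,1,3,8,5,8⟩,[]⟩)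 (.F ⟨⟨21,4,1,1,4,2,1⟩,[]⟩)) (.F ⟨⟨21,4,1,1,4,2,1⟩,[]⟩))) (.N (.N (.N (.F ⟨⟨18,5,1,3,5,5,8⟩,[]⟩) (.F ⟨⟨17,4,3,2,4,3,3⟩,[]⟩)) (.F ⟨⟨17,4,3,2,4,3,3⟩,[]⟩)) (.F ⟨⟨17,4,3,2,4,3,3⟩,[]⟩))) (.F ⟨⟨27,5,0,0,0,1,2⟩,[]⟩))) (.F ⟨⟨15,5,2,0,7,3,4⟩,[]⟩)) (.F ⟨⟨15,5,2,0,10,3,4⟩,[]⟩)) (.F ⟨⟨15,5,2,0,3,3,4⟩,[]⟩)))) (.F ⟨⟨20,5,0,0,0,1,1⟩,[]⟩)) (.N (.F ⟨⟨11,5,1,0,1,5,7⟩,[]⟩) (.N (.N (.N (.N (.F ⟨⟨13,4,1,2,0,2,3⟩,[]⟩) (.N (.F ⟨⟨14,5,2,2,0,3,4⟩,[]⟩) (.F ⟨⟨25,5,0,0,0,1,2⟩,[]⟩))) (.N (.F ⟨⟨24,5,0,0,1,1,1⟩,[]⟩) (.N (.F ⟨⟨17,5,1,0,2,2,2⟩,[]⟩) (.F ⟨⟨23,5,0,0,0,1,1⟩,[]⟩)))) (.N (.N (.F ⟨⟨17,5,1,0,2,2,4⟩,[]⟩) (.F ⟨⟨24,5,0,0,0,1,1⟩,[]⟩))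 (.N (.F ⟨⟨24,5,0,0,1,1,1⟩,[]⟩) (.N (.N (.F ⟨⟨10,5,3,0,5,6,9⟩,[]⟩) (.N (.F ⟨⟨21,5,1,0,3,3,4⟩,[]⟩) (.F ⟨⟨23,5,0,0,0,2,3⟩,[]⟩))) (.F ⟨⟨15,5,1,0,0,4,6⟩,[]⟩))))) (.F ⟨⟨12,5,2,0,0,2,3⟩,[]⟩))))) (.F ⟨⟨17,5,0,0,0,1,1⟩,[]⟩)) (.F ⟨⟨14,5,0,0,0,1,1⟩,[]⟩)))) (.N (.N (.F ⟨⟨11,5,1,0,1,2,3⟩,[]⟩) (.F ⟨⟨15,5,0,0,0,1,1⟩,[]⟩)) (.N (.F ⟨⟨12,5,1,0,1,2,3⟩,[]⟩) (.F ⟨⟨5,5,3,1,0,3,5⟩,[]⟩))))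
    [true, true, true, false, false, true, true, false, false, false, true, true, true, false] = true := by decide +kernel

theorem e5_158 : treeE 5 208 145 (rows0 5 [4, 3, 2, 1, 0])
    (.F ⟨⟨4,5,0,1,0,2,3⟩,[]⟩)
    [true, false, true, true, false, false, false, true, true, true, false] = true := by decide +kernel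

theorem e5_159 : treeE 5 208 145 (rows0 5 [4, 3, 2, 1, 0])
    (.N (.N (.F ⟨⟨10,5,0,0,1,1,2⟩,[]⟩) (.N (.N (.N (.N (.F ⟨⟨7,4,1,2,0,2,3⟩,[]⟩) (.F ⟨⟨14,5,0,0,0,1,1⟩,[]⟩)) (.N (.F ⟨⟨7,5,1,0,2,2,3⟩,[]⟩) (.F ⟨⟨5,5,1,1,0,3,5⟩,[]⟩))) (.N (.N (.F ⟨⟨4,5,1,1,5,3,5⟩,[]⟩) (.F ⟨⟨14,5,0,0,0,1,1⟩,[]⟩)) (.N (.F ⟨⟨8,5,1,0,3,2,3⟩,[]⟩) (.F ⟨⟨4,5,3,1,0,5,7⟩,[]⟩)))) (.N (.N (.N (.F ⟨⟨4,5,1,1,3,3,5⟩,[]⟩) (.F ⟨⟨14,5,0,0,0,1,1⟩,[]⟩)) (.N (.F ⟨⟨8,5,1,0,3,2,3⟩,[]⟩) (.F ⟨⟨4,5,3,1,0,5,7⟩,[]⟩))) (.N (.N (.F ⟨⟨8,5,1,0,2,2,3⟩,[]⟩) (.F ⟨⟨4,5,3,1,0,5,7⟩,[]⟩)) (.N (.F ⟨⟨14,5,0,0,1,1,1⟩,[]⟩) (.F ⟨⟨4,5,3,1,0,3,5⟩,[]⟩)))))) (.F ⟨⟨0,0,2,1,0,2,3⟩,[]⟩))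
    [true, true, true, false, false, false, true, true, true, false] = true := by decide +kernel

theorem e5_160 : treeE 5 208 145 (rows0 5 [4, 3, 2, 1, 0])
    (.F ⟨⟨5,5,0,0,0,1,1⟩,[]⟩)
    [true, false, false, true, true, true, false] = true := by decide +kernel

theorem e5_161 : treeE 5 208 145 (rows0 5 [4, 3, 2, 1, 0])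
    (.N (.N (.F ⟨⟨6,5,0,0,1,1,2⟩,[]⟩) (.N (.F ⟨⟨6,5,0,0,1,1,1⟩,[]⟩) (.N (.F ⟨⟨4,5,0,0,3,1,1⟩,[]⟩) (.F ⟨⟨5,5,0,0,0,2,3⟩,[]⟩)))) (.F ⟨⟨1,5,0,0,0,2,3⟩,[]⟩))
    [true, false, true, true, true, false] = true := by decide +kernel

theorem e5_162 : treeE 5 208 145 (rows0 5 [4, 3, 2, 1, 0])
    (.N (.N (.N (.N (.F ⟨⟨5,5,0,0,1,1,2⟩,[]⟩) (.N (.F ⟨⟨5,5,0,0,1,1,1⟩,[]⟩) (.F ⟨⟨8,5,0,0,0,1,2⟩,[]⟩))) (.N (.F ⟨⟨7,5,0,0,1,1,1⟩,[]⟩) (.N (.N (.F ⟨⟨2,5,0,0,1,2,3⟩,[]⟩) (.N (.F ⟨⟨2,5,0,0,8,2,3⟩,[]⟩) (.N (.F ⟨⟨2,5,0,0,8,2,3⟩,[]⟩) (.F ⟨⟨9,5,0,0,0,1,1⟩,[]⟩)))) (.N (.N (.F ⟨⟨2,5,0,0,4,2,3⟩,[]⟩) (.F ⟨⟨10,5,0,0,0,1,1⟩,[]⟩)) (.N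 (.N (.F ⟨⟨11,5,0,0,1,1,2⟩,[]⟩) (.N (.F ⟨⟨11,5,0,0,1,1,1⟩,[]⟩) (.F ⟨⟨7,5,0,0,3,1,1⟩,[]⟩))) (.F ⟨⟨6,5,0,0,0,1,1⟩,[]⟩)))))) (.F ⟨⟨5,5,0,0,0,1,1⟩,[]⟩)) (.N (.N (.F ⟨⟨6,5,0,0,1,1,2⟩,[]⟩) (.N (.F ⟨⟨6,5,0,0,1,1,1⟩,[]⟩) (.N (.F ⟨⟨3,5,0,0,1,2,3⟩,[]⟩) (.N (.F ⟨⟨3,5,0,0,4,2,3⟩,[]⟩) (.F ⟨⟨1,5,0,0,0,3,5⟩,[]⟩))))) (.F ⟨⟨1,5,0,0,0,1,2⟩,[]⟩)))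
    [true, true, true, true, false] = true := by decide +kernel

theorem e5_163 : treeE 5 208 145 (rows0 5 [4, 3, 2, 1, 0])
    (.N (.N (.F ⟨⟨1,5,0,0,1,1,2⟩,[]⟩) (.N (.N (.N (.N (.F ⟨⟨1,5,0,0,1,3,5⟩,[]⟩) (.F ⟨⟨3,5,0,0,4,2,3⟩,[]⟩)) (.F ⟨⟨3,5,0,0,1,2,3⟩,[]⟩)) (.F ⟨⟨6,5,0,0,1,1,1⟩,[]⟩)) (.F ⟨⟨6,5,0,0,0,1,2⟩,[]⟩))) (.N (.F ⟨⟨5,5,0,0,1,1,1⟩,[]⟩) (.N (.N (.N (.N (.N (.F ⟨⟨6,5,0,0,1,1,1⟩,[]⟩) (.N (.N (.F ⟨⟨7,5,0,0,1,1,1⟩,[]⟩) (.F ⟨⟨11,5,0,0,1,1,1⟩,[]⟩)) (.F ⟨⟨11,5,0,0,0,1,2⟩,[]⟩))) (.N (.F ⟨⟨10,5,0,0,1,1,1⟩,[]⟩) (.F ⟨⟨2,5,0,0,4,2,3⟩,[]⟩))) (.N (.N (.N (.F ⟨⟨9,5,0,0,1,1,1⟩,[]⟩) (.F ⟨⟨2,5,0,0,8,2,3⟩,[]⟩)) (.F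 ⟨⟨2,5,0,0,4,2,3⟩,[]⟩)) (.F ⟨⟨2,5,0,0,1,2,3⟩,[]⟩))) (.F ⟨⟨7,5,0,0,0,1,1⟩,[]⟩)) (.N (.N (.F ⟨⟨8,5,0,0,1,1,2⟩,[]⟩) (.F ⟨⟨5,5,0,0,3,1,1⟩,[]⟩)) (.F ⟨⟨5,5,0,0,0,1,2⟩,[]⟩)))))
    [false, false, false, false, true] = true := by decide +kernel

theorem e5_164 : treeE 5 208 145 (rows0 5 [4, 3, 2, 1, 0])
    (.N (.F ⟨⟨1,5,0,0,1,2,3⟩,[]⟩) (.N (.N (.N (.F ⟨⟨5,5,0,0,1,2,3⟩,[]⟩) (.F ⟨⟨4,5,0,0,3,1,1⟩,[]⟩)) (.F ⟨⟨6,5,0,0,1,1,1⟩,[]⟩)) (.F ⟨⟨6,5,0,0,0,1,2⟩,[]⟩)))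
    [false, true, false, false, false, true] = true := by decide +kernel

theorem e5_165 : treeE 5 208 145 (rows0 5 [4, 3, 2, 1, 0])
    (.F ⟨⟨5,5,0,0,1,1,1⟩,[]⟩)
    [false, true, true, false, false, false, true] = true := by decide +kernel

theorem e5_166 : treeE 5 208 145 (rows0 5 [4, 3, 2, 1, 0])
    (.N (.F ⟨⟨0,4,1,2,0,2,3⟩,[]⟩) (.N (.N (.N (.N (.N (.F ⟨⟨4,5,1,3,4,3,5⟩,[]⟩) (.F ⟨⟨14,5,0,0,0,1,1⟩,[]⟩)) (.N (.F ⟨⟨4,5,1,3,5,5,7⟩,[]⟩) (.F ⟨⟨8,5,0,1,0,2,3⟩,[]⟩))) (.N (.N (.F ⟨⟨4,5,1,3,5,5,7⟩,[]⟩) (.F ⟨⟨8,5,0,1,0,2,3⟩,[]⟩)) (.N (.F ⟨⟨14,5,0,0,1,1,1⟩,[]⟩) (.F ⟨⟨4,5,1,1,0,3,5⟩,[]⟩)))) (.N (.N (.N (.F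 ⟨⟨4,5,1,3,4,5,7⟩,[]⟩) (.F ⟨⟨8,5,0,1,0,2,3⟩,[]⟩)) (.N (.F ⟨⟨14,5,0,0,1,1,1⟩,[]⟩) (.F ⟨⟨4,5,1,1,0,3,5⟩,[]⟩))) (.N (.N (.F ⟨⟨5,5,1,1,2,3,5⟩,[]⟩) (.F ⟨⟨7,5,0,1,0,2,3⟩,[]⟩)) (.N (.F ⟨⟨14,5,0,0,1,1,1⟩,[]⟩) (.F ⟨⟨7,0,2,1,0,2,3⟩,[]⟩))))) (.F ⟨⟨10,5,0,0,0,1,2⟩,[]⟩)))
    [false, false, false, true, true, true, false, false, false, true] = true := by decide +kernel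

theorem e5_167 : treeE 5 208 145 (rows0 5 [4, 3, 2, 1, 0])
    (.F ⟨⟨4,5,1,0,2,2,3⟩,[]⟩)
    [false, true, false, false, true, true, true, false, false, false, true] = true := by decide +kernel

theorem e5_168 : treeE 5 208 145 (rows0 5 [4, 3, 2, 1, 0])
    (.N (.N (.N (.F ⟨⟨5,5,1,3,4,3,5⟩,[]⟩) (.F ⟨⟨12,5,0,1,0,2,3⟩,[]⟩)) (.N (.F ⟨⟨15,5,0,0,1,1,1⟩,[]⟩) (.F ⟨⟨11,5,0,1,0,2,3⟩,[]⟩))) (.N (.N (.N (.F ⟨⟨14,5,0,0,1,1,1⟩,[]⟩) (.N (.F ⟨⟨17,5,0,0,1,1,1⟩,[]⟩) (.N (.N (.N (.N (.F ⟨⟨12,5,0,2,4,2,3⟩,[]⟩) (.N (.N (.N (.N (.F ⟨⟨15,5,0,1,2,4,6⟩,[]⟩) (.N (.N (.F ⟨⟨23,5,0,0,1,2,3⟩,[]⟩) (.F ⟨⟨21,5,0,1,0,3,4⟩,[]⟩)) (.F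 ⟨⟨10,5,0,3,9,6,9⟩,[]⟩))) (.F ⟨⟨24,5,0,0,0,1,1⟩,[]⟩)) (.N (.F ⟨⟨24,5,0,0,1,1,1⟩,[]⟩) (.F ⟨⟨17,5,0,1,0,2,4⟩,[]⟩))) (.N (.N (.N (.F ⟨⟨23,5,0,0,1,1,1⟩,[]⟩) (.F ⟨⟨17,5,0,1,4,2,2⟩,[]⟩)) (.F ⟨⟨24,5,0,0,0,1,1⟩,[]⟩)) (.N (.N (.F ⟨⟨25,5,0,0,1,1,2⟩,[]⟩) (.F ⟨⟨14,5,2,2,5,3,4⟩,[]⟩)) (.F ⟨⟨13,0,2,1,0,2,3⟩,[]⟩))))) (.F ⟨⟨11,5,0,1,0,5,7⟩,[]⟩)) (.N (.F ⟨⟨20,5,0,0,1,1,1⟩,[]⟩) (.N (.N (.N (.F ⟨⟨15,5,0,2,0,3,4⟩,[]⟩) (.N (.F ⟨⟨15,5,0,2,0,3,4⟩,[]⟩) (.N (.F ⟨⟨15,5,0,2,0,3,4⟩,[]⟩) (.N (.N (.F ⟨⟨27,5,0,0,1,1,2⟩,[]⟩) (.N (.N (.F ⟨⟨17,0,2,3,2,3,3⟩,[]⟩) (.N (.F ⟨⟨17,0,2,3,2,3,3⟩,[]⟩) (.N (.F ⟨⟨17,0,2,3,2,3,3⟩,[]⟩) (.F ⟨⟨18,5,3,1,0,5,8⟩,[]⟩))))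 (.N (.N (.F ⟨⟨21,0,1,1,1,2,1⟩,[]⟩) (.N (.F ⟨⟨21,0,1,1,1,2,1⟩,[]⟩) (.F ⟨⟨18,5,3,1,0,5,8⟩,[]⟩))) (.N (.N (.F ⟨⟨21,0,1,1,1,2,1⟩,[]⟩) (.F ⟨⟨18,5,3,1,0,5,8⟩,[]⟩)) (.F ⟨⟨15,0,4,2,0,4,6⟩,[]⟩))))) (.F ⟨⟨13,0,2,1,0,2,3⟩,[]⟩))))) (.F ⟨⟨22,5,0,0,0,1,1⟩,[]⟩)) (.F ⟨⟨19,5,0,0,0,1,1⟩,[]⟩)))) (.N (.N (.F ⟨⟨10,5,0,1,2,7,10⟩,[]⟩) (.F ⟨⟨20,5,0,0,0,1,1⟩,[]⟩)) (.N (.N (.F ⟨⟨21,5,0,0,1,1,2⟩,[]⟩) (.N (.F ⟨⟨21,5,0,0,1,1,1⟩,[]⟩) (.F ⟨⟨17,5,0,0,3,1,1⟩,[]⟩))) (.F ⟨⟨16,5,0,0,0,1,1⟩,[]⟩)))))) (.F ⟨⟨15,5,0,0,0,1,1⟩,[]⟩)) (.N (.F ⟨⟨4,5,1,3,5,5,7⟩,[]⟩) (.F ⟨⟨7,5,0,1,0,2,3⟩,[]⟩))))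
    [false, false, false, true, true, false, false, true, true, true, false, false, false, true] = true := by decide +kernel

theorem e5_169 : treeE 5 208 145 (rows0 5 [4, 3, 2, 1, 0])
    (.N (.N (.N (.N (.N (.F ⟨⟨13,5,0,0,1,1,1⟩,[]⟩) (.N (.F ⟨⟨18,5,0,0,1,1,1⟩,[]⟩) (.N (.N (.N (.F ⟨⟨10,5,0,1,2,7,10⟩,[]⟩) (.N (.N (.N (.F ⟨⟨22,5,0,0,1,1,1⟩,[]⟩) (.F ⟨⟨15,5,0,0,8,2,3⟩,[]⟩)) (.F ⟨⟨15,5,0,0,4,2,3⟩,[]⟩)) (.F ⟨⟨15,5,0,0,1,2,3⟩,[]⟩))) (.F ⟨⟨20,5,0,0,0,1,1⟩,[]⟩)) (.N (.N (.F ⟨⟨21,5,0,0,1,1,2⟩,[]⟩) (.F ⟨⟨18,5,0,0,3,1,1⟩,[]⟩)) (.F ⟨⟨18,5,0,0,0,1,2⟩,[]⟩))))) (.N (.N (.F ⟨⟨14,5,0,0,1,2,3⟩,[]⟩) (.N (.N (.N (.F ⟨⟨18,5,0,0,1,2,3⟩,[]⟩)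 (.F ⟨⟨17,5,0,0,3,1,1⟩,[]⟩)) (.F ⟨⟨19,5,0,0,1,1,1⟩,[]⟩)) (.F ⟨⟨19,5,0,0,0,1,2⟩,[]⟩))) (.N (.F ⟨⟨18,5,0,0,1,1,1⟩,[]⟩) (.F ⟨⟨0,4,9,6,0,10,15⟩,[]⟩)))) (.F ⟨⟨15,5,0,0,0,1,1⟩,[]⟩)) (.N (.F ⟨⟨4,5,1,3,5,5,7⟩,[]⟩) (.F ⟨⟨7,5,0,1,0,2,3⟩,[]⟩))) (.N (.N (.F ⟨⟨1,5,2,5,6,9,13⟩,[]⟩) (.F ⟨⟨7,5,0,1,0,2,3⟩,[]⟩)) (.N (.F ⟨⟨15,5,0,0,1,1,1⟩,[]⟩) (.F ⟨⟨7,0,2,1,0,2,3⟩,[]⟩))))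
    [true, false, false, true, true, false, false, true, true, true, false, false, false, true] = true := by decide +kernel

theorem e5_170 : treeE 5 208 145 (rows0 5 [4, 3, 2, 1, 0])
    (.F ⟨⟨11,5,0,0,0,1,1⟩,[]⟩)
    [true, false, true, true, false, false, true, true, true, false, false, false, true] = true := by decide +kernel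

theorem e5_171 : treeE 5 208 145 (rows0 5 [4, 3, 2, 1, 0])
    (.F ⟨⟨8,5,0,0,0,1,1⟩,[]⟩)
    [true, true, true, false, false, true, true, true, false, false, false, true] = true := by decide +kernel

theorem e5_172 : treeE 5 208 145 (rows0 5 [4, 3, 2, 1, 0])
    (.N (.N (.F ⟨⟨4,5,1,0,2,2,3⟩,[]⟩) (.F ⟨⟨9,5,0,0,0,1,1⟩,[]⟩)) (.N (.F ⟨⟨5,5,1,0,2,2,3⟩,[]⟩) (.N (.N (.N (.N (.N (.N (.N (.F ⟨⟨10,5,0,1,2,1,1⟩,[]⟩) (.F ⟨⟨13,5,0,1,0,2,3⟩,[]⟩)) (.N (.F ⟨⟨16,5,0,0,1,1,1⟩,[]⟩) (.F ⟨⟨8,5,0,2,0,4,7⟩,[]⟩))) (.N (.N (.F ⟨⟨11,5,0,1,2,2,3⟩,[]⟩) (.F ⟨⟨11,5,0,1,0,2,3⟩,[]⟩)) (.N (.F ⟨⟨16,5,0,0,1,1,1⟩,[]⟩) (.F ⟨⟨11,5,0,1,0,2,3⟩,[]⟩))))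 (.N (.N (.N (.N (.F ⟨⟨11,5,0,1,2,2,3⟩,[]⟩) (.N (.N (.F ⟨⟨15,5,0,0,1,2,3⟩,[]⟩) (.F ⟨⟨13,5,0,1,0,3,4⟩,[]⟩)) (.N (.F ⟨⟨19,5,0,0,1,1,1⟩,[]⟩) (.N (.N (.N (.N (.F ⟨⟨15,5,0,1,3,1,1⟩,[]⟩) (.F ⟨⟨12,0,3,1,3,2,2⟩,[]⟩)) (.F ⟨⟨12,0,3,1,3,2,2⟩,[]⟩)) (.F ⟨⟨12,0,3,1,3,2,2⟩,[]⟩)) (.F ⟨⟨12,4,3,1,3,2,2⟩,[]⟩))))) (.F ⟨⟨11,5,0,1,0,2,3⟩,[]⟩)) (.N (.F ⟨⟨16,5,0,0,1,1,1⟩,[]⟩) (.F ⟨⟨11,5,0,1,0,2,3⟩,[]⟩))) (.N (.N (.N (.F ⟨⟨15,5,0,0,1,1,1⟩,[]⟩) (.N (.F ⟨⟨18,5,0,0,1,1,1⟩,[]⟩) (.N (.N (.N (.N (.F ⟨⟨12,5,1,2,4,2,4⟩,[]⟩) (.F ⟨⟨22,5,0,0,0,1,1⟩,[]⟩)) (.F ⟨⟨3,0,5,3,10,5,7⟩,[]⟩)) (.F ⟨⟨3,0,5,3,10,5,7⟩,[]⟩)) (.F ⟨⟨3,4,5,3,10,5,7⟩,[]⟩))))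 (.F ⟨⟨16,5,0,0,0,1,1⟩,[]⟩)) (.N (.F ⟨⟨5,5,1,3,4,5,7⟩,[]⟩) (.F ⟨⟨8,5,1,0,0,1,1⟩,[]⟩))))) (.F ⟨⟨12,5,0,0,0,1,1⟩,[]⟩)) (.N (.N (.F ⟨⟨13,5,0,0,1,1,2⟩,[]⟩) (.N (.F ⟨⟨13,5,0,0,1,1,1⟩,[]⟩) (.N (.F ⟨⟨11,5,0,0,3,1,1⟩,[]⟩) (.F ⟨⟨12,5,0,0,0,2,3⟩,[]⟩)))) (.F ⟨⟨8,5,0,0,0,2,3⟩,[]⟩))) (.F ⟨⟨4,5,1,0,0,2,3⟩,[]⟩))))
    [true, false, true, true, true, false, false, false, true] = true := by decide +kernel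

theorem e5_173 : treeE 5 208 145 (rows0 5 [4, 3, 2, 1, 0])
    (.N (.N (.N (.F ⟨⟨4,5,1,0,1,2,3⟩,[]⟩) (.F ⟨⟨9,5,0,0,0,1,1⟩,[]⟩)) (.N (.F ⟨⟨5,5,1,0,2,2,3⟩,[]⟩) (.F ⟨⟨4,5,1,0,0,2,3⟩,[]⟩))) (.N (.N (.F ⟨⟨5,5,1,0,1,2,3⟩,[]⟩) (.F ⟨⟨9,5,0,0,0,1,1⟩,[]⟩)) (.N (.F ⟨⟨6,5,1,0,1,2,3⟩,[]⟩) (.F ⟨⟨3,5,1,0,0,1,1⟩,[]⟩))))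
    [true, true, true, true, false, false, false, true] = true := by decide +kernel

end Pool.Agent.RTX
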