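import Pool.Agent.RTS.Exact

/-!
# RTS: windows of the initial state, part 6
-/

set_option autoImplicit false
set_option maxRecDepth 100000

namespace Pool.Agent.RTX

theorem e5_174 : treeE 5 208 145 (rows0 5 [4, 3, 2, 1, 0])
    (.N (.F ⟨⟨1,5,0,0,1,2,3⟩,[]⟩) (.N (.N (.N (.F ⟨⟨3,5,0,0,4,2,3⟩,[]⟩) (.F ⟨⟨4,5,0,0,1,2,3⟩,[]⟩)) (.F ⟨⟨7,5,0,0,1,1,1⟩,[]⟩)) (.F ⟨⟨7,5,0,0,0,1,2⟩,[]⟩)))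
    [false, false, false, true, false, false, true] = true := by decide +kernel

theorem e5_175 : treeE 5 208 145 (rows0 5 [4, 3, 2, 1, 0])
    (.N (.N (.F ⟨⟨7,5,0,0,1,1,2⟩,[]⟩) (.N (.N (.N (.F ⟨⟨4,5,0,0,2,2,3⟩,[]⟩) (.N (.N (.N (.F ⟨⟨11,5,0,0,1,1,1⟩,[]⟩) (.F ⟨⟨6,5,0,0,3,4,5⟩,[]⟩)) (.F ⟨⟨12,5,0,0,0,1,1⟩,[]⟩)) (.N (.N (.F ⟨⟨13,5,0,0,1,1,2⟩,[]⟩) (.N (.N (.N (.N (.F ⟨⟨0,4,1,2,0,2,3⟩,[]⟩) (.N (.F ⟨⟨3,4,5,6,0,7,11⟩,[]⟩) (.F ⟨⟨18,5,0,0,0,1,2⟩,[]⟩))) (.F ⟨⟨6,5,2,0,4,3,4⟩,[]⟩)) (.F ⟨⟨6,5,2,0,7,3,4⟩,[]⟩)) (.F ⟨⟨6,5,2,0,3,3,4⟩,[]⟩))) (.N (.N (.N (.N (.F ⟨⟨0,4,1,2,0,2,3⟩,[]⟩) (.N (.F ⟨⟨1,0,4,4,0,5,8⟩,[]⟩) (.F ⟨⟨17,5,0,0,0,1,2⟩,[]⟩)))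 (.N (.F ⟨⟨16,5,0,0,1,1,1⟩,[]⟩) (.N (.F ⟨⟨9,5,1,0,2,2,2⟩,[]⟩) (.F ⟨⟨15,5,0,0,0,1,1⟩,[]⟩)))) (.N (.N (.F ⟨⟨11,5,1,0,2,2,3⟩,[]⟩) (.F ⟨⟨16,5,0,0,0,1,1⟩,[]⟩)) (.N (.F ⟨⟨16,5,0,0,1,1,1⟩,[]⟩) (.N (.N (.F ⟨⟨6,5,1,0,3,3,4⟩,[]⟩) (.N (.F ⟨⟨13,5,1,0,3,3,4⟩,[]⟩) (.F ⟨⟨15,5,0,0,0,2,3⟩,[]⟩))) (.F ⟨⟨6,5,1,0,0,5,7⟩,[]⟩))))) (.N (.N (.N (.F ⟨⟨11,5,1,0,1,2,3⟩,[]⟩) (.F ⟨⟨16,5,0,0,0,1,1⟩,[]⟩)) (.N (.F ⟨⟨16,5,0,0,1,1,1⟩,[]⟩) (.F ⟨⟨6,5,1,0,0,5,7⟩,[]⟩))) (.N (.N (.F ⟨⟨8,5,1,0,1,4,5⟩,[]⟩) (.F ⟨⟨16,5,0,0,0,1,1⟩,[]⟩)) (.N (.F ⟨⟨12,5,1,0,1,2,3⟩,[]⟩) (.N (.N (.N (.N (.F ⟨⟨14,4,1,2,0,2,3⟩,[]⟩) (.F ⟨⟨8,3,2,0,3,1,1⟩,[]⟩)) (.F ⟨⟨8,2,2,0,5,1,1⟩,[]⟩))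 (.F ⟨⟨11,1,2,0,3,1,1⟩,[]⟩)) (.F ⟨⟨11,5,1,0,0,1,2⟩,[]⟩))))))))) (.N (.N (.N (.N (.N (.F ⟨⟨9,5,0,0,1,2,3⟩,[]⟩) (.F ⟨⟨4,5,0,0,8,5,7⟩,[]⟩)) (.F ⟨⟨13,5,0,0,0,1,1⟩,[]⟩)) (.F ⟨⟨4,5,0,0,4,5,7⟩,[]⟩)) (.F ⟨⟨9,5,0,0,1,1,1⟩,[]⟩)) (.F ⟨⟨10,5,0,0,0,1,2⟩,[]⟩))) (.N (.F ⟨⟨9,5,0,0,1,1,1⟩,[]⟩) (.F ⟨⟨6,5,0,0,0,2,3⟩,[]⟩)))) (.N (.N (.N (.N (.F ⟨⟨4,5,0,0,2,2,3⟩,[]⟩) (.N (.F ⟨⟨11,5,0,0,1,1,1⟩,[]⟩) (.F ⟨⟨2,5,0,0,5,2,3⟩,[]⟩))) (.N (.N (.N (.F ⟨⟨10,5,0,0,1,1,1⟩,[]⟩) (.F ⟨⟨2,5,0,0,11,2,3⟩,[]⟩)) (.F ⟨⟨2,5,0,0,5,2,3⟩,[]⟩)) (.F ⟨⟨2,5,0,0,2,2,3⟩,[]⟩))) (.F ⟨⟨8,5,0,0,0,1,1⟩,[]⟩)) (.N (.N (.F ⟨⟨9,5,0,0,1,1,2⟩,[]⟩) (.F ⟨⟨6,5,0,0,3,1,1⟩,[]⟩))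 (.F ⟨⟨6,5,0,0,0,1,2⟩,[]⟩))))
    [true, false, false, true, false, false, true] = true := by decide +kernel

theorem e5_176 : treeE 5 208 145 (rows0 5 [4, 3, 2, 1, 0])
    (.N (.F ⟨⟨6,5,0,0,1,1,2⟩,[]⟩) (.N (.N (.F ⟨⟨5,5,0,0,1,3,4⟩,[]⟩) (.F ⟨⟨9,5,0,0,1,1,1⟩,[]⟩)) (.F ⟨⟨9,5,0,0,0,1,2⟩,[]⟩)))
    [false, false, false, true, false, true, false, false, true] = true := by decide +kernel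

theorem e5_177 : treeE 5 208 145 (rows0 5 [4, 3, 2, 1, 0])
    (.N (.F ⟨⟨8,5,0,0,1,1,1⟩,[]⟩) (.N (.N (.N (.N (.F ⟨⟨0,4,1,2,0,2,3⟩,[]⟩) (.N (.N (.N (.N (.F ⟨⟨3,4,2,4,0,4,6⟩,[]⟩) (.N (.F ⟨⟨4,5,1,3,7,5,8⟩,[]⟩) (.F ⟨⟨11,5,0,1,0,2,3⟩,[]⟩))) (.N (.N (.F ⟨⟨4,5,1,3,8,5,8⟩,[]⟩) (.F ⟨⟨11,5,0,1,0,2,3⟩,[]⟩)) (.N (.F ⟨⟨17,5,0,0,1,1,1⟩,[]⟩) (.F ⟨⟨4,5,3,2,0,7,10⟩,[]⟩)))) (.N (.N (.N (.F ⟨⟨4,5,1,3,5,5,8⟩,[]⟩) (.F ⟨⟨11,5,0,1,0,2,3⟩,[]⟩)) (.N (.F ⟨⟨17,5,0,0,1,1,1⟩,[]⟩) (.F ⟨⟨4,5,3,2,0,7,10⟩,[]⟩))) (.N (.N (.F ⟨⟨8,5,1,1,2,3,5⟩,[]⟩) (.F ⟨⟨10,5,0,1,0,2,3⟩,[]⟩)) (.N (.F ⟨⟨17,5,0,0,1,1,1⟩,[]⟩) (.F ⟨⟨7,5,2,1,0,2,3⟩,[]⟩))))) (.F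 ⟨⟨13,5,0,0,0,1,2⟩,[]⟩))) (.N (.F ⟨⟨12,5,0,0,1,1,1⟩,[]⟩) (.N (.N (.F ⟨⟨1,0,5,5,0,6,10⟩,[]⟩) (.F ⟨⟨14,5,0,0,0,1,1⟩,[]⟩)) (.N (.F ⟨⟨8,5,1,0,2,3,4⟩,[]⟩) (.F ⟨⟨12,5,0,0,0,1,2⟩,[]⟩))))) (.N (.N (.F ⟨⟨7,5,0,0,3,1,1⟩,[]⟩) (.N (.N (.F ⟨⟨8,5,1,0,2,3,4⟩,[]⟩) (.F ⟨⟨11,5,0,0,2,1,1⟩,[]⟩)) (.F ⟨⟨13,5,0,0,0,1,2⟩,[]⟩))) (.N (.F ⟨⟨12,5,0,0,1,1,1⟩,[]⟩) (.N (.N (.N (.F ⟨⟨1,0,5,5,0,6,10⟩,[]⟩) (.F ⟨⟨15,5,0,0,0,1,1⟩,[]⟩)) (.N (.F ⟨⟨9,5,1,0,3,3,4⟩,[]⟩) (.F ⟨⟨11,5,0,0,0,2,3⟩,[]⟩))) (.N (.N (.F ⟨⟨7,5,1,0,3,4,5⟩,[]⟩) (.F ⟨⟨15,5,0,0,0,1,1⟩,[]⟩)) (.F ⟨⟨10,5,0,0,0,1,1⟩,[]⟩)))))) (.N (.N (.N (.F ⟨⟨6,5,0,0,2,1,1⟩,[]⟩) (.N (.N (.N (.F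 ⟨⟨8,5,1,0,2,3,4⟩,[]⟩) (.F ⟨⟨10,5,0,0,2,1,1⟩,[]⟩)) (.F ⟨⟨12,5,0,0,1,1,1⟩,[]⟩)) (.F ⟨⟨13,5,0,0,0,1,2⟩,[]⟩))) (.N (.F ⟨⟨12,5,0,0,1,1,1⟩,[]⟩) (.N (.N (.N (.F ⟨⟨7,5,1,0,3,4,5⟩,[]⟩) (.N (.N (.N (.F ⟨⟨16,5,0,0,1,1,1⟩,[]⟩) (.F ⟨⟨7,5,1,0,11,3,3⟩,[]⟩)) (.F ⟨⟨17,5,0,0,0,1,1⟩,[]⟩)) (.F ⟨⟨7,5,1,0,2,3,3⟩,[]⟩))) (.F ⟨⟨14,5,0,0,0,1,1⟩,[]⟩)) (.F ⟨⟨11,5,0,0,0,1,1⟩,[]⟩)))) (.N (.N (.F ⟨⟨8,5,1,0,1,2,3⟩,[]⟩) (.F ⟨⟨12,5,0,0,0,1,1⟩,[]⟩)) (.N (.F ⟨⟨9,5,1,0,1,2,3⟩,[]⟩) (.N (.N (.N (.N (.F ⟨⟨10,4,1,2,0,2,3⟩,[]⟩) (.F ⟨⟨16,5,0,0,0,1,1⟩,[]⟩)) (.N (.F ⟨⟨11,5,1,0,2,2,3⟩,[]⟩) (.F ⟨⟨6,2,4,0,4,2,3⟩,[]⟩))) (.N (.N (.F ⟨⟨11,5,1,0,2,2,3⟩,[]⟩)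 (.F ⟨⟨16,5,0,0,0,1,1⟩,[]⟩)) (.F ⟨⟨8,1,2,0,3,1,1⟩,[]⟩))) (.F ⟨⟨7,5,1,0,0,1,1⟩,[]⟩)))))))
    [true, false, false, true, false, true, false, false, true] = true := by decide +kernel

theorem e5_178 : treeE 5 208 145 (rows0 5 [4, 3, 2, 1, 0])
    (.N (.N (.N (.F ⟨⟨6,5,0,0,1,2,3⟩,[]⟩) (.F ⟨⟨5,5,0,0,3,1,1⟩,[]⟩)) (.F ⟨⟨7,5,0,0,1,1,1⟩,[]⟩)) (.F ⟨⟨7,5,0,0,0,1,2⟩,[]⟩))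
    [true, false, true, false, true, false, false, true] = true := by decide +kernel

theorem e5_179 : treeE 5 208 145 (rows0 5 [4, 3, 2, 1, 0])
    (.F ⟨⟨6,5,0,0,1,1,1⟩,[]⟩)
    [false, true, true, false, true, false, false, true] = true := by decide +kernel

theorem e5_180 : treeE 5 208 145 (rows0 5 [4, 3, 2, 1, 0])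
    (.N (.F ⟨⟨0,4,1,2,0,2,3⟩,[]⟩) (.N (.N (.N (.N (.N (.F ⟨⟨5,5,1,3,4,3,5⟩,[]⟩) (.F ⟨⟨15,5,0,0,0,1,1⟩,[]⟩)) (.N (.F ⟨⟨4,5,1,3,5,5,8⟩,[]⟩) (.F ⟨⟨9,5,0,1,0,2,3⟩,[]⟩))) (.N (.N (.F ⟨⟨2,5,1,4,6,7,10⟩,[]⟩) (.F ⟨⟨9,5,0,1,0,2,3⟩,[]⟩)) (.N (.F ⟨⟨6,5,1,1,3,3,5⟩,[]⟩) (.F ⟨⟨5,5,1,1,0,3,5⟩,[]⟩)))) (.N (.N (.N (.F ⟨⟨1,5,2,5,6,9,13⟩,[]⟩) (.F ⟨⟨9,5,0,1,0,2,3⟩,[]⟩)) (.N (.F ⟨⟨6,5,1,1,3,3,5⟩,[]⟩) (.F ⟨⟨5,5,1,1,0,3,5⟩,[]⟩))) (.N (.N (.F ⟨⟨6,5,1,1,2,3,5⟩,[]⟩) (.F ⟨⟨8,5,0,1,0,2,3⟩,[]⟩)) (.N (.F ⟨⟨15,5,0,0,1,1,1⟩,[]⟩) (.F ⟨⟨8,0,2,1,0,2,3⟩,[]⟩))))) (.F ⟨⟨11,5,0,0,0,1,2⟩,[]⟩)))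
    [false, false, false, true, true, true, false, true, false, false, true] = true := by decide +kernel

theorem e5_181 : treeE 5 208 145 (rows0 5 [4, 3, 2, 1, 0])
    (.F ⟨⟨10,5,0,0,1,1,1⟩,[]⟩)
    [false, true, false, false, true, true, true, false, true, false, false, true] = true := by decide +kernel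

theorem e5_182 : treeE 5 208 145 (rows0 5 [4, 3, 2, 1, 0])
    (.N (.N (.N (.F ⟨⟨6,5,1,3,4,3,5⟩,[]⟩) (.F ⟨⟨13,5,0,1,0,2,3⟩,[]⟩)) (.N (.F ⟨⟨16,5,0,0,1,1,1⟩,[]⟩) (.F ⟨⟨12,5,0,1,0,2,3⟩,[]⟩))) (.N (.N (.N (.F ⟨⟨15,5,0,0,1,1,1⟩,[]⟩) (.N (.F ⟨⟨18,5,0,0,1,1,1⟩,[]⟩) (.N (.N (.N (.N (.F ⟨⟨13,5,0,2,4,2,3⟩,[]⟩) (.N (.F ⟨⟨12,1,0,3,0,2,2⟩,[]⟩) (.N (.F ⟨⟨12,1,0,3,0,2,2⟩,[]⟩) (.N (.F ⟨⟨12,1,0,3,0,2,2⟩,[]⟩) (.F ⟨⟨14,0,2,1,0,2,3⟩,[]⟩))))) (.F ⟨⟨12,5,0,1,0,5,7⟩,[]⟩)) (.N (.F ⟨⟨21,5,0,0,1,1,1⟩,[]⟩) (.N (.F ⟨⟨15,5,0,0,3,3,3⟩,[]⟩) (.F ⟨⟨20,5,0,0,0,1,1⟩,[]⟩)))) (.N (.N (.F ⟨⟨11,5,0,1,2,7,10⟩,[]⟩) (.F ⟨⟨21,5,0,0,0,1,1⟩,[]⟩))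 (.N (.N (.F ⟨⟨22,5,0,0,1,1,2⟩,[]⟩) (.N (.F ⟨⟨22,5,0,0,1,1,1⟩,[]⟩) (.F ⟨⟨18,5,0,0,3,1,1⟩,[]⟩))) (.F ⟨⟨17,5,0,0,0,1,1⟩,[]⟩)))))) (.F ⟨⟨16,5,0,0,0,1,1⟩,[]⟩)) (.N (.N (.F ⟨⟨17,5,0,0,1,1,2⟩,[]⟩) (.N (.N (.N (.N (.F ⟨⟨12,5,0,2,4,2,3⟩,[]⟩) (.N (.F ⟨⟨12,3,0,3,0,2,2⟩,[]⟩) (.N (.F ⟨⟨4,1,1,11,0,7,10⟩,[]⟩) (.N (.F ⟨⟨4,1,1,11,0,7,10⟩,[]⟩) (.F ⟨⟨14,0,2,1,0,2,3⟩,[]⟩))))) (.F ⟨⟨20,5,0,0,0,1,1⟩,[]⟩)) (.N (.F ⟨⟨7,5,1,2,9,7,10⟩,[]⟩) (.F ⟨⟨10,5,0,2,0,7,11⟩,[]⟩))) (.N (.N (.F ⟨⟨7,5,1,2,6,7,10⟩,[]⟩) (.F ⟨⟨20,5,0,0,0,1,1⟩,[]⟩)) (.F ⟨⟨12,5,0,1,0,3,4⟩,[]⟩)))) (.F ⟨⟨8,5,0,1,0,2,3⟩,[]⟩))))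
    [false, false, false, true, true, false, false, true, true, true, false, true, false, false, true] = true := by decide +kernel

theorem e5_183 : treeE 5 208 145 (rows0 5 [4, 3, 2, 1, 0])
    (.N (.N (.N (.N (.N (.F ⟨⟨14,5,0,0,1,1,1⟩,[]⟩) (.N (.F ⟨⟨19,5,0,0,1,1,1⟩,[]⟩) (.N (.N (.N (.F ⟨⟨11,5,0,1,2,7,10⟩,[]⟩) (.N (.N (.F ⟨⟨14,5,0,0,6,3,3⟩,[]⟩) (.F ⟨⟨16,5,0,0,4,2,3⟩,[]⟩)) (.F ⟨⟨16,5,0,0,1,2,3⟩,[]⟩))) (.F ⟨⟨21,5,0,0,0,1,1⟩,[]⟩)) (.N (.N (.F ⟨⟨22,5,0,0,1,1,2⟩,[]⟩) (.F ⟨⟨19,5,0,0,3,1,1⟩,[]⟩)) (.F ⟨⟨19,5,0,0,0,1,2⟩,[]⟩))))) (.N (.N (.F ⟨⟨15,5,0,0,1,2,3⟩,[]⟩) (.N (.N (.N (.F ⟨⟨19,5,0,0,1,2,3⟩,[]⟩) (.F ⟨⟨18,5,0,0,3,1,1⟩,[]⟩))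 (.F ⟨⟨20,5,0,0,1,1,1⟩,[]⟩)) (.F ⟨⟨20,5,0,0,0,1,2⟩,[]⟩))) (.N (.F ⟨⟨19,5,0,0,1,1,1⟩,[]⟩) (.F ⟨⟨10,4,2,2,0,3,4⟩,[]⟩)))) (.F ⟨⟨16,5,0,0,0,1,1⟩,[]⟩)) (.N (.N (.F ⟨⟨17,5,0,0,1,1,2⟩,[]⟩) (.N (.N (.N (.F ⟨⟨7,5,1,2,6,7,10⟩,[]⟩) (.N (.N (.N (.F ⟨⟨21,5,0,0,1,1,1⟩,[]⟩) (.N (.F ⟨⟨24,5,0,0,1,1,1⟩,[]⟩) (.F ⟨⟨10,4,2,2,0,3,4⟩,[]⟩))) (.F ⟨⟨22,5,0,0,0,1,1⟩,[]⟩)) (.N (.F ⟨⟨22,5,0,0,1,1,1⟩,[]⟩) (.F ⟨⟨10,4,2,2,0,3,4⟩,[]⟩)))) (.F ⟨⟨19,5,0,0,0,1,1⟩,[]⟩)) (.F ⟨⟨12,5,0,1,0,3,4⟩,[]⟩))) (.F ⟨⟨8,5,0,1,0,2,3⟩,[]⟩))) (.N (.N (.N (.N (.F ⟨⟨16,5,0,0,1,1,2⟩,[]⟩) (.F ⟨⟨12,5,0,1,0,3,4⟩,[]⟩)) (.N (.F ⟨⟨18,5,0,0,1,1,1⟩,[]⟩) (.F ⟨⟨10,4,2,2,0,3,4⟩,[]⟩)))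 (.F ⟨⟨8,5,0,1,0,2,3⟩,[]⟩)) (.N (.F ⟨⟨16,5,0,0,1,1,1⟩,[]⟩) (.F ⟨⟨8,0,2,1,0,2,3⟩,[]⟩))))
    [true, false, false, true, true, false, false, true, true, true, false, true, false, false, true] = true := by decide +kernel

theorem e5_184 : treeE 5 208 145 (rows0 5 [4, 3, 2, 1, 0])
    (.F ⟨⟨12,5,0,0,0,1,1⟩,[]⟩)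
    [true, false, true, true, false, false, true, true, true, false, true, false, false, true] = true := by decide +kernel

theorem e5_185 : treeE 5 208 145 (rows0 5 [4, 3, 2, 1, 0])
    (.F ⟨⟨9,5,0,0,0,1,1⟩,[]⟩)
    [true, true, true, false, false, true, true, true, false, true, false, false, true] = true := by decide +kernel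

theorem e5_186 : treeE 5 208 145 (rows0 5 [4, 3, 2, 1, 0])
    (.N (.N (.F ⟨⟨5,5,1,0,2,2,3⟩,[]⟩) (.F ⟨⟨10,5,0,0,0,1,1⟩,[]⟩)) (.N (.F ⟨⟨5,5,1,0,2,2,3⟩,[]⟩) (.N (.N (.N (.N (.N (.N (.N (.F ⟨⟨11,5,0,1,2,1,1⟩,[]⟩) (.F ⟨⟨13,5,0,1,0,2,3⟩,[]⟩)) (.N (.F ⟨⟨17,5,0,0,1,1,1⟩,[]⟩) (.F ⟨⟨9,5,0,2,0,4,7⟩,[]⟩))) (.N (.N (.F ⟨⟨7,5,1,3,5,6,10⟩,[]⟩) (.F ⟨⟨17,5,0,0,0,1,1⟩,[]⟩)) (.N (.F ⟨⟨17,5,0,0,1,1,1⟩,[]⟩) (.F ⟨⟨12,5,0,1,0,2,3⟩,[]⟩)))) (.N (.N (.N (.N (.F ⟨⟨7,5,1,3,5,6,10⟩,[]⟩) (.N (.N (.F ⟨⟨16,5,0,0,1,2,3⟩,[]⟩) (.F ⟨⟨14,5,0,1,0,3,4⟩,[]⟩)) (.N (.F ⟨⟨20,5,0,0,1,1,1⟩,[]⟩) (.N (.N (.N (.N (.F ⟨⟨16,5,0,1,3,1,1⟩,[]⟩) (.F ⟨⟨13,0,3,1,3,2,2⟩,[]⟩))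 (.F ⟨⟨13,0,3,1,3,2,2⟩,[]⟩)) (.F ⟨⟨13,0,3,1,3,2,2⟩,[]⟩)) (.F ⟨⟨13,4,3,1,3,2,2⟩,[]⟩))))) (.F ⟨⟨17,5,0,0,0,1,1⟩,[]⟩)) (.N (.F ⟨⟨17,5,0,0,1,1,1⟩,[]⟩) (.F ⟨⟨12,5,0,1,0,2,3⟩,[]⟩))) (.N (.N (.N (.F ⟨⟨16,5,0,0,1,1,1⟩,[]⟩) (.N (.F ⟨⟨19,5,0,0,1,1,1⟩,[]⟩) (.N (.N (.N (.N (.F ⟨⟨13,5,1,2,4,2,4⟩,[]⟩) (.F ⟨⟨23,5,0,0,0,1,1⟩,[]⟩)) (.F ⟨⟨4,0,5,3,10,5,7⟩,[]⟩)) (.F ⟨⟨4,0,5,3,10,5,7⟩,[]⟩)) (.F ⟨⟨4,4,5,3,10,5,7⟩,[]⟩)))) (.F ⟨⟨17,5,0,0,0,1,1⟩,[]⟩)) (.N (.F ⟨⟨6,5,1,3,4,5,7⟩,[]⟩) (.F ⟨⟨9,5,1,0,0,1,1⟩,[]⟩))))) (.F ⟨⟨13,5,0,0,0,1,1⟩,[]⟩)) (.N (.F ⟨⟨7,5,1,0,3,3,4⟩,[]⟩) (.F ⟨⟨9,5,0,0,0,2,3⟩,[]⟩))) (.F ⟨⟨5,5,1,0,0,2,3⟩,[]⟩))))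
    [true, false, true, true, true, false, true, false, false, true] = true := by decide +kernel

theorem e5_187 : treeE 5 208 145 (rows0 5 [4, 3, 2, 1, 0])
    (.N (.N (.N (.F ⟨⟨5,5,1,0,1,2,3⟩,[]⟩) (.F ⟨⟨10,5,0,0,0,1,1⟩,[]⟩)) (.N (.F ⟨⟨5,5,1,0,2,2,3⟩,[]⟩) (.F ⟨⟨5,5,1,0,0,2,3⟩,[]⟩))) (.N (.N (.F ⟨⟨1,5,2,0,1,5,8⟩,[]⟩) (.F ⟨⟨10,5,0,0,0,1,1⟩,[]⟩)) (.N (.F ⟨⟨7,5,1,0,1,2,3⟩,[]⟩) (.F ⟨⟨4,5,1,0,0,1,1⟩,[]⟩))))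
    [true, true, true, true, false, true, false, false, true] = true := by decide +kernel

theorem e5_188 : treeE 5 208 145 (rows0 5 [4, 3, 2, 1, 0])
    (.F ⟨⟨3,5,0,0,0,1,2⟩,[]⟩)
    [true, true, false, false, true] = true := by decide +kernel

theorem e5_189 : treeE 5 208 145 (rows0 5 [4, 3, 2, 1, 0])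
    (.F ⟨⟨3,5,0,0,1,1,2⟩,[]⟩)
    [false, false, true, false, true] = true := by decide +kernel

theorem e5_190 : treeE 5 208 145 (rows0 5 [4, 3, 2, 1, 0])
    (.N (.N (.F ⟨⟨4,5,0,0,1,1,1⟩,[]⟩) (.N (.N (.F ⟨⟨5,5,0,0,1,1,1⟩,[]⟩) (.F ⟨⟨8,5,0,0,1,1,1⟩,[]⟩)) (.F ⟨⟨9,5,0,0,0,1,2⟩,[]⟩))) (.N (.F ⟨⟨8,5,0,0,1,1,1⟩,[]⟩) (.N (.N (.N (.F ⟨⟨2,5,0,0,6,2,3⟩,[]⟩) (.N (.F ⟨⟨2,5,0,0,6,2,3⟩,[]⟩) (.F ⟨⟨5,5,0,0,1,2,3⟩,[]⟩))) (.F ⟨⟨10,5,0,0,0,1,1⟩,[]⟩)) (.F ⟨⟨7,5,0,0,0,1,1⟩,[]⟩))))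
    [false, false, false, true, false, true, false, true] = true := by decide +kernel

theorem e5_191 : treeE 5 208 145 (rows0 5 [4, 3, 2, 1, 0])
    (.F ⟨⟨7,5,0,0,1,1,1⟩,[]⟩)
    [false, false, false, true, false, false, true, false, true, false, true] = true := by decide +kernel

theorem e5_192 : treeE 5 208 145 (rows0 5 [4, 3, 2, 1, 0])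
    (.F ⟨⟨10,5,0,0,1,1,1⟩,[]⟩)
    [false, true, false, false, true, false, false, true, false, true, false, true] = true := by decide +kernel

theorem e5_193 : treeE 5 208 145 (rows0 5 [4, 3, 2, 1, 0])
    (.F ⟨⟨0,4,1,2,0,2,3⟩,[]⟩)
    [false, false, false, false, true, true, false, false, true, false, false, true, false, true, false, true] = true := by decide +kernel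

theorem e5_194 : treeE 5 208 145 (rows0 5 [4, 3, 2, 1, 0])
    (.N (.N (.F ⟨⟨2,4,2,4,0,4,6⟩,[]⟩) (.N (.F ⟨⟨6,5,1,3,7,5,8⟩,[]⟩) (.F ⟨⟨5,5,3,2,0,6,9⟩,[]⟩))) (.N (.N (.F ⟨⟨6,5,1,3,8,5,8⟩,[]⟩) (.F ⟨⟨5,5,3,2,0,6,9⟩,[]⟩)) (.N (.F ⟨⟨19,5,0,0,1,1,1⟩,[]⟩) (.N (.N (.N (.N (.F ⟨⟨9,5,1,6,9,6,8⟩,[]⟩) (.N (.N (.N (.N (.F ⟨⟨21,5,0,1,2,2,3⟩,[]⟩) (.N (.N (.F ⟨⟨25,5,0,0,1,2,3⟩,[]⟩) (.F ⟨⟨23,5,0,1,0,3,4⟩,[]⟩)) (.N (.F ⟨⟨29,5,0,0,1,1,1⟩,[]⟩) (.F ⟨⟨18,4,2,2,0,3,4⟩,[]⟩)))) (.F ⟨⟨21,5,0,1,0,2,3⟩,[]⟩)) (.N (.F ⟨⟨26,5,0,0,1,1,1⟩,[]⟩) (.F ⟨⟨21,5,0,1,0,2,3⟩,[]⟩))) (.N (.N (.N (.F ⟨⟨25,5,0,0,1,1,1⟩,[]⟩) (.F ⟨⟨19,5,0,1,4,2,2⟩,[]⟩))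 (.F ⟨⟨26,5,0,0,0,1,1⟩,[]⟩)) (.N (.F ⟨⟨10,5,1,6,7,8,12⟩,[]⟩) (.F ⟨⟨18,5,1,0,0,1,1⟩,[]⟩))))) (.F ⟨⟨22,5,0,0,0,1,1⟩,[]⟩)) (.N (.N (.F ⟨⟨23,5,0,0,1,1,2⟩,[]⟩) (.N (.F ⟨⟨23,5,0,0,1,1,1⟩,[]⟩) (.F ⟨⟨16,5,0,1,0,5,7⟩,[]⟩))) (.F ⟨⟨18,5,0,0,0,2,3⟩,[]⟩))) (.N (.N (.N (.N (.F ⟨⟨22,5,0,0,1,1,2⟩,[]⟩) (.F ⟨⟨16,5,0,1,0,5,7⟩,[]⟩)) (.N (.F ⟨⟨24,5,0,0,1,1,1⟩,[]⟩) (.N (.N (.F ⟨⟨19,5,0,0,1,2,3⟩,[]⟩) (.N (.F ⟨⟨19,5,0,0,8,2,3⟩,[]⟩) (.F ⟨⟨14,5,0,2,0,12,17⟩,[]⟩))) (.F ⟨⟨16,5,0,1,0,4,6⟩,[]⟩)))) (.F ⟨⟨22,5,0,0,0,1,1⟩,[]⟩)) (.F ⟨⟨17,5,0,0,0,1,1⟩,[]⟩))))))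
    [false, false, true, false, false, false, true, true, false, false, true, false, false, true, false, true, false, true] = true := by decide +kernel

theorem e5_195 : treeE 5 208 145 (rows0 5 [4, 3, 2, 1, 0])
    (.N (.N (.N (.F ⟨⟨6,5,1,3,5,5,8⟩,[]⟩) (.F ⟨⟨5,5,3,2,0,6,9⟩,[]⟩)) (.N (.F ⟨⟨19,5,0,0,1,1,1⟩,[]⟩) (.N (.N (.N (.N (.N (.F ⟨⟨20,5,0,0,1,1,1⟩,[]⟩) (.F ⟨⟨16,5,0,1,0,5,7⟩,[]⟩)) (.N (.F ⟨⟨24,5,0,0,1,1,1⟩,[]⟩) (.F ⟨⟨16,5,0,1,0,4,6⟩,[]⟩))) (.N (.N (.N (.F ⟨⟨23,5,0,0,1,1,1⟩,[]⟩) (.N (.F ⟨⟨26,5,0,0,1,1,1⟩,[]⟩) (.N (.N (.N (.N (.F ⟨⟨17,4,1,2,0,2,3⟩,[]⟩) (.N (.N (.N (.N (.F ⟨⟨19,4,2,4,0,4,6⟩,[]⟩) (.N (.F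 ⟨⟨22,5,1,3,7,5,8⟩,[]⟩) (.F ⟨⟨21,5,3,2,0,6,9⟩,[]⟩))) (.N (.N (.F ⟨⟨22,5,1,3,8,5,8⟩,[]⟩) (.F ⟨⟨21,5,3,2,0,6,9⟩,[]⟩)) (.N (.F ⟨⟨35,5,0,0,1,1,1⟩,[]⟩) (.N (.N (.F ⟨⟨25,1,1,2,1,4,5⟩,[]⟩) (.N (.F ⟨⟨25,1,1,2,1,4,5⟩,[]⟩) (.F ⟨⟨34,5,0,0,0,2,3⟩,[]⟩))) (.N (.N (.F ⟨⟨25,1,1,2,1,4,5⟩,[]⟩) (.F ⟨⟨38,5,0,0,0,1,1⟩,[]⟩)) (.F ⟨⟨33,5,0,0,0,1,1⟩,[]⟩)))))) (.N (.N (.N (.F ⟨⟨22,5,1,3,5,5,8⟩,[]⟩) (.F ⟨⟨21,5,3,2,0,6,9⟩,[]⟩)) (.N (.F ⟨⟨35,5,0,0,1,1,1⟩,[]⟩) (.N (.N (.F ⟨⟨25,1,1,2,1,4,5⟩,[]⟩) (.F ⟨⟨37,5,0,0,0,1,1⟩,[]⟩)) (.F ⟨⟨34,5,0,0,0,1,1⟩,[]⟩)))) (.N (.N (.F ⟨⟨26,5,1,1,2,3,5⟩,[]⟩) (.F ⟨⟨35,5,0,0,0,1,1⟩,[]⟩)) (.N (.F ⟨⟨35,5,0,0,1,1,1⟩,[]⟩)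 (.F ⟨⟨25,5,2,1,0,2,3⟩,[]⟩))))) (.F ⟨⟨31,5,0,0,0,1,2⟩,[]⟩))) (.F ⟨⟨19,5,2,0,7,3,4⟩,[]⟩)) (.F ⟨⟨19,5,2,0,10,3,4⟩,[]⟩)) (.F ⟨⟨19,5,2,0,3,3,4⟩,[]⟩)))) (.F ⟨⟨24,5,0,0,0,1,1⟩,[]⟩)) (.N (.F ⟨⟨10,5,1,2,3,9,14⟩,[]⟩) (.N (.N (.N (.N (.F ⟨⟨17,4,1,2,0,2,3⟩,[]⟩) (.N (.F ⟨⟨18,5,2,2,0,3,4⟩,[]⟩) (.F ⟨⟨29,5,0,0,0,1,2⟩,[]⟩))) (.N (.F ⟨⟨28,5,0,0,1,1,1⟩,[]⟩) (.N (.F ⟨⟨21,5,1,0,2,2,2⟩,[]⟩) (.F ⟨⟨27,5,0,0,0,1,1⟩,[]⟩)))) (.N (.N (.F ⟨⟨21,5,1,0,2,2,4⟩,[]⟩) (.F ⟨⟨28,5,0,0,0,1,1⟩,[]⟩)) (.N (.F ⟨⟨28,5,0,0,1,1,1⟩,[]⟩) (.N (.N (.N (.F ⟨⟨18,5,2,2,0,3,4⟩,[]⟩) (.F ⟨⟨31,5,0,0,0,1,1⟩,[]⟩)) (.N (.F ⟨⟨25,5,1,0,3,3,4⟩,[]⟩) (.F ⟨⟨27,5,0,0,0,2,3⟩,[]⟩)))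 (.F ⟨⟨19,5,1,0,0,4,6⟩,[]⟩))))) (.F ⟨⟨16,5,3,1,0,3,4⟩,[]⟩))))) (.F ⟨⟨21,5,0,0,0,1,1⟩,[]⟩)) (.F ⟨⟨18,5,0,0,0,1,1⟩,[]⟩)))) (.N (.N (.F ⟨⟨10,5,1,1,2,3,5⟩,[]⟩) (.F ⟨⟨19,5,0,0,0,1,1⟩,[]⟩)) (.N (.F ⟨⟨19,5,0,0,1,1,1⟩,[]⟩) (.F ⟨⟨9,5,2,1,0,2,3⟩,[]⟩))))
    [true, false, true, false, false, false, true, true, false, false, true, false, false, true, false, true, false, true] = true := by decide +kernel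

theorem e5_196 : treeE 5 208 145 (rows0 5 [4, 3, 2, 1, 0])
    (.F ⟨⟨15,5,0,0,0,1,2⟩,[]⟩)
    [true, true, false, false, false, true, true, false, false, true, false, false, true, false, true, false, true] = true := by decide +kernel

theorem e5_197 : treeE 5 208 145 (rows0 5 [4, 3, 2, 1, 0])
    (.N (.F ⟨⟨14,5,0,0,1,1,1⟩,[]⟩) (.N (.N (.F ⟨⟨8,0,2,2,0,3,4⟩,[]⟩) (.F ⟨⟨16,5,0,0,0,1,1⟩,[]⟩)) (.N (.F ⟨⟨10,5,1,0,2,3,4⟩,[]⟩) (.F ⟨⟨14,5,0,0,0,1,2⟩,[]⟩))))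
    [true, false, false, true, true, false, false, true, false, false, true, false, true, false, true] = true := by decide +kernel

theorem e5_198 : treeE 5 208 145 (rows0 5 [4, 3, 2, 1, 0])
    (.N (.N (.F ⟨⟨9,5,0,0,3,1,1⟩,[]⟩) (.N (.N (.F ⟨⟨10,5,1,0,2,3,4⟩,[]⟩) (.N (.F ⟨⟨9,5,1,0,2,5,8⟩,[]⟩) (.N (.N (.N (.F ⟨⟨8,0,2,2,0,3,4⟩,[]⟩) (.F ⟨⟨20,5,0,0,0,1,1⟩,[]⟩)) (.N (.F ⟨⟨20,5,0,0,1,1,1⟩,[]⟩) (.N (.F ⟨⟨13,5,0,0,3,4,5⟩,[]⟩) (.F ⟨⟨19,5,0,0,0,1,1⟩,[]⟩)))) (.F ⟨⟨12,5,0,0,0,2,2⟩,[]⟩)))) (.F ⟨⟨15,5,0,0,0,1,2⟩,[]⟩))) (.N (.F ⟨⟨14,5,0,0,1,1,1⟩,[]⟩) (.N (.N (.N (.F ⟨⟨8,0,2,2,0,3,4⟩,[]⟩) (.F ⟨⟨17,5,0,0,0,1,1⟩,[]⟩)) (.N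 (.F ⟨⟨11,5,1,0,3,3,4⟩,[]⟩) (.F ⟨⟨13,5,0,0,0,2,3⟩,[]⟩))) (.N (.N (.F ⟨⟨9,5,1,0,3,4,5⟩,[]⟩) (.F ⟨⟨17,5,0,0,0,1,1⟩,[]⟩)) (.F ⟨⟨12,5,0,0,0,1,1⟩,[]⟩)))))
    [true, false, true, true, false, false, true, false, false, true, false, true, false, true] = true := by decide +kernel

theorem e5_199 : treeE 5 208 145 (rows0 5 [4, 3, 2, 1, 0])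
    (.N (.N (.N (.F ⟨⟨8,5,0,0,2,1,1⟩,[]⟩) (.N (.N (.N (.F ⟨⟨10,5,1,0,2,3,4⟩,[]⟩) (.N (.F ⟨⟨9,5,1,0,2,5,8⟩,[]⟩) (.F ⟨⟨15,5,0,0,0,1,1⟩,[]⟩))) (.N (.N (.F ⟨⟨8,5,2,0,1,7,11⟩,[]⟩) (.F ⟨⟨18,5,0,0,0,1,1⟩,[]⟩)) (.N (.F ⟨⟨18,5,0,0,1,1,1⟩,[]⟩) (.N (.N (.N (.N (.F ⟨⟨12,4,1,2,0,2,3⟩,[]⟩) (.F ⟨⟨8,3,5,0,5,3,4⟩,[]⟩)) (.F ⟨⟨8,2,5,0,8,3,4⟩,[]⟩)) (.F ⟨⟨10,1,3,0,4,2,2⟩,[]⟩)) (.F ⟨⟨10,5,2,0,0,2,3⟩,[]⟩))))) (.F ⟨⟨15,5,0,0,0,1,2⟩,[]⟩))) (.N (.F ⟨⟨14,5,0,0,1,1,1⟩,[]⟩) (.N (.N (.N (.F ⟨⟨9,5,1,0,3,4,5⟩,[]⟩) (.N (.N (.N (.F ⟨⟨18,5,0,0,1,1,1⟩,[]⟩) (.F ⟨⟨13,5,0,0,4,3,3⟩,[]⟩)) (.F ⟨⟨19,5,0,0,0,1,1⟩,[]⟩)) (.N (.F ⟨⟨10,5,1,0,1,5,7⟩,[]⟩)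 (.N (.N (.N (.N (.F ⟨⟨12,4,1,2,0,2,3⟩,[]⟩) (.F ⟨⟨10,3,3,0,4,2,2⟩,[]⟩)) (.F ⟨⟨10,2,3,0,8,2,2⟩,[]⟩)) (.F ⟨⟨10,1,3,0,6,2,2⟩,[]⟩)) (.F ⟨⟨11,5,2,0,0,2,3⟩,[]⟩))))) (.F ⟨⟨16,5,0,0,0,1,1⟩,[]⟩)) (.F ⟨⟨13,5,0,0,0,1,1⟩,[]⟩)))) (.N (.N (.F ⟨⟨10,5,1,0,1,2,3⟩,[]⟩) (.F ⟨⟨14,5,0,0,0,1,1⟩,[]⟩)) (.N (.F ⟨⟨11,5,1,0,1,2,3⟩,[]⟩) (.N (.N (.N (.N (.F ⟨⟨12,4,1,2,0,2,3⟩,[]⟩) (.F ⟨⟨18,5,0,0,0,1,1⟩,[]⟩)) (.N (.F ⟨⟨13,5,1,0,2,2,3⟩,[]⟩) (.F ⟨⟨8,2,4,0,4,2,3⟩,[]⟩))) (.N (.N (.F ⟨⟨13,5,1,0,2,2,3⟩,[]⟩) (.F ⟨⟨18,5,0,0,0,1,1⟩,[]⟩)) (.F ⟨⟨10,1,2,0,3,1,1⟩,[]⟩))) (.N (.N (.N (.F ⟨⟨13,5,1,0,1,2,3⟩,[]⟩) (.F ⟨⟨18,5,0,0,0,1,1⟩,[]⟩)) (.F ⟨⟨10,1,2,0,3,1,1⟩,[]⟩))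 (.F ⟨⟨10,5,1,0,0,1,2⟩,[]⟩))))))
    [true, true, true, false, false, true, false, false, true, false, true, false, true] = true := by decide +kernel

end Pool.Agent.RTX
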