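import Pool.Agent.RTS.Exact

/-!
# RTS: windows of the initial state, part 7
-/

set_option autoImplicit false
set_option maxRecDepth 100000

namespace Pool.Agent.RTX

theorem e5_200 : treeE 5 208 145 (rows0 5 [4, 3, 2, 1, 0])
    (.F ⟨⟨8,5,0,0,0,1,1⟩,[]⟩)
    [true, false, true, false, false, true, false, true, false, true] = true := by decide +kernel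

theorem e5_201 : treeE 5 208 145 (rows0 5 [4, 3, 2, 1, 0])
    (.F ⟨⟨9,5,0,0,1,1,2⟩,[]⟩)
    [false, false, true, true, false, false, true, false, true, false, true] = true := by decide +kernel

theorem e5_202 : treeE 5 208 145 (rows0 5 [4, 3, 2, 1, 0])
    (.N (.N (.N (.F ⟨⟨0,4,1,2,0,2,3⟩,[]⟩) (.N (.N (.N (.N (.F ⟨⟨2,4,2,4,0,4,6⟩,[]⟩) (.N (.F ⟨⟨6,5,1,3,5,5,8⟩,[]⟩) (.F ⟨⟨12,5,0,1,0,2,3⟩,[]⟩))) (.N (.N (.F ⟨⟨5,5,1,3,7,5,8⟩,[]⟩) (.F ⟨⟨12,5,0,1,0,2,3⟩,[]⟩)) (.N (.F ⟨⟨18,5,0,0,1,1,1⟩,[]⟩) (.F ⟨⟨5,5,3,2,0,6,9⟩,[]⟩)))) (.N (.N (.N (.F ⟨⟨5,5,1,3,5,5,8⟩,[]⟩) (.F ⟨⟨12,5,0,1,0,2,3⟩,[]⟩))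 (.N (.F ⟨⟨18,5,0,0,1,1,1⟩,[]⟩) (.F ⟨⟨5,5,3,2,0,6,9⟩,[]⟩))) (.N (.N (.F ⟨⟨9,5,0,1,3,2,3⟩,[]⟩) (.F ⟨⟨11,5,0,1,0,2,3⟩,[]⟩)) (.N (.F ⟨⟨18,5,0,0,1,1,1⟩,[]⟩) (.F ⟨⟨7,5,3,1,0,3,5⟩,[]⟩))))) (.F ⟨⟨14,5,0,0,0,1,2⟩,[]⟩))) (.N (.F ⟨⟨13,5,0,0,1,1,1⟩,[]⟩) (.N (.N (.N (.N (.F ⟨⟨4,4,2,5,0,5,7⟩,[]⟩) (.N (.N (.N (.F ⟨⟨18,5,0,0,1,1,1⟩,[]⟩) (.N (.F ⟨⟨21,5,0,0,1,1,1⟩,[]⟩) (.F ⟨⟨7,3,2,3,6,7,9⟩,[]⟩))) (.F ⟨⟨19,5,0,0,0,1,1⟩,[]⟩)) (.N (.F ⟨⟨7,5,1,3,6,5,7⟩,[]⟩) (.F ⟨⟨11,5,0,1,0,2,3⟩,[]⟩)))) (.N (.N (.N (.F ⟨⟨3,5,3,6,8,13,19⟩,[]⟩) (.F ⟨⟨19,5,0,0,0,1,1⟩,[]⟩)) (.N (.F ⟨⟨7,5,1,3,6,5,7⟩,[]⟩) (.F ⟨⟨11,5,0,1,0,2,3⟩,[]⟩)))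 (.N (.N (.F ⟨⟨7,5,1,3,5,5,7⟩,[]⟩) (.F ⟨⟨11,5,0,1,0,2,3⟩,[]⟩)) (.N (.F ⟨⟨19,5,0,0,1,1,1⟩,[]⟩) (.F ⟨⟨8,5,3,1,0,3,5⟩,[]⟩))))) (.F ⟨⟨15,5,0,0,0,1,1⟩,[]⟩)) (.N (.F ⟨⟨4,5,2,0,3,6,9⟩,[]⟩) (.F ⟨⟨13,5,0,0,0,1,2⟩,[]⟩))))) (.N (.N (.F ⟨⟨7,5,1,0,3,2,3⟩,[]⟩) (.N (.N (.F ⟨⟨4,5,2,0,3,6,9⟩,[]⟩) (.F ⟨⟨12,5,0,0,2,1,1⟩,[]⟩)) (.F ⟨⟨14,5,0,0,0,1,2⟩,[]⟩))) (.N (.F ⟨⟨7,5,1,0,3,2,3⟩,[]⟩) (.N (.N (.N (.F ⟨⟨9,0,2,2,0,3,4⟩,[]⟩) (.F ⟨⟨16,5,0,0,0,1,1⟩,[]⟩)) (.N (.F ⟨⟨10,5,1,0,3,3,4⟩,[]⟩) (.F ⟨⟨12,5,0,0,0,2,3⟩,[]⟩))) (.N (.N (.F ⟨⟨5,5,3,0,4,7,11⟩,[]⟩) (.F ⟨⟨16,5,0,0,0,1,1⟩,[]⟩)) (.N (.F ⟨⟨10,5,1,0,2,3,4⟩,[]⟩)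 (.F ⟨⟨12,5,0,0,0,1,2⟩,[]⟩)))))))
    [false, true, false, true, true, false, false, true, false, true, false, true] = true := by decide +kernel

theorem e5_203 : treeE 5 208 145 (rows0 5 [4, 3, 2, 1, 0])
    (.N (.N (.N (.F ⟨⟨7,5,1,0,2,2,3⟩,[]⟩) (.N (.N (.N (.F ⟨⟨4,5,2,0,3,6,9⟩,[]⟩) (.F ⟨⟨11,5,0,0,2,1,1⟩,[]⟩)) (.F ⟨⟨13,5,0,0,1,1,1⟩,[]⟩)) (.F ⟨⟨14,5,0,0,0,1,2⟩,[]⟩))) (.N (.F ⟨⟨7,5,1,0,3,2,3⟩,[]⟩) (.N (.N (.N (.F ⟨⟨5,5,3,0,4,7,11⟩,[]⟩) (.N (.N (.F ⟨⟨9,5,2,0,1,8,12⟩,[]⟩) (.F ⟨⟨18,5,0,0,0,1,1⟩,[]⟩)) (.F ⟨⟨2,5,5,0,6,9,13⟩,[]⟩))) (.F ⟨⟨15,5,0,0,0,1,1⟩,[]⟩)) (.N (.F ⟨⟨10,5,1,0,2,3,4⟩,[]⟩)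 (.F ⟨⟨13,5,0,0,0,1,2⟩,[]⟩))))) (.N (.N (.F ⟨⟨7,5,1,0,2,2,3⟩,[]⟩) (.N (.N (.F ⟨⟨10,5,1,0,2,3,4⟩,[]⟩) (.F ⟨⟨12,5,0,0,2,1,1⟩,[]⟩)) (.F ⟨⟨14,5,0,0,0,1,2⟩,[]⟩))) (.N (.F ⟨⟨13,5,0,0,1,1,1⟩,[]⟩) (.N (.N (.N (.N (.F ⟨⟨11,4,1,2,0,2,3⟩,[]⟩) (.F ⟨⟨17,5,0,0,0,1,1⟩,[]⟩)) (.N (.F ⟨⟨12,5,1,0,2,2,3⟩,[]⟩) (.F ⟨⟨11,5,1,0,0,2,3⟩,[]⟩))) (.N (.N (.F ⟨⟨12,5,1,0,2,2,3⟩,[]⟩) (.F ⟨⟨17,5,0,0,0,1,1⟩,[]⟩)) (.F ⟨⟨8,5,3,0,4,2,2⟩,[]⟩))) (.F ⟨⟨2,5,5,0,0,5,7⟩,[]⟩)))))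
    [true, true, false, true, true, false, false, true, false, true, false, true] = true := by decide +kernel

theorem e5_204 : treeE 5 208 145 (rows0 5 [4, 3, 2, 1, 0])
    (.N (.N (.F ⟨⟨0,4,1,2,0,2,3⟩,[]⟩) (.N (.N (.N (.N (.N (.F ⟨⟨7,5,1,3,4,3,5⟩,[]⟩) (.F ⟨⟨17,5,0,0,0,1,1⟩,[]⟩)) (.N (.F ⟨⟨6,5,1,3,5,5,8⟩,[]⟩) (.F ⟨⟨11,5,0,1,0,2,3⟩,[]⟩))) (.N (.N (.F ⟨⟨5,5,1,3,5,5,8⟩,[]⟩) (.F ⟨⟨11,5,0,1,0,2,3⟩,[]⟩)) (.N (.F ⟨⟨17,5,0,0,1,1,1⟩,[]⟩) (.F ⟨⟨7,5,1,1,0,3,5⟩,[]⟩)))) (.N (.N (.N (.F ⟨⟨4,5,1,3,4,5,7⟩,[]⟩) (.F ⟨⟨11,5,0,1,0,2,3⟩,[]⟩)) (.N (.F ⟨⟨17,5,0,0,1,1,1⟩,[]⟩) (.F ⟨⟨7,5,1,1,0,3,5⟩,[]⟩)))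 (.N (.N (.F ⟨⟨8,5,1,1,2,3,5⟩,[]⟩) (.F ⟨⟨17,5,0,0,0,1,1⟩,[]⟩)) (.N (.F ⟨⟨9,5,1,1,2,3,5⟩,[]⟩) (.F ⟨⟨10,0,2,1,0,2,3⟩,[]⟩))))) (.F ⟨⟨13,5,0,0,0,1,2⟩,[]⟩))) (.N (.F ⟨⟨12,5,0,0,1,1,1⟩,[]⟩) (.N (.N (.N (.N (.N (.N (.F ⟨⟨8,5,1,3,4,3,5⟩,[]⟩) (.F ⟨⟨15,5,0,1,0,2,3⟩,[]⟩)) (.N (.F ⟨⟨18,5,0,0,1,1,1⟩,[]⟩) (.F ⟨⟨14,5,0,1,0,2,3⟩,[]⟩))) (.N (.N (.N (.F ⟨⟨17,5,0,0,1,1,1⟩,[]⟩) (.N (.F ⟨⟨20,5,0,0,1,1,1⟩,[]⟩) (.N (.N (.F ⟨⟨13,5,0,1,2,3,3⟩,[]⟩) (.N (.F ⟨⟨23,5,0,0,1,1,1⟩,[]⟩) (.N (.F ⟨⟨17,5,0,0,3,3,3⟩,[]⟩) (.F ⟨⟨22,5,0,0,0,1,1⟩,[]⟩)))) (.F ⟨⟨13,5,0,1,0,4,5⟩,[]⟩)))) (.F ⟨⟨18,5,0,0,0,1,1⟩,[]⟩)) (.N (.F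 ⟨⟨7,5,1,3,5,5,7⟩,[]⟩) (.F ⟨⟨12,5,0,0,0,1,1⟩,[]⟩)))) (.N (.N (.N (.N (.N (.F ⟨⟨16,5,0,0,1,1,1⟩,[]⟩) (.N (.F ⟨⟨21,5,0,0,1,1,1⟩,[]⟩) (.F ⟨⟨13,5,0,1,0,4,5⟩,[]⟩))) (.N (.N (.F ⟨⟨17,5,0,0,1,2,3⟩,[]⟩) (.F ⟨⟨15,5,0,1,0,3,4⟩,[]⟩)) (.N (.F ⟨⟨21,5,0,0,1,1,1⟩,[]⟩) (.F ⟨⟨12,4,2,2,0,3,4⟩,[]⟩)))) (.F ⟨⟨18,5,0,0,0,1,1⟩,[]⟩)) (.N (.F ⟨⟨7,5,1,3,5,5,7⟩,[]⟩) (.F ⟨⟨13,5,0,0,0,1,1⟩,[]⟩))) (.N (.N (.N (.F ⟨⟨7,5,1,3,5,5,7⟩,[]⟩) (.N (.F ⟨⟨20,5,0,0,1,1,1⟩,[]⟩) (.F ⟨⟨12,4,2,2,0,3,4⟩,[]⟩))) (.F ⟨⟨18,5,0,0,0,1,1⟩,[]⟩)) (.N (.F ⟨⟨9,5,1,1,2,3,5⟩,[]⟩) (.F ⟨⟨10,0,2,1,0,2,3⟩,[]⟩))))) (.F ⟨⟨14,5,0,0,0,1,1⟩,[]⟩))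 (.N (.N (.F ⟨⟨15,5,0,0,1,1,2⟩,[]⟩) (.N (.F ⟨⟨15,5,0,0,1,1,1⟩,[]⟩) (.F ⟨⟨11,5,0,0,3,1,1⟩,[]⟩))) (.F ⟨⟨12,5,0,0,0,1,2⟩,[]⟩)))))
    [false, false, true, true, true, false, false, true, false, true, false, true] = true := by decide +kernel

theorem e5_205 : treeE 5 208 145 (rows0 5 [4, 3, 2, 1, 0])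
    (.N (.N (.F ⟨⟨7,5,1,0,2,2,3⟩,[]⟩) (.N (.N (.N (.F ⟨⟨12,5,0,0,1,2,3⟩,[]⟩) (.F ⟨⟨15,5,0,0,0,1,1⟩,[]⟩)) (.F ⟨⟨11,5,0,0,2,1,1⟩,[]⟩)) (.F ⟨⟨13,5,0,0,0,1,2⟩,[]⟩))) (.N (.F ⟨⟨7,5,1,0,2,2,3⟩,[]⟩) (.N (.N (.N (.N (.N (.N (.N (.F ⟨⟨9,5,1,3,4,3,5⟩,[]⟩) (.F ⟨⟨16,5,0,1,0,2,3⟩,[]⟩)) (.N (.F ⟨⟨19,5,0,0,1,1,1⟩,[]⟩) (.F ⟨⟨11,5,0,2,0,4,7⟩,[]⟩))) (.N (.N (.F ⟨⟨14,5,0,1,2,2,3⟩,[]⟩) (.F ⟨⟨14,5,0,1,0,2,3⟩,[]⟩)) (.N (.F ⟨⟨19,5,0,0,1,1,1⟩,[]⟩) (.F ⟨⟨14,5,0,1,0,2,3⟩,[]⟩)))) (.N (.N (.N (.N (.F ⟨⟨14,5,0,1,2,2,3⟩,[]⟩) (.N (.N (.F ⟨⟨18,5,0,0,1,2,3⟩,[]⟩) (.F ⟨⟨16,5,0,1,0,3,4⟩,[]⟩)) (.N (.F ⟨⟨22,5,0,0,1,1,1⟩,[]⟩)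 (.F ⟨⟨11,4,2,2,0,3,4⟩,[]⟩)))) (.F ⟨⟨14,5,0,1,0,2,3⟩,[]⟩)) (.N (.F ⟨⟨19,5,0,0,1,1,1⟩,[]⟩) (.F ⟨⟨14,5,0,1,0,2,3⟩,[]⟩))) (.N (.N (.N (.F ⟨⟨18,5,0,0,1,1,1⟩,[]⟩) (.F ⟨⟨12,5,0,1,4,2,2⟩,[]⟩)) (.F ⟨⟨19,5,0,0,0,1,1⟩,[]⟩)) (.N (.N (.F ⟨⟨20,5,0,0,1,1,2⟩,[]⟩) (.F ⟨⟨11,4,2,2,0,3,4⟩,[]⟩)) (.F ⟨⟨11,5,1,0,0,1,1⟩,[]⟩))))) (.F ⟨⟨15,5,0,0,0,1,1⟩,[]⟩)) (.N (.N (.F ⟨⟨16,5,0,0,1,1,2⟩,[]⟩) (.N (.F ⟨⟨16,5,0,0,1,1,1⟩,[]⟩) (.N (.F ⟨⟨14,5,0,0,3,1,1⟩,[]⟩) (.F ⟨⟨15,5,0,0,0,2,3⟩,[]⟩)))) (.F ⟨⟨11,5,0,0,0,2,3⟩,[]⟩))) (.F ⟨⟨2,5,1,0,0,5,7⟩,[]⟩))))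
    [true, false, true, true, true, false, false, true, false, true, false, true] = true := by decide +kernel

theorem e5_206 : treeE 5 208 145 (rows0 5 [4, 3, 2, 1, 0])
    (.N (.N (.N (.F ⟨⟨7,5,1,0,1,2,3⟩,[]⟩) (.N (.N (.N (.N (.F ⟨⟨8,5,1,0,1,3,5⟩,[]⟩) (.F ⟨⟨16,5,0,0,0,1,1⟩,[]⟩)) (.F ⟨⟨10,5,0,0,2,1,1⟩,[]⟩)) (.F ⟨⟨12,5,0,0,1,1,1⟩,[]⟩)) (.F ⟨⟨13,5,0,0,0,1,2⟩,[]⟩))) (.N (.F ⟨⟨7,5,1,0,2,2,3⟩,[]⟩) (.F ⟨⟨2,5,1,0,0,5,7⟩,[]⟩))) (.N (.N (.N (.F ⟨⟨7,5,1,0,2,2,3⟩,[]⟩) (.N (.F ⟨⟨14,5,0,0,1,1,1⟩,[]⟩) (.N (.N (.N (.N (.F ⟨⟨10,4,1,2,0,2,3⟩,[]⟩) (.F ⟨⟨18,5,0,0,0,1,1⟩,[]⟩)) (.F ⟨⟨4,2,2,0,9,1,1⟩,[]⟩))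 (.F ⟨⟨4,1,2,0,12,1,1⟩,[]⟩)) (.F ⟨⟨4,0,2,0,5,1,1⟩,[]⟩)))) (.F ⟨⟨12,5,0,0,0,1,1⟩,[]⟩)) (.N (.F ⟨⟨8,5,1,0,1,2,3⟩,[]⟩) (.F ⟨⟨6,5,1,0,0,1,1⟩,[]⟩))))
    [true, true, true, true, false, false, true, false, true, false, true] = true := by decide +kernel

theorem e5_207 : treeE 5 208 145 (rows0 5 [4, 3, 2, 1, 0])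
    (.N (.N (.N (.F ⟨⟨5,5,0,0,1,2,3⟩,[]⟩) (.N (.N (.F ⟨⟨6,5,0,0,4,2,3⟩,[]⟩) (.N (.N (.N (.F ⟨⟨12,5,0,0,1,2,3⟩,[]⟩) (.F ⟨⟨11,5,0,0,3,1,1⟩,[]⟩)) (.F ⟨⟨13,5,0,0,1,1,1⟩,[]⟩)) (.F ⟨⟨13,5,0,0,0,1,2⟩,[]⟩))) (.N (.F ⟨⟨12,5,0,0,1,1,1⟩,[]⟩) (.N (.N (.N (.N (.F ⟨⟨0,4,1,2,0,2,3⟩,[]⟩) (.N (.F ⟨⟨8,0,2,2,0,3,4⟩,[]⟩) (.F ⟨⟨17,5,0,0,0,1,2⟩,[]⟩))) (.N (.F ⟨⟨16,5,0,0,1,1,1⟩,[]⟩) (.N (.F ⟨⟨9,5,1,0,2,2,2⟩,[]⟩) (.F ⟨⟨15,5,0,0,0,1,1⟩,[]⟩)))) (.N (.N (.F ⟨⟨11,5,1,0,2,2,3⟩,[]⟩) (.F ⟨⟨16,5,0,0,0,1,1⟩,[]⟩)) (.N (.F ⟨⟨11,5,1,0,2,2,3⟩,[]⟩) (.N (.N (.N (.F ⟨⟨8,0,2,2,0,3,4⟩,[]⟩) (.F ⟨⟨19,5,0,0,0,1,1⟩,[]⟩)) (.N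 (.F ⟨⟨13,5,1,0,3,3,4⟩,[]⟩) (.F ⟨⟨15,5,0,0,0,2,3⟩,[]⟩))) (.F ⟨⟨11,5,1,0,0,2,3⟩,[]⟩))))) (.N (.N (.N (.F ⟨⟨11,5,1,0,1,2,3⟩,[]⟩) (.F ⟨⟨16,5,0,0,0,1,1⟩,[]⟩)) (.N (.F ⟨⟨11,5,1,0,2,2,3⟩,[]⟩) (.F ⟨⟨11,5,1,0,0,2,3⟩,[]⟩))) (.N (.N (.F ⟨⟨8,5,2,0,1,4,7⟩,[]⟩) (.F ⟨⟨16,5,0,0,0,1,1⟩,[]⟩)) (.N (.F ⟨⟨13,5,1,0,1,2,3⟩,[]⟩) (.N (.N (.N (.N (.F ⟨⟨14,4,1,2,0,2,3⟩,[]⟩) (.F ⟨⟨8,3,4,0,4,2,3⟩,[]⟩)) (.F ⟨⟨8,2,4,0,5,2,3⟩,[]⟩)) (.F ⟨⟨11,1,2,0,3,1,1⟩,[]⟩)) (.F ⟨⟨11,5,1,0,0,1,2⟩,[]⟩))))))))) (.F ⟨⟨9,5,0,0,0,1,1⟩,[]⟩)) (.N (.N (.F ⟨⟨10,5,0,0,1,1,2⟩,[]⟩) (.N (.F ⟨⟨8,5,0,0,1,1,1⟩,[]⟩) (.N (.F ⟨⟨12,5,0,0,1,1,1⟩,[]⟩)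 (.F ⟨⟨9,5,0,0,0,2,3⟩,[]⟩)))) (.F ⟨⟨6,5,0,0,0,1,1⟩,[]⟩)))
    [false, false, true, false, true, false, true, false, true] = true := by decide +kernel

theorem e5_208 : treeE 5 208 145 (rows0 5 [4, 3, 2, 1, 0])
    (.N (.N (.N (.F ⟨⟨9,5,0,0,1,1,2⟩,[]⟩) (.N (.N (.F ⟨⟨8,5,0,0,3,1,1⟩,[]⟩) (.F ⟨⟨12,5,0,0,1,1,1⟩,[]⟩)) (.F ⟨⟨12,5,0,0,0,1,2⟩,[]⟩))) (.N (.F ⟨⟨11,5,0,0,1,1,1⟩,[]⟩) (.N (.N (.N (.N (.F ⟨⟨0,4,1,2,0,2,3⟩,[]⟩) (.N (.F ⟨⟨2,4,5,6,0,7,11⟩,[]⟩) (.F ⟨⟨16,5,0,0,0,1,2⟩,[]⟩))) (.F ⟨⟨2,5,5,0,12,6,10⟩,[]⟩)) (.F ⟨⟨2,5,5,0,16,6,10⟩,[]⟩)) (.F ⟨⟨2,5,5,0,4,6,10⟩,[]⟩)))) (.F ⟨⟨9,5,0,0,0,1,1⟩,[]⟩))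
    [false, true, false, true, false, true, false, true, false, true] = true := by decide +kernel

theorem e5_209 : treeE 5 208 145 (rows0 5 [4, 3, 2, 1, 0])
    (.N (.F ⟨⟨10,5,0,0,1,1,2⟩,[]⟩) (.N (.N (.N (.N (.F ⟨⟨0,4,1,2,0,2,3⟩,[]⟩) (.N (.N (.N (.N (.F ⟨⟨4,4,2,5,0,5,7⟩,[]⟩) (.N (.F ⟨⟨19,5,0,0,1,1,1⟩,[]⟩) (.F ⟨⟨15,5,0,0,0,1,1⟩,[]⟩))) (.N (.N (.F ⟨⟨5,5,1,4,8,7,10⟩,[]⟩) (.F ⟨⟨19,5,0,0,0,1,1⟩,[]⟩)) (.N (.F ⟨⟨8,5,1,1,4,3,5⟩,[]⟩) (.F ⟨⟨6,5,2,1,0,4,6⟩,[]⟩)))) (.N (.N (.N (.F ⟨⟨5,5,1,4,6,7,10⟩,[]⟩) (.F ⟨⟨19,5,0,0,0,1,1⟩,[]⟩)) (.N (.F ⟨⟨8,5,1,1,4,3,5⟩,[]⟩) (.F ⟨⟨6,5,2,1,0,4,6⟩,[]⟩)))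 (.N (.N (.F ⟨⟨8,5,1,1,3,3,5⟩,[]⟩) (.F ⟨⟨12,5,0,1,0,2,3⟩,[]⟩)) (.N (.F ⟨⟨19,5,0,0,1,1,1⟩,[]⟩) (.F ⟨⟨8,5,3,1,0,3,5⟩,[]⟩))))) (.F ⟨⟨15,5,0,0,0,1,2⟩,[]⟩))) (.N (.F ⟨⟨14,5,0,0,1,1,1⟩,[]⟩) (.N (.F ⟨⟨5,5,1,0,2,3,4⟩,[]⟩) (.F ⟨⟨13,5,0,0,0,1,1⟩,[]⟩)))) (.N (.N (.F ⟨⟨5,5,1,0,4,3,5⟩,[]⟩) (.F ⟨⟨14,5,0,0,0,1,1⟩,[]⟩)) (.N (.F ⟨⟨8,5,1,0,3,2,3⟩,[]⟩) (.N (.N (.N (.F ⟨⟨10,0,2,2,0,3,4⟩,[]⟩) (.F ⟨⟨17,5,0,0,0,1,1⟩,[]⟩)) (.N (.F ⟨⟨11,5,1,0,3,3,4⟩,[]⟩) (.F ⟨⟨13,5,0,0,0,2,3⟩,[]⟩))) (.N (.N (.F ⟨⟨5,5,3,0,4,8,12⟩,[]⟩) (.F ⟨⟨17,5,0,0,0,1,1⟩,[]⟩)) (.N (.F ⟨⟨11,5,1,0,2,3,4⟩,[]⟩) (.F ⟨⟨13,5,0,0,0,1,2⟩,[]⟩)))))))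 (.N (.N (.N (.F ⟨⟨5,5,1,0,2,3,5⟩,[]⟩) (.F ⟨⟨14,5,0,0,0,1,1⟩,[]⟩)) (.N (.F ⟨⟨8,5,1,0,3,2,3⟩,[]⟩) (.N (.N (.N (.F ⟨⟨5,5,3,0,4,8,12⟩,[]⟩) (.N (.N (.F ⟨⟨10,5,2,0,1,8,12⟩,[]⟩) (.F ⟨⟨19,5,0,0,0,1,1⟩,[]⟩)) (.F ⟨⟨5,5,3,0,5,5,7⟩,[]⟩))) (.F ⟨⟨16,5,0,0,0,1,1⟩,[]⟩)) (.N (.F ⟨⟨11,5,1,0,2,3,4⟩,[]⟩) (.F ⟨⟨14,5,0,0,0,1,2⟩,[]⟩))))) (.N (.N (.F ⟨⟨8,5,1,0,2,2,3⟩,[]⟩) (.N (.N (.F ⟨⟨11,5,1,0,2,3,4⟩,[]⟩) (.F ⟨⟨13,5,0,0,2,1,1⟩,[]⟩)) (.F ⟨⟨15,5,0,0,0,1,2⟩,[]⟩))) (.N (.F ⟨⟨14,5,0,0,1,1,1⟩,[]⟩) (.N (.N (.N (.N (.F ⟨⟨12,4,1,2,0,2,3⟩,[]⟩) (.F ⟨⟨18,5,0,0,0,1,1⟩,[]⟩)) (.N (.F ⟨⟨13,5,1,0,2,2,3⟩,[]⟩) (.F ⟨⟨7,5,3,0,0,5,7⟩,[]⟩)))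 (.F ⟨⟨6,5,3,0,4,2,2⟩,[]⟩)) (.F ⟨⟨6,5,2,0,0,2,3⟩,[]⟩)))))))
    [false, true, true, false, true, false, true, false, true, false, true] = true := by decide +kernel

theorem e5_210 : treeE 5 208 145 (rows0 5 [4, 3, 2, 1, 0])
    (.N (.N (.F ⟨⟨0,4,1,2,0,2,3⟩,[]⟩) (.N (.N (.N (.N (.N (.F ⟨⟨8,5,1,3,4,3,5⟩,[]⟩) (.F ⟨⟨18,5,0,0,0,1,1⟩,[]⟩)) (.N (.F ⟨⟨18,5,0,0,1,1,1⟩,[]⟩) (.F ⟨⟨14,5,0,0,0,1,1⟩,[]⟩))) (.N (.N (.F ⟨⟨5,5,1,4,6,7,10⟩,[]⟩) (.F ⟨⟨18,5,0,0,0,1,1⟩,[]⟩)) (.N (.F ⟨⟨8,5,1,1,3,3,5⟩,[]⟩) (.F ⟨⟨8,5,1,1,0,3,5⟩,[]⟩)))) (.N (.N (.N (.N (.F ⟨⟨5,5,1,4,6,7,10⟩,[]⟩) (.N (.N (.F ⟨⟨17,5,0,0,1,2,3⟩,[]⟩)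 (.F ⟨⟨15,5,0,1,0,3,4⟩,[]⟩)) (.N (.F ⟨⟨21,5,0,0,1,1,1⟩,[]⟩) (.F ⟨⟨14,4,2,2,0,3,4⟩,[]⟩)))) (.F ⟨⟨18,5,0,0,0,1,1⟩,[]⟩)) (.N (.F ⟨⟨8,5,1,1,3,3,5⟩,[]⟩) (.F ⟨⟨8,5,1,1,0,3,5⟩,[]⟩))) (.N (.N (.N (.F ⟨⟨8,5,1,1,3,3,5⟩,[]⟩) (.N (.F ⟨⟨20,5,0,0,1,1,1⟩,[]⟩) (.N (.N (.N (.F ⟨⟨2,4,7,7,0,9,14⟩,[]⟩) (.N (.F ⟨⟨16,5,1,0,3,2,3⟩,[]⟩) (.F ⟨⟨7,5,7,2,0,10,15⟩,[]⟩))) (.N (.N (.F ⟨⟨16,5,1,0,4,2,3⟩,[]⟩) (.F ⟨⟨7,5,7,2,0,10,15⟩,[]⟩)) (.N (.F ⟨⟨24,5,0,0,1,1,1⟩,[]⟩) (.F ⟨⟨6,5,2,3,0,15,22⟩,[]⟩)))) (.N (.N (.N (.F ⟨⟨16,5,1,0,2,2,3⟩,[]⟩) (.F ⟨⟨7,5,7,2,0,10,15⟩,[]⟩)) (.N (.F ⟨⟨24,5,0,0,1,1,1⟩,[]⟩) (.N (.N (.F ⟨⟨12,1,3,2,1,7,9⟩,[]⟩)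 (.F ⟨⟨26,5,0,0,0,1,1⟩,[]⟩)) (.F ⟨⟨23,5,0,0,0,1,1⟩,[]⟩)))) (.F ⟨⟨7,0,6,2,0,6,8⟩,[]⟩))))) (.F ⟨⟨18,5,0,0,0,1,1⟩,[]⟩)) (.N (.F ⟨⟨10,5,1,1,2,3,5⟩,[]⟩) (.F ⟨⟨11,0,2,1,0,2,3⟩,[]⟩))))) (.F ⟨⟨14,5,0,0,0,1,2⟩,[]⟩))) (.N (.F ⟨⟨13,5,0,0,1,1,1⟩,[]⟩) (.N (.F ⟨⟨5,5,1,0,2,3,4⟩,[]⟩) (.F ⟨⟨12,5,0,0,0,1,1⟩,[]⟩))))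
    [false, false, true, true, true, false, true, false, true, false, true, false, true] = true := by decide +kernel

theorem e5_211 : treeE 5 208 145 (rows0 5 [4, 3, 2, 1, 0])
    (.N (.N (.F ⟨⟨5,5,1,0,2,3,5⟩,[]⟩) (.F ⟨⟨13,5,0,0,0,1,1⟩,[]⟩)) (.N (.F ⟨⟨8,5,1,0,2,2,3⟩,[]⟩) (.N (.N (.N (.N (.N (.N (.N (.F ⟨⟨10,5,1,3,4,3,5⟩,[]⟩) (.F ⟨⟨16,5,0,1,0,2,3⟩,[]⟩)) (.N (.F ⟨⟨20,5,0,0,1,1,1⟩,[]⟩) (.F ⟨⟨12,5,0,2,0,4,7⟩,[]⟩))) (.N (.N (.F ⟨⟨10,5,1,3,5,6,10⟩,[]⟩) (.F ⟨⟨20,5,0,0,0,1,1⟩,[]⟩)) (.N (.F ⟨⟨20,5,0,0,1,1,1⟩,[]⟩) (.F ⟨⟨15,5,0,1,0,2,3⟩,[]⟩)))) (.N (.N (.N (.N (.F ⟨⟨10,5,1,3,5,6,10⟩,[]⟩)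 (.N (.N (.F ⟨⟨19,5,0,0,1,2,3⟩,[]⟩) (.F ⟨⟨17,5,0,1,0,3,4⟩,[]⟩)) (.N (.F ⟨⟨23,5,0,0,1,1,1⟩,[]⟩) (.F ⟨⟨12,4,2,2,0,3,4⟩,[]⟩)))) (.F ⟨⟨20,5,0,0,0,1,1⟩,[]⟩)) (.N (.F ⟨⟨20,5,0,0,1,1,1⟩,[]⟩) (.F ⟨⟨15,5,0,1,0,2,3⟩,[]⟩))) (.N (.N (.N (.F ⟨⟨19,5,0,0,1,1,1⟩,[]⟩) (.F ⟨⟨13,5,0,1,4,2,2⟩,[]⟩)) (.F ⟨⟨20,5,0,0,0,1,1⟩,[]⟩)) (.N (.N (.F ⟨⟨21,5,0,0,1,1,2⟩,[]⟩) (.F ⟨⟨12,4,2,2,0,3,4⟩,[]⟩)) (.F ⟨⟨12,5,1,0,0,1,1⟩,[]⟩))))) (.F ⟨⟨16,5,0,0,0,1,1⟩,[]⟩)) (.N (.F ⟨⟨10,5,1,0,3,3,4⟩,[]⟩) (.F ⟨⟨7,5,1,0,0,5,7⟩,[]⟩))) (.F ⟨⟨6,5,1,0,0,2,3⟩,[]⟩))))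
    [true, false, true, true, true, false, true, false, true, false, true, false, true] = true := by decide +kernel

theorem e5_212 : treeE 5 208 145 (rows0 5 [4, 3, 2, 1, 0])
    (.N (.N (.N (.N (.F ⟨⟨5,5,1,0,2,3,5⟩,[]⟩) (.N (.N (.F ⟨⟨9,5,1,0,1,3,5⟩,[]⟩) (.N (.N (.N (.F ⟨⟨16,5,0,0,1,2,3⟩,[]⟩) (.F ⟨⟨15,5,0,0,3,1,1⟩,[]⟩)) (.F ⟨⟨17,5,0,0,1,1,1⟩,[]⟩)) (.F ⟨⟨17,5,0,0,0,1,2⟩,[]⟩))) (.N (.F ⟨⟨16,5,0,0,1,1,1⟩,[]⟩) (.N (.N (.N (.N (.F ⟨⟨11,4,1,2,0,2,3⟩,[]⟩) (.F ⟨⟨4,3,6,0,9,1,1⟩,[]⟩)) (.F ⟨⟨7,5,4,0,5,5,7⟩,[]⟩)) (.F ⟨⟨4,1,6,0,12,1,1⟩,[]⟩)) (.F ⟨⟨4,0,5,0,5,1,1⟩,[]⟩))))) (.F ⟨⟨13,5,0,0,0,1,1⟩,[]⟩))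 (.N (.F ⟨⟨8,5,1,0,2,2,3⟩,[]⟩) (.F ⟨⟨6,5,1,0,0,2,3⟩,[]⟩))) (.N (.N (.N (.F ⟨⟨8,5,1,0,2,2,3⟩,[]⟩) (.N (.F ⟨⟨15,5,0,0,1,1,1⟩,[]⟩) (.N (.N (.N (.N (.F ⟨⟨11,4,1,2,0,2,3⟩,[]⟩) (.F ⟨⟨4,3,4,0,5,1,1⟩,[]⟩)) (.F ⟨⟨4,2,4,0,13,1,1⟩,[]⟩)) (.F ⟨⟨4,1,4,0,16,1,1⟩,[]⟩)) (.F ⟨⟨4,0,4,0,7,1,1⟩,[]⟩)))) (.F ⟨⟨13,5,0,0,0,1,1⟩,[]⟩)) (.N (.F ⟨⟨9,5,1,0,1,2,3⟩,[]⟩) (.F ⟨⟨7,5,1,0,0,1,1⟩,[]⟩))))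
    [true, true, true, true, false, true, false, true, false, true, false, true] = true := by decide +kernel

theorem e5_213 : treeE 5 208 145 (rows0 5 [4, 3, 2, 1, 0])
    (.F ⟨⟨6,5,0,0,0,1,2⟩,[]⟩)
    [true, true, false, true, false, true, false, true] = true := by decide +kernel

theorem e5_214 : treeE 5 208 145 (rows0 5 [4, 3, 2, 1, 0])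
    (.N (.N (.F ⟨⟨6,5,0,0,1,1,2⟩,[]⟩) (.N (.F ⟨⟨6,5,0,0,1,1,1⟩,[]⟩) (.F ⟨⟨3,5,0,0,4,2,3⟩,[]⟩))) (.F ⟨⟨2,5,0,0,0,2,3⟩,[]⟩))
    [true, true, false, true, false, true] = true := by decide +kernel

theorem e5_215 : treeE 5 208 145 (rows0 5 [4, 3, 2, 1, 0])
    (.N (.N (.F ⟨⟨3,5,0,0,1,1,1⟩,[]⟩) (.N (.N (.F ⟨⟨4,5,0,0,1,1,1⟩,[]⟩) (.F ⟨⟨8,5,0,0,1,1,1⟩,[]⟩)) (.F ⟨⟨8,5,0,0,0,1,2⟩,[]⟩))) (.N (.F ⟨⟨7,5,0,0,1,1,1⟩,[]⟩) (.N (.N (.N (.F ⟨⟨2,5,0,0,4,2,3⟩,[]⟩) (.N (.F ⟨⟨2,5,0,0,4,2,3⟩,[]⟩) (.F ⟨⟨4,5,0,0,1,2,3⟩,[]⟩))) (.F ⟨⟨9,5,0,0,0,1,1⟩,[]⟩)) (.N (.N (.F ⟨⟨10,5,0,0,1,1,2⟩,[]⟩) (.F ⟨⟨7,5,0,0,3,1,1⟩,[]⟩))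 (.F ⟨⟨7,5,0,0,0,1,2⟩,[]⟩)))))
    [false, false, false, true, true, false, true] = true := by decide +kernel

theorem e5_216 : treeE 5 208 145 (rows0 5 [4, 3, 2, 1, 0])
    (.F ⟨⟨6,5,0,0,1,1,1⟩,[]⟩)
    [false, false, false, true, false, false, true, true, false, true] = true := by decide +kernel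

end Pool.Agent.RTX
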