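import Pool.Agent.RTS.Exact

/-!
# RTS: windows of the initial state, part 8
-/

set_option autoImplicit false
set_option maxRecDepth 100000

namespace Pool.Agent.RTX

theorem e5_217 : treeE 5 208 145 (rows0 5 [4, 3, 2, 1, 0])
    (.F ⟨⟨9,5,0,0,1,1,1⟩,[]⟩)
    [false, true, false, false, true, false, false, true, true, false, true] = true := by decide +kernel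

theorem e5_218 : treeE 5 208 145 (rows0 5 [4, 3, 2, 1, 0])
    (.N (.N (.N (.F ⟨⟨0,4,1,2,0,2,3⟩,[]⟩) (.N (.N (.N (.N (.F ⟨⟨2,4,2,4,0,4,6⟩,[]⟩) (.N (.F ⟨⟨5,5,1,3,7,5,8⟩,[]⟩) (.F ⟨⟨5,5,3,2,0,6,9⟩,[]⟩))) (.N (.N (.F ⟨⟨5,5,1,3,8,5,8⟩,[]⟩) (.F ⟨⟨5,5,3,2,0,6,9⟩,[]⟩)) (.N (.F ⟨⟨18,5,0,0,1,1,1⟩,[]⟩) (.F ⟨⟨4,5,3,2,0,8,11⟩,[]⟩)))) (.N (.N (.N (.F ⟨⟨5,5,1,3,5,5,8⟩,[]⟩) (.F ⟨⟨5,5,3,2,0,6,9⟩,[]⟩)) (.N (.F ⟨⟨18,5,0,0,1,1,1⟩,[]⟩) (.F ⟨⟨4,5,3,2,0,8,11⟩,[]⟩))) (.N (.N (.F ⟨⟨9,5,1,1,2,3,5⟩,[]⟩) (.F ⟨⟨18,5,0,0,0,1,1⟩,[]⟩)) (.N (.F ⟨⟨18,5,0,0,1,1,1⟩,[]⟩) (.F ⟨⟨8,5,2,1,0,2,3⟩,[]⟩))))) (.F ⟨⟨14,5,0,0,0,1,2⟩,[]⟩))) (.N (.F ⟨⟨13,5,0,0,1,1,1⟩,[]⟩) (.N (.N (.F ⟨⟨7,0,2,2,0,3,4⟩,[]⟩) (.F ⟨⟨15,5,0,0,0,1,1⟩,[]⟩))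 (.N (.F ⟨⟨9,5,1,0,2,3,4⟩,[]⟩) (.F ⟨⟨13,5,0,0,0,1,2⟩,[]⟩))))) (.N (.N (.F ⟨⟨8,5,0,0,3,1,1⟩,[]⟩) (.N (.N (.F ⟨⟨9,5,1,0,2,3,4⟩,[]⟩) (.F ⟨⟨12,5,0,0,2,1,1⟩,[]⟩)) (.F ⟨⟨14,5,0,0,0,1,2⟩,[]⟩))) (.N (.F ⟨⟨13,5,0,0,1,1,1⟩,[]⟩) (.N (.N (.N (.F ⟨⟨7,0,2,2,0,3,4⟩,[]⟩) (.F ⟨⟨16,5,0,0,0,1,1⟩,[]⟩)) (.N (.F ⟨⟨10,5,1,0,3,3,4⟩,[]⟩) (.F ⟨⟨12,5,0,0,0,2,3⟩,[]⟩))) (.N (.N (.F ⟨⟨8,5,1,0,3,4,5⟩,[]⟩) (.F ⟨⟨16,5,0,0,0,1,1⟩,[]⟩)) (.F ⟨⟨11,5,0,0,0,1,1⟩,[]⟩))))))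
    [false, true, true, false, false, true, false, false, true, true, false, true] = true := by decide +kernel

theorem e5_219 : treeE 5 208 145 (rows0 5 [4, 3, 2, 1, 0])
    (.N (.N (.N (.F ⟨⟨7,5,0,0,2,1,1⟩,[]⟩) (.N (.N (.N (.F ⟨⟨9,5,1,0,2,3,4⟩,[]⟩) (.F ⟨⟨11,5,0,0,2,1,1⟩,[]⟩)) (.F ⟨⟨13,5,0,0,1,1,1⟩,[]⟩)) (.F ⟨⟨14,5,0,0,0,1,2⟩,[]⟩))) (.N (.F ⟨⟨13,5,0,0,1,1,1⟩,[]⟩) (.N (.N (.N (.F ⟨⟨8,5,1,0,3,4,5⟩,[]⟩) (.N (.N (.N (.F ⟨⟨17,5,0,0,1,1,1⟩,[]⟩) (.N (.F ⟨⟨20,5,0,0,1,1,1⟩,[]⟩) (.N (.N (.N (.N (.F ⟨⟨11,4,1,2,0,2,3⟩,[]⟩) (.F ⟨⟨9,3,4,0,4,2,2⟩,[]⟩)) (.F ⟨⟨13,5,2,0,7,3,4⟩,[]⟩)) (.F ⟨⟨13,5,2,0,10,3,4⟩,[]⟩)) (.F ⟨⟨13,5,2,0,3,3,4⟩,[]⟩)))) (.F ⟨⟨18,5,0,0,0,1,1⟩,[]⟩)) (.N (.F ⟨⟨9,5,1,0,1,5,7⟩,[]⟩)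 (.N (.N (.N (.N (.F ⟨⟨11,4,1,2,0,2,3⟩,[]⟩) (.F ⟨⟨9,3,3,0,4,2,2⟩,[]⟩)) (.F ⟨⟨9,2,3,0,8,2,2⟩,[]⟩)) (.F ⟨⟨9,1,3,0,6,2,2⟩,[]⟩)) (.F ⟨⟨10,5,2,0,0,2,3⟩,[]⟩))))) (.F ⟨⟨15,5,0,0,0,1,1⟩,[]⟩)) (.F ⟨⟨12,5,0,0,0,1,1⟩,[]⟩)))) (.N (.N (.F ⟨⟨9,5,1,0,1,2,3⟩,[]⟩) (.F ⟨⟨13,5,0,0,0,1,1⟩,[]⟩)) (.N (.F ⟨⟨10,5,1,0,1,2,3⟩,[]⟩) (.N (.N (.N (.N (.F ⟨⟨11,4,1,2,0,2,3⟩,[]⟩) (.F ⟨⟨17,5,0,0,0,1,1⟩,[]⟩)) (.N (.F ⟨⟨12,5,1,0,2,2,3⟩,[]⟩) (.F ⟨⟨7,2,4,0,4,2,3⟩,[]⟩))) (.N (.N (.F ⟨⟨12,5,1,0,2,2,3⟩,[]⟩) (.F ⟨⟨17,5,0,0,0,1,1⟩,[]⟩)) (.F ⟨⟨9,1,2,0,3,1,1⟩,[]⟩))) (.F ⟨⟨8,5,1,0,0,1,1⟩,[]⟩)))))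
    [true, true, true, false, false, true, false, false, true, true, false, true] = true := by decide +kernel

theorem e5_220 : treeE 5 208 145 (rows0 5 [4, 3, 2, 1, 0])
    (.N (.N (.N (.F ⟨⟨7,5,0,0,1,2,3⟩,[]⟩) (.F ⟨⟨6,5,0,0,3,1,1⟩,[]⟩)) (.F ⟨⟨8,5,0,0,1,1,1⟩,[]⟩)) (.F ⟨⟨8,5,0,0,0,1,2⟩,[]⟩))
    [true, false, true, false, false, true, true, false, true] = true := by decide +kernel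

theorem e5_221 : treeE 5 208 145 (rows0 5 [4, 3, 2, 1, 0])
    (.F ⟨⟨8,5,0,0,1,1,2⟩,[]⟩)
    [false, false, true, true, false, false, true, true, false, true] = true := by decide +kernel

theorem e5_222 : treeE 5 208 145 (rows0 5 [4, 3, 2, 1, 0])
    (.N (.F ⟨⟨0,4,1,2,0,2,3⟩,[]⟩) (.N (.N (.N (.N (.F ⟨⟨2,4,2,4,0,4,6⟩,[]⟩) (.N (.F ⟨⟨5,5,1,3,5,5,8⟩,[]⟩) (.F ⟨⟨11,5,0,1,0,2,3⟩,[]⟩))) (.N (.N (.F ⟨⟨4,5,1,3,7,5,8⟩,[]⟩) (.F ⟨⟨11,5,0,1,0,2,3⟩,[]⟩)) (.N (.F ⟨⟨17,5,0,0,1,1,1⟩,[]⟩) (.F ⟨⟨4,5,3,2,0,6,9⟩,[]⟩)))) (.N (.N (.N (.F ⟨⟨4,5,1,3,5,5,8⟩,[]⟩) (.F ⟨⟨11,5,0,1,0,2,3⟩,[]⟩)) (.N (.F ⟨⟨17,5,0,0,1,1,1⟩,[]⟩) (.F ⟨⟨4,5,3,2,0,6,9⟩,[]⟩))) (.N (.N (.F ⟨⟨8,5,0,1,3,2,3⟩,[]⟩) (.F ⟨⟨10,5,0,1,0,2,3⟩,[]⟩))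 (.N (.F ⟨⟨17,5,0,0,1,1,1⟩,[]⟩) (.F ⟨⟨6,5,3,1,0,3,5⟩,[]⟩))))) (.F ⟨⟨13,5,0,0,0,1,2⟩,[]⟩)))
    [false, false, false, true, false, true, true, false, false, true, true, false, true] = true := by decide +kernel

theorem e5_223 : treeE 5 208 145 (rows0 5 [4, 3, 2, 1, 0])
    (.F ⟨⟨12,5,0,0,1,1,1⟩,[]⟩)
    [false, true, false, false, true, false, true, true, false, false, true, true, false, true] = true := by decide +kernel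

theorem e5_224 : treeE 5 208 145 (rows0 5 [4, 3, 2, 1, 0])
    (.N (.N (.F ⟨⟨8,5,0,2,4,2,3⟩,[]⟩) (.F ⟨⟨15,5,0,1,0,2,3⟩,[]⟩)) (.N (.F ⟨⟨18,5,0,0,1,1,1⟩,[]⟩) (.F ⟨⟨14,5,0,1,0,2,3⟩,[]⟩)))
    [false, false, false, false, true, true, false, false, true, false, true, true, false, false, true, true, false, true] = true := by decide +kernel

theorem e5_225 : treeE 5 208 145 (rows0 5 [4, 3, 2, 1, 0])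
    (.F ⟨⟨17,5,0,0,1,1,1⟩,[]⟩)
    [false, false, false, true, false, false, false, true, true, false, false, true, false, true, true, false, false, true, true, false, true] = true := by decide +kernel

theorem e5_226 : treeE 5 208 145 (rows0 5 [4, 3, 2, 1, 0])
    (.F ⟨⟨20,5,0,0,1,1,1⟩,[]⟩)
    [false, true, false, false, true, false, false, false, true, true, false, false, true, false, true, true, false, false, true, true, false, true] = true := by decide +kernel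

theorem e5_227 : treeE 5 208 145 (rows0 5 [4, 3, 2, 1, 0])
    (.N (.N (.F ⟨⟨15,5,0,2,4,2,3⟩,[]⟩) (.N (.N (.N (.N (.F ⟨⟨18,5,0,1,2,4,6⟩,[]⟩) (.N (.N (.F ⟨⟨26,5,0,0,1,2,3⟩,[]⟩) (.F ⟨⟨24,5,0,1,0,3,4⟩,[]⟩)) (.F ⟨⟨13,5,0,3,9,6,9⟩,[]⟩))) (.F ⟨⟨27,5,0,0,0,1,1⟩,[]⟩)) (.N (.F ⟨⟨27,5,0,0,1,1,1⟩,[]⟩) (.F ⟨⟨20,5,0,1,0,2,4⟩,[]⟩))) (.N (.N (.N (.F ⟨⟨26,5,0,0,1,1,1⟩,[]⟩) (.F ⟨⟨20,5,0,1,4,2,2⟩,[]⟩)) (.F ⟨⟨27,5,0,0,0,1,1⟩,[]⟩)) (.N (.N (.F ⟨⟨28,5,0,0,1,1,2⟩,[]⟩) (.F ⟨⟨17,5,2,2,5,3,4⟩,[]⟩)) (.F ⟨⟨16,0,2,1,0,2,3⟩,[]⟩))))) (.F ⟨⟨14,5,0,1,0,5,7⟩,[]⟩))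
    [false, false, true, true, false, false, true, false, false, false, true, true, false, false, true, false, true, true, false, false, true, true, false, true] = true := by decide +kernel

theorem e5_228 : treeE 5 208 145 (rows0 5 [4, 3, 2, 1, 0])
    (.F ⟨⟨23,5,0,0,1,1,1⟩,[]⟩)
    [false, true, false, true, true, false, false, true, false, false, false, true, true, false, false, true, false, true, true, false, false, true, true, false, true] = true := by decide +kernel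

theorem e5_229 : treeE 5 208 145 (rows0 5 [4, 3, 2, 1, 0])
    (.F ⟨⟨18,5,0,2,0,3,4⟩,[]⟩)
    [false, false, false, true, true, false, true, true, false, false, true, false, false, false, true, true, false, false, true, false, true, true, false, false, true, true, false, true] = true := by decide +kernel

theorem e5_230 : treeE 5 208 145 (rows0 5 [4, 3, 2, 1, 0])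
    (.F ⟨⟨18,5,0,2,0,3,4⟩,[]⟩)
    [false, true, false, false, true, true, false, true, true, false, false, true, false, false, false, true, true, false, false, true, false, true, true, false, false, true, true, false, true] = true := by decide +kernel

theorem e5_231 : treeE 5 208 145 (rows0 5 [4, 3, 2, 1, 0])
    (.F ⟨⟨18,5,0,2,0,3,4⟩,[]⟩)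
    [false, true, true, false, false, true, true, false, true, true, false, false, true, false, false, false, true, true, false, false, true, false, true, true, false, false, true, true, false, true] = true := by decide +kernel

theorem e5_232 : treeE 5 208 145 (rows0 5 [4, 3, 2, 1, 0])
    (.F ⟨⟨30,5,0,0,1,1,2⟩,[]⟩)
    [false, false, true, true, true, false, false, true, true, false, true, true, false, false, true, false, false, false, true, true, false, false, true, false, true, true, false, false, true, true, false, true] = true := by decide +kernel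

theorem e5_233 : treeE 5 208 145 (rows0 5 [4, 3, 2, 1, 0])
    (.N (.N (.N (.F ⟨⟨24,5,1,2,4,2,3⟩,[]⟩) (.F ⟨⟨34,5,0,0,0,1,1⟩,[]⟩)) (.N (.F ⟨⟨34,5,0,0,1,1,1⟩,[]⟩) (.F ⟨⟨25,5,1,1,0,3,5⟩,[]⟩))) (.N (.N (.N (.F ⟨⟨33,5,0,0,1,1,1⟩,[]⟩) (.N (.F ⟨⟨36,5,0,0,1,1,1⟩,[]⟩) (.N (.N (.N (.N (.F ⟨⟨31,5,1,3,6,3,4⟩,[]⟩) (.N (.N (.N (.N (.F ⟨⟨34,5,0,1,2,4,6⟩,[]⟩) (.N (.N (.F ⟨⟨42,5,0,0,1,2,3⟩,[]⟩) (.F ⟨⟨40,5,0,1,0,3,4⟩,[]⟩)) (.N (.F ⟨⟨46,5,0,0,1,1,1⟩,[]⟩) (.F ⟨⟨33,5,2,2,6,3,4⟩,[]⟩)))) (.F ⟨⟨43,5,0,0,0,1,1⟩,[]⟩)) (.N (.F ⟨⟨43,5,0,0,1,1,1⟩,[]⟩) (.F ⟨⟨36,5,0,1,0,2,4⟩,[]⟩))) (.N (.N (.N (.F ⟨⟨42,5,0,0,1,1,1⟩,[]⟩) (.F ⟨⟨36,5,0,1,4,2,2⟩,[]⟩)) (.F ⟨⟨43,5,0,0,0,1,1⟩,[]⟩)) (.N (.N (.F ⟨⟨44,5,0,0,1,1,2⟩,[]⟩)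 (.F ⟨⟨33,5,2,2,5,3,4⟩,[]⟩)) (.F ⟨⟨32,0,2,1,0,2,3⟩,[]⟩))))) (.F ⟨⟨25,5,2,1,0,9,14⟩,[]⟩)) (.N (.F ⟨⟨39,5,0,0,1,1,1⟩,[]⟩) (.N (.N (.N (.F ⟨⟨34,5,0,2,0,3,4⟩,[]⟩) (.N (.F ⟨⟨34,5,0,2,0,3,4⟩,[]⟩) (.N (.F ⟨⟨34,5,0,2,0,3,4⟩,[]⟩) (.N (.N (.F ⟨⟨46,5,0,0,1,1,2⟩,[]⟩) (.N (.N (.N (.N (.F ⟨⟨40,5,1,2,4,2,3⟩,[]⟩) (.F ⟨⟨50,5,0,0,0,1,1⟩,[]⟩)) (.N (.F ⟨⟨50,5,0,0,1,1,1⟩,[]⟩) (.F ⟨⟨41,5,1,1,0,3,5⟩,[]⟩))) (.N (.N (.N (.F ⟨⟨49,5,0,0,1,1,1⟩,[]⟩) (.N (.F ⟨⟨52,5,0,0,1,1,1⟩,[]⟩) (.F ⟨⟨40,3,2,1,4,4,5⟩,[]⟩))) (.F ⟨⟨50,5,0,0,0,1,1⟩,[]⟩)) (.N (.F ⟨⟨36,5,2,3,7,6,9⟩,[]⟩) (.F ⟨⟨37,5,3,1,0,5,8⟩,[]⟩)))) (.N (.N (.N (.N (.N (.F ⟨⟨48,5,0,0,1,1,1⟩,[]⟩) (.N (.F ⟨⟨53,5,0,0,1,1,1⟩,[]⟩) (.F ⟨⟨40,0,2,1,3,4,5⟩,[]⟩))) (.N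 (.N (.F ⟨⟨49,5,0,0,1,2,3⟩,[]⟩) (.F ⟨⟨40,3,2,1,3,4,5⟩,[]⟩)) (.F ⟨⟨40,3,2,1,3,4,5⟩,[]⟩))) (.F ⟨⟨50,5,0,0,0,1,1⟩,[]⟩)) (.N (.F ⟨⟨36,5,2,3,7,6,9⟩,[]⟩) (.F ⟨⟨37,5,3,1,0,5,8⟩,[]⟩))) (.N (.N (.F ⟨⟨36,5,2,3,5,6,9⟩,[]⟩) (.F ⟨⟨37,5,3,1,0,5,8⟩,[]⟩)) (.F ⟨⟨34,0,4,2,0,4,6⟩,[]⟩))))) (.F ⟨⟨32,0,2,1,0,2,3⟩,[]⟩))))) (.F ⟨⟨41,5,0,0,0,1,1⟩,[]⟩)) (.F ⟨⟨38,5,0,0,0,1,1⟩,[]⟩)))) (.N (.N (.F ⟨⟨31,5,1,0,2,4,6⟩,[]⟩) (.F ⟨⟨39,5,0,0,0,1,1⟩,[]⟩)) (.N (.F ⟨⟨31,5,1,0,2,5,7⟩,[]⟩) (.F ⟨⟨35,5,0,0,0,1,1⟩,[]⟩)))))) (.F ⟨⟨34,5,0,0,0,1,1⟩,[]⟩)) (.N (.F ⟨⟨20,5,2,3,7,6,9⟩,[]⟩) (.F ⟨⟨21,5,3,1,0,5,8⟩,[]⟩))))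
    [false, true, false, true, true, true, false, false, true, true, false, true, true, false, false, true, false, false, false, true, true, false, false, true, false, true, true, false, false, true, true, false, true] = true := by decide +kernel

theorem e5_234 : treeE 5 208 145 (rows0 5 [4, 3, 2, 1, 0])
    (.N (.N (.N (.N (.N (.F ⟨⟨32,5,0,0,1,1,1⟩,[]⟩) (.N (.F ⟨⟨37,5,0,0,1,1,1⟩,[]⟩) (.N (.N (.N (.F ⟨⟨31,5,1,0,2,4,6⟩,[]⟩) (.N (.N (.F ⟨⟨29,5,2,0,1,12,17⟩,[]⟩) (.F ⟨⟨34,5,0,0,4,2,3⟩,[]⟩)) (.F ⟨⟨34,5,0,0,1,2,3⟩,[]⟩))) (.F ⟨⟨39,5,0,0,0,1,1⟩,[]⟩)) (.N (.F ⟨⟨31,5,1,0,2,5,7⟩,[]⟩) (.F ⟨⟨37,5,0,0,0,1,2⟩,[]⟩))))) (.N (.N (.F ⟨⟨33,5,0,0,1,2,3⟩,[]⟩) (.N (.N (.F ⟨⟨31,5,1,0,2,5,7⟩,[]⟩) (.F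 ⟨⟨38,5,0,0,1,1,1⟩,[]⟩)) (.F ⟨⟨38,5,0,0,0,1,2⟩,[]⟩))) (.N (.F ⟨⟨37,5,0,0,1,1,1⟩,[]⟩) (.F ⟨⟨23,5,4,2,7,5,6⟩,[]⟩)))) (.F ⟨⟨34,5,0,0,0,1,1⟩,[]⟩)) (.N (.F ⟨⟨20,5,2,3,7,6,9⟩,[]⟩) (.F ⟨⟨21,5,3,1,0,5,8⟩,[]⟩))) (.N (.N (.F ⟨⟨20,5,2,3,5,6,9⟩,[]⟩) (.F ⟨⟨21,5,3,1,0,5,8⟩,[]⟩)) (.F ⟨⟨18,0,4,2,0,4,6⟩,[]⟩)))
    [true, true, false, true, true, true, false, false, true, true, false, true, true, false, false, true, false, false, false, true, true, false, false, true, false, true, true, false, false, true, true, false, true] = true := by decide +kernel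

theorem e5_235 : treeE 5 208 145 (rows0 5 [4, 3, 2, 1, 0])
    (.F ⟨⟨16,0,2,1,0,2,3⟩,[]⟩)
    [true, true, true, true, false, false, true, true, false, true, true, false, false, true, false, false, false, true, true, false, false, true, false, true, true, false, false, true, true, false, true] = true := by decide +kernel

theorem e5_236 : treeE 5 208 145 (rows0 5 [4, 3, 2, 1, 0])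
    (.F ⟨⟨25,5,0,0,0,1,1⟩,[]⟩)
    [true, false, true, true, false, true, true, false, false, true, false, false, false, true, true, false, false, true, false, true, true, false, false, true, true, false, true] = true := by decide +kernel

theorem e5_237 : treeE 5 208 145 (rows0 5 [4, 3, 2, 1, 0])
    (.F ⟨⟨22,5,0,0,0,1,1⟩,[]⟩)
    [true, true, true, false, true, true, false, false, true, false, false, false, true, true, false, false, true, false, true, true, false, false, true, true, false, true] = true := by decide +kernel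

theorem e5_238 : treeE 5 208 145 (rows0 5 [4, 3, 2, 1, 0])
    (.N (.N (.F ⟨⟨13,5,0,1,2,7,10⟩,[]⟩) (.F ⟨⟨23,5,0,0,0,1,1⟩,[]⟩)) (.N (.F ⟨⟨9,5,1,2,4,14,20⟩,[]⟩) (.F ⟨⟨19,5,0,0,0,1,1⟩,[]⟩)))
    [true, true, true, false, false, true, false, false, false, true, true, false, false, true, false, true, true, false, false, true, true, false, true] = true := by decide +kernel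

theorem e5_239 : treeE 5 208 145 (rows0 5 [4, 3, 2, 1, 0])
    (.F ⟨⟨18,5,0,0,0,1,1⟩,[]⟩)
    [true, false, true, false, false, false, true, true, false, false, true, false, true, true, false, false, true, true, false, true] = true := by decide +kernel

theorem e5_240 : treeE 5 208 145 (rows0 5 [4, 3, 2, 1, 0])
    (.N (.F ⟨⟨3,5,2,5,9,9,13⟩,[]⟩) (.F ⟨⟨10,5,0,1,0,2,3⟩,[]⟩))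
    [true, true, false, false, false, true, true, false, false, true, false, true, true, false, false, true, true, false, true] = true := by decide +kernel

theorem e5_241 : treeE 5 208 145 (rows0 5 [4, 3, 2, 1, 0])
    (.N (.N (.N (.N (.N (.F ⟨⟨16,5,0,0,1,1,1⟩,[]⟩) (.N (.F ⟨⟨21,5,0,0,1,1,1⟩,[]⟩) (.N (.N (.N (.F ⟨⟨13,5,0,1,2,7,10⟩,[]⟩) (.N (.N (.N (.F ⟨⟨25,5,0,0,1,1,1⟩,[]⟩) (.F ⟨⟨18,5,0,0,8,2,3⟩,[]⟩)) (.F ⟨⟨18,5,0,0,4,2,3⟩,[]⟩)) (.F ⟨⟨18,5,0,0,1,2,3⟩,[]⟩))) (.F ⟨⟨23,5,0,0,0,1,1⟩,[]⟩)) (.N (.F ⟨⟨9,5,1,2,4,14,20⟩,[]⟩) (.F ⟨⟨21,5,0,0,0,1,2⟩,[]⟩))))) (.N (.N (.F ⟨⟨17,5,0,0,1,2,3⟩,[]⟩) (.N (.N (.F ⟨⟨9,5,1,2,4,14,20⟩,[]⟩) (.F ⟨⟨22,5,0,0,1,1,1⟩,[]⟩)) (.F ⟨⟨22,5,0,0,0,1,2⟩,[]⟩))) (.N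 (.F ⟨⟨21,5,0,0,1,1,1⟩,[]⟩) (.N (.N (.N (.N (.F ⟨⟨17,5,0,1,3,1,1⟩,[]⟩) (.F ⟨⟨14,0,3,1,3,2,2⟩,[]⟩)) (.F ⟨⟨14,0,3,1,3,2,2⟩,[]⟩)) (.F ⟨⟨14,0,3,1,3,2,2⟩,[]⟩)) (.F ⟨⟨14,4,3,1,3,2,2⟩,[]⟩))))) (.F ⟨⟨18,5,0,0,0,1,1⟩,[]⟩)) (.N (.F ⟨⟨3,5,2,5,9,9,13⟩,[]⟩) (.F ⟨⟨10,5,0,1,0,2,3⟩,[]⟩))) (.N (.N (.F ⟨⟨3,5,2,5,7,9,13⟩,[]⟩) (.F ⟨⟨10,5,0,1,0,2,3⟩,[]⟩)) (.N (.F ⟨⟨18,5,0,0,1,1,1⟩,[]⟩) (.F ⟨⟨7,5,3,1,0,3,5⟩,[]⟩))))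
    [true, false, false, true, true, false, false, true, false, true, true, false, false, true, true, false, true] = true := by decide +kernel

theorem e5_242 : treeE 5 208 145 (rows0 5 [4, 3, 2, 1, 0])
    (.F ⟨⟨14,5,0,0,0,1,1⟩,[]⟩)
    [true, false, true, true, false, false, true, false, true, true, false, false, true, true, false, true] = true := by decide +kernel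

theorem e5_243 : treeE 5 208 145 (rows0 5 [4, 3, 2, 1, 0])
    (.F ⟨⟨11,5,0,0,0,1,1⟩,[]⟩)
    [true, true, true, false, false, true, false, true, true, false, false, true, true, false, true] = true := by decide +kernel

theorem e5_244 : treeE 5 208 145 (rows0 5 [4, 3, 2, 1, 0])
    (.N (.N (.F ⟨⟨6,5,1,0,3,2,3⟩,[]⟩) (.F ⟨⟨12,5,0,0,0,1,1⟩,[]⟩)) (.N (.F ⟨⟨6,5,1,0,3,2,3⟩,[]⟩) (.N (.N (.N (.F ⟨⟨1,0,5,5,0,6,10⟩,[]⟩) (.F ⟨⟨15,5,0,0,0,1,1⟩,[]⟩)) (.N (.F ⟨⟨9,5,1,0,3,3,4⟩,[]⟩) (.F ⟨⟨11,5,0,0,0,2,3⟩,[]⟩))) (.N (.N (.F ⟨⟨4,5,3,0,4,7,11⟩,[]⟩) (.F ⟨⟨15,5,0,0,0,1,1⟩,[]⟩)) (.N (.F ⟨⟨9,5,1,0,2,3,4⟩,[]⟩) (.F ⟨⟨11,5,0,0,0,1,2⟩,[]⟩))))))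
    [true, false, true, false, true, true, false, false, true, true, false, true] = true := by decide +kernel

theorem e5_245 : treeE 5 208 145 (rows0 5 [4, 3, 2, 1, 0])
    (.N (.N (.N (.F ⟨⟨6,5,1,0,2,2,3⟩,[]⟩) (.F ⟨⟨12,5,0,0,0,1,1⟩,[]⟩)) (.N (.F ⟨⟨6,5,1,0,3,2,3⟩,[]⟩) (.N (.N (.N (.F ⟨⟨4,5,3,0,4,7,11⟩,[]⟩) (.N (.N (.F ⟨⟨8,5,2,0,1,8,12⟩,[]⟩) (.F ⟨⟨17,5,0,0,0,1,1⟩,[]⟩)) (.F ⟨⟨4,5,3,0,4,5,7⟩,[]⟩))) (.F ⟨⟨14,5,0,0,0,1,1⟩,[]⟩)) (.N (.F ⟨⟨9,5,1,0,2,3,4⟩,[]⟩) (.F ⟨⟨12,5,0,0,0,1,2⟩,[]⟩))))) (.N (.N (.F ⟨⟨6,5,1,0,2,2,3⟩,[]⟩) (.N (.N (.F ⟨⟨9,5,1,0,2,3,4⟩,[]⟩) (.F ⟨⟨11,5,0,0,2,1,1⟩,[]⟩)) (.F ⟨⟨13,5,0,0,0,1,2⟩,[]⟩))) (.N (.F ⟨⟨12,5,0,0,1,1,1⟩,[]⟩) (.N (.N (.N (.N (.F ⟨⟨10,4,1,2,0,2,3⟩,[]⟩)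 (.F ⟨⟨16,5,0,0,0,1,1⟩,[]⟩)) (.N (.F ⟨⟨11,5,1,0,2,2,3⟩,[]⟩) (.F ⟨⟨10,5,1,0,0,2,3⟩,[]⟩))) (.N (.N (.F ⟨⟨11,5,1,0,2,2,3⟩,[]⟩) (.F ⟨⟨16,5,0,0,0,1,1⟩,[]⟩)) (.N (.F ⟨⟨12,5,1,0,2,2,3⟩,[]⟩) (.F ⟨⟨8,1,4,0,4,2,3⟩,[]⟩)))) (.F ⟨⟨2,5,4,0,0,4,6⟩,[]⟩)))))
    [true, true, false, true, true, false, false, true, true, false, true] = true := by decide +kernel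

theorem e5_246 : treeE 5 208 145 (rows0 5 [4, 3, 2, 1, 0])
    (.N (.F ⟨⟨0,4,1,2,0,2,3⟩,[]⟩) (.N (.N (.N (.N (.N (.F ⟨⟨6,5,1,3,4,3,5⟩,[]⟩) (.F ⟨⟨16,5,0,0,0,1,1⟩,[]⟩)) (.N (.F ⟨⟨5,5,1,3,5,5,8⟩,[]⟩) (.F ⟨⟨10,5,0,1,0,2,3⟩,[]⟩))) (.N (.N (.F ⟨⟨4,5,1,3,5,5,8⟩,[]⟩) (.F ⟨⟨10,5,0,1,0,2,3⟩,[]⟩)) (.N (.F ⟨⟨16,5,0,0,1,1,1⟩,[]⟩) (.F ⟨⟨6,5,1,1,0,3,5⟩,[]⟩)))) (.N (.N (.N (.F ⟨⟨3,5,1,3,4,5,7⟩,[]⟩) (.F ⟨⟨10,5,0,1,0,2,3⟩,[]⟩)) (.N (.F ⟨⟨16,5,0,0,1,1,1⟩,[]⟩) (.F ⟨⟨6,5,1,1,0,3,5⟩,[]⟩))) (.N (.N (.F ⟨⟨7,5,1,1,2,3,5⟩,[]⟩) (.F ⟨⟨9,5,0,1,0,2,3⟩,[]⟩)) (.N (.F ⟨⟨8,5,1,1,2,3,5⟩,[]⟩) (.F ⟨⟨9,0,2,1,0,2,3⟩,[]⟩))))) (.F ⟨⟨12,5,0,0,0,1,2⟩,[]⟩)))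
    [false, false, false, true, true, true, false, false, true, true, false, true] = true := by decide +kernel

theorem e5_247 : treeE 5 208 145 (rows0 5 [4, 3, 2, 1, 0])
    (.N (.F ⟨⟨11,5,0,0,1,1,1⟩,[]⟩) (.N (.N (.N (.N (.N (.N (.F ⟨⟨7,5,1,3,4,3,5⟩,[]⟩) (.F ⟨⟨14,5,0,1,0,2,3⟩,[]⟩)) (.N (.F ⟨⟨17,5,0,0,1,1,1⟩,[]⟩) (.F ⟨⟨13,5,0,1,0,2,3⟩,[]⟩))) (.N (.N (.N (.F ⟨⟨16,5,0,0,1,1,1⟩,[]⟩) (.N (.F ⟨⟨19,5,0,0,1,1,1⟩,[]⟩) (.N (.N (.N (.N (.F ⟨⟨14,5,0,2,4,2,3⟩,[]⟩) (.N (.F ⟨⟨13,1,0,3,0,2,2⟩,[]⟩) (.N (.F ⟨⟨13,1,0,3,0,2,2⟩,[]⟩) (.N (.F ⟨⟨13,1,0,3,0,2,2⟩,[]⟩) (.F ⟨⟨15,0,2,1,0,2,3⟩,[]⟩))))) (.F ⟨⟨13,5,0,1,0,5,7⟩,[]⟩)) (.N (.F ⟨⟨22,5,0,0,1,1,1⟩,[]⟩) (.N (.F ⟨⟨16,5,0,0,3,3,3⟩,[]⟩) (.F ⟨⟨21,5,0,0,0,1,1⟩,[]⟩))))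 (.F ⟨⟨12,5,0,1,0,4,5⟩,[]⟩)))) (.F ⟨⟨17,5,0,0,0,1,1⟩,[]⟩)) (.N (.N (.F ⟨⟨18,5,0,0,1,1,2⟩,[]⟩) (.N (.F ⟨⟨17,5,0,0,1,1,1⟩,[]⟩) (.N (.F ⟨⟨15,5,0,0,1,1,1⟩,[]⟩) (.F ⟨⟨13,5,0,1,0,3,4⟩,[]⟩)))) (.F ⟨⟨9,5,0,1,0,2,3⟩,[]⟩)))) (.N (.N (.N (.N (.N (.F ⟨⟨15,5,0,0,1,1,1⟩,[]⟩) (.N (.F ⟨⟨20,5,0,0,1,1,1⟩,[]⟩) (.F ⟨⟨12,5,0,1,0,4,5⟩,[]⟩))) (.N (.N (.F ⟨⟨16,5,0,0,1,2,3⟩,[]⟩) (.F ⟨⟨14,5,0,1,0,3,4⟩,[]⟩)) (.N (.F ⟨⟨20,5,0,0,1,1,1⟩,[]⟩) (.F ⟨⟨11,4,2,2,0,3,4⟩,[]⟩)))) (.F ⟨⟨17,5,0,0,0,1,1⟩,[]⟩)) (.N (.N (.F ⟨⟨18,5,0,0,1,1,2⟩,[]⟩) (.N (.F ⟨⟨16,5,0,0,1,1,1⟩,[]⟩) (.F ⟨⟨13,5,0,1,0,3,4⟩,[]⟩))) (.F ⟨⟨9,5,0,1,0,2,3⟩,[]⟩))) (.N (.N (.N (.N (.F ⟨⟨17,5,0,0,1,1,2⟩,[]⟩) (.F ⟨⟨13,5,0,1,0,3,4⟩,[]⟩)) (.N (.F ⟨⟨19,5,0,0,1,1,1⟩,[]⟩)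 (.F ⟨⟨11,4,2,2,0,3,4⟩,[]⟩))) (.F ⟨⟨9,5,0,1,0,2,3⟩,[]⟩)) (.N (.F ⟨⟨8,5,1,1,2,3,5⟩,[]⟩) (.F ⟨⟨9,0,2,1,0,2,3⟩,[]⟩))))) (.F ⟨⟨13,5,0,0,0,1,1⟩,[]⟩)) (.F ⟨⟨10,5,0,0,0,1,1⟩,[]⟩)))
    [true, false, false, true, true, true, false, false, true, true, false, true] = true := by decide +kernel

theorem e5_248 : treeE 5 208 145 (rows0 5 [4, 3, 2, 1, 0])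
    (.N (.N (.F ⟨⟨6,5,1,0,2,2,3⟩,[]⟩) (.F ⟨⟨11,5,0,0,0,1,1⟩,[]⟩)) (.N (.F ⟨⟨6,5,1,0,2,2,3⟩,[]⟩) (.N (.N (.N (.N (.N (.N (.N (.F ⟨⟨8,5,1,3,4,3,5⟩,[]⟩) (.F ⟨⟨15,5,0,1,0,2,3⟩,[]⟩)) (.N (.F ⟨⟨18,5,0,0,1,1,1⟩,[]⟩) (.F ⟨⟨10,5,0,2,0,4,7⟩,[]⟩))) (.N (.N (.F ⟨⟨13,5,0,1,2,2,3⟩,[]⟩) (.F ⟨⟨18,5,0,0,0,1,1⟩,[]⟩)) (.N (.F ⟨⟨18,5,0,0,1,1,1⟩,[]⟩) (.F ⟨⟨13,5,0,1,0,2,3⟩,[]⟩)))) (.N (.N (.N (.N (.F ⟨⟨13,5,0,1,2,2,3⟩,[]⟩) (.N (.N (.F ⟨⟨17,5,0,0,1,2,3⟩,[]⟩) (.F ⟨⟨15,5,0,1,0,3,4⟩,[]⟩)) (.N (.F ⟨⟨21,5,0,0,1,1,1⟩,[]⟩) (.F ⟨⟨10,4,2,2,0,3,4⟩,[]⟩)))) (.F ⟨⟨18,5,0,0,0,1,1⟩,[]⟩)) (.N (.F ⟨⟨18,5,0,0,1,1,1⟩,[]⟩) (.F ⟨⟨13,5,0,1,0,2,3⟩,[]⟩))) (.N (.N (.N (.F ⟨⟨17,5,0,0,1,1,1⟩,[]⟩) (.N (.F ⟨⟨20,5,0,0,1,1,1⟩,[]⟩)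 (.F ⟨⟨10,4,2,2,0,3,4⟩,[]⟩))) (.F ⟨⟨18,5,0,0,0,1,1⟩,[]⟩)) (.N (.N (.F ⟨⟨19,5,0,0,1,1,2⟩,[]⟩) (.F ⟨⟨10,4,2,2,0,3,4⟩,[]⟩)) (.F ⟨⟨10,5,1,0,0,1,1⟩,[]⟩))))) (.F ⟨⟨14,5,0,0,0,1,1⟩,[]⟩)) (.N (.F ⟨⟨8,5,1,0,3,3,4⟩,[]⟩) (.F ⟨⟨10,5,0,0,0,2,3⟩,[]⟩))) (.F ⟨⟨2,5,1,0,0,4,6⟩,[]⟩))))
    [true, false, true, true, true, false, false, true, true, false, true] = true := by decide +kernel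

theorem e5_249 : treeE 5 208 145 (rows0 5 [4, 3, 2, 1, 0])
    (.N (.N (.N (.F ⟨⟨6,5,1,0,1,2,3⟩,[]⟩) (.F ⟨⟨11,5,0,0,0,1,1⟩,[]⟩)) (.N (.F ⟨⟨6,5,1,0,2,2,3⟩,[]⟩) (.F ⟨⟨2,5,1,0,0,4,6⟩,[]⟩))) (.N (.N (.F ⟨⟨3,5,1,0,1,4,5⟩,[]⟩) (.F ⟨⟨11,5,0,0,0,1,1⟩,[]⟩)) (.N (.F ⟨⟨7,5,1,0,1,2,3⟩,[]⟩) (.F ⟨⟨5,5,1,0,0,1,1⟩,[]⟩))))
    [true, true, true, true, false, false, true, true, false, true] = true := by decide +kernel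

theorem e5_250 : treeE 5 208 145 (rows0 5 [4, 3, 2, 1, 0])
    (.F ⟨⟨4,5,0,0,0,1,1⟩,[]⟩)
    [true, false, true, true, false, true] = true := by decide +kernel

theorem e5_251 : treeE 5 208 145 (rows0 5 [4, 3, 2, 1, 0])
    (.N (.N (.F ⟨⟨5,5,0,0,1,1,2⟩,[]⟩) (.N (.F ⟨⟨5,5,0,0,1,1,1⟩,[]⟩) (.N (.F ⟨⟨3,5,0,0,4,2,3⟩,[]⟩) (.F ⟨⟨4,5,0,0,0,2,3⟩,[]⟩)))) (.F ⟨⟨2,5,0,0,0,1,2⟩,[]⟩))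
    [true, true, true, false, true] = true := by decide +kernel

theorem e5_252 : treeE 5 208 145 (rows0 5 [4, 3, 2, 1, 0])
    (.N (.F ⟨⟨2,5,0,0,1,1,2⟩,[]⟩) (.N (.N (.N (.F ⟨⟨4,5,0,0,1,2,3⟩,[]⟩) (.F ⟨⟨3,5,0,0,4,2,3⟩,[]⟩)) (.F ⟨⟨5,5,0,0,1,1,1⟩,[]⟩)) (.F ⟨⟨5,5,0,0,0,1,2⟩,[]⟩)))
    [false, false, false, true, true] = true := by decide +kernel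

theorem e5_253 : treeE 5 208 145 (rows0 5 [4, 3, 2, 1, 0])
    (.F ⟨⟨4,5,0,0,1,1,1⟩,[]⟩)
    [false, true, false, false, true, true] = true := by decide +kernel

theorem e5_254 : treeE 5 208 145 (rows0 5 [4, 3, 2, 1, 0])
    (.N (.N (.F ⟨⟨0,4,1,2,0,2,3⟩,[]⟩) (.F ⟨⟨8,5,0,0,0,1,1⟩,[]⟩)) (.N (.F ⟨⟨1,5,1,0,3,2,3⟩,[]⟩) (.N (.N (.N (.N (.N (.N (.F ⟨⟨4,5,1,3,4,3,5⟩,[]⟩) (.F ⟨⟨11,5,0,1,0,2,3⟩,[]⟩)) (.N (.F ⟨⟨14,5,0,0,1,1,1⟩,[]⟩) (.F ⟨⟨10,5,0,1,0,2,3⟩,[]⟩))) (.N (.N (.F ⟨⟨3,5,1,3,5,6,9⟩,[]⟩) (.F ⟨⟨14,5,0,0,0,1,1⟩,[]⟩)) (.N (.F ⟨⟨4,5,1,3,5,5,7⟩,[]⟩) (.F ⟨⟨6,5,0,1,0,2,3⟩,[]⟩)))) (.N (.N (.N (.F ⟨⟨2,5,2,4,5,8,12⟩,[]⟩) (.F ⟨⟨14,5,0,0,0,1,1⟩,[]⟩)) (.N (.F ⟨⟨4,5,1,3,5,5,7⟩,[]⟩) (.F ⟨⟨6,5,0,1,0,2,3⟩,[]⟩)))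 (.N (.N (.F ⟨⟨4,5,1,3,4,5,7⟩,[]⟩) (.F ⟨⟨6,5,0,1,0,2,3⟩,[]⟩)) (.N (.F ⟨⟨14,5,0,0,1,1,1⟩,[]⟩) (.F ⟨⟨6,0,2,1,0,2,3⟩,[]⟩))))) (.F ⟨⟨10,5,0,0,0,1,1⟩,[]⟩)) (.N (.N (.F ⟨⟨11,5,0,0,1,1,2⟩,[]⟩) (.N (.F ⟨⟨11,5,0,0,1,1,1⟩,[]⟩) (.F ⟨⟨7,5,0,0,0,3,4⟩,[]⟩))) (.F ⟨⟨8,5,0,0,0,1,2⟩,[]⟩)))))
    [false, false, true, true, false, false, true, true] = true := by decide +kernel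

end Pool.Agent.RTX
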