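import Pool.Agent.RTS.Exact

/-!
# RTS: windows of the initial state, part 9
-/

set_option autoImplicit false
set_option maxRecDepth 100000

namespace Pool.Agent.RTX

theorem e5_255 : treeE 5 208 145 (rows0 5 [4, 3, 2, 1, 0])
    (.F ⟨⟨1,5,1,0,4,2,3⟩,[]⟩)
    [false, false, true, false, true, true, false, false, true, true] = true := by decide +kernel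

theorem e5_256 : treeE 5 208 145 (rows0 5 [4, 3, 2, 1, 0])
    (.N (.F ⟨⟨8,5,0,0,1,2,3⟩,[]⟩) (.F ⟨⟨11,5,0,0,0,1,1⟩,[]⟩))
    [false, false, true, false, true, false, true, true, false, false, true, true] = true := by decide +kernel

theorem e5_257 : treeE 5 208 145 (rows0 5 [4, 3, 2, 1, 0])
    (.F ⟨⟨4,5,1,0,2,5,7⟩,[]⟩)
    [false, true, false, true, false, true, false, true, true, false, false, true, true] = true := by decide +kernel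

theorem e5_258 : treeE 5 208 145 (rows0 5 [4, 3, 2, 1, 0])
    (.N (.N (.N (.N (.N (.F ⟨⟨12,5,0,1,2,1,1⟩,[]⟩) (.F ⟨⟨14,5,0,1,0,2,3⟩,[]⟩)) (.N (.F ⟨⟨18,5,0,0,1,1,1⟩,[]⟩) (.F ⟨⟨10,5,0,1,0,4,5⟩,[]⟩))) (.N (.N (.F ⟨⟨8,5,0,1,2,5,7⟩,[]⟩) (.F ⟨⟨18,5,0,0,0,1,1⟩,[]⟩)) (.N (.F ⟨⟨18,5,0,0,1,1,1⟩,[]⟩) (.F ⟨⟨13,5,0,1,0,2,3⟩,[]⟩)))) (.N (.N (.N (.N (.F ⟨⟨8,5,0,1,2,5,7⟩,[]⟩) (.N (.N (.F ⟨⟨17,5,0,0,1,2,3⟩,[]⟩) (.F ⟨⟨15,5,0,1,0,3,4⟩,[]⟩)) (.N (.F ⟨⟨21,5,0,0,1,1,1⟩,[]⟩) (.N (.N (.N (.N (.F ⟨⟨17,5,0,1,3,1,1⟩,[]⟩) (.F ⟨⟨14,0,3,1,3,2,2⟩,[]⟩)) (.F ⟨⟨14,0,3,1,3,2,2⟩,[]⟩)) (.F ⟨⟨14,0,3,1,3,2,2⟩,[]⟩)) (.F ⟨⟨14,4,3,1,3,2,2⟩,[]⟩))))) (.F ⟨⟨18,5,0,0,0,1,1⟩,[]⟩)) (.N (.F ⟨⟨18,5,0,0,1,1,1⟩,[]⟩)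 (.F ⟨⟨13,5,0,1,0,2,3⟩,[]⟩))) (.N (.N (.N (.F ⟨⟨17,5,0,0,1,1,1⟩,[]⟩) (.N (.F ⟨⟨20,5,0,0,1,1,1⟩,[]⟩) (.N (.N (.N (.N (.F ⟨⟨14,5,1,2,4,2,4⟩,[]⟩) (.F ⟨⟨15,5,1,1,0,3,5⟩,[]⟩)) (.F ⟨⟨10,0,2,1,5,2,2⟩,[]⟩)) (.F ⟨⟨10,0,2,1,5,2,2⟩,[]⟩)) (.F ⟨⟨10,4,2,1,5,2,2⟩,[]⟩)))) (.F ⟨⟨18,5,0,0,0,1,1⟩,[]⟩)) (.N (.N (.F ⟨⟨19,5,0,0,1,1,2⟩,[]⟩) (.F ⟨⟨0,4,9,6,0,10,15⟩,[]⟩)) (.F ⟨⟨7,5,1,0,0,1,1⟩,[]⟩))))) (.F ⟨⟨14,5,0,0,0,1,1⟩,[]⟩))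
    [false, false, true, true, false, true, false, true, false, true, true, false, false, true, true] = true := by decide +kernel

theorem e5_259 : treeE 5 208 145 (rows0 5 [4, 3, 2, 1, 0])
    (.F ⟨⟨14,5,0,0,1,1,1⟩,[]⟩)
    [false, true, false, true, true, false, true, false, true, false, true, true, false, false, true, true] = true := by decide +kernel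

theorem e5_260 : treeE 5 208 145 (rows0 5 [4, 3, 2, 1, 0])
    (.N (.N (.N (.N (.F ⟨⟨15,5,0,1,2,1,1⟩,[]⟩) (.N (.N (.F ⟨⟨16,3,0,2,0,1,1⟩,[]⟩) (.N (.F ⟨⟨24,5,0,0,1,1,1⟩,[]⟩) (.F ⟨⟨19,5,0,1,0,2,3⟩,[]⟩))) (.N (.N (.F ⟨⟨14,2,0,4,0,2,3⟩,[]⟩) (.F ⟨⟨19,5,0,1,0,2,3⟩,[]⟩)) (.N (.F ⟨⟨24,5,0,0,1,1,1⟩,[]⟩) (.F ⟨⟨18,0,2,1,0,2,3⟩,[]⟩))))) (.F ⟨⟨17,5,0,1,0,2,3⟩,[]⟩)) (.N (.F ⟨⟨20,5,0,0,1,1,1⟩,[]⟩) (.F ⟨⟨16,5,0,1,0,2,3⟩,[]⟩))) (.N (.N (.N (.F ⟨⟨19,5,0,0,1,1,1⟩,[]⟩) (.F ⟨⟨13,5,0,2,6,3,3⟩,[]⟩)) (.F ⟨⟨20,5,0,0,0,1,1⟩,[]⟩)) (.N (.N (.F ⟨⟨21,5,0,0,1,1,2⟩,[]⟩) (.N (.F ⟨⟨20,5,0,0,1,1,1⟩,[]⟩) (.N (.F ⟨⟨18,5,0,0,1,1,1⟩,[]⟩) (.F ⟨⟨16,5,0,1,0,3,4⟩,[]⟩)))) (.F ⟨⟨14,5,0,0,0,1,1⟩,[]⟩))))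
    [false, false, false, true, true, false, true, true, false, true, false, true, false, true, true, false, false, true, true] = true := by decide +kernel

theorem e5_261 : treeE 5 208 145 (rows0 5 [4, 3, 2, 1, 0])
    (.N (.N (.N (.N (.F ⟨⟨18,5,0,0,1,1,1⟩,[]⟩) (.F ⟨⟨13,5,0,2,6,3,3⟩,[]⟩)) (.F ⟨⟨13,5,0,2,5,3,3⟩,[]⟩)) (.F ⟨⟨20,5,0,0,0,1,1⟩,[]⟩)) (.N (.N (.F ⟨⟨21,5,0,0,1,1,2⟩,[]⟩) (.N (.F ⟨⟨19,5,0,0,1,1,1⟩,[]⟩) (.F ⟨⟨16,5,0,1,0,3,4⟩,[]⟩))) (.F ⟨⟨15,5,0,0,0,1,1⟩,[]⟩)))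
    [false, true, false, false, true, true, false, true, true, false, true, false, true, false, true, true, false, false, true, true] = true := by decide +kernel

theorem e5_262 : treeE 5 208 145 (rows0 5 [4, 3, 2, 1, 0])
    (.N (.N (.N (.F ⟨⟨20,5,0,0,1,1,2⟩,[]⟩) (.F ⟨⟨16,5,0,1,0,3,4⟩,[]⟩)) (.N (.F ⟨⟨22,5,0,0,1,1,1⟩,[]⟩) (.F ⟨⟨14,4,2,2,0,3,4⟩,[]⟩))) (.F ⟨⟨20,5,0,0,0,1,1⟩,[]⟩))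
    [false, true, true, false, false, true, true, false, true, true, false, true, false, true, false, true, true, false, false, true, true] = true := by decide +kernel

theorem e5_263 : treeE 5 208 145 (rows0 5 [4, 3, 2, 1, 0])
    (.F ⟨⟨21,5,0,0,1,1,2⟩,[]⟩)
    [false, false, true, true, true, false, false, true, true, false, true, true, false, true, false, true, false, true, true, false, false, true, true] = true := by decide +kernel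

theorem e5_264 : treeE 5 208 145 (rows0 5 [4, 3, 2, 1, 0])
    (.N (.N (.N (.F ⟨⟨15,5,1,2,4,2,3⟩,[]⟩) (.F ⟨⟨25,5,0,0,0,1,1⟩,[]⟩)) (.N (.F ⟨⟨25,5,0,0,1,1,1⟩,[]⟩) (.F ⟨⟨16,5,1,1,0,3,5⟩,[]⟩))) (.N (.N (.N (.F ⟨⟨24,5,0,0,1,1,1⟩,[]⟩) (.N (.F ⟨⟨27,5,0,0,1,1,1⟩,[]⟩) (.N (.N (.N (.N (.F ⟨⟨22,5,1,3,6,3,4⟩,[]⟩) (.N (.N (.N (.N (.F ⟨⟨25,5,0,1,2,4,6⟩,[]⟩) (.N (.N (.F ⟨⟨33,5,0,0,1,2,3⟩,[]⟩) (.F ⟨⟨31,5,0,1,0,3,4⟩,[]⟩)) (.N (.F ⟨⟨37,5,0,0,1,1,1⟩,[]⟩) (.F ⟨⟨24,5,2,2,6,3,4⟩,[]⟩)))) (.F ⟨⟨34,5,0,0,0,1,1⟩,[]⟩)) (.N (.F ⟨⟨34,5,0,0,1,1,1⟩,[]⟩) (.F ⟨⟨27,5,0,1,0,2,4⟩,[]⟩))) (.N (.N (.N (.F ⟨⟨33,5,0,0,1,1,1⟩,[]⟩) (.F ⟨⟨27,5,0,1,4,2,2⟩,[]⟩)) (.F ⟨⟨34,5,0,0,0,1,1⟩,[]⟩)) (.N (.N (.F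 ⟨⟨35,5,0,0,1,1,2⟩,[]⟩) (.F ⟨⟨31,1,1,0,1,1,1⟩,[]⟩)) (.F ⟨⟨24,5,1,0,0,1,1⟩,[]⟩))))) (.F ⟨⟨16,5,2,1,0,9,14⟩,[]⟩)) (.N (.F ⟨⟨30,5,0,0,1,1,1⟩,[]⟩) (.N (.N (.N (.F ⟨⟨25,5,0,2,0,3,4⟩,[]⟩) (.N (.F ⟨⟨25,5,0,2,0,3,4⟩,[]⟩) (.N (.F ⟨⟨25,5,0,2,0,3,4⟩,[]⟩) (.N (.N (.F ⟨⟨37,5,0,0,1,1,2⟩,[]⟩) (.F ⟨⟨33,1,1,0,1,1,1⟩,[]⟩)) (.F ⟨⟨28,5,1,0,0,1,1⟩,[]⟩))))) (.F ⟨⟨32,5,0,0,0,1,1⟩,[]⟩)) (.F ⟨⟨29,5,0,0,0,1,1⟩,[]⟩)))) (.N (.N (.F ⟨⟨22,5,1,0,2,4,6⟩,[]⟩) (.F ⟨⟨30,5,0,0,0,1,1⟩,[]⟩)) (.N (.F ⟨⟨22,5,1,0,2,5,7⟩,[]⟩) (.F ⟨⟨26,5,0,0,0,1,1⟩,[]⟩)))))) (.F ⟨⟨25,5,0,0,0,1,1⟩,[]⟩)) (.N (.F ⟨⟨11,5,2,3,7,6,9⟩,[]⟩) (.F ⟨⟨12,5,3,1,0,5,8⟩,[]⟩))))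
    [false, true, false, true, true, true, false, false, true, true, false, true, true, false, true, false, true, false, true, true, false, false, true, true] = true := by decide +kernel

theorem e5_265 : treeE 5 208 145 (rows0 5 [4, 3, 2, 1, 0])
    (.N (.N (.N (.N (.N (.F ⟨⟨23,5,0,0,1,1,1⟩,[]⟩) (.N (.F ⟨⟨28,5,0,0,1,1,1⟩,[]⟩) (.N (.N (.N (.F ⟨⟨22,5,1,0,2,4,6⟩,[]⟩) (.N (.N (.F ⟨⟨21,5,2,0,1,11,16⟩,[]⟩) (.F ⟨⟨33,5,0,0,0,1,1⟩,[]⟩)) (.F ⟨⟨25,5,0,0,1,2,3⟩,[]⟩))) (.F ⟨⟨30,5,0,0,0,1,1⟩,[]⟩)) (.N (.F ⟨⟨22,5,1,0,2,5,7⟩,[]⟩) (.F ⟨⟨28,5,0,0,0,1,2⟩,[]⟩))))) (.N (.N (.F ⟨⟨24,5,0,0,1,2,3⟩,[]⟩) (.N (.N (.F ⟨⟨22,5,1,0,2,5,7⟩,[]⟩) (.F ⟨⟨29,5,0,0,1,1,1⟩,[]⟩)) (.F ⟨⟨29,5,0,0,0,1,2⟩,[]⟩)))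 (.N (.F ⟨⟨28,5,0,0,1,1,1⟩,[]⟩) (.N (.N (.N (.N (.F ⟨⟨24,5,0,1,3,1,1⟩,[]⟩) (.F ⟨⟨22,0,2,0,2,2,1⟩,[]⟩)) (.F ⟨⟨22,0,2,0,2,2,1⟩,[]⟩)) (.F ⟨⟨22,0,2,0,2,2,1⟩,[]⟩)) (.F ⟨⟨22,4,2,0,2,2,1⟩,[]⟩))))) (.F ⟨⟨25,5,0,0,0,1,1⟩,[]⟩)) (.N (.F ⟨⟨11,5,2,3,7,6,9⟩,[]⟩) (.F ⟨⟨12,5,3,1,0,5,8⟩,[]⟩))) (.N (.N (.F ⟨⟨11,5,2,3,5,6,9⟩,[]⟩) (.F ⟨⟨12,5,3,1,0,5,8⟩,[]⟩)) (.F ⟨⟨13,5,3,1,0,3,4⟩,[]⟩)))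
    [true, true, false, true, true, true, false, false, true, true, false, true, true, false, true, false, true, false, true, true, false, false, true, true] = true := by decide +kernel

theorem e5_266 : treeE 5 208 145 (rows0 5 [4, 3, 2, 1, 0])
    (.F ⟨⟨12,5,1,0,0,1,1⟩,[]⟩)
    [true, true, true, true, false, false, true, true, false, true, true, false, true, false, true, false, true, true, false, false, true, true] = true := by decide +kernel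

theorem e5_267 : treeE 5 208 145 (rows0 5 [4, 3, 2, 1, 0])
    (.F ⟨⟨16,5,0,0,0,1,1⟩,[]⟩)
    [true, false, true, true, false, true, true, false, true, false, true, false, true, true, false, false, true, true] = true := by decide +kernel

theorem e5_268 : treeE 5 208 145 (rows0 5 [4, 3, 2, 1, 0])
    (.F ⟨⟨13,5,0,0,0,1,1⟩,[]⟩)
    [true, true, true, false, true, true, false, true, false, true, false, true, true, false, false, true, true] = true := by decide +kernel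

theorem e5_269 : treeE 5 208 145 (rows0 5 [4, 3, 2, 1, 0])
    (.N (.N (.F ⟨⟨5,5,1,0,2,5,7⟩,[]⟩) (.F ⟨⟨14,5,0,0,0,1,1⟩,[]⟩)) (.N (.N (.F ⟨⟨15,5,0,0,1,1,2⟩,[]⟩) (.N (.F ⟨⟨15,5,0,0,1,1,1⟩,[]⟩) (.F ⟨⟨11,5,0,0,3,1,1⟩,[]⟩))) (.F ⟨⟨10,5,0,0,0,1,1⟩,[]⟩)))
    [true, true, true, false, true, false, true, false, true, true, false, false, true, true] = true := by decide +kernel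

theorem e5_270 : treeE 5 208 145 (rows0 5 [4, 3, 2, 1, 0])
    (.F ⟨⟨9,5,0,0,0,1,2⟩,[]⟩)
    [true, true, false, true, false, true, true, false, false, true, true] = true := by decide +kernel

theorem e5_271 : treeE 5 208 145 (rows0 5 [4, 3, 2, 1, 0])
    (.N (.F ⟨⟨4,5,1,0,2,2,3⟩,[]⟩) (.N (.N (.N (.N (.N (.N (.N (.F ⟨⟨9,5,0,1,2,1,1⟩,[]⟩) (.F ⟨⟨12,5,0,1,0,2,3⟩,[]⟩)) (.N (.F ⟨⟨15,5,0,0,1,1,1⟩,[]⟩) (.F ⟨⟨11,5,0,1,0,2,3⟩,[]⟩))) (.N (.N (.F ⟨⟨10,5,0,1,2,2,3⟩,[]⟩) (.F ⟨⟨11,5,0,1,0,2,3⟩,[]⟩)) (.N (.F ⟨⟨15,5,0,0,1,1,1⟩,[]⟩) (.F ⟨⟨10,5,0,1,0,2,3⟩,[]⟩)))) (.N (.N (.N (.N (.F ⟨⟨10,5,0,1,2,2,3⟩,[]⟩) (.N (.N (.F ⟨⟨14,5,0,0,1,2,3⟩,[]⟩) (.F ⟨⟨12,5,0,1,0,3,4⟩,[]⟩)) (.N (.F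 ⟨⟨18,5,0,0,1,1,1⟩,[]⟩) (.F ⟨⟨0,4,9,6,0,10,15⟩,[]⟩)))) (.F ⟨⟨11,5,0,1,0,2,3⟩,[]⟩)) (.N (.F ⟨⟨15,5,0,0,1,1,1⟩,[]⟩) (.F ⟨⟨10,5,0,1,0,2,3⟩,[]⟩))) (.N (.N (.N (.F ⟨⟨14,5,0,0,1,1,1⟩,[]⟩) (.N (.F ⟨⟨17,5,0,0,1,1,1⟩,[]⟩) (.F ⟨⟨0,4,9,6,0,10,15⟩,[]⟩))) (.F ⟨⟨15,5,0,0,0,1,1⟩,[]⟩)) (.N (.F ⟨⟨4,5,1,3,4,5,7⟩,[]⟩) (.F ⟨⟨7,5,1,0,0,1,1⟩,[]⟩))))) (.F ⟨⟨11,5,0,0,0,1,1⟩,[]⟩)) (.N (.N (.F ⟨⟨12,5,0,0,1,1,2⟩,[]⟩) (.N (.F ⟨⟨12,5,0,0,1,1,1⟩,[]⟩) (.N (.F ⟨⟨10,5,0,0,3,1,1⟩,[]⟩) (.F ⟨⟨11,5,0,0,0,2,3⟩,[]⟩)))) (.F ⟨⟨7,5,0,0,0,2,3⟩,[]⟩))) (.N (.N (.N (.N (.F ⟨⟨11,5,0,0,1,1,2⟩,[]⟩) (.N (.F ⟨⟨11,5,0,0,1,1,1⟩,[]⟩) (.F ⟨⟨14,5,0,0,0,1,2⟩,[]⟩))) (.N (.F ⟨⟨13,5,0,0,1,1,1⟩,[]⟩) (.N (.N (.F ⟨⟨8,5,0,0,1,2,3⟩,[]⟩)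 (.N (.F ⟨⟨8,5,0,0,8,2,3⟩,[]⟩) (.N (.F ⟨⟨8,5,0,0,8,2,3⟩,[]⟩) (.F ⟨⟨15,5,0,0,0,1,1⟩,[]⟩)))) (.F ⟨⟨3,5,1,0,0,7,10⟩,[]⟩)))) (.F ⟨⟨11,5,0,0,0,1,1⟩,[]⟩)) (.F ⟨⟨6,5,0,0,0,1,1⟩,[]⟩))))
    [true, true, false, true, true, false, false, true, true] = true := by decide +kernel

theorem e5_272 : treeE 5 208 145 (rows0 5 [4, 3, 2, 1, 0])
    (.N (.F ⟨⟨1,5,1,0,2,2,3⟩,[]⟩) (.N (.N (.N (.N (.F ⟨⟨4,5,1,0,1,3,5⟩,[]⟩) (.F ⟨⟨12,5,0,0,0,1,1⟩,[]⟩)) (.N (.F ⟨⟨4,5,1,0,2,5,7⟩,[]⟩) (.N (.N (.N (.F ⟨⟨5,5,1,0,2,5,7⟩,[]⟩) (.N (.N (.N (.F ⟨⟨16,5,0,0,1,1,1⟩,[]⟩) (.F ⟨⟨8,5,0,0,11,2,3⟩,[]⟩)) (.F ⟨⟨17,5,0,0,0,1,1⟩,[]⟩)) (.F ⟨⟨8,5,0,0,2,2,3⟩,[]⟩))) (.F ⟨⟨14,5,0,0,0,1,1⟩,[]⟩)) (.N (.N (.F ⟨⟨15,5,0,0,1,1,2⟩,[]⟩)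 (.F ⟨⟨12,5,0,0,3,1,1⟩,[]⟩)) (.F ⟨⟨12,5,0,0,0,1,2⟩,[]⟩))))) (.N (.N (.F ⟨⟨4,5,1,0,1,5,7⟩,[]⟩) (.N (.N (.N (.F ⟨⟨12,5,0,0,1,2,3⟩,[]⟩) (.F ⟨⟨11,5,0,0,3,1,1⟩,[]⟩)) (.F ⟨⟨13,5,0,0,1,1,1⟩,[]⟩)) (.F ⟨⟨13,5,0,0,0,1,2⟩,[]⟩))) (.N (.F ⟨⟨12,5,0,0,1,1,1⟩,[]⟩) (.N (.N (.N (.N (.F ⟨⟨6,4,1,2,0,2,3⟩,[]⟩) (.N (.F ⟨⟨4,0,3,3,0,4,6⟩,[]⟩) (.F ⟨⟨17,5,0,0,0,1,2⟩,[]⟩))) (.N (.F ⟨⟨16,5,0,0,1,1,1⟩,[]⟩) (.N (.F ⟨⟨8,5,1,0,2,3,4⟩,[]⟩) (.F ⟨⟨15,5,0,0,0,1,1⟩,[]⟩)))) (.N (.N (.F ⟨⟨11,5,1,0,2,2,3⟩,[]⟩) (.F ⟨⟨16,5,0,0,0,1,1⟩,[]⟩)) (.N (.F ⟨⟨11,5,1,0,2,2,3⟩,[]⟩) (.N (.N (.N (.F ⟨⟨7,5,2,2,0,3,4⟩,[]⟩) (.F ⟨⟨19,5,0,0,0,1,1⟩,[]⟩)) (.N (.F ⟨⟨13,5,1,0,3,3,4⟩,[]⟩) (.F ⟨⟨15,5,0,0,0,2,3⟩,[]⟩))) (.F ⟨⟨9,5,1,0,0,2,3⟩,[]⟩)))))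 (.F ⟨⟨4,5,2,0,0,2,3⟩,[]⟩))))) (.F ⟨⟨9,5,0,0,0,1,2⟩,[]⟩)))
    [false, false, true, true, true, false, false, true, true] = true := by decide +kernel

theorem e5_273 : treeE 5 208 145 (rows0 5 [4, 3, 2, 1, 0])
    (.F ⟨⟨4,5,1,0,2,2,3⟩,[]⟩)
    [false, true, false, true, true, true, false, false, true, true] = true := by decide +kernel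

theorem e5_274 : treeE 5 208 145 (rows0 5 [4, 3, 2, 1, 0])
    (.N (.N (.F ⟨⟨9,5,0,0,1,1,1⟩,[]⟩) (.N (.N (.F ⟨⟨10,5,0,0,1,1,1⟩,[]⟩) (.F ⟨⟨14,5,0,0,1,1,1⟩,[]⟩)) (.F ⟨⟨14,5,0,0,0,1,2⟩,[]⟩))) (.N (.F ⟨⟨13,5,0,0,1,1,1⟩,[]⟩) (.F ⟨⟨3,5,1,0,0,7,10⟩,[]⟩)))
    [false, false, false, true, true, false, true, true, true, false, false, true, true] = true := by decide +kernel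

theorem e5_275 : treeE 5 208 145 (rows0 5 [4, 3, 2, 1, 0])
    (.F ⟨⟨12,5,0,0,1,1,1⟩,[]⟩)
    [false, false, false, true, false, false, true, true, false, true, true, true, false, false, true, true] = true := by decide +kernel

theorem e5_276 : treeE 5 208 145 (rows0 5 [4, 3, 2, 1, 0])
    (.F ⟨⟨15,5,0,0,1,1,1⟩,[]⟩)
    [false, true, false, false, true, false, false, true, true, false, true, true, true, false, false, true, true] = true := by decide +kernel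

theorem e5_277 : treeE 5 208 145 (rows0 5 [4, 3, 2, 1, 0])
    (.F ⟨⟨6,4,1,2,0,2,3⟩,[]⟩)
    [false, false, false, false, true, true, false, false, true, false, false, true, true, false, true, true, true, false, false, true, true] = true := by decide +kernel

theorem e5_278 : treeE 5 208 145 (rows0 5 [4, 3, 2, 1, 0])
    (.N (.N (.F ⟨⟨8,4,2,4,0,4,6⟩,[]⟩) (.N (.F ⟨⟨11,5,1,3,7,5,8⟩,[]⟩) (.F ⟨⟨10,5,3,2,0,6,9⟩,[]⟩))) (.N (.N (.F ⟨⟨11,5,1,3,8,5,8⟩,[]⟩) (.F ⟨⟨10,5,3,2,0,6,9⟩,[]⟩)) (.N (.F ⟨⟨24,5,0,0,1,1,1⟩,[]⟩) (.N (.N (.N (.N (.F ⟨⟨21,0,0,2,1,2,1⟩,[]⟩) (.N (.F ⟨⟨21,0,0,2,1,2,1⟩,[]⟩) (.N (.F ⟨⟨21,0,0,2,1,2,1⟩,[]⟩) (.N (.F ⟨⟨21,0,0,2,1,2,1⟩,[]⟩) (.F ⟨⟨23,5,1,0,0,1,1⟩,[]⟩)))))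 (.F ⟨⟨27,5,0,0,0,1,1⟩,[]⟩)) (.N (.N (.F ⟨⟨28,5,0,0,1,1,2⟩,[]⟩) (.N (.F ⟨⟨28,5,0,0,1,1,1⟩,[]⟩) (.F ⟨⟨21,5,0,1,0,5,7⟩,[]⟩))) (.F ⟨⟨23,5,0,0,0,2,3⟩,[]⟩))) (.N (.N (.N (.N (.F ⟨⟨27,5,0,0,1,1,2⟩,[]⟩) (.F ⟨⟨21,5,0,1,0,5,7⟩,[]⟩)) (.N (.F ⟨⟨29,5,0,0,1,1,1⟩,[]⟩) (.N (.N (.F ⟨⟨24,5,0,0,1,2,3⟩,[]⟩) (.N (.F ⟨⟨24,5,0,0,8,2,3⟩,[]⟩) (.F ⟨⟨19,5,0,2,0,12,17⟩,[]⟩))) (.F ⟨⟨21,5,0,1,0,4,6⟩,[]⟩)))) (.F ⟨⟨27,5,0,0,0,1,1⟩,[]⟩)) (.F ⟨⟨22,5,0,0,0,1,1⟩,[]⟩))))))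
    [false, false, true, false, false, false, true, true, false, false, true, false, false, true, true, false, true, true, true, false, false, true, true] = true := by decide +kernel

theorem e5_279 : treeE 5 208 145 (rows0 5 [4, 3, 2, 1, 0])
    (.N (.N (.N (.F ⟨⟨11,5,1,3,5,5,8⟩,[]⟩) (.F ⟨⟨10,5,3,2,0,6,9⟩,[]⟩)) (.N (.F ⟨⟨24,5,0,0,1,1,1⟩,[]⟩) (.N (.N (.N (.N (.N (.F ⟨⟨25,5,0,0,1,1,1⟩,[]⟩) (.F ⟨⟨21,5,0,1,0,5,7⟩,[]⟩)) (.N (.F ⟨⟨29,5,0,0,1,1,1⟩,[]⟩) (.F ⟨⟨21,5,0,1,0,4,6⟩,[]⟩))) (.N (.N (.N (.F ⟨⟨28,5,0,0,1,1,1⟩,[]⟩) (.N (.F ⟨⟨31,5,0,0,1,1,1⟩,[]⟩) (.N (.N (.N (.N (.F ⟨⟨22,4,1,2,0,2,3⟩,[]⟩) (.N (.N (.N (.N (.F ⟨⟨24,4,2,4,0,4,6⟩,[]⟩) (.N (.F ⟨⟨27,5,1,3,7,5,8⟩,[]⟩)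 (.F ⟨⟨26,5,3,2,0,6,9⟩,[]⟩))) (.N (.N (.F ⟨⟨27,5,1,3,8,5,8⟩,[]⟩) (.F ⟨⟨26,5,3,2,0,6,9⟩,[]⟩)) (.N (.F ⟨⟨40,5,0,0,1,1,1⟩,[]⟩) (.N (.N (.F ⟨⟨30,1,1,2,1,4,5⟩,[]⟩) (.N (.F ⟨⟨30,1,1,2,1,4,5⟩,[]⟩) (.F ⟨⟨39,5,0,0,0,2,3⟩,[]⟩))) (.N (.N (.F ⟨⟨30,1,1,2,1,4,5⟩,[]⟩) (.F ⟨⟨43,5,0,0,0,1,1⟩,[]⟩)) (.F ⟨⟨38,5,0,0,0,1,1⟩,[]⟩)))))) (.N (.N (.N (.F ⟨⟨27,5,1,3,5,5,8⟩,[]⟩) (.F ⟨⟨26,5,3,2,0,6,9⟩,[]⟩)) (.N (.F ⟨⟨40,5,0,0,1,1,1⟩,[]⟩) (.N (.N (.F ⟨⟨30,1,1,2,1,4,5⟩,[]⟩) (.F ⟨⟨42,5,0,0,0,1,1⟩,[]⟩)) (.F ⟨⟨39,5,0,0,0,1,1⟩,[]⟩)))) (.N (.N (.F ⟨⟨31,5,1,1,2,3,5⟩,[]⟩) (.F ⟨⟨40,5,0,0,0,1,1⟩,[]⟩)) (.N (.F ⟨⟨40,5,0,0,1,1,1⟩,[]⟩) (.F ⟨⟨30,5,2,1,0,2,3⟩,[]⟩))))) (.F ⟨⟨36,5,0,0,0,1,2⟩,[]⟩))) (.F ⟨⟨24,5,2,0,7,3,4⟩,[]⟩))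 (.F ⟨⟨24,5,2,0,10,3,4⟩,[]⟩)) (.F ⟨⟨24,5,2,0,3,3,4⟩,[]⟩)))) (.F ⟨⟨29,5,0,0,0,1,1⟩,[]⟩)) (.N (.F ⟨⟨15,5,1,2,3,9,14⟩,[]⟩) (.N (.N (.N (.N (.F ⟨⟨22,4,1,2,0,2,3⟩,[]⟩) (.N (.F ⟨⟨23,5,2,2,0,3,4⟩,[]⟩) (.F ⟨⟨34,5,0,0,0,1,2⟩,[]⟩))) (.N (.F ⟨⟨33,5,0,0,1,1,1⟩,[]⟩) (.N (.F ⟨⟨26,5,1,0,2,2,2⟩,[]⟩) (.F ⟨⟨32,5,0,0,0,1,1⟩,[]⟩)))) (.N (.N (.F ⟨⟨26,5,1,0,2,2,4⟩,[]⟩) (.F ⟨⟨33,5,0,0,0,1,1⟩,[]⟩)) (.N (.F ⟨⟨33,5,0,0,1,1,1⟩,[]⟩) (.N (.N (.N (.F ⟨⟨23,5,2,2,0,3,4⟩,[]⟩) (.F ⟨⟨36,5,0,0,0,1,1⟩,[]⟩)) (.N (.F ⟨⟨30,5,1,0,3,3,4⟩,[]⟩) (.F ⟨⟨32,5,0,0,0,2,3⟩,[]⟩))) (.F ⟨⟨24,5,1,0,0,4,6⟩,[]⟩))))) (.F ⟨⟨21,5,3,1,0,3,4⟩,[]⟩))))) (.F ⟨⟨26,5,0,0,0,1,1⟩,[]⟩)) (.F ⟨⟨23,5,0,0,0,1,1⟩,[]⟩)))) (.N (.N (.F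 ⟨⟨15,5,1,1,2,3,5⟩,[]⟩) (.F ⟨⟨24,5,0,0,0,1,1⟩,[]⟩)) (.N (.F ⟨⟨24,5,0,0,1,1,1⟩,[]⟩) (.F ⟨⟨14,5,2,1,0,2,3⟩,[]⟩))))
    [true, false, true, false, false, false, true, true, false, false, true, false, false, true, true, false, true, true, true, false, false, true, true] = true := by decide +kernel

theorem e5_280 : treeE 5 208 145 (rows0 5 [4, 3, 2, 1, 0])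
    (.F ⟨⟨20,5,0,0,0,1,2⟩,[]⟩)
    [true, true, false, false, false, true, true, false, false, true, false, false, true, true, false, true, true, true, false, false, true, true] = true := by decide +kernel

theorem e5_281 : treeE 5 208 145 (rows0 5 [4, 3, 2, 1, 0])
    (.N (.F ⟨⟨19,5,0,0,1,1,1⟩,[]⟩) (.F ⟨⟨10,3,3,0,4,2,2⟩,[]⟩))
    [true, false, false, true, true, false, false, true, false, false, true, true, false, true, true, true, false, false, true, true] = true := by decide +kernel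

theorem e5_282 : treeE 5 208 145 (rows0 5 [4, 3, 2, 1, 0])
    (.N (.N (.F ⟨⟨14,5,0,0,3,1,1⟩,[]⟩) (.F ⟨⟨10,1,3,0,6,2,2⟩,[]⟩)) (.F ⟨⟨10,3,3,0,6,2,2⟩,[]⟩))
    [true, false, true, true, false, false, true, false, false, true, true, false, true, true, true, false, false, true, true] = true := by decide +kernel

theorem e5_283 : treeE 5 208 145 (rows0 5 [4, 3, 2, 1, 0])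
    (.F ⟨⟨1,5,9,0,11,10,15⟩,[]⟩)
    [true, true, true, false, false, true, false, false, true, true, false, true, true, true, false, false, true, true] = true := by decide +kernel

theorem e5_284 : treeE 5 208 145 (rows0 5 [4, 3, 2, 1, 0])
    (.F ⟨⟨13,5,0,0,0,1,1⟩,[]⟩)
    [true, false, true, false, false, true, true, false, true, true, true, false, false, true, true] = true := by decide +kernel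

theorem e5_285 : treeE 5 208 145 (rows0 5 [4, 3, 2, 1, 0])
    (.N (.F ⟨⟨4,5,1,0,1,5,7⟩,[]⟩) (.N (.N (.N (.N (.F ⟨⟨6,4,1,2,0,2,3⟩,[]⟩) (.N (.F ⟨⟨7,5,2,2,0,3,4⟩,[]⟩) (.F ⟨⟨18,5,0,0,0,1,2⟩,[]⟩))) (.N (.F ⟨⟨17,5,0,0,1,1,1⟩,[]⟩) (.N (.F ⟨⟨10,5,1,0,2,2,2⟩,[]⟩) (.F ⟨⟨16,5,0,0,0,1,1⟩,[]⟩)))) (.N (.N (.F ⟨⟨10,5,1,0,2,2,4⟩,[]⟩) (.F ⟨⟨17,5,0,0,0,1,1⟩,[]⟩)) (.N (.F ⟨⟨12,5,1,0,2,2,3⟩,[]⟩) (.N (.N (.F ⟨⟨3,5,3,0,5,6,9⟩,[]⟩) (.N (.N (.F ⟨⟨21,5,0,0,1,1,2⟩,[]⟩) (.N (.F ⟨⟨21,5,0,0,1,1,1⟩,[]⟩) (.N (.F ⟨⟨19,5,0,0,3,1,1⟩,[]⟩) (.F ⟨⟨20,5,0,0,0,2,3⟩,[]⟩)))) (.F ⟨⟨16,5,0,0,0,2,3⟩,[]⟩))) (.F ⟨⟨8,5,1,0,0,4,6⟩,[]⟩))))) (.F ⟨⟨5,5,2,0,0,2,3⟩,[]⟩)))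
    [true, true, false, false, true, true, false, true, true, true, false, false, true, true] = true := by decide +kernel

theorem e5_286 : treeE 5 208 145 (rows0 5 [4, 3, 2, 1, 0])
    (.F ⟨⟨10,5,0,0,0,1,1⟩,[]⟩)
    [true, false, true, true, false, true, true, true, false, false, true, true] = true := by decide +kernel

theorem e5_287 : treeE 5 208 145 (rows0 5 [4, 3, 2, 1, 0])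
    (.F ⟨⟨7,5,0,0,0,1,1⟩,[]⟩)
    [true, true, true, false, true, true, true, false, false, true, true] = true := by decide +kernel

theorem e5_288 : treeE 5 208 145 (rows0 5 [4, 3, 2, 1, 0])
    (.N (.N (.F ⟨⟨4,5,1,0,1,2,3⟩,[]⟩) (.F ⟨⟨8,5,0,0,0,1,1⟩,[]⟩)) (.N (.F ⟨⟨5,5,1,0,1,2,3⟩,[]⟩) (.F ⟨⟨0,5,2,0,0,2,3⟩,[]⟩)))
    [true, true, true, true, false, false, true, true] = true := by decide +kernel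

theorem e5_289 : treeE 5 208 145 (rows0 5 [4, 3, 2, 1, 0])
    (.N (.F ⟨⟨2,5,0,0,1,2,3⟩,[]⟩) (.N (.N (.F ⟨⟨3,5,0,0,4,2,3⟩,[]⟩) (.F ⟨⟨6,5,0,0,1,1,1⟩,[]⟩)) (.F ⟨⟨6,5,0,0,0,1,2⟩,[]⟩)))
    [false, false, true, false, true, true] = true := by decide +kernel

theorem e5_290 : treeE 5 208 145 (rows0 5 [4, 3, 2, 1, 0])
    (.F ⟨⟨6,5,0,0,1,1,2⟩,[]⟩)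
    [false, false, true, false, true, false, true, true] = true := by decide +kernel

theorem e5_291 : treeE 5 208 145 (rows0 5 [4, 3, 2, 1, 0])
    (.N (.N (.N (.F ⟨⟨0,4,1,2,0,2,3⟩,[]⟩) (.F ⟨⟨10,5,0,0,0,1,1⟩,[]⟩)) (.N (.F ⟨⟨1,5,1,0,4,2,3⟩,[]⟩) (.N (.N (.N (.N (.F ⟨⟨3,4,2,4,0,4,6⟩,[]⟩) (.N (.N (.F ⟨⟨4,5,1,3,7,6,9⟩,[]⟩) (.F ⟨⟨16,5,0,0,0,1,1⟩,[]⟩)) (.N (.F ⟨⟨4,5,1,3,7,5,8⟩,[]⟩) (.F ⟨⟨8,5,0,1,0,2,3⟩,[]⟩)))) (.N (.N (.N (.F ⟨⟨4,5,1,3,5,6,9⟩,[]⟩) (.F ⟨⟨16,5,0,0,0,1,1⟩,[]⟩)) (.N (.F ⟨⟨4,5,1,3,7,5,8⟩,[]⟩) (.F ⟨⟨8,5,0,1,0,2,3⟩,[]⟩))) (.N (.N (.F ⟨⟨4,5,1,3,5,5,8⟩,[]⟩) (.F ⟨⟨8,5,0,1,0,2,3⟩,[]⟩)) (.N (.F ⟨⟨16,5,0,0,1,1,1⟩,[]⟩) (.F ⟨⟨5,5,3,1,0,3,5⟩,[]⟩))))) (.F ⟨⟨12,5,0,0,0,1,1⟩,[]⟩))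 (.N (.F ⟨⟨3,5,2,0,3,4,6⟩,[]⟩) (.F ⟨⟨10,5,0,0,0,1,2⟩,[]⟩))))) (.N (.N (.F ⟨⟨1,5,1,0,8,2,3⟩,[]⟩) (.N (.N (.F ⟨⟨3,5,2,0,3,4,6⟩,[]⟩) (.N (.F ⟨⟨4,5,1,0,4,5,8⟩,[]⟩) (.N (.N (.N (.F ⟨⟨2,0,5,5,0,6,10⟩,[]⟩) (.F ⟨⟨16,5,0,0,0,1,1⟩,[]⟩)) (.N (.F ⟨⟨7,5,1,0,4,5,8⟩,[]⟩) (.F ⟨⟨12,5,0,0,0,3,3⟩,[]⟩))) (.N (.N (.F ⟨⟨7,5,1,0,2,5,7⟩,[]⟩) (.F ⟨⟨16,5,0,0,0,1,1⟩,[]⟩)) (.N (.F ⟨⟨7,5,1,0,2,6,8⟩,[]⟩) (.F ⟨⟨12,5,0,0,0,1,1⟩,[]⟩)))))) (.F ⟨⟨11,5,0,0,0,1,2⟩,[]⟩))) (.N (.F ⟨⟨10,5,0,0,1,1,1⟩,[]⟩) (.N (.N (.N (.F ⟨⟨2,0,5,5,0,6,10⟩,[]⟩) (.F ⟨⟨13,5,0,0,0,1,1⟩,[]⟩)) (.N (.F ⟨⟨7,5,1,0,3,3,4⟩,[]⟩) (.F ⟨⟨9,5,0,0,0,2,3⟩,[]⟩))) (.N (.N (.F ⟨⟨7,5,1,0,2,3,4⟩,[]⟩) (.F ⟨⟨13,5,0,0,0,1,1⟩,[]⟩)) (.N (.F ⟨⟨7,5,1,0,2,3,4⟩,[]⟩)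 (.F ⟨⟨9,5,0,0,0,1,2⟩,[]⟩)))))))
    [false, true, false, true, false, true, false, true, true] = true := by decide +kernel

theorem e5_292 : treeE 5 208 145 (rows0 5 [4, 3, 2, 1, 0])
    (.N (.N (.F ⟨⟨1,5,1,0,5,2,3⟩,[]⟩) (.N (.N (.N (.F ⟨⟨3,5,2,0,3,4,6⟩,[]⟩) (.N (.F ⟨⟨4,5,1,0,4,5,8⟩,[]⟩) (.N (.N (.N (.F ⟨⟨7,5,1,0,2,5,7⟩,[]⟩) (.N (.N (.F ⟨⟨6,5,2,0,1,13,19⟩,[]⟩) (.F ⟨⟨19,5,0,0,0,1,1⟩,[]⟩)) (.F ⟨⟨9,5,0,0,3,2,3⟩,[]⟩))) (.F ⟨⟨16,5,0,0,0,1,1⟩,[]⟩)) (.N (.F ⟨⟨7,5,1,0,2,6,8⟩,[]⟩) (.F ⟨⟨14,5,0,0,0,1,2⟩,[]⟩))))) (.N (.N (.F ⟨⟨4,5,1,0,2,5,8⟩,[]⟩) (.N (.N (.F ⟨⟨7,5,1,0,2,6,8⟩,[]⟩) (.F ⟨⟨13,5,0,0,2,1,1⟩,[]⟩)) (.F ⟨⟨15,5,0,0,0,1,2⟩,[]⟩))) (.N (.F ⟨⟨14,5,0,0,1,1,1⟩,[]⟩) (.N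 (.N (.N (.N (.F ⟨⟨8,4,1,2,0,2,3⟩,[]⟩) (.F ⟨⟨18,5,0,0,0,1,1⟩,[]⟩)) (.N (.F ⟨⟨18,5,0,0,1,1,1⟩,[]⟩) (.N (.N (.F ⟨⟨3,0,7,8,0,10,15⟩,[]⟩) (.F ⟨⟨20,5,0,0,0,1,1⟩,[]⟩)) (.F ⟨⟨17,5,0,0,0,1,1⟩,[]⟩)))) (.N (.N (.F ⟨⟨13,5,1,0,2,2,3⟩,[]⟩) (.F ⟨⟨18,5,0,0,0,1,1⟩,[]⟩)) (.N (.F ⟨⟨13,5,1,0,2,2,3⟩,[]⟩) (.F ⟨⟨5,1,5,0,5,3,4⟩,[]⟩)))) (.N (.N (.N (.F ⟨⟨13,5,1,0,1,2,3⟩,[]⟩) (.F ⟨⟨18,5,0,0,0,1,1⟩,[]⟩)) (.N (.F ⟨⟨13,5,1,0,2,2,3⟩,[]⟩) (.F ⟨⟨11,5,1,0,0,2,3⟩,[]⟩))) (.N (.N (.F ⟨⟨9,5,2,0,1,5,8⟩,[]⟩) (.F ⟨⟨18,5,0,0,0,1,1⟩,[]⟩)) (.F ⟨⟨7,5,2,0,0,2,3⟩,[]⟩))))))) (.F ⟨⟨11,5,0,0,0,1,2⟩,[]⟩))) (.N (.F ⟨⟨10,5,0,0,1,1,1⟩,[]⟩) (.N (.N (.N (.F ⟨⟨7,5,1,0,2,3,4⟩,[]⟩) (.N (.N (.F ⟨⟨6,5,2,0,1,8,12⟩,[]⟩)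 (.F ⟨⟨15,5,0,0,0,1,1⟩,[]⟩)) (.N (.F ⟨⟨6,5,2,0,1,7,11⟩,[]⟩) (.N (.N (.N (.N (.F ⟨⟨8,4,1,2,0,2,3⟩,[]⟩) (.F ⟨⟨5,3,5,0,5,3,4⟩,[]⟩)) (.F ⟨⟨5,2,5,0,10,3,4⟩,[]⟩)) (.F ⟨⟨5,1,5,0,8,3,4⟩,[]⟩)) (.F ⟨⟨7,5,2,0,0,2,3⟩,[]⟩))))) (.F ⟨⟨12,5,0,0,0,1,1⟩,[]⟩)) (.N (.F ⟨⟨7,5,1,0,2,3,4⟩,[]⟩) (.F ⟨⟨10,5,0,0,0,1,2⟩,[]⟩)))))
    [false, true, true, false, true, false, true, false, true, true] = true := by decide +kernel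

end Pool.Agent.RTX
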