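import Pool.Agent.RTS.E5_0
import Pool.Agent.RTS.E5_1
import Pool.Agent.RTS.E5_2
import Pool.Agent.RTS.E5_3
import Pool.Agent.RTS.E5_4
import Pool.Agent.RTS.E5_5
import Pool.Agent.RTS.E5_6
import Pool.Agent.RTS.E5_7
import Pool.Agent.RTS.E5_8
import Pool.Agent.RTS.E5_9
import Pool.Agent.RTS.E5_10
import Pool.Agent.RTS.E5_11

/-!
# RTS: all paths from the initial state
-/

set_option autoImplicit false
set_option maxRecDepth 100000

namespace Pool.Agent.RTX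

theorem e5_all : GoodE 5 208 145 (rows0 5 [4, 3, 2, 1, 0]) [] :=
  (goodE_N (goodE_N (goodE_N (goodE_N (goodE_of _ _ e5_0) (goodE_N (goodE_N (goodE_N (goodE_of _ _ e5_1) (goodE_of _ _ e5_2)) (goodE_of _ _ e5_3)) (goodE_of _ _ e5_4))) (goodE_N (goodE_N (goodE_of _ _ e5_5) (goodE_N (goodE_N (goodE_N (goodE_N (goodE_of _ _ e5_6) (goodE_N (goodE_N (goodE_N (goodE_of _ _ e5_7) (goodE_N (goodE_of _ _ e5_8) (goodE_N (goodE_N (goodE_of _ _ e5_9) (goodE_of _ _ e5_10)) (goodE_of _ _ e5_11)))) (goodE_of _ _ e5_12)) (goodE_of _ _ e5_13))) (goodE_N (goodE_N (goodE_of _ _ e5_14) (goodE_N (goodE_N (goodE_of _ _ e5_15) (goodE_N (goodE_N (goodE_N (goodE_of _ _ e5_16) (goodE_N (goodE_N (goodE_N (goodE_of _ _ e5_17) (goodE_N (goodE_of _ _ e5_18) (goodE_N (goodE_N (goodE_N (goodE_N (goodE_of _ _ e5_19) (goodE_N (goodE_N (goodE_of _ _ e5_20) (goodE_of _ _ e5_21)) (goodE_of _ _ e5_22))) (goodE_of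 _ _ e5_23)) (goodE_of _ _ e5_24)) (goodE_of _ _ e5_25)))) (goodE_of _ _ e5_26)) (goodE_of _ _ e5_27))) (goodE_of _ _ e5_28)) (goodE_of _ _ e5_29))) (goodE_of _ _ e5_30))) (goodE_of _ _ e5_31))) (goodE_N (goodE_N (goodE_N (goodE_of _ _ e5_32) (goodE_of _ _ e5_33)) (goodE_of _ _ e5_34)) (goodE_of _ _ e5_35))) (goodE_of _ _ e5_36))) (goodE_N (goodE_N (goodE_N (goodE_N (goodE_of _ _ e5_37) (goodE_N (goodE_N (goodE_N (goodE_of _ _ e5_38) (goodE_N (goodE_of _ _ e5_39) (goodE_N (goodE_N (goodE_of _ _ e5_40) (goodE_N (goodE_of _ _ e5_41) (goodE_N (goodE_N (goodE_N (goodE_of _ _ e5_42) (goodE_N (goodE_of _ _ e5_43) (goodE_N (goodE_of _ _ e5_44) (goodE_N (goodE_N (goodE_of _ _ e5_45) (goodE_N (goodE_of _ _ e5_46) (goodE_of _ _ e5_47))) (goodE_of _ _ e5_48))))) (goodE_of _ _ e5_49)) (goodE_of _ _ e5_50)))) (goodE_of _ _ e5_51)))) (goodE_of _ _ e5_52)) (goodE_of _ _ e5_53))) (goodE_N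 (goodE_N (goodE_of _ _ e5_54) (goodE_N (goodE_N (goodE_of _ _ e5_55) (goodE_N (goodE_N (goodE_N (goodE_of _ _ e5_56) (goodE_N (goodE_N (goodE_N (goodE_of _ _ e5_57) (goodE_N (goodE_of _ _ e5_58) (goodE_N (goodE_N (goodE_N (goodE_N (goodE_of _ _ e5_59) (goodE_N (goodE_N (goodE_of _ _ e5_60) (goodE_of _ _ e5_61)) (goodE_of _ _ e5_62))) (goodE_of _ _ e5_63)) (goodE_of _ _ e5_64)) (goodE_of _ _ e5_65)))) (goodE_of _ _ e5_66)) (goodE_of _ _ e5_67))) (goodE_of _ _ e5_68)) (goodE_of _ _ e5_69))) (goodE_of _ _ e5_70))) (goodE_of _ _ e5_71))) (goodE_of _ _ e5_72)) (goodE_of _ _ e5_73)))) (goodE_N (goodE_N (goodE_N (goodE_of _ _ e5_74) (goodE_N (goodE_of _ _ e5_75) (goodE_N (goodE_N (goodE_N (goodE_N (goodE_of _ _ e5_76) (goodE_N (goodE_of _ _ e5_77) (goodE_N (goodE_of _ _ e5_78) (goodE_of _ _ e5_79)))) (goodE_N (goodE_N (goodE_of _ _ e5_80) (goodE_N (goodE_of _ _ e5_81) (goodE_N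 (goodE_N (goodE_N (goodE_of _ _ e5_82) (goodE_N (goodE_of _ _ e5_83) (goodE_N (goodE_of _ _ e5_84) (goodE_N (goodE_N (goodE_of _ _ e5_85) (goodE_N (goodE_of _ _ e5_86) (goodE_N (goodE_N (goodE_N (goodE_of _ _ e5_87) (goodE_N (goodE_N (goodE_N (goodE_of _ _ e5_88) (goodE_N (goodE_of _ _ e5_89) (goodE_N (goodE_N (goodE_N (goodE_N (goodE_of _ _ e5_90) (goodE_N (goodE_N (goodE_of _ _ e5_91) (goodE_of _ _ e5_92)) (goodE_of _ _ e5_93))) (goodE_of _ _ e5_94)) (goodE_of _ _ e5_95)) (goodE_of _ _ e5_96)))) (goodE_of _ _ e5_97)) (goodE_of _ _ e5_98))) (goodE_of _ _ e5_99)) (goodE_of _ _ e5_100)))) (goodE_of _ _ e5_101))))) (goodE_of _ _ e5_102)) (goodE_of _ _ e5_103)))) (goodE_of _ _ e5_104))) (goodE_N (goodE_of _ _ e5_105) (goodE_N (goodE_N (goodE_N (goodE_of _ _ e5_106) (goodE_of _ _ e5_107)) (goodE_of _ _ e5_108)) (goodE_of _ _ e5_109)))) (goodE_of _ _ e5_110)))) (goodE_N (goodE_N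 (goodE_of _ _ e5_111) (goodE_N (goodE_N (goodE_of _ _ e5_112) (goodE_N (goodE_N (goodE_N (goodE_N (goodE_of _ _ e5_113) (goodE_N (goodE_of _ _ e5_114) (goodE_of _ _ e5_115))) (goodE_of _ _ e5_116)) (goodE_of _ _ e5_117)) (goodE_of _ _ e5_118))) (goodE_N (goodE_N (goodE_N (goodE_N (goodE_of _ _ e5_119) (goodE_N (goodE_of _ _ e5_120) (goodE_of _ _ e5_121))) (goodE_N (goodE_N (goodE_of _ _ e5_122) (goodE_of _ _ e5_123)) (goodE_of _ _ e5_124))) (goodE_N (goodE_of _ _ e5_125) (goodE_N (goodE_N (goodE_N (goodE_of _ _ e5_126) (goodE_N (goodE_of _ _ e5_127) (goodE_N (goodE_of _ _ e5_128) (goodE_N (goodE_N (goodE_of _ _ e5_129) (goodE_N (goodE_of _ _ e5_130) (goodE_of _ _ e5_131))) (goodE_of _ _ e5_132))))) (goodE_of _ _ e5_133)) (goodE_of _ _ e5_134)))) (goodE_of _ _ e5_135)))) (goodE_of _ _ e5_136))) (goodE_N (goodE_N (goodE_of _ _ e5_137) (goodE_N (goodE_N (goodE_N (goodE_N (goodE_of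 _ _ e5_138) (goodE_N (goodE_of _ _ e5_139) (goodE_N (goodE_N (goodE_N (goodE_of _ _ e5_140) (goodE_N (goodE_of _ _ e5_141) (goodE_N (goodE_of _ _ e5_142) (goodE_of _ _ e5_143)))) (goodE_of _ _ e5_144)) (goodE_of _ _ e5_145)))) (goodE_of _ _ e5_146)) (goodE_N (goodE_of _ _ e5_147) (goodE_N (goodE_of _ _ e5_148) (goodE_of _ _ e5_149)))) (goodE_N (goodE_of _ _ e5_150) (goodE_of _ _ e5_151)))) (goodE_N (goodE_N (goodE_N (goodE_N (goodE_of _ _ e5_152) (goodE_N (goodE_of _ _ e5_153) (goodE_N (goodE_N (goodE_N (goodE_of _ _ e5_154) (goodE_N (goodE_of _ _ e5_155) (goodE_N (goodE_of _ _ e5_156) (goodE_of _ _ e5_157)))) (goodE_of _ _ e5_158)) (goodE_of _ _ e5_159)))) (goodE_of _ _ e5_160)) (goodE_of _ _ e5_161)) (goodE_of _ _ e5_162))))) (goodE_N (goodE_N (goodE_N (goodE_N (goodE_of _ _ e5_163) (goodE_N (goodE_of _ _ e5_164) (goodE_N (goodE_of _ _ e5_165) (goodE_N (goodE_N (goodE_N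 (goodE_of _ _ e5_166) (goodE_N (goodE_of _ _ e5_167) (goodE_N (goodE_N (goodE_N (goodE_of _ _ e5_168) (goodE_of _ _ e5_169)) (goodE_of _ _ e5_170)) (goodE_of _ _ e5_171)))) (goodE_of _ _ e5_172)) (goodE_of _ _ e5_173))))) (goodE_N (goodE_N (goodE_N (goodE_of _ _ e5_174) (goodE_of _ _ e5_175)) (goodE_N (goodE_N (goodE_N (goodE_of _ _ e5_176) (goodE_of _ _ e5_177)) (goodE_of _ _ e5_178)) (goodE_N (goodE_of _ _ e5_179) (goodE_N (goodE_N (goodE_N (goodE_of _ _ e5_180) (goodE_N (goodE_of _ _ e5_181) (goodE_N (goodE_N (goodE_N (goodE_of _ _ e5_182) (goodE_of _ _ e5_183)) (goodE_of _ _ e5_184)) (goodE_of _ _ e5_185)))) (goodE_of _ _ e5_186)) (goodE_of _ _ e5_187))))) (goodE_of _ _ e5_188))) (goodE_N (goodE_N (goodE_of _ _ e5_189) (goodE_N (goodE_N (goodE_N (goodE_of _ _ e5_190) (goodE_N (goodE_N (goodE_N (goodE_of _ _ e5_191) (goodE_N (goodE_of _ _ e5_192) (goodE_N (goodE_N (goodE_N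 (goodE_N (goodE_of _ _ e5_193) (goodE_N (goodE_N (goodE_of _ _ e5_194) (goodE_of _ _ e5_195)) (goodE_of _ _ e5_196))) (goodE_of _ _ e5_197)) (goodE_of _ _ e5_198)) (goodE_of _ _ e5_199)))) (goodE_of _ _ e5_200)) (goodE_N (goodE_N (goodE_of _ _ e5_201) (goodE_N (goodE_of _ _ e5_202) (goodE_of _ _ e5_203))) (goodE_N (goodE_N (goodE_of _ _ e5_204) (goodE_of _ _ e5_205)) (goodE_of _ _ e5_206))))) (goodE_N (goodE_N (goodE_of _ _ e5_207) (goodE_N (goodE_of _ _ e5_208) (goodE_N (goodE_of _ _ e5_209) (goodE_N (goodE_N (goodE_of _ _ e5_210) (goodE_of _ _ e5_211)) (goodE_of _ _ e5_212))))) (goodE_of _ _ e5_213))) (goodE_of _ _ e5_214))) (goodE_N (goodE_N (goodE_N (goodE_of _ _ e5_215) (goodE_N (goodE_N (goodE_N (goodE_of _ _ e5_216) (goodE_N (goodE_of _ _ e5_217) (goodE_N (goodE_of _ _ e5_218) (goodE_of _ _ e5_219)))) (goodE_of _ _ e5_220)) (goodE_N (goodE_N (goodE_of _ _ e5_221)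 (goodE_N (goodE_N (goodE_N (goodE_of _ _ e5_222) (goodE_N (goodE_of _ _ e5_223) (goodE_N (goodE_N (goodE_N (goodE_N (goodE_of _ _ e5_224) (goodE_N (goodE_N (goodE_N (goodE_of _ _ e5_225) (goodE_N (goodE_of _ _ e5_226) (goodE_N (goodE_N (goodE_of _ _ e5_227) (goodE_N (goodE_of _ _ e5_228) (goodE_N (goodE_N (goodE_N (goodE_of _ _ e5_229) (goodE_N (goodE_of _ _ e5_230) (goodE_N (goodE_of _ _ e5_231) (goodE_N (goodE_N (goodE_of _ _ e5_232) (goodE_N (goodE_of _ _ e5_233) (goodE_of _ _ e5_234))) (goodE_of _ _ e5_235))))) (goodE_of _ _ e5_236)) (goodE_of _ _ e5_237)))) (goodE_of _ _ e5_238)))) (goodE_of _ _ e5_239)) (goodE_of _ _ e5_240))) (goodE_of _ _ e5_241)) (goodE_of _ _ e5_242)) (goodE_of _ _ e5_243)))) (goodE_of _ _ e5_244)) (goodE_of _ _ e5_245))) (goodE_N (goodE_N (goodE_N (goodE_of _ _ e5_246) (goodE_of _ _ e5_247)) (goodE_of _ _ e5_248)) (goodE_of _ _ e5_249))))) (goodE_of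 _ _ e5_250)) (goodE_of _ _ e5_251)))) (goodE_N (goodE_N (goodE_N (goodE_of _ _ e5_252) (goodE_N (goodE_of _ _ e5_253) (goodE_N (goodE_N (goodE_of _ _ e5_254) (goodE_N (goodE_N (goodE_of _ _ e5_255) (goodE_N (goodE_N (goodE_of _ _ e5_256) (goodE_N (goodE_of _ _ e5_257) (goodE_N (goodE_N (goodE_of _ _ e5_258) (goodE_N (goodE_of _ _ e5_259) (goodE_N (goodE_N (goodE_N (goodE_of _ _ e5_260) (goodE_N (goodE_of _ _ e5_261) (goodE_N (goodE_of _ _ e5_262) (goodE_N (goodE_N (goodE_of _ _ e5_263) (goodE_N (goodE_of _ _ e5_264) (goodE_of _ _ e5_265))) (goodE_of _ _ e5_266))))) (goodE_of _ _ e5_267)) (goodE_of _ _ e5_268)))) (goodE_of _ _ e5_269)))) (goodE_of _ _ e5_270))) (goodE_of _ _ e5_271))) (goodE_N (goodE_N (goodE_of _ _ e5_272) (goodE_N (goodE_of _ _ e5_273) (goodE_N (goodE_N (goodE_N (goodE_of _ _ e5_274) (goodE_N (goodE_N (goodE_N (goodE_of _ _ e5_275) (goodE_N (goodE_of _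 _ e5_276) (goodE_N (goodE_N (goodE_N (goodE_N (goodE_of _ _ e5_277) (goodE_N (goodE_N (goodE_of _ _ e5_278) (goodE_of _ _ e5_279)) (goodE_of _ _ e5_280))) (goodE_of _ _ e5_281)) (goodE_of _ _ e5_282)) (goodE_of _ _ e5_283)))) (goodE_of _ _ e5_284)) (goodE_of _ _ e5_285))) (goodE_of _ _ e5_286)) (goodE_of _ _ e5_287)))) (goodE_of _ _ e5_288))))) (goodE_N (goodE_N (goodE_of _ _ e5_289) (goodE_N (goodE_N (goodE_of _ _ e5_290) (goodE_N (goodE_of _ _ e5_291) (goodE_N (goodE_of _ _ e5_292) (goodE_of _ _ e5_293)))) (goodE_N (goodE_N (goodE_of _ _ e5_294) (goodE_N (goodE_N (goodE_of _ _ e5_295) (goodE_N (goodE_N (goodE_of _ _ e5_296) (goodE_N (goodE_of _ _ e5_297) (goodE_N (goodE_N (goodE_of _ _ e5_298) (goodE_N (goodE_of _ _ e5_299) (goodE_N (goodE_N (goodE_N (goodE_of _ _ e5_300) (goodE_N (goodE_of _ _ e5_301) (goodE_N (goodE_of _ _ e5_302) (goodE_N (goodE_N (goodE_of _ _ e5_303)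 (goodE_N (goodE_of _ _ e5_304) (goodE_of _ _ e5_305))) (goodE_of _ _ e5_306))))) (goodE_of _ _ e5_307)) (goodE_of _ _ e5_308)))) (goodE_of _ _ e5_309)))) (goodE_of _ _ e5_310))) (goodE_of _ _ e5_311))) (goodE_N (goodE_N (goodE_of _ _ e5_312) (goodE_N (goodE_of _ _ e5_313) (goodE_N (goodE_N (goodE_N (goodE_of _ _ e5_314) (goodE_N (goodE_of _ _ e5_315) (goodE_of _ _ e5_316))) (goodE_of _ _ e5_317)) (goodE_of _ _ e5_318)))) (goodE_of _ _ e5_319))))) (goodE_of _ _ e5_320))) (goodE_N (goodE_N (goodE_of _ _ e5_321) (goodE_N (goodE_of _ _ e5_322) (goodE_N (goodE_of _ _ e5_323) (goodE_of _ _ e5_324)))) (goodE_of _ _ e5_325)))))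

end Pool.Agent.RTX
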