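import Pool.Agent.RTS.Exact

/-!
# RTS: windows of the initial state, part 0
-/

set_option autoImplicit false
set_option maxRecDepth 100000

namespace Pool.Agent.RTX

theorem e5_0 : treeE 5 208 145 (rows0 5 [4, 3, 2, 1, 0])
    (.N (.N (.N (.N (.F ⟨⟨0,5,0,1,2,1,2⟩,[]⟩) (.F ⟨⟨3,5,0,1,0,2,3⟩,[]⟩)) (.N (.F ⟨⟨6,5,0,0,1,1,1⟩,[]⟩) (.F ⟨⟨2,5,0,1,0,2,3⟩,[]⟩))) (.N (.N (.F ⟨⟨1,5,0,1,2,2,3⟩,[]⟩) (.F ⟨⟨2,5,0,1,0,2,3⟩,[]⟩)) (.N (.F ⟨⟨6,5,0,0,1,1,1⟩,[]⟩) (.F ⟨⟨1,5,0,1,0,2,3⟩,[]⟩)))) (.N (.N (.N (.F ⟨⟨0,5,0,1,2,2,3⟩,[]⟩) (.F ⟨⟨2,5,0,1,0,2,3⟩,[]⟩)) (.N (.F ⟨⟨6,5,0,0,1,1,1⟩,[]⟩) (.F ⟨⟨1,5,0,1,0,2,3⟩,[]⟩))) (.N (.N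 (.F ⟨⟨0,5,0,1,2,2,3⟩,[]⟩) (.F ⟨⟨1,5,0,1,0,2,3⟩,[]⟩)) (.N (.F ⟨⟨6,5,0,0,1,1,1⟩,[]⟩) (.F ⟨⟨0,0,2,1,0,2,3⟩,[]⟩)))))
    [false, false, false, false] = true := by decide +kernel

theorem e5_1 : treeE 5 208 145 (rows0 5 [4, 3, 2, 1, 0])
    (.N (.N (.F ⟨⟨0,5,0,2,3,2,3⟩,[]⟩) (.F ⟨⟨4,5,0,1,0,2,3⟩,[]⟩)) (.N (.N (.F ⟨⟨8,5,0,0,1,1,2⟩,[]⟩) (.N (.N (.N (.N (.F ⟨⟨4,5,0,2,4,2,3⟩,[]⟩) (.N (.N (.N (.F ⟨⟨13,5,0,0,1,1,1⟩,[]⟩) (.F ⟨⟨7,5,0,2,5,4,5⟩,[]⟩)) (.F ⟨⟨14,5,0,0,0,1,1⟩,[]⟩)) (.N (.N (.F ⟨⟨15,5,0,0,1,1,2⟩,[]⟩) (.N (.N (.N (.N (.F ⟨⟨10,5,0,2,4,2,3⟩,[]⟩) (.N (.F ⟨⟨4,1,0,7,0,4,6⟩,[]⟩) (.N (.F ⟨⟨4,1,0,7,0,4,6⟩,[]⟩)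 (.N (.F ⟨⟨4,1,0,7,0,4,6⟩,[]⟩) (.F ⟨⟨12,0,2,1,0,2,3⟩,[]⟩))))) (.F ⟨⟨18,5,0,0,0,1,1⟩,[]⟩)) (.N (.F ⟨⟨18,5,0,0,1,1,1⟩,[]⟩) (.F ⟨⟨7,5,0,2,0,9,13⟩,[]⟩))) (.N (.N (.F ⟨⟨15,5,0,0,2,1,1⟩,[]⟩) (.F ⟨⟨9,5,0,1,0,5,8⟩,[]⟩)) (.F ⟨⟨4,5,0,3,0,7,10⟩,[]⟩)))) (.F ⟨⟨6,5,0,1,0,2,3⟩,[]⟩)))) (.N (.N (.N (.N (.N (.F ⟨⟨12,5,0,0,1,1,1⟩,[]⟩) (.F ⟨⟨7,5,0,2,5,4,5⟩,[]⟩)) (.F ⟨⟨7,5,0,2,5,4,5⟩,[]⟩)) (.F ⟨⟨14,5,0,0,0,1,1⟩,[]⟩)) (.N (.N (.F ⟨⟨15,5,0,0,1,1,2⟩,[]⟩) (.N (.N (.N (.F ⟨⟨12,5,0,0,2,2,2⟩,[]⟩) (.N (.N (.N (.F ⟨⟨19,5,0,0,1,1,1⟩,[]⟩) (.N (.F ⟨⟨22,5,0,0,1,1,1⟩,[]⟩) (.N (.N (.N (.N (.F ⟨⟨18,5,0,1,4,1,1⟩,[]⟩) (.F ⟨⟨10,0,4,1,11,2,2⟩,[]⟩))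 (.F ⟨⟨10,0,4,1,11,2,2⟩,[]⟩)) (.F ⟨⟨10,0,4,1,11,2,2⟩,[]⟩)) (.F ⟨⟨10,4,4,1,11,2,2⟩,[]⟩)))) (.F ⟨⟨20,5,0,0,0,1,1⟩,[]⟩)) (.N (.F ⟨⟨20,5,0,0,1,1,1⟩,[]⟩) (.F ⟨⟨7,5,2,2,6,3,4⟩,[]⟩)))) (.F ⟨⟨9,5,0,1,0,5,8⟩,[]⟩)) (.F ⟨⟨4,5,0,3,0,7,10⟩,[]⟩))) (.F ⟨⟨6,5,0,1,0,2,3⟩,[]⟩))) (.N (.N (.N (.N (.F ⟨⟨14,5,0,0,1,1,2⟩,[]⟩) (.F ⟨⟨4,5,0,3,0,7,10⟩,[]⟩)) (.N (.F ⟨⟨16,5,0,0,1,1,1⟩,[]⟩) (.F ⟨⟨7,5,2,2,5,3,4⟩,[]⟩))) (.F ⟨⟨6,5,0,1,0,2,3⟩,[]⟩)) (.N (.F ⟨⟨14,5,0,0,1,1,1⟩,[]⟩) (.F ⟨⟨5,0,2,1,0,2,3⟩,[]⟩))))) (.F ⟨⟨4,5,0,1,0,5,7⟩,[]⟩)) (.N (.F ⟨⟨10,5,0,0,1,1,1⟩,[]⟩) (.F ⟨⟨7,5,0,0,0,2,3⟩,[]⟩)))) (.F ⟨⟨2,5,0,1,0,2,3⟩,[]⟩)))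
    [false, false, false, true, false, false, false] = true := by decide +kernel

theorem e5_2 : treeE 5 208 145 (rows0 5 [4, 3, 2, 1, 0])
    (.N (.N (.N (.N (.F ⟨⟨7,5,0,0,1,1,2⟩,[]⟩) (.N (.N (.F ⟨⟨6,5,0,0,1,3,4⟩,[]⟩) (.F ⟨⟨10,5,0,0,1,1,1⟩,[]⟩)) (.F ⟨⟨10,5,0,0,0,1,2⟩,[]⟩))) (.N (.F ⟨⟨9,5,0,0,1,1,1⟩,[]⟩) (.N (.N (.N (.N (.F ⟨⟨4,5,0,2,4,2,3⟩,[]⟩) (.N (.N (.N (.N (.F ⟨⟨7,5,0,1,2,4,6⟩,[]⟩) (.N (.N (.F ⟨⟨15,5,0,0,1,2,3⟩,[]⟩) (.N (.N (.N (.F ⟨⟨19,5,0,0,1,2,3⟩,[]⟩) (.F ⟨⟨18,5,0,0,3,1,1⟩,[]⟩)) (.F ⟨⟨20,5,0,0,1,1,1⟩,[]⟩)) (.F ⟨⟨20,5,0,0,0,1,2⟩,[]⟩))) (.F ⟨⟨1,5,0,5,12,9,13⟩,[]⟩))) (.F ⟨⟨11,5,0,1,0,2,3⟩,[]⟩))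 (.N (.F ⟨⟨16,5,0,0,1,1,1⟩,[]⟩) (.F ⟨⟨11,5,0,1,0,2,3⟩,[]⟩))) (.N (.N (.N (.F ⟨⟨15,5,0,0,1,1,1⟩,[]⟩) (.F ⟨⟨9,5,0,1,4,2,2⟩,[]⟩)) (.F ⟨⟨16,5,0,0,0,1,1⟩,[]⟩)) (.N (.N (.F ⟨⟨17,5,0,0,1,1,2⟩,[]⟩) (.F ⟨⟨6,5,2,2,5,3,4⟩,[]⟩)) (.F ⟨⟨5,0,2,1,0,2,3⟩,[]⟩))))) (.F ⟨⟨4,5,0,1,0,5,7⟩,[]⟩)) (.N (.F ⟨⟨12,5,0,0,1,1,1⟩,[]⟩) (.F ⟨⟨3,5,0,2,0,8,12⟩,[]⟩))) (.N (.N (.F ⟨⟨1,5,0,2,3,8,12⟩,[]⟩) (.F ⟨⟨12,5,0,0,0,1,1⟩,[]⟩)) (.N (.N (.F ⟨⟨13,5,0,0,1,1,2⟩,[]⟩) (.N (.F ⟨⟨13,5,0,0,1,1,1⟩,[]⟩) (.F ⟨⟨9,5,0,0,3,1,1⟩,[]⟩))) (.F ⟨⟨8,5,0,0,0,1,1⟩,[]⟩)))))) (.F ⟨⟨2,5,0,1,0,2,3⟩,[]⟩)) (.N (.F ⟨⟨7,5,0,0,1,1,1⟩,[]⟩) (.F ⟨⟨1,5,0,1,0,2,3⟩,[]⟩)))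
    [true, false, false, true, false, false, false] = true := by decide +kernel

theorem e5_3 : treeE 5 208 145 (rows0 5 [4, 3, 2, 1, 0])
    (.N (.N (.N (.N (.N (.N (.F ⟨⟨6,5,0,0,1,1,2⟩,[]⟩) (.N (.N (.N (.F ⟨⟨5,5,0,0,1,3,4⟩,[]⟩) (.F ⟨⟨8,5,0,0,1,2,3⟩,[]⟩)) (.F ⟨⟨11,5,0,0,1,1,1⟩,[]⟩)) (.F ⟨⟨11,5,0,0,0,1,2⟩,[]⟩))) (.N (.F ⟨⟨10,5,0,0,1,1,1⟩,[]⟩) (.N (.N (.N (.F ⟨⟨1,5,0,2,3,8,12⟩,[]⟩) (.N (.N (.N (.F ⟨⟨14,5,0,0,1,1,1⟩,[]⟩) (.F ⟨⟨7,5,0,0,8,2,3⟩,[]⟩)) (.F ⟨⟨7,5,0,0,4,2,3⟩,[]⟩)) (.F ⟨⟨7,5,0,0,1,2,3⟩,[]⟩))) (.F ⟨⟨12,5,0,0,0,1,1⟩,[]⟩)) (.N (.N (.F ⟨⟨13,5,0,0,1,1,2⟩,[]⟩) (.F ⟨⟨10,5,0,0,3,1,1⟩,[]⟩)) (.F ⟨⟨10,5,0,0,0,1,2⟩,[]⟩)))))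 (.N (.N (.F ⟨⟨6,5,0,0,1,2,3⟩,[]⟩) (.N (.N (.N (.F ⟨⟨10,5,0,0,1,2,3⟩,[]⟩) (.F ⟨⟨9,5,0,0,3,1,1⟩,[]⟩)) (.F ⟨⟨11,5,0,0,1,1,1⟩,[]⟩)) (.F ⟨⟨11,5,0,0,0,1,2⟩,[]⟩))) (.N (.F ⟨⟨10,5,0,0,1,1,1⟩,[]⟩) (.N (.N (.N (.N (.F ⟨⟨6,5,0,1,3,1,1⟩,[]⟩) (.F ⟨⟨4,5,3,1,0,5,7⟩,[]⟩)) (.N (.F ⟨⟨14,5,0,0,1,1,1⟩,[]⟩) (.F ⟨⟨3,5,4,2,0,8,12⟩,[]⟩))) (.N (.N (.F ⟨⟨9,5,1,0,2,2,3⟩,[]⟩) (.F ⟨⟨14,5,0,0,0,1,1⟩,[]⟩)) (.N (.F ⟨⟨10,5,1,0,2,2,3⟩,[]⟩) (.F ⟨⟨3,5,4,2,0,8,12⟩,[]⟩)))) (.N (.N (.N (.F ⟨⟨9,5,1,0,1,2,3⟩,[]⟩) (.F ⟨⟨14,5,0,0,0,1,1⟩,[]⟩)) (.N (.F ⟨⟨10,5,1,0,2,2,3⟩,[]⟩) (.F ⟨⟨9,5,1,0,0,2,3⟩,[]⟩))) (.N (.N (.F ⟨⟨10,5,1,0,1,2,3⟩,[]⟩) (.F ⟨⟨14,5,0,0,0,1,1⟩,[]⟩))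 (.N (.F ⟨⟨11,5,1,0,1,2,3⟩,[]⟩) (.F ⟨⟨8,5,1,0,0,1,1⟩,[]⟩)))))))) (.F ⟨⟨2,5,0,1,0,2,3⟩,[]⟩)) (.N (.F ⟨⟨7,5,0,0,1,1,1⟩,[]⟩) (.F ⟨⟨1,5,0,1,0,2,3⟩,[]⟩))) (.N (.N (.F ⟨⟨0,5,0,1,2,2,3⟩,[]⟩) (.F ⟨⟨1,5,0,1,0,2,3⟩,[]⟩)) (.N (.F ⟨⟨7,5,0,0,1,1,1⟩,[]⟩) (.F ⟨⟨0,0,2,1,0,2,3⟩,[]⟩))))
    [true, false, true, false, false, false] = true := by decide +kernel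

theorem e5_4 : treeE 5 208 145 (rows0 5 [4, 3, 2, 1, 0])
    (.F ⟨⟨3,5,0,0,0,1,2⟩,[]⟩)
    [true, true, false, false, false] = true := by decide +kernel

theorem e5_5 : treeE 5 208 145 (rows0 5 [4, 3, 2, 1, 0])
    (.F ⟨⟨3,5,0,0,1,1,2⟩,[]⟩)
    [false, false, true, false, false] = true := by decide +kernel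

theorem e5_6 : treeE 5 208 145 (rows0 5 [4, 3, 2, 1, 0])
    (.N (.N (.F ⟨⟨0,5,0,2,3,2,3⟩,[]⟩) (.F ⟨⟨5,5,0,1,0,2,3⟩,[]⟩)) (.N (.F ⟨⟨9,5,0,0,1,1,1⟩,[]⟩) (.F ⟨⟨5,5,0,1,0,2,3⟩,[]⟩)))
    [false, false, false, false, true, false, true, false, false] = true := by decide +kernel

theorem e5_7 : treeE 5 208 145 (rows0 5 [4, 3, 2, 1, 0])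
    (.F ⟨⟨8,5,0,0,1,1,1⟩,[]⟩)
    [false, false, false, true, false, false, false, true, false, true, false, false] = true := by decide +kernel

theorem e5_8 : treeE 5 208 145 (rows0 5 [4, 3, 2, 1, 0])
    (.F ⟨⟨11,5,0,0,1,1,1⟩,[]⟩)
    [false, true, false, false, true, false, false, false, true, false, true, false, false] = true := by decide +kernel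

theorem e5_9 : treeE 5 208 145 (rows0 5 [4, 3, 2, 1, 0])
    (.N (.N (.F ⟨⟨6,5,0,2,4,2,3⟩,[]⟩) (.N (.N (.N (.N (.F ⟨⟨9,5,0,1,2,4,6⟩,[]⟩) (.N (.N (.F ⟨⟨17,5,0,0,1,2,3⟩,[]⟩) (.F ⟨⟨9,5,0,1,6,3,4⟩,[]⟩)) (.F ⟨⟨9,5,0,1,4,3,4⟩,[]⟩))) (.F ⟨⟨18,5,0,0,0,1,1⟩,[]⟩)) (.N (.F ⟨⟨18,5,0,0,1,1,1⟩,[]⟩) (.F ⟨⟨11,5,0,1,0,2,4⟩,[]⟩))) (.N (.N (.N (.F ⟨⟨17,5,0,0,1,1,1⟩,[]⟩) (.F ⟨⟨11,5,0,1,4,2,2⟩,[]⟩)) (.F ⟨⟨18,5,0,0,0,1,1⟩,[]⟩)) (.N (.N (.F ⟨⟨19,5,0,0,1,1,2⟩,[]⟩) (.F ⟨⟨8,5,2,2,5,3,4⟩,[]⟩)) (.F ⟨⟨7,0,2,1,0,2,3⟩,[]⟩))))) (.N (.N (.F ⟨⟨9,5,0,2,0,3,4⟩,[]⟩) (.N (.F ⟨⟨9,5,0,2,0,3,4⟩,[]⟩) (.N (.F ⟨⟨9,5,0,2,0,3,4⟩,[]⟩) (.N (.N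 (.F ⟨⟨20,5,0,0,1,1,2⟩,[]⟩) (.N (.N (.N (.F ⟨⟨11,5,2,3,6,4,5⟩,[]⟩) (.N (.F ⟨⟨17,5,1,0,2,2,3⟩,[]⟩) (.F ⟨⟨15,5,1,0,0,2,3⟩,[]⟩))) (.N (.N (.F ⟨⟨11,5,2,3,7,6,9⟩,[]⟩) (.F ⟨⟨24,5,0,0,0,1,1⟩,[]⟩)) (.N (.F ⟨⟨18,5,1,0,3,2,3⟩,[]⟩) (.F ⟨⟨11,5,3,1,0,5,8⟩,[]⟩)))) (.N (.N (.N (.F ⟨⟨11,5,2,3,5,6,9⟩,[]⟩) (.F ⟨⟨24,5,0,0,0,1,1⟩,[]⟩)) (.N (.F ⟨⟨18,5,1,0,3,2,3⟩,[]⟩) (.F ⟨⟨11,5,3,1,0,5,8⟩,[]⟩))) (.N (.N (.F ⟨⟨18,5,1,0,2,2,3⟩,[]⟩) (.F ⟨⟨12,5,3,1,0,5,8⟩,[]⟩)) (.F ⟨⟨9,0,4,2,0,4,6⟩,[]⟩))))) (.F ⟨⟨7,0,2,1,0,2,3⟩,[]⟩))))) (.F ⟨⟨15,5,0,0,0,1,2⟩,[]⟩)))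
    [false, false, true, true, false, false, true, false, false, false, true, false, true, false, false] = true := by decide +kernel

theorem e5_10 : treeE 5 208 145 (rows0 5 [4, 3, 2, 1, 0])
    (.N (.F ⟨⟨14,5,0,0,1,1,1⟩,[]⟩) (.N (.N (.N (.F ⟨⟨9,5,0,2,0,3,4⟩,[]⟩) (.N (.F ⟨⟨9,5,0,2,0,3,4⟩,[]⟩) (.N (.F ⟨⟨9,5,0,2,0,3,4⟩,[]⟩) (.N (.N (.F ⟨⟨21,5,0,0,1,1,2⟩,[]⟩) (.N (.N (.N (.N (.F ⟨⟨15,5,1,2,4,2,3⟩,[]⟩) (.F ⟨⟨25,5,0,0,0,1,1⟩,[]⟩)) (.N (.F ⟨⟨25,5,0,0,1,1,1⟩,[]⟩) (.F ⟨⟨16,5,1,1,0,3,5⟩,[]⟩))) (.N (.N (.N (.F ⟨⟨24,5,0,0,1,1,1⟩,[]⟩) (.N (.F ⟨⟨27,5,0,0,1,1,1⟩,[]⟩) (.N (.N (.N (.N (.F ⟨⟨22,5,1,3,6,3,4⟩,[]⟩) (.N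 (.N (.N (.N (.F ⟨⟨25,5,0,1,2,4,6⟩,[]⟩) (.N (.N (.F ⟨⟨33,5,0,0,1,2,3⟩,[]⟩) (.F ⟨⟨31,5,0,1,0,3,4⟩,[]⟩)) (.F ⟨⟨19,5,2,4,12,9,12⟩,[]⟩))) (.F ⟨⟨34,5,0,0,0,1,1⟩,[]⟩)) (.N (.F ⟨⟨34,5,0,0,1,1,1⟩,[]⟩) (.F ⟨⟨27,5,0,1,0,2,4⟩,[]⟩))) (.N (.N (.N (.F ⟨⟨33,5,0,0,1,1,1⟩,[]⟩) (.F ⟨⟨27,5,0,1,4,2,2⟩,[]⟩)) (.F ⟨⟨34,5,0,0,0,1,1⟩,[]⟩)) (.N (.N (.F ⟨⟨35,5,0,0,1,1,2⟩,[]⟩) (.F ⟨⟨24,5,2,2,5,3,4⟩,[]⟩)) (.F ⟨⟨23,0,2,1,0,2,3⟩,[]⟩))))) (.F ⟨⟨16,5,2,1,0,9,14⟩,[]⟩)) (.N (.F ⟨⟨30,5,0,0,1,1,1⟩,[]⟩) (.N (.F ⟨⟨24,5,0,0,3,3,3⟩,[]⟩) (.F ⟨⟨29,5,0,0,0,1,1⟩,[]⟩)))) (.N (.N (.F ⟨⟨22,5,1,0,2,4,6⟩,[]⟩) (.F ⟨⟨30,5,0,0,0,1,1⟩,[]⟩)) (.N (.F ⟨⟨22,5,1,0,2,5,7⟩,[]⟩)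 (.F ⟨⟨26,5,0,0,0,1,1⟩,[]⟩)))))) (.F ⟨⟨25,5,0,0,0,1,1⟩,[]⟩)) (.N (.F ⟨⟨11,5,2,3,7,6,9⟩,[]⟩) (.F ⟨⟨12,5,3,1,0,5,8⟩,[]⟩)))) (.N (.N (.N (.N (.N (.F ⟨⟨23,5,0,0,1,1,1⟩,[]⟩) (.N (.F ⟨⟨28,5,0,0,1,1,1⟩,[]⟩) (.N (.N (.N (.F ⟨⟨22,5,1,0,2,4,6⟩,[]⟩) (.N (.N (.F ⟨⟨23,5,0,0,6,3,3⟩,[]⟩) (.F ⟨⟨25,5,0,0,4,2,3⟩,[]⟩)) (.F ⟨⟨25,5,0,0,1,2,3⟩,[]⟩))) (.F ⟨⟨30,5,0,0,0,1,1⟩,[]⟩)) (.N (.F ⟨⟨22,5,1,0,2,5,7⟩,[]⟩) (.F ⟨⟨28,5,0,0,0,1,2⟩,[]⟩))))) (.N (.N (.F ⟨⟨24,5,0,0,1,2,3⟩,[]⟩) (.N (.N (.F ⟨⟨22,5,1,0,2,5,7⟩,[]⟩) (.F ⟨⟨29,5,0,0,1,1,1⟩,[]⟩)) (.F ⟨⟨29,5,0,0,0,1,2⟩,[]⟩))) (.N (.F ⟨⟨28,5,0,0,1,1,1⟩,[]⟩) (.F ⟨⟨14,5,4,2,7,5,6⟩,[]⟩))))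 (.F ⟨⟨25,5,0,0,0,1,1⟩,[]⟩)) (.N (.F ⟨⟨11,5,2,3,7,6,9⟩,[]⟩) (.F ⟨⟨12,5,3,1,0,5,8⟩,[]⟩))) (.N (.N (.F ⟨⟨11,5,2,3,5,6,9⟩,[]⟩) (.F ⟨⟨12,5,3,1,0,5,8⟩,[]⟩)) (.F ⟨⟨9,0,4,2,0,4,6⟩,[]⟩))))) (.F ⟨⟨7,0,2,1,0,2,3⟩,[]⟩))))) (.F ⟨⟨16,5,0,0,0,1,1⟩,[]⟩)) (.F ⟨⟨13,5,0,0,0,1,1⟩,[]⟩)))
    [true, false, true, true, false, false, true, false, false, false, true, false, true, false, false] = true := by decide +kernel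

theorem e5_11 : treeE 5 208 145 (rows0 5 [4, 3, 2, 1, 0])
    (.N (.N (.F ⟨⟨4,5,0,1,2,7,10⟩,[]⟩) (.F ⟨⟨14,5,0,0,0,1,1⟩,[]⟩)) (.N (.N (.F ⟨⟨15,5,0,0,1,1,2⟩,[]⟩) (.N (.F ⟨⟨15,5,0,0,1,1,1⟩,[]⟩) (.F ⟨⟨11,5,0,0,3,1,1⟩,[]⟩))) (.F ⟨⟨6,5,0,1,0,3,5⟩,[]⟩)))
    [true, true, true, false, false, true, false, false, false, true, false, true, false, false] = true := by decide +kernel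

theorem e5_12 : treeE 5 208 145 (rows0 5 [4, 3, 2, 1, 0])
    (.F ⟨⟨9,5,0,0,0,1,1⟩,[]⟩)
    [true, false, true, false, false, false, true, false, true, false, false] = true := by decide +kernel

theorem e5_13 : treeE 5 208 145 (rows0 5 [4, 3, 2, 1, 0])
    (.N (.N (.F ⟨⟨10,5,0,0,1,1,2⟩,[]⟩) (.N (.N (.N (.N (.F ⟨⟨5,5,0,2,4,2,3⟩,[]⟩) (.N (.N (.N (.N (.F ⟨⟨10,5,0,1,3,2,3⟩,[]⟩) (.N (.N (.F ⟨⟨16,5,0,0,1,2,3⟩,[]⟩) (.F ⟨⟨14,5,0,1,0,3,4⟩,[]⟩)) (.N (.F ⟨⟨20,5,0,0,1,1,1⟩,[]⟩) (.F ⟨⟨8,5,2,2,5,3,4⟩,[]⟩)))) (.F ⟨⟨12,5,0,1,0,2,3⟩,[]⟩)) (.N (.F ⟨⟨17,5,0,0,1,1,1⟩,[]⟩) (.F ⟨⟨9,5,0,1,0,3,5⟩,[]⟩))) (.N (.N (.N (.F ⟨⟨16,5,0,0,1,1,1⟩,[]⟩)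 (.F ⟨⟨9,5,0,1,4,3,4⟩,[]⟩)) (.F ⟨⟨17,5,0,0,0,1,1⟩,[]⟩)) (.N (.N (.F ⟨⟨18,5,0,0,1,1,2⟩,[]⟩) (.F ⟨⟨5,4,3,3,0,4,6⟩,[]⟩)) (.F ⟨⟨7,0,2,1,0,2,3⟩,[]⟩))))) (.F ⟨⟨6,5,0,1,0,3,5⟩,[]⟩)) (.N (.N (.F ⟨⟨14,5,0,0,1,1,2⟩,[]⟩) (.N (.F ⟨⟨14,5,0,0,1,1,1⟩,[]⟩) (.N (.F ⟨⟨12,5,0,0,3,1,1⟩,[]⟩) (.F ⟨⟨13,5,0,0,0,2,3⟩,[]⟩)))) (.F ⟨⟨2,5,0,2,0,9,13⟩,[]⟩))) (.N (.N (.N (.N (.F ⟨⟨13,5,0,0,1,1,2⟩,[]⟩) (.N (.F ⟨⟨13,5,0,0,1,1,1⟩,[]⟩) (.F ⟨⟨16,5,0,0,0,1,2⟩,[]⟩))) (.N (.F ⟨⟨15,5,0,0,1,1,1⟩,[]⟩) (.N (.N (.F ⟨⟨9,5,0,0,2,2,3⟩,[]⟩) (.N (.F ⟨⟨18,5,0,0,1,1,1⟩,[]⟩) (.N (.F ⟨⟨9,5,0,0,11,2,3⟩,[]⟩) (.F ⟨⟨17,5,0,0,0,1,1⟩,[]⟩)))) (.F ⟨⟨6,5,0,1,0,5,7⟩,[]⟩))))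 (.F ⟨⟨4,5,0,1,0,5,8⟩,[]⟩)) (.N (.F ⟨⟨13,5,0,0,1,1,1⟩,[]⟩) (.F ⟨⟨5,5,0,1,0,3,5⟩,[]⟩))))) (.F ⟨⟨1,5,0,1,0,2,3⟩,[]⟩))
    [true, true, false, false, false, true, false, true, false, false] = true := by decide +kernel

theorem e5_14 : treeE 5 208 145 (rows0 5 [4, 3, 2, 1, 0])
    (.N (.N (.N (.F ⟨⟨7,5,0,0,1,1,1⟩,[]⟩) (.N (.F ⟨⟨12,5,0,0,1,1,1⟩,[]⟩) (.N (.N (.N (.F ⟨⟨4,5,0,1,2,7,10⟩,[]⟩) (.N (.N (.N (.F ⟨⟨16,5,0,0,1,1,1⟩,[]⟩) (.F ⟨⟨9,5,0,0,8,2,3⟩,[]⟩)) (.F ⟨⟨9,5,0,0,4,2,3⟩,[]⟩)) (.F ⟨⟨9,5,0,0,1,2,3⟩,[]⟩))) (.F ⟨⟨14,5,0,0,0,1,1⟩,[]⟩)) (.N (.N (.F ⟨⟨15,5,0,0,1,1,2⟩,[]⟩) (.F ⟨⟨12,5,0,0,3,1,1⟩,[]⟩)) (.F ⟨⟨12,5,0,0,0,1,2⟩,[]⟩)))))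 (.N (.N (.F ⟨⟨8,5,0,0,1,2,3⟩,[]⟩) (.N (.N (.N (.F ⟨⟨12,5,0,0,1,2,3⟩,[]⟩) (.F ⟨⟨11,5,0,0,3,1,1⟩,[]⟩)) (.F ⟨⟨13,5,0,0,1,1,1⟩,[]⟩)) (.F ⟨⟨13,5,0,0,0,1,2⟩,[]⟩))) (.N (.F ⟨⟨12,5,0,0,1,1,1⟩,[]⟩) (.N (.N (.N (.N (.F ⟨⟨8,5,0,1,3,1,1⟩,[]⟩) (.N (.F ⟨⟨8,0,2,2,0,3,4⟩,[]⟩) (.F ⟨⟨17,5,0,0,0,1,2⟩,[]⟩))) (.N (.F ⟨⟨16,5,0,0,1,1,1⟩,[]⟩) (.N (.N (.F ⟨⟨8,0,2,2,0,3,4⟩,[]⟩) (.F ⟨⟨18,5,0,0,0,1,1⟩,[]⟩)) (.F ⟨⟨15,5,0,0,0,1,1⟩,[]⟩)))) (.N (.N (.F ⟨⟨11,5,1,0,2,2,3⟩,[]⟩) (.F ⟨⟨16,5,0,0,0,1,1⟩,[]⟩)) (.N (.F ⟨⟨12,5,1,0,2,2,3⟩,[]⟩) (.N (.N (.N (.F ⟨⟨8,0,2,2,0,3,4⟩,[]⟩) (.F ⟨⟨19,5,0,0,0,1,1⟩,[]⟩)) (.N (.F ⟨⟨13,5,1,0,3,3,4⟩,[]⟩) (.F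 ⟨⟨15,5,0,0,0,2,3⟩,[]⟩))) (.F ⟨⟨11,5,1,0,0,2,3⟩,[]⟩))))) (.N (.N (.N (.F ⟨⟨11,5,1,0,1,2,3⟩,[]⟩) (.F ⟨⟨16,5,0,0,0,1,1⟩,[]⟩)) (.N (.F ⟨⟨12,5,1,0,2,2,3⟩,[]⟩) (.F ⟨⟨11,5,1,0,0,2,3⟩,[]⟩))) (.N (.N (.F ⟨⟨12,5,1,0,1,2,3⟩,[]⟩) (.F ⟨⟨16,5,0,0,0,1,1⟩,[]⟩)) (.N (.F ⟨⟨13,5,1,0,1,2,3⟩,[]⟩) (.F ⟨⟨6,5,3,1,0,3,5⟩,[]⟩)))))))) (.F ⟨⟨9,5,0,0,0,1,1⟩,[]⟩))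
    [false, false, true, false, false, true, false, true, false, false] = true := by decide +kernel

theorem e5_15 : treeE 5 208 145 (rows0 5 [4, 3, 2, 1, 0])
    (.F ⟨⟨10,5,0,0,1,1,2⟩,[]⟩)
    [false, false, true, false, true, false, false, true, false, true, false, false] = true := by decide +kernel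

theorem e5_16 : treeE 5 208 145 (rows0 5 [4, 3, 2, 1, 0])
    (.N (.N (.F ⟨⟨11,5,0,0,1,1,1⟩,[]⟩) (.N (.N (.F ⟨⟨12,5,0,0,1,1,1⟩,[]⟩) (.F ⟨⟨16,5,0,0,1,1,1⟩,[]⟩)) (.F ⟨⟨16,5,0,0,0,1,2⟩,[]⟩))) (.N (.F ⟨⟨15,5,0,0,1,1,1⟩,[]⟩) (.F ⟨⟨6,5,0,1,0,5,7⟩,[]⟩)))
    [false, false, false, true, false, true, false, true, false, false, true, false, true, false, false] = true := by decide +kernel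

theorem e5_17 : treeE 5 208 145 (rows0 5 [4, 3, 2, 1, 0])
    (.F ⟨⟨14,5,0,0,1,1,1⟩,[]⟩)
    [false, false, false, true, false, false, true, false, true, false, true, false, false, true, false, true, false, false] = true := by decide +kernel

theorem e5_18 : treeE 5 208 145 (rows0 5 [4, 3, 2, 1, 0])
    (.F ⟨⟨17,5,0,0,1,1,1⟩,[]⟩)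
    [false, true, false, false, true, false, false, true, false, true, false, true, false, false, true, false, true, false, false] = true := by decide +kernel

theorem e5_19 : treeE 5 208 145 (rows0 5 [4, 3, 2, 1, 0])
    (.F ⟨⟨13,5,0,1,4,1,1⟩,[]⟩)
    [false, false, false, false, true, true, false, false, true, false, false, true, false, true, false, true, false, false, true, false, true, false, false] = true := by decide +kernel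

theorem e5_20 : treeE 5 208 145 (rows0 5 [4, 3, 2, 1, 0])
    (.N (.N (.F ⟨⟨14,5,1,3,5,3,4⟩,[]⟩) (.N (.F ⟨⟨26,5,0,0,1,1,1⟩,[]⟩) (.F ⟨⟨12,5,3,2,0,6,9⟩,[]⟩))) (.N (.N (.F ⟨⟨16,5,0,2,5,3,4⟩,[]⟩) (.F ⟨⟨12,5,3,2,0,6,9⟩,[]⟩)) (.N (.F ⟨⟨26,5,0,0,1,1,1⟩,[]⟩) (.N (.N (.N (.N (.F ⟨⟨23,0,0,2,1,2,1⟩,[]⟩) (.N (.F ⟨⟨23,0,0,2,1,2,1⟩,[]⟩) (.N (.F ⟨⟨23,0,0,2,1,2,1⟩,[]⟩) (.N (.F ⟨⟨23,0,0,2,1,2,1⟩,[]⟩) (.F ⟨⟨25,5,1,0,0,1,1⟩,[]⟩))))) (.F ⟨⟨29,5,0,0,0,1,1⟩,[]⟩)) (.N (.N (.F ⟨⟨30,5,0,0,1,1,2⟩,[]⟩) (.N (.F ⟨⟨30,5,0,0,1,1,1⟩,[]⟩) (.F ⟨⟨23,5,0,1,0,5,7⟩,[]⟩))) (.F ⟨⟨25,5,0,0,0,2,3⟩,[]⟩))) (.N (.N (.N (.N (.F ⟨⟨29,5,0,0,1,1,2⟩,[]⟩)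 (.F ⟨⟨23,5,0,1,0,5,7⟩,[]⟩)) (.N (.F ⟨⟨31,5,0,0,1,1,1⟩,[]⟩) (.N (.N (.F ⟨⟨26,5,0,0,1,2,3⟩,[]⟩) (.N (.F ⟨⟨34,5,0,0,1,1,1⟩,[]⟩) (.F ⟨⟨21,5,0,2,0,12,17⟩,[]⟩))) (.F ⟨⟨23,5,0,1,0,4,6⟩,[]⟩)))) (.F ⟨⟨29,5,0,0,0,1,1⟩,[]⟩)) (.F ⟨⟨24,5,0,0,0,1,1⟩,[]⟩))))))
    [false, false, true, false, false, false, true, true, false, false, true, false, false, true, false, true, false, true, false, false, true, false, true, false, false] = true := by decide +kernel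

theorem e5_21 : treeE 5 208 145 (rows0 5 [4, 3, 2, 1, 0])
    (.N (.N (.N (.F ⟨⟨15,5,0,2,4,3,4⟩,[]⟩) (.F ⟨⟨12,5,3,2,0,6,9⟩,[]⟩)) (.N (.F ⟨⟨26,5,0,0,1,1,1⟩,[]⟩) (.N (.N (.N (.N (.N (.F ⟨⟨27,5,0,0,1,1,1⟩,[]⟩) (.F ⟨⟨23,5,0,1,0,5,7⟩,[]⟩)) (.N (.F ⟨⟨31,5,0,0,1,1,1⟩,[]⟩) (.F ⟨⟨23,5,0,1,0,4,6⟩,[]⟩))) (.N (.N (.N (.F ⟨⟨30,5,0,0,1,1,1⟩,[]⟩) (.N (.F ⟨⟨33,5,0,0,1,1,1⟩,[]⟩) (.N (.N (.N (.N (.F ⟨⟨29,5,0,1,4,1,1⟩,[]⟩) (.N (.N (.N (.N (.F ⟨⟨26,4,2,4,0,4,6⟩,[]⟩) (.N (.F ⟨⟨29,5,1,3,7,5,8⟩,[]⟩) (.F ⟨⟨28,5,3,2,0,6,9⟩,[]⟩))) (.N (.N (.F ⟨⟨29,5,1,3,8,5,8⟩,[]⟩) (.F ⟨⟨28,5,3,2,0,6,9⟩,[]⟩)) (.N (.F ⟨⟨42,5,0,0,1,1,1⟩,[]⟩)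 (.N (.N (.F ⟨⟨32,1,1,2,1,4,5⟩,[]⟩) (.N (.F ⟨⟨32,1,1,2,1,4,5⟩,[]⟩) (.F ⟨⟨41,5,0,0,0,2,3⟩,[]⟩))) (.N (.N (.F ⟨⟨32,1,1,2,1,4,5⟩,[]⟩) (.F ⟨⟨45,5,0,0,0,1,1⟩,[]⟩)) (.F ⟨⟨40,5,0,0,0,1,1⟩,[]⟩)))))) (.N (.N (.N (.F ⟨⟨29,5,1,3,5,5,8⟩,[]⟩) (.F ⟨⟨28,5,3,2,0,6,9⟩,[]⟩)) (.N (.F ⟨⟨42,5,0,0,1,1,1⟩,[]⟩) (.N (.N (.F ⟨⟨32,1,1,2,1,4,5⟩,[]⟩) (.F ⟨⟨44,5,0,0,0,1,1⟩,[]⟩)) (.F ⟨⟨41,5,0,0,0,1,1⟩,[]⟩)))) (.N (.N (.F ⟨⟨33,5,1,1,2,3,5⟩,[]⟩) (.F ⟨⟨42,5,0,0,0,1,1⟩,[]⟩)) (.N (.F ⟨⟨42,5,0,0,1,1,1⟩,[]⟩) (.F ⟨⟨32,5,2,1,0,2,3⟩,[]⟩))))) (.F ⟨⟨38,5,0,0,0,1,2⟩,[]⟩))) (.F ⟨⟨26,5,2,0,7,3,4⟩,[]⟩)) (.F ⟨⟨26,5,2,0,10,3,4⟩,[]⟩)) (.F ⟨⟨26,5,2,0,3,3,4⟩,[]⟩))))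 (.F ⟨⟨31,5,0,0,0,1,1⟩,[]⟩)) (.N (.F ⟨⟨17,5,1,2,3,9,14⟩,[]⟩) (.N (.N (.N (.N (.F ⟨⟨25,5,0,1,3,1,1⟩,[]⟩) (.N (.F ⟨⟨25,5,2,2,0,3,4⟩,[]⟩) (.F ⟨⟨36,5,0,0,0,1,2⟩,[]⟩))) (.N (.F ⟨⟨35,5,0,0,1,1,1⟩,[]⟩) (.N (.F ⟨⟨28,5,1,0,2,2,2⟩,[]⟩) (.F ⟨⟨34,5,0,0,0,1,1⟩,[]⟩)))) (.N (.N (.F ⟨⟨28,5,1,0,2,2,4⟩,[]⟩) (.F ⟨⟨35,5,0,0,0,1,1⟩,[]⟩)) (.N (.F ⟨⟨35,5,0,0,1,1,1⟩,[]⟩) (.N (.N (.N (.F ⟨⟨25,5,2,2,0,3,4⟩,[]⟩) (.F ⟨⟨38,5,0,0,0,1,1⟩,[]⟩)) (.N (.F ⟨⟨32,5,1,0,3,3,4⟩,[]⟩) (.F ⟨⟨34,5,0,0,0,2,3⟩,[]⟩))) (.F ⟨⟨26,5,1,0,0,4,6⟩,[]⟩))))) (.F ⟨⟨23,5,3,1,0,3,4⟩,[]⟩))))) (.F ⟨⟨28,5,0,0,0,1,1⟩,[]⟩)) (.F ⟨⟨25,5,0,0,0,1,1⟩,[]⟩)))) (.N (.N (.F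 ⟨⟨17,5,1,1,2,3,5⟩,[]⟩) (.F ⟨⟨26,5,0,0,0,1,1⟩,[]⟩)) (.N (.F ⟨⟨26,5,0,0,1,1,1⟩,[]⟩) (.F ⟨⟨16,5,2,1,0,2,3⟩,[]⟩))))
    [true, false, true, false, false, false, true, true, false, false, true, false, false, true, false, true, false, true, false, false, true, false, true, false, false] = true := by decide +kernel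

end Pool.Agent.RTX
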