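import Pool.Agent.RTX.Tree
import Pool.Agent.RTX.Reach

/-!
# RTS/Exact: windows from the initial state

At level `0` all words are single letters and `P = S = 0`, so the value of a form pulled back to level `0` is its constant.
-/

set_option autoImplicit false

namespace Pool.Agent.RTX

open Pool.Agent.Helper44.IET (HasPower)

/-- Check of a window of the initial state. -/
def leafE (d : ℕ) (P Q : ℤ) (rt : Rows) (g : List Bool) (h : Pat) : Bool :=
  patChk d (g.drop h.s) (runR (g.take h.s) rt) h &&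
  decide (0 ≤ (pull (g.take h.s) rt
    (lin Q (patN d (runR (g.take h.s) rt) (patZ d (g.drop h.s) (runR (g.take h.s) rt) h) h)
      (-P) (patV d (patZ d (g.drop h.s) (runR (g.take h.s) rt) h) h))).k)

/-- Check of a tree of windows of the initial state. -/
def treeE (d : ℕ) (P Q : ℤ) (rt : Rows) : Crt → List Bool → Bool
  | .F h, gr => leafE d P Q rt gr.reverse h.pt
  | .N t0 t1, gr => treeE d P Q rt t0 (false :: gr) && treeE d P Q rt t1 (true :: gr)
  | .Y, _ => false
  | .G, _ => false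

/-- Every system from the initial state `rt` along the reversed path `gr` has a power with `P p ≤ Q l`. -/
def GoodE (d : ℕ) (P Q : ℤ) (rt : Rows) (gr : List Bool) : Prop :=
  ∀ (u : ℕ → ℕ) (𝒮 : Sys d u), 𝒮.R 0 = rt → 𝒮.P 0 = (fun _ => 0) → 𝒮.S 0 = (fun _ => 0) → Fol 𝒮.c 0 gr.reverse →
    ∃ j p l : ℕ, 0 < p ∧ HasPower u j p (p + l) ∧ P * (p : ℤ) ≤ Q * (l : ℤ)

private theorem ex_evalL : ∀ (z : List ℤ), evalL z (fun _ => 0) = 0
  | [] => rfl
  | z :: l => by
    have h := ex_evalL l
    unfold evalL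
    rw [h]
    simp

private theorem ex_fol {c : ℕ → Bool} {gr : List Bool} (h : Fol c 0 gr.reverse) (b : Bool)
    (hb : c gr.length = b) : Fol c 0 (b :: gr).reverse := by
  intro j hj
  have h1 : (b :: gr).reverse = gr.reverse ++ [b] := List.reverse_cons
  have h2 : j ≤ gr.length := by simpa using hj
  rcases Nat.lt_or_eq_of_le h2 with h3 | h3
  · have h4 : j < gr.reverse.length := by simpa using h3
    simp only [h1]
    rw [List.getElem_append_left h4]
    exact h j h4
  · subst h3
    simp [hb]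

theorem goodE_N {d : ℕ} {P Q : ℤ} {rt : Rows} {gr : List Bool} (h0 : GoodE d P Q rt (false :: gr))
    (h1 : GoodE d P Q rt (true :: gr)) : GoodE d P Q rt gr := by
  intro u 𝒮 hR hP hS hf
  cases hb : 𝒮.c gr.length with
  | false => exact h0 u 𝒮 hR hP hS (ex_fol hf false hb)
  | true => exact h1 u 𝒮 hR hP hS (ex_fol hf true hb)

theorem goodE_F {d : ℕ} {P Q : ℤ} {rt : Rows} {g : List Bool} {h : Pat} (hc : leafE d P Q rt g h = true) :
    GoodE d P Q rt g.reverse := by
  intro u 𝒮 hR hP hS hf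
  rw [List.reverse_reverse] at hf
  have hg0 := hf
  rw [← List.take_append_drop h.s g, fol_append] at hg0
  obtain ⟨hg1, hg2⟩ := hg0
  unfold leafE at hc
  rw [Bool.and_eq_true, decide_eq_true_eq] at hc
  obtain ⟨hc1, hc2⟩ := hc
  rw [← hR, sys_runR 𝒮 hg1] at hc1 hc2
  obtain ⟨okN, okV, j, p, l, hp, hl, hp0, hpow, -⟩ := pat_sound 𝒮 hg2 hc1
  refine ⟨j, p, l, hp0, hpow, ?_⟩
  have h1 := ev_lin okN okV Q (-P) (𝒮.P (0 + (g.take h.s).length)) (𝒮.S (0 + (g.take h.s).length))
  have h2 := (ev_pull 𝒮 hg1 h1.2).1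
  rw [h1.1, ← hp, ← hl, hP, hS] at h2
  unfold LF.ev at h2
  rw [ex_evalL, ex_evalL] at h2
  linarith

theorem goodE_of {d : ℕ} {P Q : ℤ} {rt : Rows} :
    ∀ (t : Crt) (gr : List Bool), treeE d P Q rt t gr = true → GoodE d P Q rt gr := by
  intro t
  induction t with
  | F h =>
    intro gr hc
    have h1 := goodE_F (g := gr.reverse) (h := h.pt) hc
    rwa [List.reverse_reverse] at h1
  | Y => intro gr hc; simp [treeE] at hc
  | G => intro gr hc; simp [treeE] at hc
  | N t0 t1 ih0 ih1 =>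
    intro gr hc
    simp only [treeE, Bool.and_eq_true] at hc
    exact goodE_N (ih0 _ hc.1) (ih1 _ hc.2)

end Pool.Agent.RTX
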