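import Pool.Agent.RTX.Par

/-!
# RTS: parameters for the class of the symmetric permutation of 5 intervals

Threshold `142/99 = 1.43434... > (5 + √13)/6 = 1.43425...`; two golden loops, mirror images of each other.
-/

set_option autoImplicit false

namespace Pool.Agent.RTX

/-- First golden loop. -/
def par5A : Par := ⟨5, 142, 99, 10000000, [1, 3, 0, 4, 2],
  [true, false, false, true, false, false, true, true, false, false, false, true, false, true, false, true]⟩

/-- Second golden loop. -/
def par5B : Par := ⟨5, 142, 99, 10000000, [1, 4, 3, 2, 0],
  [true, true, false, true, false, true, false, false, true, true, false, true, true, false, false, true]⟩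

end Pool.Agent.RTX
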