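import Pool.Agent.RTS.GoldT
import Pool.Agent.RTS.Par5

/-!
# RTS: the golden data
-/

set_option autoImplicit false
set_option maxRecDepth 100000

namespace Pool.Agent.RTX

/-- golden data, first loop -/
def gd5A : Gd := ⟨par5A.gp, ⟨0, 5, 0, 0, 1, 3, 3⟩, 10, 11, 9, 2, [], []⟩

theorem gd5A_ok : goldOKT par5A gd5A ⟨1, 1, 3, 2, 4, 3, 3⟩ 15 1 = true := by decide +kernel

/-- golden data, second loop -/
def gd5B : Gd := ⟨par5B.gp, ⟨0, 0, 9, 13, 7, 12, 15⟩, 23, 11, 9, 2, [], []⟩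

theorem gd5B_ok : goldOKT par5B gd5B ⟨1, 3, 2, 2, 2, 7, 10⟩ 14 1 = true := by decide +kernel

end Pool.Agent.RTX
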