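import Pool.Agent.RTX.GeoT
import Pool.Agent.RTX.GeoN
import Pool.Agent.RTX.GeoI
import Pool.Agent.RTX.Ent
import Pool.Agent.RTX.WinL
import Pool.Agent.RTX.WinC
import Pool.Agent.RTX.BlkU
import Pool.Agent.RTX.Hts
import Pool.Agent.RTX.InvSw

/-!
# RTS/SysY: the system of a coding, with the rows of level `0`

Same construction as in `RTX/SysX` (whose data are private); the statement also gives the rows of level `0`.
-/

set_option autoImplicit false

namespace Pool.Agent.RTX

open Pool.Agent.Helper44.IET (Exchange)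

/-- the data at one level -/
private structure SysY_St where
  R : Rows
  σ : ℕ → List ℕ
  lam : ℕ → ℝ
  P : ℕ → ℕ
  S : ℕ → ℕ

open Classical in
/-- the type of the next step -/
private noncomputable def SysY_c (s : SysY_St) : Bool := decide (s.lam s.R.a < s.lam s.R.b)

/-- the data at the next level -/
private noncomputable def SysY_nx (s : SysY_St) : SysY_St :=
  ⟨step (SysY_c s) s.R, stepW (SysY_c s) s.R s.σ, stepL (SysY_c s) s.R s.lam,
    stepP (SysY_c s) s.R s.P s.S, stepS (SysY_c s) s.R s.P s.S⟩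

/-- the data at all levels -/
private noncomputable def SysY_s {d : ℕ} (E : Exchange d) : ℕ → SysY_St
  | 0 => ⟨rowsE E, fun x => [x], lamE E, fun _ => 0, fun _ => 0⟩
  | t + 1 => SysY_nx (SysY_s E t)

private theorem SysY_lt {d : ℕ} {E : Exchange d} (hd : 2 ≤ d) (hi : E.Irreducible) (hK : E.Keane)
    {s : SysY_St} (h : Geo E s.R s.σ s.lam) :
    s.lam (los (SysY_c s) s.R) < s.lam (win (SysY_c s) s.R) := by
  have hne := geo_ne hd hi hK h
  by_cases hc : s.lam s.R.a < s.lam s.R.b
  · have h1 : SysY_c s = true := by simp [SysY_c, hc]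
    rw [h1]
    exact hc
  · have h1 : SysY_c s = false := by simp [SysY_c, hc]
    rw [h1]
    exact lt_of_le_of_ne (not_lt.1 hc) (Ne.symm hne)

private theorem SysY_geo {d : ℕ} {E : Exchange d} (hd : 2 ≤ d) (hi : E.Irreducible) (hK : E.Keane)
    (t : ℕ) : Geo E (SysY_s E t).R (SysY_s E t).σ (SysY_s E t).lam := by
  induction t with
  | zero => exact (geo_init E hd hi).1
  | succ t ih =>
    have hlt := SysY_lt hd hi hK ih
    show Geo E (step (SysY_c (SysY_s E t)) (SysY_s E t).R)
      (stepW (SysY_c (SysY_s E t)) (SysY_s E t).R (SysY_s E t).σ)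
      (stepL (SysY_c (SysY_s E t)) (SysY_s E t).R (SysY_s E t).lam)
    cases hc : SysY_c (SysY_s E t) with
    | true =>
      rw [hc] at hlt
      exact geo_true ih hlt
    | false =>
      rw [hc] at hlt
      exact geo_false ih hlt

private theorem SysY_inv {d : ℕ} {E : Exchange d} (hd : 2 ≤ d) (hi : E.Irreducible) (hK : E.Keane)
    (t : ℕ) : InvN d (SysY_s E t).R (SysY_s E t).σ (SysY_s E t).P (SysY_s E t).S ∧
      InvT (SysY_s E t).R (SysY_s E t).σ (SysY_s E t).P ∧
      InvB (SysY_s E t).R (SysY_s E t).σ (SysY_s E t).S := by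
  induction t with
  | zero => exact inv_base (geo_init E hd hi).1.ri
  | succ t ih => exact inv_step (SysY_geo hd hi hK t).ri ih.1 ih.2.1 ih.2.2 _

private theorem SysY_ent {d : ℕ} {E : Exchange d} (hd : 2 ≤ d) (hi : E.Irreducible) (hK : E.Keane)
    {x : ℝ} (hx : x ∈ Set.Ico (0 : ℝ) 1) (t : ℕ) :
    ∃ n, 0 ≤ E.T^[n] x ∧ E.T^[n] x < tot (SysY_s E t).lam (SysY_s E t).R.top := by
  induction t with
  | zero =>
    refine ⟨0, hx.1, ?_⟩
    have h1 : tot (SysY_s E 0).lam (SysY_s E 0).R.top = 1 := (geo_init E hd hi).2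
    rw [h1]
    exact hx.2
  | succ t ih =>
    obtain ⟨n, h0, h1⟩ := ih
    obtain ⟨m, h2, h3⟩ := enter (SysY_geo hd hi hK t) (SysY_lt hd hi hK (SysY_geo hd hi hK t)) h0 h1
    refine ⟨m + n, ?_, ?_⟩
    · rw [Function.iterate_add_apply]
      exact h2
    · rw [Function.iterate_add_apply]
      exact h3

theorem sysZ_ex {d : ℕ} (hd : 2 ≤ d) {E : Exchange d} (hi : E.Irreducible) (hK : E.Keane) {u : ℕ → Fin d}
    (hu : E.IsCoding u) :
    ∃ 𝒮 : Sys d fun n => (u n : ℕ), 𝒮.R 0 = rowsE E ∧ 𝒮.P 0 = (fun _ => 0) ∧ 𝒮.S 0 = fun _ => 0 := by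
  obtain ⟨x, hx, hux⟩ := hu
  have hgeo := SysY_geo hd hi hK
  have hri : ∀ t, RI d (SysY_s E t).R := fun t => (hgeo t).ri
  have hR : ∀ t, (SysY_s E (t + 1)).R = step (SysY_c (SysY_s E t)) (SysY_s E t).R := fun t => rfl
  have hσ : ∀ t, (SysY_s E (t + 1)).σ =
      stepW (SysY_c (SysY_s E t)) (SysY_s E t).R (SysY_s E t).σ := fun t => rfl
  have hLP : LP d (fun t => (SysY_s E t).R) (fun t => SysY_c (SysY_s E t))
      (fun t => (SysY_s E t).lam) :=
    ⟨hri, hR, fun t => (hgeo t).pos, fun t => rfl⟩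
  have hwin := win_comb (d := d) (R := fun t => (SysY_s E t).R)
    (c := fun t => SysY_c (SysY_s E t)) hri hR (fun y hy ⟨n, hn⟩ => lose_fin hLP hy hn)
  have hpos := pos_all (d := d) (R := fun t => (SysY_s E t).R)
    (c := fun t => SysY_c (SysY_s E t)) hri hR hwin
  exact ⟨
    { R := fun t => (SysY_s E t).R
      c := fun t => SysY_c (SysY_s E t)
      σ := fun t => (SysY_s E t).σ
      P := fun t => (SysY_s E t).P
      S := fun t => (SysY_s E t).S
      ri := hri
      hR := hR
      hσ := hσ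
      hP := fun t => rfl
      hS := fun t => rfl
      iN := fun t => (SysY_inv hd hi hK t).1
      iT := fun t => (SysY_inv hd hi hK t).2.1
      iB := fun t => (SysY_inv hd hi hK t).2.2
      blk := fun t => by
        obtain ⟨s, hs⟩ := hpos t
        obtain ⟨n, h0, h1⟩ := SysY_ent hd hi hK hx (t + s)
        have hw := blk_weak (hgeo (t + s)) hux h0 h1
        exact blk_up (by omega) hw
          (fun y hy => (relW_flat (R := fun t => (SysY_s E t).R)
            (c := fun t => SysY_c (SysY_s E t)) (σ := fun t => (SysY_s E t).σ) hri hσ t s hy).1)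
          (fun y hy => (relW_flat (R := fun t => (SysY_s E t).R)
            (c := fun t => SysY_c (SysY_s E t)) (σ := fun t => (SysY_s E t).σ) hri hσ t s hy).2)
          hs
      hts := hts_of (R := fun t => (SysY_s E t).R) (c := fun t => SysY_c (SysY_s E t)) hd hri
        (σ := fun t => (SysY_s E t).σ) hσ (fun y _ => List.cons_ne_nil _ _) hpos }, rfl, rfl, rfl⟩

theorem sysY_ex {d : ℕ} (hd : 2 ≤ d) {E : Exchange d} (hi : E.Irreducible) (hK : E.Keane) {u : ℕ → Fin d}
    (hu : E.IsCoding u) : ∃ 𝒮 : Sys d fun n => (u n : ℕ), 𝒮.R 0 = rowsE E := by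
  obtain ⟨𝒮, h, -⟩ := sysZ_ex hd hi hK hu
  exact ⟨𝒮, h⟩

end Pool.Agent.RTX
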