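import Pool.Agent.RTX.FinL
import Pool.Agent.RTS.SysY
import Pool.Agent.RTS.GoldD
import Pool.Agent.RTS.G5
import Pool.Agent.RTS.Cov

/-!
# RTS/Fin: the lower bound for symmetric exchanges of five intervals

`(11 + √13) / 6` is a lower bound of the critical exponents of all codings of exchanges of five intervals with the permutation
`j ↦ 6 - j` and Keane's condition.
-/

set_option autoImplicit false
set_option maxRecDepth 100000

namespace Pool.Agent.RTX

open Pool.Agent.Helper44.IET Pool.Agent.Helper28.IET3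

theorem clo5_ok : cloOK par5A.d S5_15 = true := by decide +kernel

theorem low5s_sys {u : ℕ → ℕ} (𝒮 : Sys 5 u) (h0 : canon (𝒮.R 0) = [4, 3, 2, 1, 0]) :
    ∀ ε : ℝ, 0 < ε → ∀ m : ℕ, ∃ i p l : ℕ, 0 < p ∧ m ≤ p ∧ HasPower u i p l ∧
      ((11 + Real.sqrt 13) / 6 - ε) * p ≤ l := by
  have h13 : Real.sqrt 13 ^ 2 = 13 := Real.sq_sqrt (by norm_num)
  have hlo : 3.6 < Real.sqrt 13 := by
    rw [show (3.6 : ℝ) = Real.sqrt (3.6 ^ 2) by rw [Real.sqrt_sq (by norm_num)]]
    exact Real.sqrt_lt_sqrt (by norm_num) (by norm_num)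
  have hhi : Real.sqrt 13 < 3.6056 := by
    rw [show (3.6056 : ℝ) = Real.sqrt (3.6056 ^ 2) by rw [Real.sqrt_sq (by norm_num)]]
    exact Real.sqrt_lt_sqrt (by norm_num) (by norm_num)
  have hmem : memL (canon (𝒮.R 0)) S5_15 = true := by
    rw [h0]
    decide +kernel
  have hlam : ((11 + 3 * Real.sqrt 13) / 2 : ℝ) ^ 2 - ((11 : ℤ) : ℝ) * ((11 + 3 * Real.sqrt 13) / 2) + 1 = 0 := by
    push_cast
    nlinarith
  have hlam1 : (1 : ℝ) < (11 + 3 * Real.sqrt 13) / 2 := by linarith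
  have hκ : (11 + Real.sqrt 13) / 6 ≤ 1 + ((11 + 3 * Real.sqrt 13) / 2 + ((2 : ℤ) : ℝ)) / ((9 : ℤ) : ℝ) := by
    push_cast
    linarith
  rcases dichT (A := par5A) (B := par5B) cf5_15 clo5_ok sec5A sec5B 𝒮 hmem with h | ⟨t0, h⟩ | ⟨t0, h⟩
  · refine fb_case (A := par5A) (by decide) ?_ 𝒮 h
    have h1 : ((par5A.P : ℤ) : ℝ) = 142 := by norm_num [par5A]
    have h2 : ((par5A.Q : ℤ) : ℝ) = 99 := by norm_num [par5A]
    rw [h1, h2]
    linarith
  · exact gold_caseT (A := par5A) (D := gd5A) gd5A_ok (by decide) (by decide) hlam hlam1 hκ 𝒮 h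
  · exact gold_caseT (A := par5B) (D := gd5B) gd5B_ok (by decide) (by decide) hlam hlam1 hκ 𝒮 h

/-- An exchange with the permutation `j ↦ 6 - j` is irreducible. -/
theorem irr_rev {E : Exchange 5} (hE : E.perm = Fin.revPerm) : E.Irreducible := by
  intro k hk0 hk5 h
  have h1 := h 0 hk0
  rw [hE] at h1
  have h2 : ((Fin.revPerm (0 : Fin 5) : Fin 5) : ℕ) = 4 := by decide
  rw [h2] at h1
  omega

theorem canon_rev {E : Exchange 5} (hE : E.perm = Fin.revPerm) : canon (rowsE E) = [4, 3, 2, 1, 0] := by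
  unfold rowsE botE
  rw [hE]
  decide

/-- Every coding of a symmetric exchange of five intervals with Keane's condition has critical exponent and asymptotic
critical exponent at least `(11 + √13) / 6`. -/
theorem low5s {E : Exchange 5} (hE : E.perm = Fin.revPerm) (hK : E.Keane) {u : ℕ → Fin 5} (hu : E.IsCoding u) :
    (((11 + Real.sqrt 13) / 6 : ℝ) : EReal) ≤ critExp u ∧
      (((11 + Real.sqrt 13) / 6 : ℝ) : EReal) ≤ asympCritExp u := by
  obtain ⟨𝒮, h0⟩ := sysY_ex (by norm_num) (irr_rev hE) hK hu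
  refine crit_of_runs u _ fun ε hε m => ?_
  obtain ⟨i, p, l, hp, hm, hpow, hl⟩ := low5s_sys 𝒮 (by rw [h0]; exact canon_rev hE) ε hε m
  exact ⟨i, p, l, hp, hm, fun j hj => Fin.ext (hpow j hj), hl⟩

end Pool.Agent.RTX
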