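import Pool.Agent.RTS.Fin
import Pool.Agent.RTS.E5

/-!
# RTS/FinR: the critical exponent of codings of symmetric exchanges of five intervals

Every coding contains a power with exponent at least `353/145` among the first levels of the induction.
-/

set_option autoImplicit false

namespace Pool.Agent.RTX

open Pool.Agent.Helper44.IET Pool.Agent.Helper28.IET3

theorem rows_rev {E : Exchange 5} (hE : E.perm = Fin.revPerm) : rowsE E = rows0 5 [4, 3, 2, 1, 0] := by
  unfold rowsE botE
  rw [hE]
  rfl

/-- Every coding of a symmetric exchange of five intervals with Keane's condition has critical exponent at least `353/145`. -/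
theorem low5r {E : Exchange 5} (hE : E.perm = Fin.revPerm) (hK : E.Keane) {u : ℕ → Fin 5} (hu : E.IsCoding u) :
    ((353 / 145 : ℝ) : EReal) ≤ critExp u := by
  obtain ⟨𝒮, h0, hP, hS⟩ := sysZ_ex (by norm_num) (irr_rev hE) hK hu
  obtain ⟨j, p, l, hp, hpow, hle⟩ := e5_all _ 𝒮 (h0.trans (rows_rev hE)) hP hS (fun j hj => by simp at hj)
  have hpow' : HasPower u j p (p + l) := fun i hi => Fin.ext (hpow i hi)
  have hp' : (0 : ℝ) < p := by exact_mod_cast hp
  have h1 : (353 / 145 : ℝ) ≤ ((p + l : ℕ) : ℝ) / (p : ℝ) := by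
    rw [le_div_iff₀ hp']
    have h2 : (208 : ℝ) * p ≤ 145 * l := by exact_mod_cast hle
    push_cast
    linarith
  have h3 : (((((p + l : ℕ) : ℝ) / (p : ℝ) : ℝ)) : EReal) ≤ critExp u := by
    unfold critExp
    exact le_iSup_of_le j (le_iSup_of_le p (le_iSup_of_le (p + l) (le_iSup_of_le hp (le_iSup_of_le hpow' le_rfl))))
  exact le_trans (EReal.coe_le_coe_iff.2 h1) h3

end Pool.Agent.RTX
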