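import Pool.Agent.RTS.Two

/-!
# RTS/GoldT: two patterns along the golden loop

The golden surfaces have an extra symmetry: only the sums of the periods and of the lengths of the runs of two symmetric patterns satisfy the
recurrences of `goldOK`.  One of the two patterns is at least as good as the sums.
-/

set_option autoImplicit false

namespace Pool.Agent.RTX

open Pool.Agent.Helper44.IET (HasPower)

/-- The data with the second pattern. -/
def Gd.snd (D : Gd) (pt : Pat) (m : ℕ) : Gd := ⟨D.gpp, pt, m, D.c, D.A, D.B, D.ys1, D.ys2⟩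

/-- Sum of the two forms of the runs. -/
def gNT (A : Par) (D E : Gd) : LF := lin 1 (gN A D) 1 (gN A E)

/-- Sum of the two forms of the periods. -/
def gVT (A : Par) (D E : Gd) : LF := lin 1 (gV A D) 1 (gV A E)

/-- The sum of the periods one loop later. -/
def gVT1 (A : Par) (D E : Gd) : LF := pull D.gpp (rows0 A.d A.g0) (gVT A D E)

/-- The sum of the periods two loops later. -/
def gVT2 (A : Par) (D E : Gd) : LF := pull D.gpp (rows0 A.d A.g0) (gVT1 A D E)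

/-- The invariant form `A N - V' - B V`. -/
def gFT (A : Par) (D E : Gd) : LF := lin 1 (lin D.A (gNT A D E) (-1) (gVT1 A D E)) (-D.B) (gVT A D E)

/-- Check of the golden data with two patterns (`n` loops). -/
def goldOKT (A : Par) (D : Gd) (pt : Pat) (m n : ℕ) : Bool :=
  Nat.blt 0 n && Nat.blt 0 A.gp.length && eqB D.gpp (repB n A.gp) &&
  eqL (runR D.gpp (rows0 A.d A.g0)).top (List.range A.d) && eqL (runR D.gpp (rows0 A.d A.g0)).bot A.g0 &&
  Nat.ble (D.pt.s + D.m) (D.gpp.length + D.gpp.length) && Nat.ble D.pt.s D.gpp.length &&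
  patChk A.d (gW D) (gR A D) D.pt &&
  Nat.ble (pt.s + m) (D.gpp.length + D.gpp.length) && Nat.ble pt.s D.gpp.length &&
  patChk A.d (gW (D.snd pt m)) (gR A (D.snd pt m)) pt &&
  bdd A.K (rows0 A.d A.g0) D.ys1
    (lin 1 (lin 1 (gVT2 A D (D.snd pt m)) (-D.c) (gVT1 A D (D.snd pt m))) 1 (gVT A D (D.snd pt m))) &&
  bdd A.K (rows0 A.d A.g0) D.ys2
    (lin 1 (pull D.gpp (rows0 A.d A.g0) (gFT A D (D.snd pt m))) (-1) (gFT A D (D.snd pt m)))

private theorem gt_eqB (l m : List Bool) (h : eqB l m = true) : l = m := by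
  induction l generalizing m with
  | nil =>
    cases m with
    | nil => rfl
    | cons y m => exact absurd h (by simp [eqB])
  | cons x l ih =>
    cases m with
    | nil => exact absurd h (by simp [eqB])
    | cons y m =>
      rw [eqB, Bool.and_eq_true, beq_iff_eq] at h
      rw [h.1, ih m h.2]

private theorem gt_rep (n : ℕ) (g : List Bool) : repB (n + 1) g = g ++ repB n g := by
  unfold repB
  rw [List.replicate_succ, List.flatten_cons]

private theorem gt_len (n : ℕ) (g : List Bool) : (repB n g).length = n * g.length := by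
  induction n with
  | zero =>
    unfold repB
    simp
  | succ n ih =>
    rw [gt_rep, List.length_append, ih]
    ring

private theorem gt_fol {c : ℕ → Bool} {g : List Bool} (hg : ∀ k, Fol c (k * g.length) g) (n : ℕ) :
    ∀ k, Fol c (k * g.length) (repB n g) := by
  induction n with
  | zero =>
    intro k j hj
    rw [gt_len] at hj
    omega
  | succ n ih =>
    intro k
    rw [gt_rep, fol_append]
    refine ⟨hg k, ?_⟩
    have h1 := ih (k + 1)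
    rw [add_mul, one_mul] at h1
    exact h1

/-- The sequences of one pattern along a periodic path. -/
theorem gold_pat {A : Par} {D : Gd} {u : ℕ → ℕ} (𝒮 : Sys A.d u)
    (hfol : ∀ k, Fol 𝒮.c (k * D.gpp.length) D.gpp) (hR : ∀ k, 𝒮.R (k * D.gpp.length) = rows0 A.d A.g0)
    (hsm : D.pt.s + D.m ≤ D.gpp.length + D.gpp.length) (hs : D.pt.s ≤ D.gpp.length)
    (hpat : patChk A.d (gW D) (gR A D) D.pt = true) :
    ∃ V N : ℕ → ℕ, (gN A D).ok A.d ∧ (gV A D).ok A.d ∧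
      (∀ k, (gN A D).ev (𝒮.P (k * D.gpp.length)) (𝒮.S (k * D.gpp.length)) = N k) ∧
      (∀ k, (gV A D).ev (𝒮.P (k * D.gpp.length)) (𝒮.S (k * D.gpp.length)) = V k) ∧
      (∀ k m, 𝒮.high (k * D.gpp.length) m → m ≤ V k) ∧ (∀ k, 0 < V k) ∧
      ∀ k, ∃ j, HasPower u j (V k) (V k + N k) := by
  have hts : (D.gpp.take D.pt.s).length = D.pt.s := by
    rw [List.length_take]
    omega
  have hf1 : ∀ k, Fol 𝒮.c (k * D.gpp.length) (D.gpp.take D.pt.s) := by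
    intro k
    have h1 := hfol k
    rw [← List.take_append_drop D.pt.s D.gpp, fol_append] at h1
    rw [List.take_append_drop] at h1
    exact h1.1
  have hRs : ∀ k, 𝒮.R (k * D.gpp.length + D.pt.s) = gR A D := by
    intro k
    have h1 := sys_runR 𝒮 (hf1 k)
    rw [hts, hR k] at h1
    exact h1.symm
  have hf2 : ∀ k, Fol 𝒮.c (k * D.gpp.length + D.pt.s) (gW D) := by
    intro k
    have h1 : Fol 𝒮.c (k * D.gpp.length) (D.gpp ++ D.gpp) := by
      rw [fol_append]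
      refine ⟨hfol k, ?_⟩
      have h2 := hfol (k + 1)
      rw [add_mul, one_mul] at h2
      exact h2
    have h3 : ((D.gpp ++ D.gpp).take D.pt.s).length = D.pt.s := by
      rw [List.length_take, List.length_append]
      omega
    have h4 : D.gpp ++ D.gpp = (D.gpp ++ D.gpp).take D.pt.s ++ (gW D ++ ((D.gpp ++ D.gpp).drop D.pt.s).drop D.m) := by
      unfold gW
      rw [List.take_append_drop, List.take_append_drop]
    rw [h4, fol_append, h3, fol_append] at h1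
    exact h1.2.1
  have hpt : ∀ k, (patN A.d (gR A D) (gZ A D) D.pt).ok A.d ∧ (patV A.d (gZ A D) D.pt).ok A.d ∧
      ∃ j p l : ℕ, (p : ℤ) = (patV A.d (gZ A D) D.pt).ev (𝒮.P (k * D.gpp.length + D.pt.s))
          (𝒮.S (k * D.gpp.length + D.pt.s)) ∧
        (l : ℤ) = (patN A.d (gR A D) (gZ A D) D.pt).ev (𝒮.P (k * D.gpp.length + D.pt.s))
          (𝒮.S (k * D.gpp.length + D.pt.s)) ∧
        0 < p ∧ HasPower u j p (p + l) ∧ ∀ m, 𝒮.high (k * D.gpp.length + D.pt.s) m → m ≤ p := by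
    intro k
    have hc : patChk A.d (gW D) (𝒮.R (k * D.gpp.length + D.pt.s)) D.pt = true := by
      rw [hRs k]
      exact hpat
    have h1 := pat_sound 𝒮 (hf2 k) hc
    rw [hRs k] at h1
    exact h1
  have okN := (hpt 0).1
  have okV := (hpt 0).2.1
  choose j V N hV hN hV0 hpow hhigh using fun k => (hpt k).2.2
  refine ⟨V, N, ?_, ?_, fun k => ?_, fun k => ?_,
    fun k m hm => hhigh k m (sys_mono 𝒮 (Nat.le_add_right _ _) hm), hV0, fun k => ⟨j k, hpow k⟩⟩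
  · have h1 := (ev_pull 𝒮 (hf1 0) okN).2
    rw [hR 0] at h1
    exact h1
  · have h1 := (ev_pull 𝒮 (hf1 0) okV).2
    rw [hR 0] at h1
    exact h1
  · have h1 := (ev_pull 𝒮 (hf1 k) okN).1
    rw [hR k, hts, ← hN k] at h1
    exact h1
  · have h1 := (ev_pull 𝒮 (hf1 k) okV).1
    rw [hR k, hts, ← hV k] at h1
    exact h1

theorem gold_seqT {A : Par} {D : Gd} {pt : Pat} {m' n : ℕ} (h : goldOKT A D pt m' n = true) {u : ℕ → ℕ}
    (𝒮 : Sys A.d u) (h0 : 𝒮.R 0 = rows0 A.d A.g0) (hg : ∀ k, Fol 𝒮.c (k * A.gp.length) A.gp) :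
    ∃ V N V' N' : ℕ → ℕ, (∀ k m, 𝒮.high (k * D.gpp.length) m → m ≤ V k) ∧ (∀ k, 0 < V k) ∧
      (∀ k, ∃ j, HasPower u j (V k) (V k + N k)) ∧
      (∀ k m, 𝒮.high (k * D.gpp.length) m → m ≤ V' k) ∧ (∀ k, 0 < V' k) ∧
      (∀ k, ∃ j, HasPower u j (V' k) (V' k + N' k)) ∧
      (∀ k, D.c * ((V (k + 1) + V' (k + 1) : ℕ) : ℤ) - ((V k + V' k : ℕ) : ℤ) - A.K ≤ ((V (k + 2) + V' (k + 2) : ℕ) : ℤ)) ∧
      ∀ k, D.A * ((N k + N' k : ℕ) : ℤ) - ((V (k + 1) + V' (k + 1) : ℕ) : ℤ) - D.B * ((V k + V' k : ℕ) : ℤ) - A.K ≤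
        D.A * ((N (k + 1) + N' (k + 1) : ℕ) : ℤ) - ((V (k + 2) + V' (k + 2) : ℕ) : ℤ) -
          D.B * ((V (k + 1) + V' (k + 1) : ℕ) : ℤ) := by
  unfold goldOKT at h
  simp only [Bool.and_eq_true, Nat.blt_eq, Nat.ble_eq, eqL_iff] at h
  obtain ⟨⟨⟨⟨⟨⟨⟨⟨⟨⟨⟨⟨-, -⟩, hgpp⟩, htop⟩, hbot⟩, hsm⟩, hs⟩, hpat⟩, hsm'⟩, hs'⟩, hpat'⟩, hb1⟩, hb2⟩ := h
  have hgpp' := gt_eqB _ _ hgpp
  have hlen : D.gpp.length = n * A.gp.length := by rw [hgpp', gt_len]
  have hfol : ∀ k, Fol 𝒮.c (k * D.gpp.length) D.gpp := by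
    intro k
    have h1 := gt_fol hg n (k * n)
    rw [← hgpp', mul_assoc, ← hlen] at h1
    exact h1
  have hrun : runR D.gpp (rows0 A.d A.g0) = rows0 A.d A.g0 := by
    have h1 : ∀ R : Rows, R.top = List.range A.d → R.bot = A.g0 → R = rows0 A.d A.g0 := by
      rintro ⟨t, b⟩ rfl rfl
      rfl
    exact h1 _ htop hbot
  have hR : ∀ k, 𝒮.R (k * D.gpp.length) = rows0 A.d A.g0 := by
    intro k
    induction k with
    | zero =>
      rw [zero_mul]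
      exact h0
    | succ k ih =>
      rw [add_mul, one_mul, ← sys_runR 𝒮 (hfol k), ih, hrun]
  obtain ⟨V, N, okN, okV, eN, eV, hhi, hV0, hpow⟩ := gold_pat 𝒮 hfol hR hsm hs hpat
  obtain ⟨V', N', okN', okV', eN', eV', hhi', hV0', hpow'⟩ :=
    gold_pat (D := D.snd pt m') 𝒮 hfol hR hsm' hs' hpat'
  have eN2 : ∀ k, (gN A (D.snd pt m')).ev (𝒮.P (k * D.gpp.length)) (𝒮.S (k * D.gpp.length)) = N' k := eN'
  have eV2 : ∀ k, (gV A (D.snd pt m')).ev (𝒮.P (k * D.gpp.length)) (𝒮.S (k * D.gpp.length)) = V' k := eV'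
  have okNT : (gNT A D (D.snd pt m')).ok A.d := (ev_lin okN okN' 1 1 (𝒮.P 0) (𝒮.S 0)).2
  have okVT : (gVT A D (D.snd pt m')).ok A.d := (ev_lin okV okV' 1 1 (𝒮.P 0) (𝒮.S 0)).2
  have eNT : ∀ k, (gNT A D (D.snd pt m')).ev (𝒮.P (k * D.gpp.length)) (𝒮.S (k * D.gpp.length)) =
      ((N k + N' k : ℕ) : ℤ) := by
    intro k
    have h1 := (ev_lin okN okN' 1 1 (𝒮.P (k * D.gpp.length)) (𝒮.S (k * D.gpp.length))).1
    rw [eN, eN2] at h1
    have h2 : (gNT A D (D.snd pt m')).ev (𝒮.P (k * D.gpp.length)) (𝒮.S (k * D.gpp.length)) =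
      1 * (N k : ℤ) + 1 * (N' k : ℤ) := h1
    rw [h2]
    push_cast
    ring
  have eVT : ∀ k, (gVT A D (D.snd pt m')).ev (𝒮.P (k * D.gpp.length)) (𝒮.S (k * D.gpp.length)) =
      ((V k + V' k : ℕ) : ℤ) := by
    intro k
    have h1 := (ev_lin okV okV' 1 1 (𝒮.P (k * D.gpp.length)) (𝒮.S (k * D.gpp.length))).1
    rw [eV, eV2] at h1
    have h2 : (gVT A D (D.snd pt m')).ev (𝒮.P (k * D.gpp.length)) (𝒮.S (k * D.gpp.length)) =
      1 * (V k : ℤ) + 1 * (V' k : ℤ) := h1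
    rw [h2]
    push_cast
    ring
  have hpull : ∀ {F : LF}, F.ok A.d → (pull D.gpp (rows0 A.d A.g0) F).ok A.d ∧ ∀ k,
      (pull D.gpp (rows0 A.d A.g0) F).ev (𝒮.P (k * D.gpp.length)) (𝒮.S (k * D.gpp.length)) =
        F.ev (𝒮.P ((k + 1) * D.gpp.length)) (𝒮.S ((k + 1) * D.gpp.length)) := by
    intro F hF
    refine ⟨?_, fun k => ?_⟩
    · have h1 := (ev_pull 𝒮 (hfol 0) hF).2
      rw [hR 0] at h1
      exact h1
    · have h1 := (ev_pull 𝒮 (hfol k) hF).1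
      rw [hR k] at h1
      rw [add_mul, one_mul]
      exact h1
  obtain ⟨okV1, eV1⟩ := hpull okVT
  obtain ⟨okV2, eV22⟩ := hpull okV1
  have okF : (gFT A D (D.snd pt m')).ok A.d := by
    have h1 := (ev_lin okNT okV1 D.A (-1) (𝒮.P 0) (𝒮.S 0)).2
    exact (ev_lin h1 okVT 1 (-D.B) (𝒮.P 0) (𝒮.S 0)).2
  obtain ⟨okPF, ePF⟩ := hpull okF
  have eF : ∀ k, (gFT A D (D.snd pt m')).ev (𝒮.P (k * D.gpp.length)) (𝒮.S (k * D.gpp.length)) =
      D.A * ((N k + N' k : ℕ) : ℤ) - ((V (k + 1) + V' (k + 1) : ℕ) : ℤ) - D.B * ((V k + V' k : ℕ) : ℤ) := by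
    intro k
    have h1 := ev_lin okNT okV1 D.A (-1) (𝒮.P (k * D.gpp.length)) (𝒮.S (k * D.gpp.length))
    have h2 := (ev_lin h1.2 okVT 1 (-D.B) (𝒮.P (k * D.gpp.length)) (𝒮.S (k * D.gpp.length))).1
    rw [h1.1, eNT, eVT, eV1, eVT] at h2
    have h3 : (gFT A D (D.snd pt m')).ev (𝒮.P (k * D.gpp.length)) (𝒮.S (k * D.gpp.length)) =
      1 * (D.A * ((N k + N' k : ℕ) : ℤ) + -1 * ((V (k + 1) + V' (k + 1) : ℕ) : ℤ)) +
        -D.B * ((V k + V' k : ℕ) : ℤ) := h2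
    rw [h3]
    ring
  refine ⟨V, N, V', N', hhi, hV0, hpow, hhi', hV0', hpow', fun k => ?_, fun k => ?_⟩
  · have h1 := ev_lin okV2 okV1 1 (-D.c) (𝒮.P (k * D.gpp.length)) (𝒮.S (k * D.gpp.length))
    have h2 := ev_lin h1.2 okVT 1 1 (𝒮.P (k * D.gpp.length)) (𝒮.S (k * D.gpp.length))
    have hri := 𝒮.ri (k * D.gpp.length)
    have hiN := 𝒮.iN (k * D.gpp.length)
    rw [hR k] at hri hiN
    have h3 := bdd_sound hri hiN h2.2 hb1
    rw [h2.1, h1.1, eV22, eV1, eV1, eVT, eVT, eVT] at h3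
    have h4 : -A.K ≤ 1 * (1 * ((V (k + 1 + 1) + V' (k + 1 + 1) : ℕ) : ℤ) +
      -D.c * ((V (k + 1) + V' (k + 1) : ℕ) : ℤ)) + 1 * ((V k + V' k : ℕ) : ℤ) := h3
    have h5 : D.c * ((V (k + 1) + V' (k + 1) : ℕ) : ℤ) - ((V k + V' k : ℕ) : ℤ) - A.K ≤
      ((V (k + 1 + 1) + V' (k + 1 + 1) : ℕ) : ℤ) := by linarith
    exact h5
  · have h1 := ev_lin okPF okF 1 (-1) (𝒮.P (k * D.gpp.length)) (𝒮.S (k * D.gpp.length))
    have hri := 𝒮.ri (k * D.gpp.length)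
    have hiN := 𝒮.iN (k * D.gpp.length)
    rw [hR k] at hri hiN
    have h3 := bdd_sound hri hiN h1.2 hb2
    rw [h1.1, ePF, eF, eF] at h3
    have h5 : D.A * ((N k + N' k : ℕ) : ℤ) - ((V (k + 1) + V' (k + 1) : ℕ) : ℤ) -
        D.B * ((V k + V' k : ℕ) : ℤ) - A.K ≤
        D.A * ((N (k + 1) + N' (k + 1) : ℕ) : ℤ) - ((V (k + 1 + 1) + V' (k + 1 + 1) : ℕ) : ℤ) -
          D.B * ((V (k + 1) + V' (k + 1) : ℕ) : ℤ) := by linarith
    exact h5

private theorem gt_gpp {A : Par} {D : Gd} {pt : Pat} {m n : ℕ} (h : goldOKT A D pt m n = true) :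
    0 < D.gpp.length := by
  unfold goldOKT at h
  simp only [Bool.and_eq_true] at h
  obtain ⟨⟨⟨⟨⟨⟨⟨⟨⟨⟨⟨⟨hn, hg⟩, he⟩, -⟩, -⟩, -⟩, -⟩, -⟩, -⟩, -⟩, -⟩, -⟩, -⟩ := h
  have hn' : 1 ≤ n := by simpa [Nat.blt, Nat.ble_eq] using hn
  have hg' : 1 ≤ A.gp.length := by simpa [Nat.blt, Nat.ble_eq] using hg
  rw [gt_eqB _ _ he, gt_len]
  exact Nat.mul_pos (by omega) (by omega)

/-- Golden for ever, two patterns. -/
theorem gold_caseT {A : Par} {D : Gd} {pt : Pat} {m' n : ℕ} (hg : goldOKT A D pt m' n = true) (hc3 : 3 ≤ D.c)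
    (hA : 0 < D.A) {lam κ : ℝ} (hl : lam ^ 2 - D.c * lam + 1 = 0) (hl1 : 1 < lam)
    (hκ2 : κ ≤ 1 + (lam + D.B) / D.A) {u : ℕ → ℕ} (𝒮 : Sys A.d u) {t0 : ℕ}
    (h : ∀ n, 𝒮.gold A (t0 + n * A.gp.length)) :
    ∀ ε : ℝ, 0 < ε → ∀ m : ℕ, ∃ i p l : ℕ, 0 < p ∧ m ≤ p ∧ HasPower u i p l ∧ (κ - ε) * p ≤ l := by
  intro ε hε m
  obtain ⟨𝒯, hT0, hTc, -, hThigh⟩ := exists_canon (𝒮.shift t0)
  have hR : 𝒯.R 0 = rows0 A.d A.g0 := by
    rw [hT0]
    have := (h 0).1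
    rw [zero_mul, Nat.add_zero] at this
    show rows0 A.d (canon (𝒮.R (t0 + 0))) = _
    rw [Nat.add_zero, this]
  have hF : ∀ k, Fol 𝒯.c (k * A.gp.length) A.gp := by
    intro k j hj
    rw [hTc]
    have := (h k).2 j hj
    show 𝒮.c (t0 + (k * A.gp.length + j)) = _
    rw [← Nat.add_assoc]
    exact this
  obtain ⟨V, N, V', N', hV, hpos, hpw, hV', hpos', hpw', h3, h4⟩ := gold_seqT hg 𝒯 hR hF
  have hgl := gt_gpp hg
  have hVinf : ∀ m, ∃ k0, ∀ k, k0 ≤ k → m ≤ V k ∧ m ≤ V' k := by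
    intro m
    obtain ⟨s0, hs0⟩ := 𝒯.hts m
    refine ⟨s0, fun k hk => ?_⟩
    have h5 : 𝒯.high (k * D.gpp.length) m := hs0 (k * D.gpp.length) (hk.trans (Nat.le_mul_of_pos_right k hgl))
    exact ⟨hV k m h5, hV' k m h5⟩
  obtain ⟨k0, hk0⟩ := real_lim (V := fun k => V k + V' k) (N := fun k => N k + N' k) hc3 hA hl hl1
    (fun k => by have := hpos k; show 0 < V k + V' k; omega)
    (fun m => by
      obtain ⟨k0, hk0⟩ := hVinf m
      exact ⟨k0, fun k hk => by have := (hk0 k hk).1; show m ≤ V k + V' k; omega⟩) h3 h4 ε hε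
  obtain ⟨k1, hk1⟩ := hVinf m
  obtain ⟨k, hk⟩ : ∃ k, k = max k0 k1 := ⟨_, rfl⟩
  have h5 := hk0 k (by rw [hk]; exact le_max_left k0 k1)
  have h6 := hk1 k (by rw [hk]; exact le_max_right k0 k1)
  obtain ⟨j, hj⟩ := hpw k
  obtain ⟨j', hj'⟩ := hpw' k
  have h7 : ((lam + D.B) / D.A - ε) * ((V k : ℝ) + V' k) ≤ (N k : ℝ) + N' k := by
    have := h5
    push_cast at this
    exact this
  have hp0 : (0 : ℝ) ≤ (V k : ℝ) := Nat.cast_nonneg _
  have hp0' : (0 : ℝ) ≤ (V' k : ℝ) := Nat.cast_nonneg _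
  by_cases h8 : ((lam + D.B) / D.A - ε) * (V k : ℝ) ≤ N k
  · refine ⟨j, V k, V k + N k, hpos _, h6.1, hj, ?_⟩
    push_cast
    nlinarith [mul_le_mul_of_nonneg_right hκ2 hp0]
  · have h9 : ((lam + D.B) / D.A - ε) * (V' k : ℝ) ≤ N' k := by
      push Not at h8
      nlinarith
    refine ⟨j', V' k, V' k + N' k, hpos' _, h6.2, hj', ?_⟩
    push_cast
    nlinarith [mul_le_mul_of_nonneg_right hκ2 hp0']

end Pool.Agent.RTX
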