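import Pool.Agent.RTX.Lower2

/-!
# RTS/Two: certified roots with two golden loops, and a class of vertices closed under the steps

`A` has the first golden loop.  `B` is only used for its golden loop `B.g0`, `B.gp`; from the second golden loop one may also go on to the first one.
-/

set_option autoImplicit false

namespace Pool.Agent.RTX

open Pool.Agent.Helper44.IET (HasPower)

private theorem rt_memL_iff (x : List ℕ) (l : List (List ℕ)) : memL x l = true ↔ x ∈ l := by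
  induction l with
  | nil => simp [memL]
  | cons y l ih => simp [memL, ih, eqL_iff]

private theorem rt_eqB (l m : List Bool) : eqB l m = true ↔ l = m := by
  induction l generalizing m with
  | nil => cases m <;> simp [eqB]
  | cons x l ih =>
    cases m with
    | nil => simp [eqB]
    | cons y m => simp [eqB, ih m]

private theorem rt_dropPre (p l l' : List Bool) : dropPre p l = some l' ↔ l = p ++ l' := by
  induction p generalizing l with
  | nil => simp [dropPre]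
  | cons x p ih =>
    cases l with
    | nil => simp [dropPre]
    | cons y l =>
      unfold dropPre
      by_cases h : x = y
      · subst h
        simp [ih l]
      · have h1 : (x == y) = false := by simpa using h
        rw [h1, cond_false]
        simp only [reduceCtorEq, List.cons_append, List.cons.injEq, false_iff, not_and]
        intro h2
        exact absurd h2.symm h

private theorem rt_fb {d : ℕ} {u : ℕ → ℕ} {𝒮 𝒯 : Sys d u} {A : Par} (hh : ∀ t m, 𝒯.high t m ↔ 𝒮.high t m)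
    {t : ℕ} (h : 𝒯.fb A t) : 𝒮.fb A t := fun m hm => h m ((hh t m).2 hm)

/-- A path that ends with the golden loop of `B`, read from canonical rows. -/
private theorem rt_gold {d : ℕ} {u : ℕ → ℕ} {𝒮 𝒯 : Sys d u} {B : Par} (hc : 𝒯.c = 𝒮.c)
    (hcan : ∀ t, canon (𝒯.R t) = canon (𝒮.R t)) {rt : Rows} (h0 : 𝒯.R 0 = rt) {j : ℕ}
    (h1 : gold1 B rt (pth 𝒯.c 0 j).reverse = true) : ∃ t, 𝒮.gold B t := by
  unfold gold1 at h1
  cases h2 : dropPre B.gp.reverse (pth 𝒯.c 0 j).reverse with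
  | none => rw [h2] at h1; simp at h1
  | some l =>
    rw [h2] at h1
    simp only [eqL_iff] at h1
    rw [rt_dropPre] at h2
    have h3 : pth 𝒯.c 0 j = l.reverse ++ B.gp := by
      rw [← List.reverse_reverse (pth 𝒯.c 0 j), h2, List.reverse_append, List.reverse_reverse]
    have h4 := (fol_pth 𝒯.c 0 j).1
    rw [h3, fol_append] at h4
    have h5 := sys_runR 𝒯 h4.1
    rw [h0] at h5
    rw [h5, hcan] at h1
    rw [hc] at h4
    exact ⟨0 + l.reverse.length, h1, h4.2⟩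

/-- The ranked roots `π :: rs` are certified, with the golden loops of `A` and `B`. -/
inductive CfdT (A B : Par) : List (List ℕ) → Prop
  | nil : CfdT A B []
  | cons (π : List ℕ) (rs : List (List ℕ)) (h : CfdT A B rs)
      (ht : Good A rs (rows0 A.d π) (fun gr => gold1 A (rows0 A.d π) gr || gold1 B (rows0 A.d π) gr) []) :
      CfdT A B (π :: rs)

theorem reachT {A B : Par} {rs : List (List ℕ)} (h : CfdT A B rs) :
    ∀ {u : ℕ → ℕ} (𝒮 : Sys A.d u), memL (canon (𝒮.R 0)) rs = true →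
      ∃ t, 𝒮.fb A t ∨ 𝒮.gold A t ∨ 𝒮.gold B t := by
  induction h with
  | nil => intro u 𝒮 hm; simp [memL] at hm
  | cons π rs h ht ih =>
    intro u 𝒮 hm
    rw [rt_memL_iff, List.mem_cons] at hm
    rcases hm with hm | hm
    · obtain ⟨𝒯, h0, hc, hcan, hhigh⟩ := exists_canon 𝒮
      rw [hm] at h0
      have hf : Fol 𝒯.c 0 ([] : List Bool).reverse := fun j hj => by simp at hj
      rcases ht u 𝒯 h0 hf with h1 | ⟨j, -, h1⟩ | ⟨j, -, h1⟩
      · exact ⟨0, Or.inl (rt_fb hhigh h1)⟩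
      · rw [hcan j] at h1
        obtain ⟨s, hs⟩ := ih (𝒮.shift j) h1
        rw [shift_fb, shift_gold, shift_gold] at hs
        exact ⟨j + s, hs⟩
      · rw [Bool.or_eq_true] at h1
        rcases h1 with h1 | h1
        · obtain ⟨t, ht⟩ := rt_gold hc hcan h0 h1
          exact ⟨t, Or.inr (Or.inl ht)⟩
        · obtain ⟨t, ht⟩ := rt_gold hc hcan h0 h1
          exact ⟨t, Or.inr (Or.inr ht)⟩
    · exact ih 𝒮 ((rt_memL_iff _ _).2 hm)

/-- From the golden loop of `B` one can only continue along it, or reach the golden loop of `A`. -/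
def SecT (A B : Par) : Prop :=
  ∀ (u : ℕ → ℕ) (𝒮 : Sys A.d u), 𝒮.gold B 0 → 𝒮.fb A 0 ∨ 𝒮.gold B B.gp.length ∨ ∃ t, 𝒮.gold A t

theorem secT_of {A B : Par} (h1 : eqL (canon (runR B.gp (rows0 A.d B.g0))) B.g0 = true)
    (h2 : Good A [] (rows0 A.d B.g0) (fun gr => gold2 B gr || gold1 A (rows0 A.d B.g0) gr) B.gp.reverse) :
    SecT A B := by
  rw [eqL_iff] at h1
  intro u 𝒮 hg
  obtain ⟨𝒯, h0, hc, hcan, hhigh⟩ := exists_canon 𝒮
  rw [hg.1] at h0
  have hf : Fol 𝒯.c 0 B.gp.reverse.reverse := by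
    rw [List.reverse_reverse, hc]
    exact hg.2
  have hf' : Fol 𝒯.c 0 B.gp := by rw [hc]; exact hg.2
  have hrun := sys_runR 𝒯 hf'
  rw [h0, Nat.zero_add] at hrun
  rcases h2 u 𝒯 h0 hf with h3 | ⟨j, -, h3⟩ | ⟨j, -, h3⟩
  · exact Or.inl (rt_fb hhigh h3)
  · simp [memL] at h3
  · right
    rw [Bool.or_eq_true] at h3
    rcases h3 with h3 | h3
    · left
      unfold gold2 at h3
      rw [rt_eqB] at h3
      have h4 : pth 𝒯.c 0 j = B.gp ++ B.gp := by
        rw [← List.reverse_reverse (pth 𝒯.c 0 j), h3, List.reverse_append, List.reverse_reverse]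
      have h5 := (fol_pth 𝒯.c 0 j).1
      rw [h4, fol_append, hc, Nat.zero_add] at h5
      refine ⟨?_, h5.2⟩
      rw [← hcan, ← hrun]
      exact h1
    · exact Or.inr (rt_gold hc hcan h0 h3)

/-- The list is closed under the steps. -/
def cloOK (d : ℕ) (L : List (List ℕ)) : Bool :=
  L.all fun π => memL (canon (step false (rows0 d π))) L && memL (canon (step true (rows0 d π))) L

theorem clo_mem {d : ℕ} {L : List (List ℕ)} (h : cloOK d L = true) {u : ℕ → ℕ} (𝒮 : Sys d u)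
    (h0 : memL (canon (𝒮.R 0)) L = true) : ∀ t, memL (canon (𝒮.R t)) L = true := by
  intro t
  induction t with
  | zero => exact h0
  | succ t ih =>
    obtain ⟨𝒯, hT0, -, hcan, -⟩ := exists_canon (𝒮.shift t)
    have h1 : 𝒯.R 0 = rows0 d (canon (𝒮.R t)) := hT0
    have h2 : canon (𝒯.R 1) = canon (𝒮.R (t + 1)) := hcan 1
    have h3 : 𝒯.R 1 = step (𝒯.c 0) (𝒯.R 0) := 𝒯.hR 0
    rw [← h2, h3, h1]
    unfold cloOK at h
    rw [List.all_eq_true] at h
    have h4 := h _ ((rt_memL_iff _ _).1 ih)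
    rw [Bool.and_eq_true] at h4
    cases 𝒯.c 0 with
    | false => exact h4.1
    | true => exact h4.2

theorem dichT {A B : Par} {L : List (List ℕ)} (hL : CfdT A B L) (hc : cloOK A.d L = true) (h2 : Sec A)
    (h3 : SecT A B) {u : ℕ → ℕ} (𝒮 : Sys A.d u) (h0 : memL (canon (𝒮.R 0)) L = true) :
    (∀ t0, ∃ t, t0 ≤ t ∧ 𝒮.fb A t) ∨ (∃ t0, ∀ n, 𝒮.gold A (t0 + n * A.gp.length)) ∨
      ∃ t0, ∀ n, 𝒮.gold B (t0 + n * B.gp.length) := by
  by_cases hfb : ∀ t0, ∃ t, t0 ≤ t ∧ 𝒮.fb A t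
  · exact Or.inl hfb
  · right
    push Not at hfb
    obtain ⟨t0, ht0⟩ := hfb
    by_cases hgA : ∃ t, t0 ≤ t ∧ 𝒮.gold A t
    · left
      obtain ⟨s, hs, hg⟩ := hgA
      refine ⟨s, fun n => ?_⟩
      induction n with
      | zero => simpa using hg
      | succ n ih =>
        have h5 : (𝒮.shift (s + n * A.gp.length)).gold A 0 := (shift_gold 𝒮 A _ 0).2 (by simpa using ih)
        rcases h2 _ _ h5 with h4 | h4
        · exact absurd ((shift_fb 𝒮 A _ 0).1 h4) (ht0 _ (by omega))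
        · have h5 := (shift_gold 𝒮 A _ _).1 h4
          have h6 : s + (n + 1) * A.gp.length = s + n * A.gp.length + A.gp.length := by ring
          rw [h6]
          exact h5
    · right
      push Not at hgA
      obtain ⟨s, hs⟩ := reachT hL (𝒮.shift t0) (clo_mem hc 𝒮 h0 (t0 + 0))
      have hg : 𝒮.gold B (t0 + s) := by
        rcases hs with hs | hs | hs
        · exact absurd ((shift_fb 𝒮 A t0 s).1 hs) (ht0 _ (Nat.le_add_right _ _))
        · exact absurd ((shift_gold 𝒮 A t0 s).1 hs) (hgA _ (Nat.le_add_right _ _))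
        · exact (shift_gold 𝒮 B t0 s).1 hs
      refine ⟨t0 + s, fun n => ?_⟩
      induction n with
      | zero => simpa using hg
      | succ n ih =>
        have h5 : (𝒮.shift (t0 + s + n * B.gp.length)).gold B 0 := (shift_gold 𝒮 B _ 0).2 (by simpa using ih)
        rcases h3 _ _ h5 with h4 | h4 | ⟨j, h4⟩
        · exact absurd ((shift_fb 𝒮 A _ 0).1 h4) (ht0 _ (by omega))
        · have h5 := (shift_gold 𝒮 B _ _).1 h4
          have h6 : t0 + s + (n + 1) * B.gp.length = t0 + s + n * B.gp.length + B.gp.length := by ring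
          rw [h6]
          exact h5
        · exact absurd ((shift_gold 𝒮 A _ j).1 h4) (hgA _ (by omega))

/-- Powers at infinitely many levels. -/
theorem fb_case {A : Par} (hQ : 0 < A.Q) {κ : ℝ} (hκ1 : κ ≤ 1 + (A.P : ℝ) / A.Q) {u : ℕ → ℕ} (𝒮 : Sys A.d u)
    (h : ∀ t0, ∃ t, t0 ≤ t ∧ 𝒮.fb A t) :
    ∀ ε : ℝ, 0 < ε → ∀ m : ℕ, ∃ i p l : ℕ, 0 < p ∧ m ≤ p ∧ HasPower u i p l ∧ (κ - ε) * p ≤ l := by
  intro ε hε m
  have hQ' : (0 : ℝ) < A.Q := by exact_mod_cast hQ
  obtain ⟨M, hM⟩ := exists_nat_ge ((A.K : ℝ) / (ε * A.Q))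
  have hM' : (A.K : ℝ) ≤ M * (ε * A.Q) := by
    rwa [div_le_iff₀ (by positivity)] at hM
  obtain ⟨s0, hs0⟩ := 𝒮.hts (m + M)
  obtain ⟨t1, ht1, hfb⟩ := h s0
  obtain ⟨i, p, l, hmp, hp, hpow, hle⟩ := hfb (m + M) (hs0 t1 ht1)
  refine ⟨i, p, p + l, hp, by omega, hpow, ?_⟩
  have hle' : (A.P : ℝ) * p ≤ A.Q * l + A.K := by exact_mod_cast hle
  have hMp : (M : ℝ) ≤ p := by
    have : M ≤ p := by omega
    exact_mod_cast this
  have h3 : (A.K : ℝ) ≤ p * (ε * A.Q) := hM'.trans (mul_le_mul_of_nonneg_right hMp (by positivity))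
  have h4 : (A.P : ℝ) / A.Q * p ≤ l + p * ε := by
    rw [div_mul_eq_mul_div, div_le_iff₀ hQ']
    nlinarith [hle', h3]
  push_cast
  have hp0 : (0 : ℝ) ≤ p := Nat.cast_nonneg p
  nlinarith [mul_le_mul_of_nonneg_right hκ1 hp0, h4]

private theorem rt_gpp {A : Par} {D : Gd} {n : ℕ} (h : goldOK A D n = true) : 0 < D.gpp.length := by
  unfold goldOK at h
  simp only [Bool.and_eq_true] at h
  obtain ⟨⟨⟨⟨⟨⟨⟨⟨⟨hn, hg⟩, he⟩, -⟩, -⟩, -⟩, -⟩, -⟩, -⟩, -⟩ := h
  have hn' : 1 ≤ n := by simpa [Nat.blt, Nat.ble_eq] using hn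
  have hg' : 1 ≤ A.gp.length := by simpa [Nat.blt, Nat.ble_eq] using hg
  rw [(rt_eqB _ _).1 he]
  unfold repB
  obtain ⟨k, rfl⟩ := Nat.exists_eq_succ_of_ne_zero (by omega : n ≠ 0)
  rw [List.replicate_succ, List.flatten_cons, List.length_append]
  omega

/-- Golden for ever. -/
theorem gold_case {A : Par} {D : Gd} {n : ℕ} (hg : goldOK A D n = true) (hc3 : 3 ≤ D.c) (hA : 0 < D.A) {lam κ : ℝ}
    (hl : lam ^ 2 - D.c * lam + 1 = 0) (hl1 : 1 < lam) (hκ2 : κ ≤ 1 + (lam + D.B) / D.A) {u : ℕ → ℕ}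
    (𝒮 : Sys A.d u) {t0 : ℕ} (h : ∀ n, 𝒮.gold A (t0 + n * A.gp.length)) :
    ∀ ε : ℝ, 0 < ε → ∀ m : ℕ, ∃ i p l : ℕ, 0 < p ∧ m ≤ p ∧ HasPower u i p l ∧ (κ - ε) * p ≤ l := by
  intro ε hε m
  obtain ⟨𝒯, hT0, hTc, -, hThigh⟩ := exists_canon (𝒮.shift t0)
  have hR : 𝒯.R 0 = rows0 A.d A.g0 := by
    rw [hT0]
    have := (h 0).1
    rw [zero_mul, Nat.add_zero] at this
    show rows0 A.d (canon (𝒮.R (t0 + 0))) = _
    rw [Nat.add_zero, this]
  have hF : ∀ k, Fol 𝒯.c (k * A.gp.length) A.gp := by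
    intro k j hj
    rw [hTc]
    have := (h k).2 j hj
    show 𝒮.c (t0 + (k * A.gp.length + j)) = _
    rw [← Nat.add_assoc]
    exact this
  obtain ⟨V, N, hV, hpos, hpw, h3, h4⟩ := gold_seq hg 𝒯 hR hF
  have hgl := rt_gpp hg
  have hVinf : ∀ m, ∃ k0, ∀ k, k0 ≤ k → m ≤ V k := by
    intro m
    obtain ⟨s0, hs0⟩ := 𝒯.hts m
    refine ⟨s0, fun k hk => hV k m ?_⟩
    exact hs0 (k * D.gpp.length) (hk.trans (Nat.le_mul_of_pos_right k hgl))
  obtain ⟨k0, hk0⟩ := real_lim hc3 hA hl hl1 hpos hVinf h3 h4 ε hε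
  obtain ⟨k1, hk1⟩ := hVinf m
  obtain ⟨j, hj⟩ := hpw (max k0 k1)
  refine ⟨j, V (max k0 k1), V (max k0 k1) + N (max k0 k1), hpos _, hk1 _ (le_max_right _ _), hj, ?_⟩
  have h5 := hk0 _ (le_max_left k0 k1)
  push_cast
  have hp0 : (0 : ℝ) ≤ (V (max k0 k1) : ℝ) := Nat.cast_nonneg _
  nlinarith [mul_le_mul_of_nonneg_right hκ2 hp0, h5]

end Pool.Agent.RTX
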