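import Pool.Agent.RTX.FGood
import Pool.Agent.RTS.Two
import Pool.Agent.RTS.Par5

/-!
# RTS: the lists of vertices, their codes, the two golden loops
-/

set_option autoImplicit false
set_option maxRecDepth 100000

namespace Pool.Agent.RTX

theorem par5A_ok : ParOK par5A where
  d2 := by decide
  d8 := by decide
  P0 := by decide
  P1 := by decide
  Q0 := by decide
  Q1 := by decide
  K0 := by decide

/-- The path ends with one of the two golden loops. -/
def gT5 (π : List ℕ) (gr : List Bool) : Bool :=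
  gold1 par5A (rows0 par5A.d π) gr || gold1 par5B (rows0 par5A.d π) gr

theorem g5c {π : List ℕ} {stop : List (List ℕ)} {codes : List ℕ} (hs : StopC par5A.d stop codes)
    {gchk : List Bool → Bool} {gr : List Bool} {c : ℕ} (h : fastOK par5A codes gchk π gr c = true) :
    Good par5A stop (rows0 par5A.d π) gchk gr := fast_good par5A_ok hs h

/-- no vertex -/
def S5_0 : List (List ℕ) := []

/-- no code -/
def K5_0 : List ℕ := []

theorem sc5_0 : StopC par5A.d S5_0 K5_0 := StopC.nil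

/-- first 1 vertices -/
def S5_1 : List (List ℕ) := [2, 0, 4, 1, 3] :: S5_0

/-- their codes -/
def K5_1 : List ℕ := 8459 :: K5_0

theorem sc5_1 : StopC par5A.d S5_1 K5_1 := sc5_0.cons [2, 0, 4, 1, 3] 8459 (by decide)

/-- first 2 vertices -/
def S5_2 : List (List ℕ) := [1, 3, 0, 4, 2] :: S5_1

/-- their codes -/
def K5_2 : List ℕ := 5666 :: K5_1

theorem sc5_2 : StopC par5A.d S5_2 K5_2 := sc5_1.cons [1, 3, 0, 4, 2] 5666 (by decide)

/-- first 3 vertices -/
def S5_3 : List (List ℕ) := [2, 0, 4, 3, 1] :: S5_2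

/-- their codes -/
def K5_3 : List ℕ := 8473 :: K5_2

theorem sc5_3 : StopC par5A.d S5_3 K5_3 := sc5_2.cons [2, 0, 4, 3, 1] 8473 (by decide)

/-- first 4 vertices -/
def S5_4 : List (List ℕ) := [3, 0, 2, 4, 1] :: S5_3

/-- their codes -/
def K5_4 : List ℕ := 12449 :: K5_3

theorem sc5_4 : StopC par5A.d S5_4 K5_4 := sc5_3.cons [3, 0, 2, 4, 1] 12449 (by decide)

/-- first 5 vertices -/
def S5_5 : List (List ℕ) := [1, 4, 0, 3, 2] :: S5_4

/-- their codes -/
def K5_5 : List ℕ := 6170 :: K5_4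

theorem sc5_5 : StopC par5A.d S5_5 K5_5 := sc5_4.cons [1, 4, 0, 3, 2] 6170 (by decide)

/-- first 6 vertices -/
def S5_6 : List (List ℕ) := [1, 4, 2, 0, 3] :: S5_5

/-- their codes -/
def K5_6 : List ℕ := 6275 :: K5_5

theorem sc5_6 : StopC par5A.d S5_6 K5_6 := sc5_5.cons [1, 4, 2, 0, 3] 6275 (by decide)

/-- first 7 vertices -/
def S5_7 : List (List ℕ) := [2, 1, 4, 0, 3] :: S5_6

/-- their codes -/
def K5_7 : List ℕ := 8963 :: K5_6

theorem sc5_7 : StopC par5A.d S5_7 K5_7 := sc5_6.cons [2, 1, 4, 0, 3] 8963 (by decide)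

/-- first 8 vertices -/
def S5_8 : List (List ℕ) := [3, 1, 0, 4, 2] :: S5_7

/-- their codes -/
def K5_8 : List ℕ := 12834 :: K5_7

theorem sc5_8 : StopC par5A.d S5_8 K5_8 := sc5_7.cons [3, 1, 0, 4, 2] 12834 (by decide)

/-- first 9 vertices -/
def S5_9 : List (List ℕ) := [4, 3, 2, 1, 0] :: S5_8

/-- their codes -/
def K5_9 : List ℕ := 18056 :: K5_8

theorem sc5_9 : StopC par5A.d S5_9 K5_9 := sc5_8.cons [4, 3, 2, 1, 0] 18056 (by decide)

/-- first 10 vertices -/
def S5_10 : List (List ℕ) := [4, 0, 3, 2, 1] :: S5_9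

/-- their codes -/
def K5_10 : List ℕ := 16593 :: K5_9

theorem sc5_10 : StopC par5A.d S5_10 K5_10 := sc5_9.cons [4, 0, 3, 2, 1] 16593 (by decide)

/-- first 11 vertices -/
def S5_11 : List (List ℕ) := [1, 4, 3, 2, 0] :: S5_10

/-- their codes -/
def K5_11 : List ℕ := 6352 :: K5_10

theorem sc5_11 : StopC par5A.d S5_11 K5_11 := sc5_10.cons [1, 4, 3, 2, 0] 6352 (by decide)

/-- first 12 vertices -/
def S5_12 : List (List ℕ) := [4, 1, 0, 3, 2] :: S5_11

/-- their codes -/
def K5_12 : List ℕ := 16922 :: K5_11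

theorem sc5_12 : StopC par5A.d S5_12 K5_12 := sc5_11.cons [4, 1, 0, 3, 2] 16922 (by decide)

/-- first 13 vertices -/
def S5_13 : List (List ℕ) := [2, 1, 4, 3, 0] :: S5_12

/-- their codes -/
def K5_13 : List ℕ := 8984 :: K5_12

theorem sc5_13 : StopC par5A.d S5_13 K5_13 := sc5_12.cons [2, 1, 4, 3, 0] 8984 (by decide)

/-- first 14 vertices -/
def S5_14 : List (List ℕ) := [4, 2, 1, 0, 3] :: S5_13

/-- their codes -/
def K5_14 : List ℕ := 17475 :: K5_13

theorem sc5_14 : StopC par5A.d S5_14 K5_14 := sc5_13.cons [4, 2, 1, 0, 3] 17475 (by decide)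

/-- first 15 vertices -/
def S5_15 : List (List ℕ) := [3, 2, 1, 4, 0] :: S5_14

/-- their codes -/
def K5_15 : List ℕ := 13408 :: K5_14

theorem sc5_15 : StopC par5A.d S5_15 K5_15 := sc5_14.cons [3, 2, 1, 4, 0] 13408 (by decide)

end Pool.Agent.RTX
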